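import Pool.Agent.JS.SpDefs

/-!
# Theta curves and finite plane graphs in a topological two-sphere: definitions
-/

open Set Metric Topology

namespace Pool.JS

variable {X : Type*} [TopologicalSpace X]

/-- `W` is a component of the complement of `G` -/
structure FaceX (G W : Set X) : Prop where
  ne : W.Nonempty
  conn : IsPreconnected W
  sub : W ⊆ Gᶜ
  max : ∀ C : Set X, IsPreconnected C → C ⊆ Gᶜ → (C ∩ W).Nonempty → C ⊆ W

/-- a finite graph in `X`: a finite set `V` of vertices and a finite set `E` of edges, arcs whose end points are vertices;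
an edge contains no other vertex, two different edges have only vertices in common -/
structure GrX (V : Set X) (E : Set (Set X)) : Prop where
  finV : V.Finite
  finE : E.Finite
  arc : ∀ e ∈ E, ∃ p ∈ V, ∃ q ∈ V, ArcX e p q ∧ e ∩ V = {p, q}
  inter : ∀ e ∈ E, ∀ e' ∈ E, e ≠ e' → e ∩ e' ⊆ V

/-- the set of points of a graph -/
def carX (V : Set X) (E : Set (Set X)) : Set X := V ∪ ⋃₀ E

/-- the graph has an edge and no point disconnects it -/
def TwoConnX (V : Set X) (E : Set (Set X)) : Prop :=
  E.Nonempty ∧ ∀ x : X, IsPreconnected (carX V E \ {x})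

/-- the combinatorial graph given by a set `V` of vertices and a set `F` of edges -/
def sgX (V : Set X) (F : Set (Set X)) : SimpleGraph X where
  Adj u v := u ≠ v ∧ u ∈ V ∧ v ∈ V ∧ ∃ e ∈ F, ArcX e u v ∨ ArcX e v u
  symm := ⟨fun _ _ h => ⟨h.1.symm, h.2.2.1, h.2.1, h.2.2.2.elim fun e he => ⟨e, he.1, he.2.symm⟩⟩⟩
  loopless := ⟨fun _ h => h.1 rfl⟩

/-- `F` is a nonempty set of edges and every face of `F` is a side of a cycle of edges of `F` -/
def GoodX (E F : Set (Set X)) : Prop :=
  F ⊆ E ∧ F.Nonempty ∧ ∀ W, FaceX (⋃₀ F) W → ∃ D ⊆ F, JorX (⋃₀ D) ∧ ∃ W', SepX (⋃₀ D) W W'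

end Pool.JS
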