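import Pool.Agent.JS.PgB

/-!
MODULE PgC (difficulty 4).  A simple closed curve in a finite graph is a union of edges.

RECIPE.  `no_jordan`: suppose `J ⊆ A`, `γ` the parametrisation of `A`.  `J` contains three different points `γ s₁, γ s₂, γ s₃`, `s₁ < s₂ < s₃` (`JorX.exists_ne` and `NoCut`, or `ArcX.exists_mid` for an arc of `J`); `J \ {γ s₂}` is covered by the closed sets `γ '' Icc 0 s₂`, `γ '' Icc s₂ 1`, whose intersection is `{γ s₂}`: contradiction with `JorX.noCut`.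
KEY `edge_sub_jordan`: let `x ∈ J ∩ e`, `x ∉ V`, and suppose `e` is not contained in `J`.  As `e \ V` is dense in `e` and `J` is closed there is `y ∈ e \ V`, `y ∉ J`.  Let `γ` parametrise `e`, `x = γ s`, `y = γ t`, `s, t ∈ (0,1)`; by `ArcX.symm` we may assume `s < t`.  Points `γ r`, `r ∈ (0,1)`, are in no other edge and not in `V`.
 Case 1: there is `r ∈ (0, s)` with `γ r ∉ J`.  The closed sets `J ∩ γ '' Icc r t` and `J ∩ (γ '' Icc 0 r ∪ γ '' Icc t 1 ∪ ⋃₀ (E \ {e}))` cover `J` and are disjoint (`γ r, γ t ∉ J`), the first contains `x`, so `J ⊆ γ '' Icc r t ⊆ e`: `no_jordan`.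
 Case 2: `γ '' Ioo 0 s ⊆ J`.  Let `z = γ (s / 2)`.  The sets `γ '' Icc (s / 2) t` and `γ '' Icc 0 (s / 2) ∪ γ '' Icc t 1 ∪ ⋃₀ (E \ {e})` are closed, cover `J \ {z}`, have in `J \ {z}` no common point (`γ t ∉ J`), and both meet `J \ {z}` (in `x`, resp. `γ (s / 4)`): contradiction with `JorX.noCut`.
`jordan_edges`: `E' = {e ∈ E | e ⊆ J}`; `J \ V ⊆ ⋃₀ E'` by the key lemma, and `J ⊆ closure (J \ V)` because `V` is finite and no point of the infinite connected set `J` is isolated (e.g. `JorX.split` and `ArcX.interior`: every point of `J` is an end point of an arc `A ⊆ J` and so in the closure of `A \ {p, q}`;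
removing further finitely many points: cut the arc at its first point in `V` to get an arc from the given point without further points of `V`; or use `IsPreconnected.nontrivial`/perfect set lemmas such as `IsPreconnected.preperfect_of_nontrivial`).
-/

open Set Metric Topology

namespace Pool.JS

variable {X : Type*} [TopologicalSpace X] [T2Space X] {V : Set X} {E : Set (Set X)} {A J e : Set X} {p q x : X}

theorem pgc_three {γ : ℝ → X} (hJ : JorX J) (hs : J ⊆ γ '' Icc 0 1) :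
    ∃ s₁ ∈ Icc (0 : ℝ) 1, ∃ s₂ ∈ Icc (0 : ℝ) 1, ∃ s₃ ∈ Icc (0 : ℝ) 1, s₁ < s₂ ∧ s₂ < s₃ ∧ γ s₁ ∈ J ∧ γ s₂ ∈ J ∧ γ s₃ ∈ J := by
  obtain ⟨a, ha⟩ := hJ.isConnected.nonempty
  obtain ⟨b, hb, hba⟩ := hJ.exists_ne a
  obtain ⟨A, B, hA, hB, hAB, -⟩ := hJ.split ha hb (Ne.symm hba)
  obtain ⟨m, hm, hma, hmb⟩ := hA.exists_mid
  have hmJ : m ∈ J := by rw [← hAB]; exact Or.inl hm
  obtain ⟨u, hu, rfl⟩ := hs ha
  obtain ⟨v, hv, rfl⟩ := hs hb
  obtain ⟨w, hw, rfl⟩ := hs hmJ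
  have huv : v ≠ u := fun h => hba (by rw [h])
  have hwu : w ≠ u := fun h => hma (by rw [h])
  have hwv : w ≠ v := fun h => hmb (by rw [h])
  rcases lt_or_gt_of_ne huv with h1 | h1
  · rcases lt_or_gt_of_ne hwv with h2 | h2
    · exact ⟨w, hw, v, hv, u, hu, h2, h1, hmJ, hb, ha⟩
    · rcases lt_or_gt_of_ne hwu with h3 | h3
      · exact ⟨v, hv, w, hw, u, hu, h2, h3, hb, hmJ, ha⟩
      · exact ⟨v, hv, u, hu, w, hw, h1, h3, hb, ha, hmJ⟩
  · rcases lt_or_gt_of_ne hwu with h2 | h2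
    · exact ⟨w, hw, u, hu, v, hv, h2, h1, hmJ, ha, hb⟩
    · rcases lt_or_gt_of_ne hwv with h3 | h3
      · exact ⟨u, hu, w, hw, v, hv, h2, h3, ha, hmJ, hb⟩
      · exact ⟨u, hu, v, hv, w, hw, h1, h3, ha, hb, hmJ⟩

theorem pgc_closed {γ : ℝ → X} (hγ : ContinuousOn γ (Icc 0 1)) {u v : ℝ} (hu : 0 ≤ u) (hv : v ≤ 1) :
    IsClosed (γ '' Icc u v) :=
  (isCompact_Icc.image_of_continuousOn (hγ.mono (Icc_subset_Icc hu hv))).isClosed

theorem ArcX.no_jordan (h : ArcX A p q) (hJ : JorX J) (hs : J ⊆ A) : False := by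
  obtain ⟨γ, hγ, hi, rfl, -, -⟩ := h
  obtain ⟨s₁, h1, s₂, h2, s₃, h3, h12, h23, hJ1, hJ2, hJ3⟩ := pgc_three hJ hs
  have hpre := hJ.noCut (γ s₂)
  rw [isPreconnected_closed_iff] at hpre
  have hcov : J \ {γ s₂} ⊆ γ '' Icc 0 s₂ ∪ γ '' Icc s₂ 1 := by
    rintro y ⟨hy, -⟩
    obtain ⟨u, hu, rfl⟩ := hs hy
    rcases le_total u s₂ with h4 | h4
    · exact Or.inl ⟨u, ⟨hu.1, h4⟩, rfl⟩
    · exact Or.inr ⟨u, ⟨h4, hu.2⟩, rfl⟩
  have hne1 : γ s₁ ≠ γ s₂ := fun he => h12.ne (hi h1 h2 he)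
  have hne3 : γ s₃ ≠ γ s₂ := fun he => h23.ne' (hi h3 h2 he)
  obtain ⟨y, ⟨-, hy2⟩, ⟨u, hu, hu'⟩, v, hv, hv'⟩ := hpre _ _ (pgc_closed hγ le_rfl h2.2) (pgc_closed hγ h2.1 le_rfl) hcov
    ⟨γ s₁, ⟨hJ1, hne1⟩, s₁, ⟨h1.1, h12.le⟩, rfl⟩ ⟨γ s₃, ⟨hJ3, hne3⟩, s₃, ⟨h23.le, h3.2⟩, rfl⟩
  have huv : u = v := hi ⟨hu.1, hu.2.trans h2.2⟩ ⟨h2.1.trans hv.1, hv.2⟩ (hu'.trans hv'.symm)
  have hus : u = s₂ := le_antisymm hu.2 (huv ▸ hv.1)
  exact hy2 (by rw [← hu', hus]; rfl)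

/-- the main step: `x = γ s` in `J`, `γ t` not in `J`, `s < t` -/
theorem pgc_core (h : PG V E) (hJ : JorX J) (hs : J ⊆ ⋃₀ E) (he : e ∈ E) {γ : ℝ → X} (hγ : ContinuousOn γ (Icc 0 1))
    (hi : InjOn γ (Icc 0 1)) (hγe : γ '' Icc 0 1 = e) (hV : ∀ u ∈ Ioo (0 : ℝ) 1, γ u ∉ V) {s t : ℝ} (hs0 : 0 < s) (hst : s < t)
    (ht1 : t < 1) (hsJ : γ s ∈ J) (htJ : γ t ∉ J) : False := by
  obtain ⟨R, hR⟩ : ∃ R, R = ⋃₀ (E \ {e}) := ⟨_, rfl⟩
  have hRc : IsClosed R := by rw [hR]; exact h.isClosed_sUnion sdiff_subset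
  have hRn : ∀ u ∈ Ioo (0 : ℝ) 1, γ u ∉ R := by
    intro u hu hu'
    rw [hR] at hu'
    obtain ⟨e', ⟨he', hne⟩, hue'⟩ := hu'
    have hue : γ u ∈ e := by rw [← hγe]; exact ⟨u, ⟨hu.1.le, hu.2.le⟩, rfl⟩
    exact hV u hu (h.inter e he e' he' (Ne.symm hne) ⟨hue, hue'⟩)
  have hJe : ∀ y ∈ J, y ∈ R ∨ ∃ u ∈ Icc (0 : ℝ) 1, γ u = y := by
    intro y hy
    obtain ⟨e', he', hye'⟩ := hs hy
    by_cases hee : e' = e
    · right
      rw [hee, ← hγe] at hye'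
      exact hye'
    · left
      rw [hR]
      exact ⟨e', ⟨he', hee⟩, hye'⟩
  by_cases hc : ∃ r, 0 < r ∧ r < s ∧ γ r ∉ J
  · obtain ⟨r, hr0, hrs, hrJ⟩ := hc
    have hpre := hJ.isConnected.isPreconnected
    rw [isPreconnected_closed_iff] at hpre
    have hcov : J ⊆ γ '' Icc r t ∪ (γ '' Icc 0 r ∪ γ '' Icc t 1 ∪ R) := by
      intro y hy
      rcases hJe y hy with h1 | ⟨u, hu, rfl⟩
      · exact Or.inr (Or.inr h1)
      · rcases le_total u r with h2 | h2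
        · exact Or.inr (Or.inl (Or.inl ⟨u, ⟨hu.1, h2⟩, rfl⟩))
        · rcases le_total u t with h3 | h3
          · exact Or.inl ⟨u, ⟨h2, h3⟩, rfl⟩
          · exact Or.inr (Or.inl (Or.inr ⟨u, ⟨h3, hu.2⟩, rfl⟩))
    have hno : ¬ (J ∩ (γ '' Icc 0 r ∪ γ '' Icc t 1 ∪ R)).Nonempty := by
      intro hne
      obtain ⟨z, hzJ, ⟨u, hu, hu'⟩, hz⟩ := hpre _ _ (pgc_closed hγ hr0.le ht1.le)
        (((pgc_closed hγ le_rfl (by linarith)).union (pgc_closed hγ (by linarith) le_rfl)).union hRc) hcov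
        ⟨γ s, hsJ, s, ⟨hrs.le, hst.le⟩, rfl⟩ hne
      rcases hz with (⟨v, hv, hv'⟩ | ⟨v, hv, hv'⟩) | hz
      · have huv : u = v := hi ⟨by linarith [hu.1], by linarith [hu.2]⟩ ⟨hv.1, by linarith [hv.2]⟩ (hu'.trans hv'.symm)
        have hur : u = r := le_antisymm (huv ▸ hv.2) hu.1
        apply hrJ
        rw [← hur, hu']
        exact hzJ
      · have huv : u = v := hi ⟨by linarith [hu.1], by linarith [hu.2]⟩ ⟨by linarith [hv.1], hv.2⟩ (hu'.trans hv'.symm)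
        have hur : u = t := le_antisymm hu.2 (huv ▸ hv.1)
        apply htJ
        rw [← hur, hu']
        exact hzJ
      · rw [← hu'] at hz
        exact hRn u ⟨by linarith [hu.1], by linarith [hu.2]⟩ hz
    have hsub : J ⊆ e := by
      intro y hy
      rcases hcov hy with ⟨u, hu, rfl⟩ | h1
      · rw [← hγe]
        exact ⟨u, ⟨by linarith [hu.1], by linarith [hu.2]⟩, rfl⟩
      · exact absurd ⟨y, hy, h1⟩ hno
    exact ArcX.no_jordan (A := e) (p := γ 0) (q := γ 1) ⟨γ, hγ, hi, hγe, rfl, rfl⟩ hJ hsub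
  · have hc' : ∀ r, 0 < r → r < s → γ r ∈ J := by
      intro r h1 h2
      by_contra h3
      exact hc ⟨r, h1, h2, h3⟩
    have hpre := hJ.noCut (γ (s / 2))
    rw [isPreconnected_closed_iff] at hpre
    have hcov : J \ {γ (s / 2)} ⊆ γ '' Icc (s / 2) t ∪ (γ '' Icc 0 (s / 2) ∪ γ '' Icc t 1 ∪ R) := by
      rintro y ⟨hy, -⟩
      rcases hJe y hy with h1 | ⟨u, hu, rfl⟩
      · exact Or.inr (Or.inr h1)
      · rcases le_total u (s / 2) with h2 | h2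
        · exact Or.inr (Or.inl (Or.inl ⟨u, ⟨hu.1, h2⟩, rfl⟩))
        · rcases le_total u t with h3 | h3
          · exact Or.inl ⟨u, ⟨h2, h3⟩, rfl⟩
          · exact Or.inr (Or.inl (Or.inr ⟨u, ⟨h3, hu.2⟩, rfl⟩))
    have hn1 : γ s ≠ γ (s / 2) := by
      intro h1
      have := hi ⟨hs0.le, by linarith⟩ ⟨by linarith, by linarith⟩ h1
      linarith
    have hn2 : γ (s / 4) ≠ γ (s / 2) := by
      intro h1
      have := hi ⟨by linarith, by linarith⟩ ⟨by linarith, by linarith⟩ h1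
      linarith
    obtain ⟨z, ⟨hzJ, hzn⟩, ⟨u, hu, hu'⟩, hz⟩ := hpre _ _ (pgc_closed hγ (by linarith) ht1.le)
      (((pgc_closed hγ le_rfl (by linarith)).union (pgc_closed hγ (by linarith) le_rfl)).union hRc) hcov
      ⟨γ s, ⟨hsJ, hn1⟩, s, ⟨by linarith, hst.le⟩, rfl⟩
      ⟨γ (s / 4), ⟨hc' _ (by linarith) (by linarith), hn2⟩, Or.inl (Or.inl ⟨s / 4, ⟨by linarith, by linarith⟩, rfl⟩)⟩
    rcases hz with (⟨v, hv, hv'⟩ | ⟨v, hv, hv'⟩) | hz
    · have huv : u = v := hi ⟨by linarith [hu.1], by linarith [hu.2]⟩ ⟨hv.1, by linarith [hv.2]⟩ (hu'.trans hv'.symm)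
      have hur : u = s / 2 := le_antisymm (huv ▸ hv.2) hu.1
      apply hzn
      rw [← hu', hur]
      rfl
    · have huv : u = v := hi ⟨by linarith [hu.1], by linarith [hu.2]⟩ ⟨by linarith [hv.1], hv.2⟩ (hu'.trans hv'.symm)
      have hur : u = t := le_antisymm hu.2 (huv ▸ hv.1)
      apply htJ
      rw [← hur, hu']
      exact hzJ
    · rw [← hu'] at hz
      exact hRn u ⟨by linarith [hu.1], by linarith [hu.2]⟩ hz

theorem PG.edge_sub_jordan (h : PG V E) (hJ : JorX J) (hs : J ⊆ ⋃₀ E) (he : e ∈ E) (hx : x ∈ J) (hxe : x ∈ e)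
    (hxV : x ∉ V) : e ⊆ J := by
  by_contra hcon
  obtain ⟨-, -, hd⟩ := h.gr.edge_inner he
  obtain ⟨y, ⟨hye, hyV⟩, hyJ⟩ : ∃ y ∈ e \ V, y ∉ J := by
    by_contra hn
    apply hcon
    have h1 : e \ V ⊆ J := by
      intro y hy
      by_contra h2
      exact hn ⟨y, hy, h2⟩
    exact hd.trans (closure_minimal h1 hJ.isCompact.isClosed)
  obtain ⟨a, ha, b, hb, ⟨γ, hγ, hi, hγe, h0, h1⟩, heV⟩ := h.arc e he
  have hV : ∀ u ∈ Ioo (0 : ℝ) 1, γ u ∉ V := by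
    intro u hu hu'
    have h2 : γ u ∈ e ∩ V := ⟨by rw [← hγe]; exact ⟨u, ⟨hu.1.le, hu.2.le⟩, rfl⟩, hu'⟩
    rw [heV] at h2
    rcases h2 with h2 | h2
    · rw [← h0] at h2
      have := hi ⟨hu.1.le, hu.2.le⟩ ⟨le_rfl, zero_le_one⟩ h2
      linarith [hu.1]
    · have h3 : γ u = γ 1 := by rw [h1]; exact h2
      have := hi ⟨hu.1.le, hu.2.le⟩ ⟨zero_le_one, le_rfl⟩ h3
      linarith [hu.2]
  rw [← hγe] at hxe hye
  obtain ⟨s, hsI, rfl⟩ := hxe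
  obtain ⟨t, htI, rfl⟩ := hye
  have hs0 : s ≠ 0 := by
    rintro rfl
    exact hxV (by rw [h0]; exact ha)
  have hs1 : s ≠ 1 := by
    rintro rfl
    exact hxV (by rw [h1]; exact hb)
  have ht0 : t ≠ 0 := by
    rintro rfl
    exact hyV (by rw [h0]; exact ha)
  have ht1 : t ≠ 1 := by
    rintro rfl
    exact hyV (by rw [h1]; exact hb)
  have hs0' : 0 < s := lt_of_le_of_ne hsI.1 (Ne.symm hs0)
  have hs1' : s < 1 := lt_of_le_of_ne hsI.2 hs1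
  have ht0' : 0 < t := lt_of_le_of_ne htI.1 (Ne.symm ht0)
  have ht1' : t < 1 := lt_of_le_of_ne htI.2 ht1
  have hst : s ≠ t := by
    rintro rfl
    exact hyJ hx
  rcases lt_or_gt_of_ne hst with h2 | h2
  · exact pgc_core h hJ hs he hγ hi hγe hV hs0' h2 ht1' hx hyJ
  · have hmap : MapsTo (fun u : ℝ => 1 - u) (Icc 0 1) (Icc 0 1) := by
      intro u hu
      exact ⟨by linarith [hu.2], by linarith [hu.1]⟩
    refine pgc_core h hJ hs he (γ := fun u => γ (1 - u)) (hγ.comp (by fun_prop) hmap) ?_ ?_ ?_ (s := 1 - s) (t := 1 - t)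
      (by linarith) (by linarith) (by linarith) ?_ ?_
    · intro u hu v hv huv
      have := hi (hmap hu) (hmap hv) huv
      linarith
    · rw [← hγe]
      ext y
      constructor
      · rintro ⟨u, hu, rfl⟩
        exact ⟨1 - u, hmap hu, rfl⟩
      · rintro ⟨u, hu, rfl⟩
        exact ⟨1 - u, hmap hu, by show γ (1 - (1 - u)) = γ u; rw [sub_sub_cancel]⟩
    · intro u hu
      exact hV (1 - u) ⟨by linarith [hu.2], by linarith [hu.1]⟩
    · show γ (1 - (1 - s)) ∈ J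
      rw [sub_sub_cancel]
      exact hx
    · show γ (1 - (1 - t)) ∉ J
      rw [sub_sub_cancel]
      exact hyJ

theorem pgc_dense (hJ : JorX J) (hV : V.Finite) : J ⊆ closure (J \ V) := by
  intro x hx
  obtain ⟨y, hy, hyx⟩ := hJ.exists_ne x
  have h1 := hJ.isConnected.isPreconnected.preperfect_of_nontrivial ⟨x, hx, y, hy, Ne.symm hyx⟩ x hx
  rw [mem_closure_iff_nhds]
  intro t ht
  rw [accPt_iff_nhds] at h1
  have h2 : (V \ {x})ᶜ ∈ 𝓝 x := by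
    refine (hV.subset sdiff_subset).isClosed.isOpen_compl.mem_nhds ?_
    intro h3
    exact h3.2 rfl
  obtain ⟨z, ⟨⟨hzt, hzV⟩, hzJ⟩, hzx⟩ := h1 _ (Filter.inter_mem ht h2)
  exact ⟨z, hzt, hzJ, fun h3 => hzV ⟨h3, hzx⟩⟩

theorem PG.jordan_edges (h : PG V E) (hJ : JorX J) (hs : J ⊆ ⋃₀ E) : ∃ E' ⊆ E, J = ⋃₀ E' := by
  refine ⟨{e ∈ E | e ⊆ J}, fun e he => he.1, ?_⟩
  apply Subset.antisymm
  · have h1 : J \ V ⊆ ⋃₀ {e ∈ E | e ⊆ J} := by
      rintro x ⟨hx, hxV⟩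
      obtain ⟨e, he, hxe⟩ := hs hx
      exact ⟨e, ⟨he, h.edge_sub_jordan hJ hs he hx hxe hxV⟩, hxe⟩
    exact (pgc_dense hJ h.finV).trans (closure_minimal h1 (h.isClosed_sUnion fun e he => he.1))
  · rintro x ⟨e, he, hxe⟩
    exact he.2 hxe

end Pool.JS
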