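import Pool.Agent.JS.ThF

/-!
MODULE ThG (difficulty 3).  Cycles and ears in a graph without cut points.

RECIPE.  `exists_cycle`: `ArcX e p q`, `e ∩ V = {p, q}`, `x` a point of `e` which is not an end point (`ArcX.exists_mid`), so `x ∉ V`.  `GrX.reachable` for `u = p`, `v = q` and this `x`; `{e' ∈ E | x ∉ e'}` does not contain `e`.  Take a path (`Walk.toPath`/`bypass`), `walk_arc` gives `D` with
`ArcX (⋃₀ D) p q`, `e ∉ D`; `e ∩ ⋃₀ D = {p, q}` (points of `e ∩ e'`, `e' ≠ e`, are in `V ∩ e`); `JorX.glue`, `insert e D`.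
`exists_ear`: Step 1: there is `e ∈ E \ F` with an end point `u ∈ ⋃₀ F`: otherwise the closed sets `⋃₀ F` and `(V \ ⋃₀ F) ∪ ⋃₀ (E \ F)` are disjoint (an edge of `F` and an edge of `E \ F` meet in a vertex, an end point of both), cover `carX V E`, both nonempty: but `carX V E` is preconnected
(if `carX V E \ {x}` is preconnected for all `x`: take `x ∉ carX V E`, or two different points: union of the preconnected sets `carX V E \ {x}`, `carX V E \ {y}` with a common third point).  Let `w` be the other end point of `e`.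
Step 2: if `w ∈ ⋃₀ F` take `D = {e}` (`e ∩ ⋃₀ F ⊆ e ∩ V = {u, w}`).  Otherwise: `F` has an edge, with two end points, so there is a vertex `h ∈ ⋃₀ F`, `h ≠ u`.  `GrX.reachable` with `x = u`: a path from `w` to `h` in `{e' ∈ E | u ∉ e'}`; cut it at its first vertex in `⋃₀ F` (`Walk.takeUntil`, or take a walk of minimal
length among all walks from `w` to a vertex of `⋃₀ F \ {u}` and note that it is a path and meets `⋃₀ F` in its last vertex only): path `P` from `w` to `h'` whose only vertex in `⋃₀ F` is `h'`.  `walk_arc`: `D'`; no edge of `D'` is in `F` (an edge `e'` of `D'` which is in `F` has both ends in `⋃₀ F`, but its two ends are in the support)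
and `e ∉ D'` (`u ∈ e`).  `D = insert e D'`: `e ∩ ⋃₀ D' = {w}`, `ArcX.trans`: an arc from `u` to `h'`.  `⋃₀ D ∩ ⋃₀ F = {u, h'}`: common points are vertices (edges of `D` are not in `F`).
-/

open Set Metric Topology

namespace Pool.JS

variable {X : Type*} [TopologicalSpace X] [T2Space X] {V : Set X} {E F : Set (Set X)}

theorem GrX.exists_cycle (hG : GrX V E) (h2 : TwoConnX V E) {e : Set X} (he : e ∈ E) :
    ∃ D ⊆ E, e ∈ D ∧ JorX (⋃₀ D) := by
  classical
  obtain ⟨p, hp, q, hq, hA, heV⟩ := hG.arc e he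
  obtain ⟨x, hx, hxp, hxq⟩ := hA.exists_mid
  obtain ⟨w⟩ := hG.reachable h2 (x := x) hp hq hxp.symm hxq.symm
  obtain ⟨D, hD, -, hDA, -⟩ := hG.walk_arc (fun _ h => h.1) w.bypass w.bypass_isPath hA.ne
  refine ⟨insert e D, ?_, mem_insert _ _, ?_⟩
  · rintro e' (rfl | he')
    · exact he
    · exact (hD he').1
  rw [sUnion_insert]
  refine JorX.glue hA hDA ?_
  apply Subset.antisymm
  · rintro y ⟨hy, e', he', hy'⟩
    have hne : e ≠ e' := by
      rintro rfl
      exact (hD he').2 hx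
    rw [← heV]
    exact ⟨hy, hG.inter e he e' (hD he').1 hne ⟨hy, hy'⟩⟩
  · rintro y (rfl | rfl)
    · exact ⟨hA.left_mem, hDA.left_mem⟩
    · exact ⟨hA.right_mem, hDA.right_mem⟩

theorem GrX.isPreconnected (hG : GrX V E) (h2 : TwoConnX V E) : IsPreconnected (carX V E) := by
  obtain ⟨⟨e, he⟩, h⟩ := h2
  obtain ⟨p, hp, q, hq, hA, heV⟩ := hG.arc e he
  obtain ⟨m, hm, hmp, hmq⟩ := hA.exists_mid
  have hmc : m ∈ carX V E := Or.inr ⟨e, he, hm⟩
  have h1 : carX V E = (carX V E \ {p}) ∪ (carX V E \ {q}) := by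
    apply Subset.antisymm
    · intro y hy
      by_cases hyp : y = p
      · right
        refine ⟨hy, ?_⟩
        rw [hyp]
        exact hA.ne
      · exact Or.inl ⟨hy, hyp⟩
    · rintro y (hy | hy)
      · exact hy.1
      · exact hy.1
  rw [h1]
  exact IsPreconnected.union m ⟨hmc, hmp⟩ ⟨hmc, hmq⟩ (h p) (h q)

theorem GrX.carX_eq (hG : GrX V E) (h2 : TwoConnX V E) : carX V E = ⋃₀ E := by
  apply Subset.antisymm
  · rintro v (hv | hv)
    · by_contra hvE
      obtain ⟨e, he⟩ := h2.1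
      obtain ⟨p, hp, q, hq, hA, heV⟩ := hG.arc e he
      have hvp : v ≠ p := by
        rintro rfl
        exact hvE ⟨e, he, hA.left_mem⟩
      have hvq : v ≠ q := by
        rintro rfl
        exact hvE ⟨e, he, hA.right_mem⟩
      obtain ⟨w⟩ := hG.reachable h2 (x := q) hv hp hvq hA.ne
      cases w with
      | nil => exact hvp rfl
      | cons hadj _ =>
        obtain ⟨-, -, -, e', he', h3⟩ := hadj
        apply hvE
        refine ⟨e', he'.1, ?_⟩
        rcases h3 with h3 | h3
        · exact h3.left_mem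
        · exact h3.right_mem
    · exact hv
  · exact subset_union_right

omit [T2Space X] in
theorem thg_supp {u v : X} (w : (sgX V F).Walk u v) (hu : u ∈ V) : ∀ y ∈ w.support, y ∈ V := by
  induction w with
  | nil =>
    intro y hy
    rw [SimpleGraph.Walk.support_nil, List.mem_singleton] at hy
    rw [hy]
    exact hu
  | cons hadj _ ih =>
    intro y hy
    rw [SimpleGraph.Walk.support_cons, List.mem_cons] at hy
    rcases hy with rfl | hy
    · exact hu
    · exact ih hadj.2.2.1 y hy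

theorem GrX.exists_ear (hG : GrX V E) (h2 : TwoConnX V E) (hF : F ⊆ E) (hne : F.Nonempty) (hFE : F ≠ E) :
    ∃ D ⊆ E, D.Nonempty ∧ Disjoint D F ∧ ∃ p ∈ V, ∃ q ∈ V, ArcX (⋃₀ D) p q ∧ ⋃₀ D ∩ ⋃₀ F = {p, q} := by
  classical
  have step1 : ∃ e ∈ E, e ∉ F ∧ ∃ u ∈ V, u ∈ e ∧ u ∈ ⋃₀ F := by
    by_contra hcon
    push Not at hcon
    obtain ⟨f, hf⟩ := hne
    obtain ⟨e, he, heF⟩ : ∃ e ∈ E, e ∉ F := by
      by_contra h3
      push Not at h3
      exact hFE (Subset.antisymm hF h3)
    have hpc := hG.isPreconnected h2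
    rw [isPreconnected_closed_iff] at hpc
    obtain ⟨pf, -, qf, -, hAf, -⟩ := hG.arc f (hF hf)
    obtain ⟨pe, -, qe, -, hAe, -⟩ := hG.arc e he
    obtain ⟨y, -, ⟨f', hf', hyf⟩, e', he', hye⟩ := hpc (⋃₀ F) (⋃₀ (E \ F)) (hG.isClosed_sUnion hF)
      (hG.isClosed_sUnion sdiff_subset)
      (by
        rw [hG.carX_eq h2]
        rintro y ⟨e', he', hy⟩
        by_cases h3 : e' ∈ F
        · exact Or.inl ⟨e', h3, hy⟩
        · exact Or.inr ⟨e', ⟨he', h3⟩, hy⟩)
      ⟨pf, Or.inr ⟨f, hF hf, hAf.left_mem⟩, f, hf, hAf.left_mem⟩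
      ⟨pe, Or.inr ⟨e, he, hAe.left_mem⟩, e, ⟨he, heF⟩, hAe.left_mem⟩
    have hne' : f' ≠ e' := by
      rintro rfl
      exact he'.2 hf'
    exact hcon e' he'.1 he'.2 y (hG.inter f' (hF hf') e' he'.1 hne' ⟨hyf, hye⟩) hye ⟨f', hf', hyf⟩
  obtain ⟨e, he, heF, u, hu, hue, huF⟩ := step1
  obtain ⟨w, hw, hA, heV⟩ : ∃ w ∈ V, ArcX e u w ∧ e ∩ V = {u, w} := by
    obtain ⟨p, hp, q, hq, hA, heV⟩ := hG.arc e he
    have h3 : u ∈ ({p, q} : Set X) := by
      rw [← heV]
      exact ⟨hue, hu⟩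
    rcases h3 with rfl | h3
    · exact ⟨q, hq, hA, heV⟩
    · rw [mem_singleton_iff] at h3
      subst h3
      exact ⟨p, hp, hA.symm, by rw [heV, pair_comm]⟩
  by_cases hwF : w ∈ ⋃₀ F
  · refine ⟨{e}, singleton_subset_iff.2 he, singleton_nonempty e, disjoint_singleton_left.2 heF, u, hu, w, hw, ?_, ?_⟩
    · rw [sUnion_singleton]
      exact hA
    · rw [sUnion_singleton]
      apply Subset.antisymm
      · rintro y ⟨hy, f, hf, hyf⟩
        have h3 : e ≠ f := by
          rintro rfl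
          exact heF hf
        rw [← heV]
        exact ⟨hy, hG.inter e he f (hF hf) h3 ⟨hy, hyf⟩⟩
      · rintro y (rfl | rfl)
        · exact ⟨hue, huF⟩
        · exact ⟨hA.right_mem, hwF⟩
  · obtain ⟨h, hh, hhu, hhF⟩ : ∃ h ∈ V, h ≠ u ∧ h ∈ ⋃₀ F := by
      obtain ⟨f, hf⟩ := hne
      obtain ⟨a, ha, b, hb, hAf, -⟩ := hG.arc f (hF hf)
      by_cases hau : a = u
      · refine ⟨b, hb, ?_, f, hf, hAf.right_mem⟩
        rw [← hau]
        exact hAf.ne.symm
      · exact ⟨a, ha, hau, f, hf, hAf.left_mem⟩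
    obtain ⟨w₀⟩ := hG.reachable h2 (x := u) hw hh hA.ne.symm hhu
    have hex : ∃ n : ℕ, ∃ h' ∈ ⋃₀ F, ∃ W : (sgX V {e' ∈ E | u ∉ e'}).Walk w h', W.length = n :=
      ⟨w₀.length, h, hhF, w₀, rfl⟩
    obtain ⟨h', hh', W, hW⟩ := Nat.find_spec hex
    have hmin : ∀ y, y ∈ W.bypass.support → y ∈ ⋃₀ F → y = h' := by
      intro y hy hyF
      by_contra hne'
      have h3 := SimpleGraph.Walk.length_takeUntil_lt_length hy hne'
      have h4 := W.length_bypass_le_length
      exact Nat.find_min hex (m := (W.bypass.takeUntil y hy).length) (by omega) ⟨y, hyF, _, rfl⟩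
    have hwh : w ≠ h' := by
      rintro rfl
      exact hwF hh'
    obtain ⟨D, hD, -, hDA, hDs⟩ := hG.walk_arc (fun _ h => h.1) W.bypass W.bypass_isPath hwh
    have hDF : ∀ e' ∈ D, e' ∉ F := by
      intro e' he' he'F
      obtain ⟨a, ha, b, hb, hAe, -⟩ := hG.arc e' (hF he'F)
      have h3 := hmin a (hDs a ha ⟨e', he', hAe.left_mem⟩) ⟨e', he'F, hAe.left_mem⟩
      have h4 := hmin b (hDs b hb ⟨e', he', hAe.right_mem⟩) ⟨e', he'F, hAe.right_mem⟩
      exact hAe.ne (h3.trans h4.symm)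
    have heD : ∀ e' ∈ D, e ≠ e' := by
      rintro e' he' rfl
      exact (hD he').2 hue
    refine ⟨insert e D, ?_, insert_nonempty _ _, ?_, u, hu, h', ?_, ?_, ?_⟩
    · rintro e' (rfl | he')
      · exact he
      · exact (hD he').1
    · rw [Set.disjoint_left]
      rintro e' (rfl | he')
      · exact heF
      · exact hDF e' he'
    · exact thg_supp W hw h' W.end_mem_support
    · rw [sUnion_insert]
      refine hA.trans hDA ?_
      apply Subset.antisymm
      · rintro y ⟨hy, e', he', hy'⟩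
        have h3 : y ∈ ({u, w} : Set X) := by
          rw [← heV]
          exact ⟨hy, hG.inter e he e' (hD he').1 (heD e' he') ⟨hy, hy'⟩⟩
        rcases h3 with rfl | h3
        · exact absurd hy' (hD he').2
        · exact h3
      · rintro y rfl
        exact ⟨hA.right_mem, hDA.left_mem⟩
    · apply Subset.antisymm
      · rintro y ⟨⟨e', he', hy⟩, f, hf, hyf⟩
        rcases he' with rfl | he'
        · have h3 : e' ≠ f := by
            rintro rfl
            exact heF hf
          have h4 : y ∈ ({u, w} : Set X) := by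
            rw [← heV]
            exact ⟨hy, hG.inter e' he f (hF hf) h3 ⟨hy, hyf⟩⟩
          rcases h4 with rfl | h4
          · exact Or.inl rfl
          · rw [mem_singleton_iff] at h4
            exact absurd ⟨f, hf, h4 ▸ hyf⟩ hwF
        · have h3 : e' ≠ f := by
            rintro rfl
            exact hDF e' he' hf
          have h4 : y ∈ V := hG.inter e' (hD he').1 f (hF hf) h3 ⟨hy, hyf⟩
          exact Or.inr (hmin y (hDs y h4 ⟨e', he', hy⟩) ⟨f, hf, hyf⟩)
      · rintro y (rfl | rfl)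
        · exact ⟨⟨e, mem_insert _ _, hue⟩, huF⟩
        · obtain ⟨e', he', hy⟩ := hDA.right_mem
          exact ⟨⟨e', mem_insert_of_mem _ he', hy⟩, hh'⟩

end Pool.JS
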