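import Pool.Agent.JS.PgE
import Pool.Agent.JS.ThG

/-!
MODULE PgF (difficulty 4).  Two disjoint paths (Menger's theorem for two paths).

RECIPE.  Step 1 (`two_from`, induction over ears).  Call `F ⊇ S`, `F ⊆ E` good if for any two different vertices `x, y ∈ ⋃₀ F` there are `s, s' ∈ V ∩ ⋃₀ S` and disjoint sets `p, p'` with `PathG0 F p s x`, `PathG0 F p' s' y`.  `F = S` is good (trivial paths).
If `F` is good and `F ≠ E`, `GrX.exists_ear` (ThG; `TwoConnX V E` from `NoCut`, `PG.carX_eq`) gives `D` with ends `a ≠ b ∈ ⋃₀ F`, `⋃₀ D ∩ ⋃₀ F = {a, b}`; `F ∪ D` is good: let `x ≠ y` be vertices of `⋃₀ (F ∪ D)`.  Both in `⋃₀ F`: clear.  `x ∈ ⋃₀ D` not in `{a, b}`, `y ∈ ⋃₀ F`: if `y ≠ a` take the two paths to `a` and `y` and prolong the first one by the part of `⋃₀ D` from `a` to `x`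
(`PG.cut` of the path `⋃₀ D` at `x`; this part does not contain `b`, so it meets `⋃₀ F` in `a` only); if `y = a` use `b` instead of `a`.  Both inside the ear: cut the ear at `x` and `y`; if `x` comes first (the part from `a` to `x` does not contain `y`) prolong the paths to `a` and `b` by the parts `a → x` and `b → y`.
By induction on the number of missing edges `E` is good.
Step 2: let `e ∈ T` with ends `x ≠ y`.  Step 1 gives disjoint `p, p'` from `s, s' ∈ ⋃₀ S` to `x, y ∈ ⋃₀ T`; they are not trivial (`⋃₀ S`, `⋃₀ T` disjoint); `PG.trim` (PgD) for the sets `⋃₀ S`, `⋃₀ T` (an edge is in `S` or meets `⋃₀ S` in `V` only).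
-/

open Set Metric Topology

namespace Pool.JS

variable {X : Type*} [TopologicalSpace X] [T2Space X] {V : Set X} {E S T : Set (Set X)} {x y : X}

omit [T2Space X] in
theorem pgf_left_mem {p : Set X} {a b : X} (hp : PathG0 E p a b) : a ∈ p ∧ b ∈ p := by
  rcases hp with ⟨rfl, rfl⟩ | ⟨⟨γ, hc, hi, hA, h0, h1⟩, _⟩
  · exact ⟨mem_singleton _, mem_singleton _⟩
  · rw [← hA]
    exact ⟨⟨0, ⟨le_rfl, zero_le_one⟩, h0⟩, ⟨1, ⟨zero_le_one, le_rfl⟩, h1⟩⟩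

omit [T2Space X] in
theorem pgf_sub {p : Set X} {a b : X} (hp : PathG0 E p a b) (ha : a ∈ ⋃₀ E) : p ⊆ ⋃₀ E := by
  rcases hp with ⟨rfl, rfl⟩ | ⟨hA, E', hE', rfl⟩
  · exact singleton_subset_iff.2 ha
  · exact sUnion_subset_sUnion hE'

theorem pgf_mono {E' : Set (Set X)} {p : Set X} {a b : X} (hp : PathG0 E p a b) (hE : E ⊆ E') : PathG0 E' p a b := by
  rcases hp with hp | hp
  · exact Or.inl hp
  · exact Or.inr (hp.mono hE)

theorem pgf_symm {p : Set X} {a b : X} (hp : PathG0 E p a b) : PathG0 E p b a := by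
  rcases hp with ⟨rfl, rfl⟩ | hp
  · exact Or.inl ⟨rfl, rfl⟩
  · exact Or.inr hp.symm

theorem pgf_join {F D : Set (Set X)} {p q : Set X} {s a x : X} (hp : PathG0 F p s a) (hq : PathG0 D q a x)
    (hpq : p ∩ q ⊆ {a}) : PathG0 (F ∪ D) (p ∪ q) s x := by
  have hap := (pgf_left_mem hp).2
  have haq := (pgf_left_mem hq).1
  rcases hp with ⟨rfl, rfl⟩ | hp
  · rw [union_eq_self_of_subset_left (singleton_subset_iff.2 haq)]
    exact pgf_mono hq subset_union_right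
  · rcases hq with ⟨rfl, rfl⟩ | hq
    · rw [union_eq_self_of_subset_right (singleton_subset_iff.2 hap)]
      exact Or.inr (hp.mono subset_union_left)
    · refine Or.inr (PathG.trans (hp.mono subset_union_left) (hq.mono subset_union_right) ?_)
      exact Subset.antisymm hpq (singleton_subset_iff.2 ⟨hap, haq⟩)

/-- the part of an ear from its end `a` to an inner vertex -/
theorem pgf_part (h : PG V E) {D : Set (Set X)} (hD : D ⊆ E) {a b : X} (hA : ArcX (⋃₀ D) a b) (hx : x ∈ V)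
    (hxD : x ∈ ⋃₀ D) (hxa : x ≠ a) (hxb : x ≠ b) :
    ∃ q, PathG0 D q a x ∧ q ⊆ ⋃₀ D ∧ b ∉ q := by
  have h' := h.sub hD
  obtain ⟨p₁, p₂, h1, h2, h12, h12'⟩ := h'.cut (p := ⋃₀ D) ⟨hA, D, Subset.rfl, rfl⟩ ⟨hx, hxD⟩ hxD hxa hxb
  refine ⟨p₁, Or.inr h1, h12 ▸ subset_union_left, ?_⟩
  intro hb
  have : b ∈ p₁ ∩ p₂ := ⟨hb, h2.1.right_mem⟩
  rw [h12'] at this
  exact hxb (mem_singleton_iff.1 this).symm

theorem pgf_two1 (h : PG V E) {D : Set (Set X)} (hD : D ⊆ E) {a b : X} (hA : ArcX (⋃₀ D) a b)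
    (hy : y ∈ V) (hyb : y ≠ b) (hxy : x ≠ y) {p₁ p₂ : Set X} (h1 : PathG D p₁ a x)
    (h2 : PathG D p₂ x b) (h12 : p₁ ∪ p₂ = ⋃₀ D) (h12' : p₁ ∩ p₂ = {x}) (hy2 : y ∈ p₂) :
    ∃ q q', PathG0 D q a x ∧ PathG0 D q' b y ∧ q ⊆ ⋃₀ D ∧ q' ⊆ ⋃₀ D ∧ Disjoint q q' := by
  have h' := h.sub hD
  have hyD : y ∈ ⋃₀ D := h12 ▸ Or.inr hy2
  obtain ⟨p₃, p₄, h3, h4, h34, h34'⟩ := h'.cut h2 ⟨hy, hyD⟩ hy2 hxy.symm hyb
  refine ⟨p₁, p₄, Or.inr h1, Or.inr h4.symm, h12 ▸ subset_union_left, ?_, ?_⟩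
  · rw [← h12, ← h34]
    exact subset_union_right.trans subset_union_right
  · rw [Set.disjoint_left]
    intro z hz1 hz4
    have hz2 : z ∈ p₂ := h34 ▸ Or.inr hz4
    have hz : z ∈ p₁ ∩ p₂ := ⟨hz1, hz2⟩
    rw [h12', mem_singleton_iff] at hz
    have hz3 : z ∈ p₃ ∩ p₄ := ⟨hz ▸ h3.1.left_mem, hz4⟩
    rw [h34', mem_singleton_iff] at hz3
    exact hxy (hz.symm.trans hz3)

theorem pgf_two (h : PG V E) {D : Set (Set X)} (hD : D ⊆ E) {a b : X} (hA : ArcX (⋃₀ D) a b) (hx : x ∈ V)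
    (hxD : x ∈ ⋃₀ D) (hxa : x ≠ a) (hxb : x ≠ b) (hy : y ∈ V) (hyD : y ∈ ⋃₀ D) (hya : y ≠ a) (hyb : y ≠ b)
    (hxy : x ≠ y) :
    (∃ q q', PathG0 D q a x ∧ PathG0 D q' b y ∧ q ⊆ ⋃₀ D ∧ q' ⊆ ⋃₀ D ∧ Disjoint q q') ∨
    (∃ q q', PathG0 D q b x ∧ PathG0 D q' a y ∧ q ⊆ ⋃₀ D ∧ q' ⊆ ⋃₀ D ∧ Disjoint q q') := by
  have h' := h.sub hD
  obtain ⟨p₁, p₂, h1, h2, h12, h12'⟩ := h'.cut (p := ⋃₀ D) ⟨hA, D, Subset.rfl, rfl⟩ ⟨hx, hxD⟩ hxD hxa hxb
  rw [← h12] at hyD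
  rcases hyD with hy1 | hy2
  · right
    exact pgf_two1 h hD hA.symm hy hya hxy h2.symm h1.symm ((union_comm _ _).trans h12)
      ((inter_comm _ _).trans h12') hy1
  · left
    exact pgf_two1 h hD hA hy hyb hxy h1 h2 h12 h12' hy2

/-- `F` is linked to `S` -/
def pgf_Good (V : Set X) (S F : Set (Set X)) : Prop :=
  ∀ x ∈ V, ∀ y ∈ V, x ∈ ⋃₀ F → y ∈ ⋃₀ F → x ≠ y →
    ∃ s ∈ ⋃₀ S, ∃ s' ∈ ⋃₀ S, ∃ p p' : Set X, PathG0 F p s x ∧ PathG0 F p' s' y ∧ Disjoint p p'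

theorem pgf_ext {F D : Set (Set X)} (hSF : S ⊆ F) (hF : pgf_Good V S F) {c c' : X} {q q' : Set X} (hc : c ∈ V) (hc' : c' ∈ V)
    (hcc : c ≠ c') (hcF : c ∈ ⋃₀ F) (hcF' : c' ∈ ⋃₀ F) (hq : PathG0 D q c x) (hq' : PathG0 D q' c' y)
    (hd : Disjoint q q') (h1 : q ∩ ⋃₀ F ⊆ {c}) (h2 : q' ∩ ⋃₀ F ⊆ {c'}) :
    ∃ s ∈ ⋃₀ S, ∃ s' ∈ ⋃₀ S, ∃ p p' : Set X, PathG0 (F ∪ D) p s x ∧ PathG0 (F ∪ D) p' s' y ∧ Disjoint p p' := by
  obtain ⟨s, hs, s', hs', p, p', hp, hp', hpp⟩ := hF c hc c' hc' hcF hcF' hcc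
  have hpF : p ⊆ ⋃₀ F := pgf_sub hp (sUnion_subset_sUnion hSF hs)
  have hpF' : p' ⊆ ⋃₀ F := pgf_sub hp' (sUnion_subset_sUnion hSF hs')
  refine ⟨s, hs, s', hs', p ∪ q, p' ∪ q', pgf_join hp hq (fun z hz => h1 ⟨hz.2, hpF hz.1⟩),
    pgf_join hp' hq' (fun z hz => h2 ⟨hz.2, hpF' hz.1⟩), ?_⟩
  rw [Set.disjoint_left]
  rintro z (hz | hz) (hz' | hz')
  · exact Set.disjoint_left.1 hpp hz hz'
  · have := mem_singleton_iff.1 (h2 ⟨hz', hpF hz⟩)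
    rw [this] at hz
    exact Set.disjoint_left.1 hpp hz (pgf_left_mem hp').2
  · have := mem_singleton_iff.1 (h1 ⟨hz, hpF' hz'⟩)
    rw [this] at hz'
    exact Set.disjoint_left.1 hpp (pgf_left_mem hp).2 hz'
  · exact Set.disjoint_left.1 hd hz hz'

theorem pgf_half (h : PG V E) {F D : Set (Set X)} (hSF : S ⊆ F) (hF : pgf_Good V S F) (hD : D ⊆ E) {a b : X}
    (ha : a ∈ V) (hb : b ∈ V) (hA : ArcX (⋃₀ D) a b) (hDF : ⋃₀ D ∩ ⋃₀ F = {a, b}) (hx : x ∈ V) (hy : y ∈ V)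
    (hxD : x ∈ ⋃₀ D) (hxF : x ∉ ⋃₀ F) (hyF : y ∈ ⋃₀ F) :
    ∃ s ∈ ⋃₀ S, ∃ s' ∈ ⋃₀ S, ∃ p p' : Set X, PathG0 (F ∪ D) p s x ∧ PathG0 (F ∪ D) p' s' y ∧ Disjoint p p' := by
  have haF : a ∈ ⋃₀ F := (hDF.symm.subset (by simp) : a ∈ ⋃₀ D ∩ ⋃₀ F).2
  have hbF : b ∈ ⋃₀ F := (hDF.symm.subset (by simp) : b ∈ ⋃₀ D ∩ ⋃₀ F).2
  have hxa : x ≠ a := fun hh => hxF (hh ▸ haF)
  have hxb : x ≠ b := fun hh => hxF (hh ▸ hbF)
  by_cases hya : y = a
  · have hyb : y ≠ b := fun hh => hA.ne (hya.symm.trans hh)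
    obtain ⟨q, hq, hqD, hbq⟩ := pgf_part h hD hA.symm hx hxD hxb hxa
    have h1 : q ∩ ⋃₀ F ⊆ {b} := by
      rintro z ⟨hzq, hzF⟩
      have : z ∈ ({a, b} : Set X) := hDF ▸ ⟨hqD hzq, hzF⟩
      rcases this with rfl | hz
      · exact absurd hzq hbq
      · exact hz
    refine pgf_ext hSF hF (c := b) (c' := y) (q := q) (q' := {y}) hb hy (Ne.symm hyb) hbF hyF hq (Or.inl ⟨rfl, rfl⟩) ?_ h1
      inter_subset_left
    rw [Set.disjoint_left]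
    rintro z hzq hzy
    rw [mem_singleton_iff] at hzy
    subst hzy
    exact hyb (mem_singleton_iff.1 (h1 ⟨hzq, hyF⟩))
  · obtain ⟨q, hq, hqD, hbq⟩ := pgf_part h hD hA hx hxD hxa hxb
    have h1 : q ∩ ⋃₀ F ⊆ {a} := by
      rintro z ⟨hzq, hzF⟩
      have : z ∈ ({a, b} : Set X) := hDF ▸ ⟨hqD hzq, hzF⟩
      rcases this with hz | hz
      · exact hz
      · rw [mem_singleton_iff.1 hz] at hzq
        exact absurd hzq hbq
    refine pgf_ext hSF hF (c := a) (c' := y) (q := q) (q' := {y}) ha hy (Ne.symm hya) haF hyF hq (Or.inl ⟨rfl, rfl⟩) ?_ h1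
      inter_subset_left
    rw [Set.disjoint_left]
    rintro z hzq hzy
    rw [mem_singleton_iff] at hzy
    subst hzy
    exact hya (mem_singleton_iff.1 (h1 ⟨hzq, hyF⟩))

theorem pgf_inner {F D : Set (Set X)} {a b c c' : X} {q q' : Set X} (hDF : ⋃₀ D ∩ ⋃₀ F = {a, b})
    (hqD : q ⊆ ⋃₀ D) (hc : c' ∉ q) (hab : ({a, b} : Set X) ⊆ {c, c'}) : q ∩ ⋃₀ F ⊆ {c} := by
  rintro z ⟨hzq, hzF⟩
  have : z ∈ ({a, b} : Set X) := hDF ▸ ⟨hqD hzq, hzF⟩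
  rcases hab this with hz | hz
  · exact hz
  · rw [mem_singleton_iff.1 hz] at hzq
    exact absurd hzq hc

theorem pgf_step (h : PG V E) {F D : Set (Set X)} (hSF : S ⊆ F) (hF : pgf_Good V S F) (hD : D ⊆ E) {a b : X}
    (ha : a ∈ V) (hb : b ∈ V) (hA : ArcX (⋃₀ D) a b) (hDF : ⋃₀ D ∩ ⋃₀ F = {a, b}) : pgf_Good V S (F ∪ D) := by
  intro x hx y hy hxU hyU hxy
  have haF : a ∈ ⋃₀ F := (hDF.symm.subset (by simp) : a ∈ ⋃₀ D ∩ ⋃₀ F).2
  have hbF : b ∈ ⋃₀ F := (hDF.symm.subset (by simp) : b ∈ ⋃₀ D ∩ ⋃₀ F).2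
  by_cases hxF : x ∈ ⋃₀ F
  · by_cases hyF : y ∈ ⋃₀ F
    · obtain ⟨s, hs, s', hs', p, p', hp, hp', hpp⟩ := hF x hx y hy hxF hyF hxy
      exact ⟨s, hs, s', hs', p, p', pgf_mono hp subset_union_left, pgf_mono hp' subset_union_left, hpp⟩
    · have hyD : y ∈ ⋃₀ D := by
        rw [sUnion_union] at hyU
        exact hyU.resolve_left hyF
      obtain ⟨s, hs, s', hs', p, p', hp, hp', hpp⟩ := pgf_half h hSF hF hD ha hb hA hDF hy hx hyD hyF hxF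
      exact ⟨s', hs', s, hs, p', p, hp', hp, hpp.symm⟩
  · have hxD : x ∈ ⋃₀ D := by
      rw [sUnion_union] at hxU
      exact hxU.resolve_left hxF
    by_cases hyF : y ∈ ⋃₀ F
    · exact pgf_half h hSF hF hD ha hb hA hDF hx hy hxD hxF hyF
    · have hyD : y ∈ ⋃₀ D := by
        rw [sUnion_union] at hyU
        exact hyU.resolve_left hyF
      have hxa : x ≠ a := fun hh => hxF (hh ▸ haF)
      have hxb : x ≠ b := fun hh => hxF (hh ▸ hbF)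
      have hya : y ≠ a := fun hh => hyF (hh ▸ haF)
      have hyb : y ≠ b := fun hh => hyF (hh ▸ hbF)
      rcases pgf_two h hD hA hx hxD hxa hxb hy hyD hya hyb hxy with
        ⟨q, q', hq, hq', hqD, hqD', hqq⟩ | ⟨q, q', hq, hq', hqD, hqD', hqq⟩
      · refine pgf_ext hSF hF (c := a) (c' := b) ha hb hA.ne haF hbF hq hq' hqq
          (pgf_inner (a := a) (b := b) (c' := b) (q' := q') hDF hqD ?_ Subset.rfl)
          (pgf_inner (a := a) (b := b) (c' := a) (q' := q) hDF hqD' ?_ (pair_comm a b).subset)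
        · exact fun hh => Set.disjoint_left.1 hqq hh (pgf_left_mem hq').1
        · exact fun hh => Set.disjoint_left.1 hqq (pgf_left_mem hq).1 hh
      · refine pgf_ext hSF hF (c := b) (c' := a) hb ha hA.ne.symm hbF haF hq hq' hqq
          (pgf_inner (a := a) (b := b) (c' := a) (q' := q') hDF hqD ?_ (pair_comm a b).subset)
          (pgf_inner (a := a) (b := b) (c' := b) (q' := q) hDF hqD' ?_ Subset.rfl)
        · exact fun hh => Set.disjoint_left.1 hqq hh (pgf_left_mem hq').1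
        · exact fun hh => Set.disjoint_left.1 hqq (pgf_left_mem hq).1 hh

theorem pgf_good (h : PG V E) (h2 : TwoConnX V E) (hSn : S.Nonempty) : ∀ (n : ℕ) (F : Set (Set X)), F ⊆ E → S ⊆ F →
    pgf_Good V S F → (E \ F).ncard ≤ n → pgf_Good V S E := by
  intro n
  induction n with
  | zero =>
    intro F hFE hSF hF hn
    have hfin : (E \ F).Finite := h.finE.subset sdiff_subset
    have h0 := (ncard_eq_zero hfin).1 (Nat.le_zero.1 hn)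
    rw [Subset.antisymm hFE (sdiff_eq_empty.1 h0)] at hF
    exact hF
  | succ n ih =>
    intro F hFE hSF hF hn
    by_cases hne : F = E
    · rw [hne] at hF
      exact hF
    · obtain ⟨D, hD, hDn, hDF, a, ha, b, hb, hA, hab⟩ := h.gr.exists_ear h2 hFE (hSn.mono hSF) hne
      refine ih (F ∪ D) (union_subset hFE hD) (hSF.trans subset_union_left)
        (pgf_step h hSF hF hD ha hb hA hab) ?_
      have hlt : (E \ (F ∪ D)).ncard < (E \ F).ncard := by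
        apply ncard_lt_ncard _ (h.finE.subset sdiff_subset)
        refine ⟨sdiff_subset_sdiff_right subset_union_left, ?_⟩
        intro hsub
        obtain ⟨d, hd⟩ := hDn
        exact (hsub ⟨hD hd, Set.disjoint_left.1 hDF hd⟩).2 (Or.inr hd)
      omega

theorem PG.two_from (h : PG V E) (hn : NoCut (⋃₀ E)) (hS : S ⊆ E) (hSn : S.Nonempty) (hx : x ∈ V) (hy : y ∈ V)
    (hxy : x ≠ y) : ∃ s ∈ ⋃₀ S, ∃ s' ∈ ⋃₀ S, ∃ p p' : Set X, PathG0 E p s x ∧ PathG0 E p' s' y ∧ Disjoint p p' := by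
  have h2 : TwoConnX V E := ⟨hSn.mono hS, fun x => by
    rw [h.carX_eq]
    exact hn x⟩
  have h0 : pgf_Good V S S := by
    intro x hx y hy hxS hyS hxy
    exact ⟨x, hxS, y, hyS, {x}, {y}, Or.inl ⟨rfl, rfl⟩, Or.inl ⟨rfl, rfl⟩, disjoint_singleton.2 hxy⟩
  exact pgf_good h h2 hSn _ S hS Subset.rfl h0 le_rfl x hx y hy (h.subV hx) (h.subV hy) hxy

theorem PG.menger (h : PG V E) (hn : NoCut (⋃₀ E)) (hS : S ⊆ E) (hSn : S.Nonempty) (hT : T ⊆ E) (hTn : T.Nonempty)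
    (hST : Disjoint (⋃₀ S) (⋃₀ T)) :
    ∃ s s' t t' : X, ∃ p p' : Set X, PathG E p s t ∧ PathG E p' s' t' ∧ Disjoint p p' ∧
      p ∩ ⋃₀ S = {s} ∧ p ∩ ⋃₀ T = {t} ∧ p' ∩ ⋃₀ S = {s'} ∧ p' ∩ ⋃₀ T = {t'} := by
  obtain ⟨e, he⟩ := hTn
  obtain ⟨x, hx, y, hy, hexy, heV⟩ := h.arc e (hT he)
  obtain ⟨s, hs, s', hs', p, p', hp, hp', hpp⟩ := h.two_from hn hS hSn hx hy hexy.ne
  have hxT : x ∈ ⋃₀ T := ⟨e, he, hexy.left_mem⟩
  have hyT : y ∈ ⋃₀ T := ⟨e, he, hexy.right_mem⟩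
  have key : ∀ {R : Set (Set X)}, R ⊆ E → ∀ e ∈ E, e ⊆ ⋃₀ R ∨ e ∩ ⋃₀ R ⊆ V := by
    intro R hR e he
    by_cases heR : e ∈ R
    · exact Or.inl (subset_sUnion_of_mem heR)
    · right
      rintro z ⟨hze, e', he', hze'⟩
      exact h.inter e he e' (hR he') (fun hh => heR (hh ▸ he')) ⟨hze, hze'⟩
  have hpx : PathG E p s x := by
    rcases hp with ⟨hh, _⟩ | hp
    · exact absurd hxT (Set.disjoint_left.1 hST (hh ▸ hs))
    · exact hp
  have hpy : PathG E p' s' y := by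
    rcases hp' with ⟨hh, _⟩ | hp'
    · exact absurd hyT (Set.disjoint_left.1 hST (hh ▸ hs'))
    · exact hp'
  obtain ⟨a, b, r, hr, hr1, hr2, hr3⟩ := h.trim hpx (key hS) (key hT) hs hxT hST
  obtain ⟨a', b', r', hr', hr1', hr2', hr3'⟩ := h.trim hpy (key hS) (key hT) hs' hyT hST
  exact ⟨a, a', b, b', r, r', hr1, hr1', hpp.mono hr hr', hr2, hr3, hr2', hr3'⟩

end Pool.JS
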