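import Pool.Agent.JS.Inv

/-!
MODULE JorA (difficulty 3).  Arcs on simple closed curves.

RECIPE.  Parametrise by `c θ = γ (exp (θ I))`, continuous on `ℝ`, `2 π` periodic, injective on every `Ico α (α + 2π)` (`Complex.exp` on the imaginary axis:
`exp (θ I) = exp (θ' I) ↔ θ - θ' ∈ 2 π ℤ`), `c '' Icc α (α + 2π) = J`.
`split`: `p = c α`, `q = c β` with `α < β < α + 2π`; `A = c '' Icc α β`, `B = c '' Icc β (α + 2π)` (affine reparametrisation of `Icc 0 1`; `B` goes from `q` to `p`, reverse it).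
`A ∩ B = {p, q}` by injectivity on `Ico α (α + 2π)` (and `c (α + 2π) = c α = p`).
`glue`: parametrise `J = A ∪ B`: `γ z` for `z = exp (2 π t I)`, `t ∈ [0,1)`: `γ_A (2 t)` for `t ≤ 1/2`, `γ_B (2 - 2 t)` for `t ≥ 1/2`; to get a map on the unit circle use `z ↦ γ_A (x(z))` on the upper half circle
`{im ≥ 0}` with `x z = (1 - re z) / 2` and `γ_B (x z)` on the lower half circle `{im ≤ 0}`: both closed, they agree at `z = ± 1` (`γ_A 0 = γ_B 0 = p`, `γ_A 1 = γ_B 1 = q`); `re` is injective on each half circle.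
`subarc`: `w₀ = exp (θ₀ I)` with `γ w₀ ∉ F`; `{θ | c θ ∉ F}` is open and contains `θ₀`, so it contains `[θ₀ - δ, θ₀ + δ]` with `0 < δ < π`; `A = c '' Icc (θ₀ + δ) (θ₀ + 2π - δ)`.
`isCompact`, `infinite`: image of the circle.  `mem_arc` variants as stated.
-/

open Set Metric Topology

namespace Pool.JS

variable {J A B F : Set ℂ} {p q : ℂ}

theorem jora_param (hJ : IsJordan J) : ∃ c : ℝ → ℂ, Continuous c ∧ (∀ θ, c (θ + 2 * Real.pi) = c θ) ∧
    (∀ α, InjOn c (Ico α (α + 2 * Real.pi))) ∧ (∀ α, ∀ x ∈ J, ∃ θ ∈ Ico α (α + 2 * Real.pi), c θ = x) ∧ ∀ θ, c θ ∈ J := by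
  obtain ⟨γ, hc, hi, hJe⟩ := hJ
  have hs : ∀ θ : ℝ, Complex.exp (θ * Complex.I) ∈ sphere (0 : ℂ) 1 := by
    intro θ
    rw [mem_sphere_zero_iff_norm, Complex.norm_exp_ofReal_mul_I]
  have hpi := Real.pi_pos
  have hper : ∀ (θ : ℝ) (m : ℤ), Complex.exp (((θ + m * (2 * Real.pi) : ℝ) : ℂ) * Complex.I) = Complex.exp (θ * Complex.I) := by
    intro θ m
    rw [Complex.exp_eq_exp_iff_exists_int]
    refine ⟨m, ?_⟩
    push_cast
    ring
  refine ⟨fun θ => γ (Complex.exp (θ * Complex.I)), ?_, ?_, ?_, ?_, ?_⟩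
  · exact hc.comp_continuous (by fun_prop) hs
  · intro θ
    show γ (Complex.exp (((θ + 2 * Real.pi : ℝ) : ℂ) * Complex.I)) = _
    have h1 := hper θ 1
    rw [Int.cast_one, one_mul] at h1
    rw [h1]
  · intro α θ hθ θ' hθ' h
    have h1 := hi (hs θ) (hs θ') h
    rw [Complex.exp_eq_exp_iff_exists_int] at h1
    obtain ⟨n, hn⟩ := h1
    have h2 : θ = θ' + n * (2 * Real.pi) := by
      have h3 : (θ : ℂ) * Complex.I = ((θ' + n * (2 * Real.pi) : ℝ) : ℂ) * Complex.I := by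
        rw [hn]
        push_cast
        ring
      exact_mod_cast mul_right_cancel₀ Complex.I_ne_zero h3
    have h4 : n = 0 := by
      have h5 : (n : ℝ) < 1 := by
        by_contra h6
        push Not at h6
        nlinarith [hθ.2, hθ'.1]
      have h6 : -1 < (n : ℝ) := by
        by_contra h6
        push Not at h6
        nlinarith [hθ.1, hθ'.2]
      have h7 : n < 1 := by exact_mod_cast h5
      have h8 : -1 < n := by exact_mod_cast h6
      omega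
    rw [h4, Int.cast_zero, zero_mul, add_zero] at h2
    exact h2
  · intro α x hx
    rw [← hJe] at hx
    obtain ⟨z, hz, rfl⟩ := hx
    obtain ⟨m, hm, -⟩ := existsUnique_add_zsmul_mem_Ico (by linarith : 0 < 2 * Real.pi) (Complex.arg z) α
    refine ⟨_, hm, ?_⟩
    show γ (Complex.exp (((Complex.arg z + m • (2 * Real.pi) : ℝ) : ℂ) * Complex.I)) = γ z
    rw [zsmul_eq_mul, hper]
    have h1 := Complex.norm_mul_exp_arg_mul_I z
    rw [mem_sphere_zero_iff_norm] at hz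
    rw [hz, Complex.ofReal_one, one_mul] at h1
    rw [h1]
  · intro θ
    rw [← hJe]
    exact ⟨_, hs θ, rfl⟩

theorem jora_sq {y : ℝ} (h : y ^ 2 = 1) : y = 1 ∨ y = -1 := by
  have h1 : (y - 1) * (y + 1) = 0 := by linear_combination h
  rcases mul_eq_zero.1 h1 with h2 | h2
  · left; linarith
  · right; linarith

theorem jora_arc {c : ℝ → ℂ} (hc : Continuous c) {α β : ℝ} (h : α < β) (hi : InjOn c (Icc α β)) :
    ArcFrom (c '' Icc α β) (c α) (c β) := by
  have hm : ∀ t ∈ Icc (0 : ℝ) 1, α + t * (β - α) ∈ Icc α β := by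
    intro t ht
    constructor
    · nlinarith [mul_nonneg ht.1 (sub_nonneg.2 h.le)]
    · nlinarith [mul_nonneg (sub_nonneg.2 ht.2) (sub_nonneg.2 h.le)]
  refine ⟨fun t => c (α + t * (β - α)), (hc.comp (by fun_prop)).continuousOn, ?_, ?_, ?_, ?_⟩
  · intro t ht t' ht' h1
    have h2 := hi (hm t ht) (hm t' ht') h1
    have h3 : t * (β - α) = t' * (β - α) := by linarith
    exact mul_right_cancel₀ (sub_ne_zero.2 h.ne') h3
  · apply Subset.antisymm
    · rintro x ⟨t, ht, rfl⟩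
      exact ⟨_, hm t ht, rfl⟩
    · rintro x ⟨θ, hθ, rfl⟩
      have h1 : 0 < β - α := sub_pos.2 h
      refine ⟨(θ - α) / (β - α), ⟨div_nonneg (sub_nonneg.2 hθ.1) h1.le, ?_⟩, ?_⟩
      · rw [div_le_one h1]
        linarith [hθ.2]
      · show c (α + (θ - α) / (β - α) * (β - α)) = c θ
        rw [div_mul_cancel₀ _ h1.ne']
        congr 1
        ring
  · show c (α + 0 * (β - α)) = c α
    rw [zero_mul, add_zero]
  · show c (α + 1 * (β - α)) = c β
    congr 1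
    ring

theorem jora_symm (h : ArcFrom A p q) : ArcFrom A q p := by
  obtain ⟨γ, hc, hi, hA, h0, h1⟩ := h
  have hm : ∀ t ∈ Icc (0 : ℝ) 1, 1 - t ∈ Icc (0 : ℝ) 1 := by
    intro t ht
    exact ⟨by linarith [ht.2], by linarith [ht.1]⟩
  refine ⟨fun t => γ (1 - t), hc.comp (by fun_prop) hm, ?_, ?_, ?_, ?_⟩
  · intro t ht t' ht' h2
    have h3 := hi (hm t ht) (hm t' ht') h2
    linarith
  · rw [← hA]
    apply Subset.antisymm
    · rintro x ⟨t, ht, rfl⟩
      exact ⟨_, hm t ht, rfl⟩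
    · rintro x ⟨t, ht, rfl⟩
      refine ⟨1 - t, hm t ht, ?_⟩
      show γ (1 - (1 - t)) = γ t
      rw [sub_sub_cancel]
  · show γ (1 - 0) = q
    rw [sub_zero, h1]
  · show γ (1 - 1) = p
    rw [sub_self, h0]

theorem IsJordan.isCompact (hJ : IsJordan J) : IsCompact J := by
  obtain ⟨γ, hc, hi, hJe⟩ := hJ
  rw [← hJe]
  exact (isCompact_sphere _ _).image_of_continuousOn hc

theorem IsJordan.isConnected (hJ : IsJordan J) : IsConnected J := by
  have hJ' := hJ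
  obtain ⟨γ, hc, hi, hJe⟩ := hJ
  rw [← hJe]
  have hr : 1 < Module.rank ℝ ℂ := by
    rw [Complex.rank_real_complex]
    exact_mod_cast Nat.one_lt_two
  exact (isConnected_sphere hr (0 : ℂ) zero_le_one).image γ hc

theorem IsJordan.exists_ne (hJ : IsJordan J) (p : ℂ) : ∃ q ∈ J, q ≠ p := by
  obtain ⟨γ, hc, hi, hJe⟩ := hJ
  have h1 : (1 : ℂ) ∈ sphere (0 : ℂ) 1 := by
    rw [mem_sphere_zero_iff_norm, norm_one]
  have h2 : (-1 : ℂ) ∈ sphere (0 : ℂ) 1 := by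
    rw [mem_sphere_zero_iff_norm, norm_neg, norm_one]
  have h3 : γ 1 ≠ γ (-1) := by
    intro h
    have h4 := hi h1 h2 h
    norm_num at h4
  by_cases h4 : γ 1 = p
  · refine ⟨γ (-1), ?_, ?_⟩
    · rw [← hJe]
      exact ⟨_, h2, rfl⟩
    · rw [← h4]
      exact h3.symm
  · refine ⟨γ 1, ?_, h4⟩
    rw [← hJe]
    exact ⟨_, h1, rfl⟩

theorem IsJordan.split (hJ : IsJordan J) (hp : p ∈ J) (hq : q ∈ J) (hpq : p ≠ q) :
    ∃ A B, ArcFrom A p q ∧ ArcFrom B p q ∧ A ∪ B = J ∧ A ∩ B = {p, q} := by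
  obtain ⟨c, hc, hper, hi, hs, hin⟩ := jora_param hJ
  have hpi := Real.pi_pos
  obtain ⟨α, hα, rfl⟩ := hs 0 p hp
  obtain ⟨β, hβ, rfl⟩ := hs α q hq
  have hab : α < β := lt_of_le_of_ne hβ.1 (fun h => hpq (by rw [h]))
  have i1 : InjOn c (Icc α β) := by
    refine (hi α).mono ?_
    intro x hx
    exact ⟨hx.1, lt_of_le_of_lt hx.2 hβ.2⟩
  have i2 : InjOn c (Icc β (α + 2 * Real.pi)) := by
    refine (hi β).mono ?_
    intro x hx
    exact ⟨hx.1, by linarith [hx.2]⟩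
  have hB := jora_arc hc hβ.2 i2
  rw [hper α] at hB
  refine ⟨c '' Icc α β, c '' Icc β (α + 2 * Real.pi), jora_arc hc hab i1, jora_symm hB, ?_, ?_⟩
  · rw [← image_union, Icc_union_Icc_eq_Icc hab.le hβ.2.le]
    apply Subset.antisymm
    · rintro x ⟨θ, -, rfl⟩
      exact hin θ
    · intro x hx
      obtain ⟨θ, hθ, rfl⟩ := hs α x hx
      exact ⟨θ, ⟨hθ.1, hθ.2.le⟩, rfl⟩
  · apply Subset.antisymm
    · rintro x ⟨⟨s, hs1, rfl⟩, ⟨t, ht, hst⟩⟩
      rcases eq_or_lt_of_le ht.2 with h | h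
      · left
        rw [← hst, h, hper]
      · right
        have h1 := hi α ⟨hs1.1, lt_of_le_of_lt hs1.2 hβ.2⟩ ⟨hab.le.trans ht.1, h⟩ hst.symm
        have h2 : s = β := le_antisymm hs1.2 (by rw [h1]; exact ht.1)
        rw [h2]
        rfl
    · rintro x (rfl | rfl)
      · exact ⟨⟨α, ⟨le_refl _, hab.le⟩, rfl⟩, ⟨α + 2 * Real.pi, ⟨hβ.2.le, le_refl _⟩, hper α⟩⟩
      · exact ⟨⟨β, ⟨hab.le, le_refl _⟩, rfl⟩, ⟨β, ⟨le_refl _, hβ.2.le⟩, rfl⟩⟩

theorem IsJordan.glue (hA : ArcFrom A p q) (hB : ArcFrom B p q) (hAB : A ∩ B = {p, q}) : IsJordan (A ∪ B) := by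
  obtain ⟨γ, hc, hi, hAe, h0, h1⟩ := hA
  obtain ⟨γ', hc', hi', hBe, h0', h1'⟩ := hB
  have hre : ∀ z ∈ sphere (0 : ℂ) 1, z.re ^ 2 + z.im ^ 2 = 1 := by
    intro z hz
    rw [mem_sphere_zero_iff_norm] at hz
    have h2 := Complex.sq_norm z
    rw [hz, Complex.normSq_apply] at h2
    nlinarith
  have hx : ∀ z ∈ sphere (0 : ℂ) 1, (1 - z.re) / 2 ∈ Icc (0 : ℝ) 1 := by
    intro z hz
    have h2 := hre z hz
    have h3 : z.re ^ 2 ≤ 1 := by nlinarith [sq_nonneg z.im]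
    have h4 := abs_le.1 (abs_le_one_iff_mul_self_le_one.2 (by nlinarith : z.re * z.re ≤ 1))
    exact ⟨by linarith [h4.2], by linarith [h4.1]⟩
  have hend : ∀ z ∈ sphere (0 : ℂ) 1, z.im = 0 → γ ((1 - z.re) / 2) = γ' ((1 - z.re) / 2) := by
    intro z hz h2
    have h3 := hre z hz
    rw [h2] at h3
    have h4 : z.re = 1 ∨ z.re = -1 := jora_sq (by linarith)
    rcases h4 with h4 | h4
    · rw [h4]
      norm_num
      rw [h0, h0']
    · rw [h4]
      norm_num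
      rw [h1, h1']
  let f : ℂ → ℂ := fun z => if 0 ≤ z.im then γ ((1 - z.re) / 2) else γ' ((1 - z.re) / 2)
  have hf1 : ∀ z, 0 ≤ z.im → f z = γ ((1 - z.re) / 2) := fun z hz => if_pos hz
  have hf2 : ∀ z ∈ sphere (0 : ℂ) 1, z.im ≤ 0 → f z = γ' ((1 - z.re) / 2) := by
    intro z hz h
    rcases eq_or_lt_of_le h with h2 | h2
    · rw [hf1 z h2.ge, hend z hz h2]
    · exact if_neg (not_le.2 h2)
  have hcx : Continuous fun z : ℂ => (1 - z.re) / 2 := by fun_prop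
  have hsep : ∀ z ∈ sphere (0 : ℂ) 1, ∀ w ∈ sphere (0 : ℂ) 1, 0 ≤ z.im → w.im < 0 → f z = f w → False := by
    intro z hz w hw h2 h3 h4
    rw [hf1 z h2, hf2 w hw h3.le] at h4
    have h5 : γ' ((1 - w.re) / 2) ∈ A ∩ B := by
      refine ⟨?_, ?_⟩
      · rw [← h4, ← hAe]
        exact ⟨_, hx z hz, rfl⟩
      · rw [← hBe]
        exact ⟨_, hx w hw, rfl⟩
    rw [hAB] at h5
    have h6 := hre w hw
    rcases h5 with h5 | h5
    · rw [← h0'] at h5
      have h7 := hi' (hx w hw) ⟨le_refl _, zero_le_one⟩ h5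
      have h8 : w.re = 1 := by linarith
      rw [h8] at h6
      nlinarith
    · have h5 : γ' ((1 - w.re) / 2) = q := h5
      rw [← h1'] at h5
      have h7 := hi' (hx w hw) ⟨zero_le_one, le_refl _⟩ h5
      have h8 : w.re = -1 := by linarith
      rw [h8] at h6
      nlinarith
  have heq : ∀ z ∈ sphere (0 : ℂ) 1, ∀ w ∈ sphere (0 : ℂ) 1, z.re = w.re → (0 ≤ z.im ∧ 0 ≤ w.im ∨ z.im < 0 ∧ w.im < 0) → z = w := by
    intro z hz w hw h2 h3
    have h4 := hre z hz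
    have h5 := hre w hw
    rw [h2] at h4
    have h6 : z.im ^ 2 = w.im ^ 2 := by linarith
    apply Complex.ext h2
    rcases h3 with ⟨h7, h8⟩ | ⟨h7, h8⟩
    · exact (pow_left_inj₀ h7 h8 two_ne_zero).1 h6
    · have h9 : (-z.im) ^ 2 = (-w.im) ^ 2 := by rw [neg_sq, neg_sq, h6]
      have := (pow_left_inj₀ (by linarith : 0 ≤ -z.im) (by linarith : 0 ≤ -w.im) two_ne_zero).1 h9
      linarith
  refine ⟨f, ?_, ?_, ?_⟩
  · have hu : sphere (0 : ℂ) 1 = (sphere (0 : ℂ) 1 ∩ {z | 0 ≤ z.im}) ∪ (sphere (0 : ℂ) 1 ∩ {z | z.im ≤ 0}) := by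
      rw [← inter_union_distrib_left]
      symm
      apply inter_eq_left.2
      intro z _
      exact le_total 0 z.im
    rw [hu]
    apply ContinuousOn.union_of_isClosed
    · apply (hc.comp hcx.continuousOn (fun z hz => hx z hz.1)).congr
      intro z hz
      exact hf1 z hz.2
    · apply (hc'.comp hcx.continuousOn (fun z hz => hx z hz.1)).congr
      intro z hz
      exact hf2 z hz.1 hz.2
    · exact isClosed_sphere.inter (isClosed_le continuous_const Complex.continuous_im)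
    · exact isClosed_sphere.inter (isClosed_le Complex.continuous_im continuous_const)
  · intro z hz w hw h
    rcases le_or_gt 0 z.im with h2 | h2
    · rcases le_or_gt 0 w.im with h3 | h3
      · rw [hf1 z h2, hf1 w h3] at h
        have h4 := hi (hx z hz) (hx w hw) h
        exact heq z hz w hw (by linarith) (Or.inl ⟨h2, h3⟩)
      · exact (hsep z hz w hw h2 h3 h).elim
    · rcases le_or_gt 0 w.im with h3 | h3
      · exact (hsep w hw z hz h3 h2 h.symm).elim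
      · rw [hf2 z hz h2.le, hf2 w hw h3.le] at h
        have h4 := hi' (hx z hz) (hx w hw) h
        exact heq z hz w hw (by linarith) (Or.inr ⟨h2, h3⟩)
  · have hpt : ∀ t ∈ Icc (0 : ℝ) 1, 0 ≤ 1 - (1 - 2 * t) ^ 2 := by
      intro t ht
      nlinarith [mul_nonneg ht.1 (sub_nonneg.2 ht.2)]
    have hsp : ∀ (t y : ℝ), y ^ 2 = 1 - (1 - 2 * t) ^ 2 → (⟨1 - 2 * t, y⟩ : ℂ) ∈ sphere (0 : ℂ) 1 := by
      intro t y hy
      rw [mem_sphere_zero_iff_norm]
      have h2 := Complex.sq_norm (⟨1 - 2 * t, y⟩ : ℂ)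
      rw [Complex.normSq_apply] at h2
      have h3 : ‖(⟨1 - 2 * t, y⟩ : ℂ)‖ ^ 2 = 1 := by
        rw [h2]
        show (1 - 2 * t) * (1 - 2 * t) + y * y = 1
        nlinarith
      rcases jora_sq h3 with h4 | h4
      · exact h4
      · have h5 := norm_nonneg (⟨1 - 2 * t, y⟩ : ℂ)
        rw [h4] at h5
        norm_num at h5
    apply Subset.antisymm
    · rintro x ⟨z, hz, rfl⟩
      rcases le_total 0 z.im with h2 | h2
      · left
        rw [hf1 z h2, ← hAe]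
        exact ⟨_, hx z hz, rfl⟩
      · right
        rw [hf2 z hz h2, ← hBe]
        exact ⟨_, hx z hz, rfl⟩
    · rintro x (hxA | hxB)
      · rw [← hAe] at hxA
        obtain ⟨t, ht, rfl⟩ := hxA
        have h2 : (⟨1 - 2 * t, Real.sqrt (1 - (1 - 2 * t) ^ 2)⟩ : ℂ) ∈ sphere (0 : ℂ) 1 :=
          hsp t _ (Real.sq_sqrt (hpt t ht))
        refine ⟨_, h2, ?_⟩
        rw [hf1 _ (Real.sqrt_nonneg _)]
        congr 1
        show (1 - (1 - 2 * t)) / 2 = t
        ring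
      · rw [← hBe] at hxB
        obtain ⟨t, ht, rfl⟩ := hxB
        have h2 : (⟨1 - 2 * t, -Real.sqrt (1 - (1 - 2 * t) ^ 2)⟩ : ℂ) ∈ sphere (0 : ℂ) 1 :=
          hsp t _ (by rw [neg_sq]; exact Real.sq_sqrt (hpt t ht))
        refine ⟨_, h2, ?_⟩
        rw [hf2 _ h2 (neg_nonpos.2 (Real.sqrt_nonneg _))]
        congr 1
        show (1 - (1 - 2 * t)) / 2 = t
        ring

theorem IsJordan.subarc (hJ : IsJordan J) (hF : IsClosed F) (hFJ : F ⊆ J) (hne : F ≠ J) :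
    ∃ A p q, ArcFrom A p q ∧ F ⊆ A ∧ A ⊆ J := by
  obtain ⟨c, hc, hper, hi, hs, hin⟩ := jora_param hJ
  have hpi := Real.pi_gt_three
  have h1 : ∃ x ∈ J, x ∉ F := by
    by_contra h
    push Not at h
    exact hne (Subset.antisymm hFJ h)
  obtain ⟨x, hxJ, hxF⟩ := h1
  obtain ⟨θ₀, -, rfl⟩ := hs 0 x hxJ
  have ho : IsOpen (c ⁻¹' Fᶜ) := hF.isOpen_compl.preimage hc
  obtain ⟨δ', hδ', hb⟩ := Metric.isOpen_iff.1 ho θ₀ hxF
  set δ := min (δ' / 2) 1 with hδ
  have hδ0 : 0 < δ := lt_min (by linarith) one_pos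
  have hδ1 : δ ≤ 1 := min_le_right _ _
  have hδ2 : δ < δ' := lt_of_le_of_lt (min_le_left _ _) (by linarith)
  have hlt : θ₀ + δ < θ₀ + 2 * Real.pi - δ := by linarith
  refine ⟨c '' Icc (θ₀ + δ) (θ₀ + 2 * Real.pi - δ), _, _, jora_arc hc hlt ((hi (θ₀ + δ)).mono ?_), ?_, ?_⟩
  · intro θ hθ
    exact ⟨hθ.1, by linarith [hθ.2]⟩
  · intro y hy
    obtain ⟨θ, hθ, rfl⟩ := hs (θ₀ - δ) y (hFJ hy)
    refine ⟨θ, ⟨?_, by linarith [hθ.2]⟩, rfl⟩
    by_contra h
    push Not at h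
    have h2 : θ ∈ ball θ₀ δ' := by
      rw [mem_ball, Real.dist_eq, abs_lt]
      exact ⟨by linarith [hθ.1], by linarith⟩
    exact hb h2 hy
  · rintro y ⟨θ, -, rfl⟩
    exact hin θ

end Pool.JS
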