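import Pool.Agent.JS.SpDefs
import Pool.Agent.JS.JorA

/-!
MODULE SpD (difficulty 3).  Arcs and simple closed curves in a Hausdorff space.

RECIPE.  The first lemmas are images of statements about `Icc 0 1`; affine reparametrisations.  `trans`: `γ t = α (2 t)` for `t ≤ 1 / 2` and `β (2 t - 1)` for `t ≥ 1 / 2` (`ContinuousOn.if` or `ContinuousOn.union_of_isClosed`).
`image`: composition.  `comp_arc`: `f` continuous and injective on `A`.
For the curve: the circle `sphere 0 1 ⊆ ℂ` is `IsJordan` (`γ = id`); `split`, `subarc` in `X` follow from `IsJordan.split`, `IsJordan.subarc` (module `JorA`) for the circle by taking images under the parametrisation `γ` of `J` (`F' = sphere 0 1 ∩ γ ⁻¹' F` is closed).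
`glue`: by `IsJordan.split` for the circle and the points `1`, `-1` there are arcs `A'`, `B'` of the circle from `1` to `-1` with union the circle and intersection `{1, -1}`, with parametrisations `α', β'` on `Icc 0 1`; let `α, β` be the parametrisations of `A`, `B`; define `γ = α ∘ τ` on `A'`, `β ∘ τ'` on `B'`,
where `τ, τ'` are continuous inverses of `α'`, `β'` (`exists_inverse` of module `Inv`, import it, or work with compactness).  Continuity on the union of two closed sets, injectivity from `A ∩ B = {p, q}`.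
-/

open Set Metric Topology

namespace Pool.JS

variable {X : Type*} [TopologicalSpace X] [T2Space X] {A B F J : Set X} {p q r : X}

private theorem spD_of_Icc {Y : Type*} [TopologicalSpace Y] {γ : ℝ → Y} {a b : ℝ} (hab : a < b)
    (hc : ContinuousOn γ (Icc a b)) (hi : InjOn γ (Icc a b)) : ArcX (γ '' Icc a b) (γ a) (γ b) := by
  have hba : 0 < b - a := sub_pos.2 hab
  have hm : ∀ t ∈ Icc (0 : ℝ) 1, a + t * (b - a) ∈ Icc a b := by
    intro t ht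
    constructor
    · nlinarith [ht.1]
    · nlinarith [ht.2]
  refine ⟨fun t => γ (a + t * (b - a)), ?_, ?_, ?_, ?_, ?_⟩
  · exact hc.comp (by fun_prop) hm
  · intro s hs t ht hst
    have := hi (hm s hs) (hm t ht) hst
    have h2 : s * (b - a) = t * (b - a) := by linarith
    exact mul_right_cancel₀ hba.ne' h2
  · apply Subset.antisymm
    · rintro y ⟨t, ht, rfl⟩
      exact ⟨_, hm t ht, rfl⟩
    · rintro y ⟨u, hu, rfl⟩
      refine ⟨(u - a) / (b - a), ⟨div_nonneg (sub_nonneg.2 hu.1) hba.le, ?_⟩, ?_⟩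
      · rw [div_le_one hba]
        linarith [hu.2]
      · simp only
        rw [div_mul_cancel₀ _ hba.ne']
        congr 1
        ring
  · simp
  · simp

theorem ArcX.isCompact (h : ArcX A p q) : IsCompact A := by
  obtain ⟨γ, hc, hi, rfl, rfl, rfl⟩ := h
  exact isCompact_Icc.image_of_continuousOn hc

theorem ArcX.isConnected (h : ArcX A p q) : IsConnected A := by
  obtain ⟨γ, hc, hi, rfl, rfl, rfl⟩ := h
  exact (isConnected_Icc zero_le_one).image γ hc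

theorem ArcX.left_mem (h : ArcX A p q) : p ∈ A := by
  obtain ⟨γ, hc, hi, rfl, rfl, rfl⟩ := h
  exact ⟨0, left_mem_Icc.2 zero_le_one, rfl⟩

theorem ArcX.right_mem (h : ArcX A p q) : q ∈ A := by
  obtain ⟨γ, hc, hi, rfl, rfl, rfl⟩ := h
  exact ⟨1, right_mem_Icc.2 zero_le_one, rfl⟩

theorem ArcX.symm (h : ArcX A p q) : ArcX A q p := by
  obtain ⟨γ, hc, hi, rfl, rfl, rfl⟩ := h
  have hm : ∀ t ∈ Icc (0 : ℝ) 1, 1 - t ∈ Icc (0 : ℝ) 1 := by
    intro t ht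
    exact ⟨by linarith [ht.2], by linarith [ht.1]⟩
  refine ⟨fun t => γ (1 - t), hc.comp (by fun_prop) hm, ?_, ?_, by simp, by simp⟩
  · intro s hs t ht hst
    have := hi (hm s hs) (hm t ht) hst
    linarith
  · apply Subset.antisymm
    · rintro y ⟨t, ht, rfl⟩
      exact ⟨_, hm t ht, rfl⟩
    · rintro y ⟨u, hu, rfl⟩
      exact ⟨1 - u, hm u hu, by simp⟩

theorem ArcX.ne (h : ArcX A p q) : p ≠ q := by
  obtain ⟨γ, hc, hi, rfl, rfl, rfl⟩ := h
  intro h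
  have := hi (left_mem_Icc.2 zero_le_one) (right_mem_Icc.2 zero_le_one) h
  norm_num at this

private theorem spD_diff {γ : ℝ → X} (hi : InjOn γ (Icc 0 1)) :
    γ '' Icc 0 1 \ {γ 0, γ 1} = γ '' Ioo 0 1 := by
  have h0 : (0 : ℝ) ∈ Icc (0 : ℝ) 1 := left_mem_Icc.2 zero_le_one
  have h1 : (1 : ℝ) ∈ Icc (0 : ℝ) 1 := right_mem_Icc.2 zero_le_one
  apply Subset.antisymm
  · rintro y ⟨⟨t, ht, rfl⟩, hn⟩
    refine ⟨t, ⟨lt_of_le_of_ne ht.1 ?_, lt_of_le_of_ne ht.2 ?_⟩, rfl⟩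
    · rintro rfl
      exact hn (Or.inl rfl)
    · rintro rfl
      exact hn (Or.inr rfl)
  · rintro y ⟨t, ht, rfl⟩
    refine ⟨⟨t, Ioo_subset_Icc_self ht, rfl⟩, ?_⟩
    rintro (h | h)
    · exact ht.1.ne' (hi (Ioo_subset_Icc_self ht) h0 h)
    · exact ht.2.ne (hi (Ioo_subset_Icc_self ht) h1 h)

/-- there is a point of the arc which is not an end point -/
theorem ArcX.exists_mid (h : ArcX A p q) : ∃ m ∈ A, m ≠ p ∧ m ≠ q := by
  obtain ⟨γ, hc, hi, rfl, rfl, rfl⟩ := h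
  have hm : γ (1 / 2) ∈ γ '' Ioo (0 : ℝ) 1 := ⟨1 / 2, by constructor <;> norm_num, rfl⟩
  rw [← spD_diff hi] at hm
  exact ⟨_, hm.1, fun h => hm.2 (Or.inl h), fun h => hm.2 (Or.inr h)⟩

/-- the arc without its end points is connected and dense in the arc -/
theorem ArcX.interior (h : ArcX A p q) : IsConnected (A \ {p, q}) ∧ A ⊆ closure (A \ {p, q}) := by
  obtain ⟨γ, hc, hi, rfl, rfl, rfl⟩ := h
  rw [spD_diff hi]
  refine ⟨(isConnected_Ioo zero_lt_one).image γ (hc.mono Ioo_subset_Icc_self), ?_⟩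
  have h := (closure_Ioo (zero_ne_one (α := ℝ)))
  have h2 : ContinuousOn γ (closure (Ioo (0 : ℝ) 1)) := by rwa [h]
  have h3 := h2.image_closure
  rwa [h] at h3

theorem ArcX.split (h : ArcX A p q) (hr : r ∈ A) (hp : r ≠ p) (hq : r ≠ q) :
    ∃ B C, ArcX B p r ∧ ArcX C r q ∧ B ∪ C = A ∧ B ∩ C = {r} := by
  obtain ⟨γ, hc, hi, rfl, rfl, rfl⟩ := h
  obtain ⟨t, ht, rfl⟩ := hr
  have h0 : 0 < t := lt_of_le_of_ne ht.1 (fun h => hp (by rw [← h]))
  have h1 : t < 1 := lt_of_le_of_ne ht.2 (fun h => hq (by rw [← h]))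
  have hs1 : Icc 0 t ⊆ Icc (0 : ℝ) 1 := Icc_subset_Icc le_rfl h1.le
  have hs2 : Icc t 1 ⊆ Icc (0 : ℝ) 1 := Icc_subset_Icc h0.le le_rfl
  refine ⟨γ '' Icc 0 t, γ '' Icc t 1, spD_of_Icc h0 (hc.mono hs1) (hi.mono hs1),
    spD_of_Icc h1 (hc.mono hs2) (hi.mono hs2), ?_, ?_⟩
  · rw [← image_union, Icc_union_Icc_eq_Icc h0.le h1.le]
  · rw [← hi.image_inter hs1 hs2, Icc_inter_Icc_eq_singleton h0.le h1.le, image_singleton]

theorem ArcX.trans (h : ArcX A p q) (h' : ArcX B q r) (hAB : A ∩ B = {q}) : ArcX (A ∪ B) p r := by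
  obtain ⟨α, hαc, hαi, rfl, rfl, hα1⟩ := h
  obtain ⟨β, hβc, hβi, rfl, hβ0, rfl⟩ := h'
  have hm : ∀ t ∈ Icc (1 : ℝ) 2, t - 1 ∈ Icc (0 : ℝ) 1 := by
    intro t ht
    exact ⟨by linarith [ht.1], by linarith [ht.2]⟩
  set γ : ℝ → X := fun t => if t ≤ 1 then α t else β (t - 1) with hγ
  have e1 : ∀ t ∈ Icc (0 : ℝ) 1, γ t = α t := fun t ht => if_pos ht.2
  have e2 : ∀ t ∈ Icc (1 : ℝ) 2, γ t = β (t - 1) := by
    intro t ht
    by_cases h : t ≤ 1
    · have : t = 1 := le_antisymm h ht.1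
      subst this
      simp only [hγ, le_refl, if_true, sub_self]
      rw [hα1, hβ0]
    · exact if_neg h
  have hI : Icc (0 : ℝ) 2 = Icc 0 1 ∪ Icc 1 2 :=
    (Icc_union_Icc_eq_Icc zero_le_one one_le_two).symm
  have him1 : γ '' Icc 0 1 = α '' Icc 0 1 := image_congr e1
  have him2 : γ '' Icc 1 2 = β '' Icc 0 1 := by
    rw [image_congr e2]
    apply Subset.antisymm
    · rintro y ⟨t, ht, rfl⟩
      exact ⟨_, hm t ht, rfl⟩
    · rintro y ⟨t, ht, rfl⟩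
      exact ⟨t + 1, ⟨by linarith [ht.1], by linarith [ht.2]⟩, by simp⟩
  have hc1 : ContinuousOn γ (Icc 0 1) := hαc.congr e1
  have hc2 : ContinuousOn γ (Icc 1 2) := (hβc.comp (by fun_prop) hm).congr e2
  have hc : ContinuousOn γ (Icc 0 2) := by
    rw [hI]
    exact hc1.union_of_isClosed hc2 isClosed_Icc isClosed_Icc
  have hi1 : InjOn γ (Icc 0 1) := hαi.congr (fun t ht => (e1 t ht).symm)
  have hi2 : InjOn γ (Icc 1 2) := by
    intro s hs t ht hst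
    rw [e2 s hs, e2 t ht] at hst
    have := hβi (hm s hs) (hm t ht) hst
    linarith
  have h11 : (1 : ℝ) ∈ Icc (0 : ℝ) 1 := right_mem_Icc.2 zero_le_one
  have h12 : (1 : ℝ) ∈ Icc (1 : ℝ) 2 := left_mem_Icc.2 one_le_two
  have hg1 : γ 1 = q := by rw [e1 1 h11, hα1]
  have hcross : ∀ s ∈ Icc (0 : ℝ) 1, ∀ t ∈ Icc (1 : ℝ) 2, γ s = γ t → s = t := by
    intro s hs t ht hst
    have hmem : γ s ∈ α '' Icc 0 1 ∩ β '' Icc 0 1 := by
      refine ⟨?_, ?_⟩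
      · rw [← him1]
        exact ⟨s, hs, rfl⟩
      · rw [← him2, hst]
        exact ⟨t, ht, rfl⟩
    rw [hAB] at hmem
    have hsq : γ s = q := hmem
    have hs1 : s = 1 := hi1 hs h11 (by rw [hsq, hg1])
    have ht1 : t = 1 := hi2 ht h12 (by rw [← hst, hsq, hg1])
    rw [hs1, ht1]
  have hi : InjOn γ (Icc 0 2) := by
    intro s hs t ht hst
    rw [hI] at hs ht
    rcases hs with hs | hs <;> rcases ht with ht | ht
    · exact hi1 hs ht hst
    · exact hcross s hs t ht hst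
    · exact (hcross t ht s hs hst.symm).symm
    · exact hi2 hs ht hst
  have hfin := spD_of_Icc (by norm_num : (0 : ℝ) < 2) hc hi
  rw [hI, image_union, him1, him2, e1 0 (left_mem_Icc.2 zero_le_one), e2 2 (right_mem_Icc.2 one_le_two)] at hfin
  norm_num at hfin
  exact hfin

theorem ArcX.image {Y : Type*} [TopologicalSpace Y] (h : ArcX A p q) {f : X → Y} (hf : ContinuousOn f A)
    (hi : InjOn f A) : ArcX (f '' A) (f p) (f q) := by
  obtain ⟨γ, hc, hγi, rfl, rfl, rfl⟩ := h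
  exact ⟨f ∘ γ, hf.comp hc (mapsTo_image γ _), hi.comp hγi (mapsTo_image γ _), image_comp f γ _, rfl, rfl⟩

private theorem spD_circle : IsJordan (sphere (0 : ℂ) 1) :=
  ⟨id, continuousOn_id, injOn_id _, image_id _⟩

private theorem spD_one : (1 : ℂ) ∈ sphere (0 : ℂ) 1 := by simp

private theorem spD_neg : (-1 : ℂ) ∈ sphere (0 : ℂ) 1 := by simp

private theorem spD_one_ne : (1 : ℂ) ≠ -1 := by norm_num

theorem JorX.isCompact (hJ : JorX J) : IsCompact J := by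
  obtain ⟨γ, hc, hi, rfl⟩ := hJ
  exact (isCompact_sphere 0 1).image_of_continuousOn hc

theorem JorX.isConnected (hJ : JorX J) : IsConnected J := by
  obtain ⟨γ, hc, hi, rfl⟩ := hJ
  exact spD_circle.isConnected.image γ hc

theorem JorX.exists_ne (hJ : JorX J) (p : X) : ∃ q ∈ J, q ≠ p := by
  obtain ⟨γ, hc, hi, rfl⟩ := hJ
  by_cases h : γ 1 = p
  · refine ⟨γ (-1), ⟨-1, spD_neg, rfl⟩, ?_⟩
    intro h'
    exact spD_one_ne (hi spD_one spD_neg (h.trans h'.symm))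
  · exact ⟨γ 1, ⟨1, spD_one, rfl⟩, h⟩

theorem JorX.split (hJ : JorX J) (hp : p ∈ J) (hq : q ∈ J) (hpq : p ≠ q) :
    ∃ A B, ArcX A p q ∧ ArcX B p q ∧ A ∪ B = J ∧ A ∩ B = {p, q} := by
  obtain ⟨γ, hc, hi, rfl⟩ := hJ
  obtain ⟨z, hz, rfl⟩ := hp
  obtain ⟨w, hw, rfl⟩ := hq
  obtain ⟨A, B, hA, hB, hU, hI⟩ := spD_circle.split hz hw (fun h => hpq (by rw [h]))
  have hAs : A ⊆ sphere (0 : ℂ) 1 := hU ▸ subset_union_left
  have hBs : B ⊆ sphere (0 : ℂ) 1 := hU ▸ subset_union_right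
  have hA' : ArcX A z w := hA
  have hB' : ArcX B z w := hB
  refine ⟨γ '' A, γ '' B, hA'.image (hc.mono hAs) (hi.mono hAs), hB'.image (hc.mono hBs) (hi.mono hBs), ?_, ?_⟩
  · rw [← image_union, hU]
  · rw [← hi.image_inter hAs hBs, hI, image_pair]

theorem JorX.glue (hA : ArcX A p q) (hB : ArcX B p q) (hAB : A ∩ B = {p, q}) : JorX (A ∪ B) := by
  obtain ⟨α, hαc, hαi, rfl, hα0, hα1⟩ := hA
  obtain ⟨β, hβc, hβi, rfl, hβ0, hβ1⟩ := hB
  obtain ⟨A', B', hA', hB', hU, hI⟩ := spD_circle.split spD_one spD_neg spD_one_ne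
  obtain ⟨α', hαc', hαi', rfl, hα0', hα1'⟩ := hA'
  obtain ⟨β', hβc', hβi', rfl, hβ0', hβ1'⟩ := hB'
  obtain ⟨τ, hτc, hτ⟩ := exists_inverse isCompact_Icc hαc' hαi'
  obtain ⟨τ', hτc', hτ'⟩ := exists_inverse isCompact_Icc hβc' hβi'
  have h0 : (0 : ℝ) ∈ Icc (0 : ℝ) 1 := left_mem_Icc.2 zero_le_one
  have h1 : (1 : ℝ) ∈ Icc (0 : ℝ) 1 := right_mem_Icc.2 zero_le_one
  have hτm : ∀ z ∈ α' '' Icc 0 1, τ z ∈ Icc (0 : ℝ) 1 := by
    rintro z ⟨t, ht, rfl⟩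
    rwa [hτ t ht]
  have hτm' : ∀ z ∈ β' '' Icc 0 1, τ' z ∈ Icc (0 : ℝ) 1 := by
    rintro z ⟨t, ht, rfl⟩
    rwa [hτ' t ht]
  have hτr : ∀ z ∈ α' '' Icc 0 1, α' (τ z) = z := by
    rintro z ⟨t, ht, rfl⟩
    rw [hτ t ht]
  have hτr' : ∀ z ∈ β' '' Icc 0 1, β' (τ' z) = z := by
    rintro z ⟨t, ht, rfl⟩
    rw [hτ' t ht]
  classical
  set γ : ℂ → X := fun z => if z ∈ α' '' Icc 0 1 then α (τ z) else β (τ' z) with hγ
  have e1 : ∀ z ∈ α' '' Icc 0 1, γ z = α (τ z) := fun z hz => if_pos hz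
  have t1 : τ 1 = 0 := by rw [← hα0', hτ 0 h0]
  have t2 : τ (-1) = 1 := by rw [← hα1', hτ 1 h1]
  have t1' : τ' 1 = 0 := by rw [← hβ0', hτ' 0 h0]
  have t2' : τ' (-1) = 1 := by rw [← hβ1', hτ' 1 h1]
  have e2 : ∀ z ∈ β' '' Icc 0 1, γ z = β (τ' z) := by
    intro z hz
    by_cases h : z ∈ α' '' Icc 0 1
    · rw [e1 z h]
      have hz2 : z ∈ ({1, -1} : Set ℂ) := hI ▸ ⟨h, hz⟩
      rcases hz2 with rfl | hz2
      · rw [t1, t1', hα0, hβ0]
      · have hz3 : z = -1 := hz2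
        rw [hz3, t2, t2', hα1, hβ1]
    · exact if_neg h
  have hc1 : ContinuousOn γ (α' '' Icc 0 1) := (hαc.comp hτc hτm).congr e1
  have hc2 : ContinuousOn γ (β' '' Icc 0 1) := (hβc.comp hτc' hτm').congr e2
  have hcl1 : IsClosed (α' '' Icc 0 1) := (isCompact_Icc.image_of_continuousOn hαc').isClosed
  have hcl2 : IsClosed (β' '' Icc 0 1) := (isCompact_Icc.image_of_continuousOn hβc').isClosed
  have hi1 : InjOn γ (α' '' Icc 0 1) := by
    intro z hz w hw hzw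
    rw [e1 z hz, e1 w hw] at hzw
    rw [← hτr z hz, ← hτr w hw, hαi (hτm z hz) (hτm w hw) hzw]
  have hi2 : InjOn γ (β' '' Icc 0 1) := by
    intro z hz w hw hzw
    rw [e2 z hz, e2 w hw] at hzw
    rw [← hτr' z hz, ← hτr' w hw, hβi (hτm' z hz) (hτm' w hw) hzw]
  have him1 : γ '' (α' '' Icc 0 1) = α '' Icc 0 1 := by
    apply Subset.antisymm
    · rintro y ⟨z, hz, rfl⟩
      rw [e1 z hz]
      exact ⟨_, hτm z hz, rfl⟩
    · rintro y ⟨t, ht, rfl⟩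
      refine ⟨α' t, ⟨t, ht, rfl⟩, ?_⟩
      rw [e1 _ ⟨t, ht, rfl⟩, hτ t ht]
  have him2 : γ '' (β' '' Icc 0 1) = β '' Icc 0 1 := by
    apply Subset.antisymm
    · rintro y ⟨z, hz, rfl⟩
      rw [e2 z hz]
      exact ⟨_, hτm' z hz, rfl⟩
    · rintro y ⟨t, ht, rfl⟩
      refine ⟨β' t, ⟨t, ht, rfl⟩, ?_⟩
      rw [e2 _ ⟨t, ht, rfl⟩, hτ' t ht]
  have m1 : (1 : ℂ) ∈ α' '' Icc 0 1 := ⟨0, h0, hα0'⟩
  have m1' : (1 : ℂ) ∈ β' '' Icc 0 1 := ⟨0, h0, hβ0'⟩
  have m2 : (-1 : ℂ) ∈ α' '' Icc 0 1 := ⟨1, h1, hα1'⟩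
  have m2' : (-1 : ℂ) ∈ β' '' Icc 0 1 := ⟨1, h1, hβ1'⟩
  have g1 : γ 1 = p := by rw [e1 1 m1, t1, hα0]
  have g2 : γ (-1) = q := by rw [e1 (-1) m2, t2, hα1]
  have hcross : ∀ z ∈ α' '' Icc 0 1, ∀ w ∈ β' '' Icc 0 1, γ z = γ w → z = w := by
    intro z hz w hw hzw
    have hmem : γ z ∈ α '' Icc 0 1 ∩ β '' Icc 0 1 := by
      refine ⟨?_, ?_⟩
      · rw [← him1]
        exact ⟨z, hz, rfl⟩
      · rw [← him2, hzw]
        exact ⟨w, hw, rfl⟩
    rw [hAB] at hmem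
    rcases hmem with h | h
    · have hz1 : z = 1 := hi1 hz m1 (by rw [h, g1])
      have hw1 : w = 1 := hi2 hw m1' (by rw [← hzw, h, g1])
      rw [hz1, hw1]
    · have h' : γ z = q := h
      have hz1 : z = -1 := hi1 hz m2 (by rw [h', g2])
      have hw1 : w = -1 := hi2 hw m2' (by rw [← hzw, h', g2])
      rw [hz1, hw1]
  refine ⟨γ, ?_, ?_, ?_⟩
  · rw [← hU]
    exact hc1.union_of_isClosed hc2 hcl1 hcl2
  · rw [← hU]
    intro z hz w hw hzw
    rcases hz with hz | hz <;> rcases hw with hw | hw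
    · exact hi1 hz hw hzw
    · exact hcross z hz w hw hzw
    · exact (hcross w hw z hz hzw.symm).symm
    · exact hi2 hz hw hzw
  · rw [← hU, image_union, him1, him2]

theorem JorX.subarc (hJ : JorX J) (hF : IsClosed F) (hFJ : F ⊆ J) (hne : F ≠ J) :
    ∃ A p q, ArcX A p q ∧ F ⊆ A ∧ A ⊆ J := by
  obtain ⟨γ, hc, hi, rfl⟩ := hJ
  have hF' : IsClosed (sphere (0 : ℂ) 1 ∩ γ ⁻¹' F) :=
    hc.preimage_isClosed_of_isClosed isClosed_sphere hF
  have hne' : sphere (0 : ℂ) 1 ∩ γ ⁻¹' F ≠ sphere (0 : ℂ) 1 := by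
    intro h
    apply hne
    apply Subset.antisymm hFJ
    rintro y ⟨z, hz, rfl⟩
    rw [← h] at hz
    exact hz.2
  obtain ⟨A, z, w, hA, hFA, hAs⟩ := spD_circle.subarc hF' inter_subset_left hne'
  have hA' : ArcX A z w := hA
  refine ⟨γ '' A, γ z, γ w, hA'.image (hc.mono hAs) (hi.mono hAs), ?_, image_mono hAs⟩
  intro y hy
  obtain ⟨u, hu, rfl⟩ := hFJ hy
  exact ⟨u, hFA ⟨hu, hy⟩, rfl⟩

theorem JorX.image {Y : Type*} [TopologicalSpace Y] (hJ : JorX J) {f : X → Y} (hf : ContinuousOn f J)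
    (hi : InjOn f J) : JorX (f '' J) := by
  obtain ⟨γ, hc, hγi, rfl⟩ := hJ
  exact ⟨f ∘ γ, hf.comp hc (mapsTo_image γ _), hi.comp hγi (mapsTo_image γ _), image_comp f γ _⟩

end Pool.JS
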