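import Pool.Agent.JS.PgDefs
import Pool.Agent.JS.SpD

/-!
MODULE PgG (difficulty 3).  Two disjoint arcs on a simple closed curve; arcs in the union of two arcs.

RECIPE.  `matching`: if `b = c` the arc from `b'` to `c'` on `J` which avoids `b` (`JorX.split` at `b', c'`: one of the two arcs does not contain `b`), or the point if `b' = c'`; the same for `b = c'`, `b' = c`, `b' = c'`.  If all four points are different: `JorX.split` at `b, b'`: arcs `A`, `B`.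
If `c ∈ A`, `c' ∈ B`: cut `A` at `c` and `B` at `c'` (`ArcX.split`), take the parts from `b` to `c` and from `c'` to `b'`: disjoint, because `A ∩ B = {b, b'}`, the first part does not contain `b'` and the second one does not contain `b`.  The same for `c ∈ B`, `c' ∈ A`.  If both are in `A`: cut `A` at `c`: `A₁` from `b` to `c`, `A₂` from `c` to `b'`;
if `c' ∈ A₂`: cut `A₂` at `c'` and take `A₁` and the part from `c'` to `b'`; if `c' ∈ A₁`: cut `A₁` at `c'` and take the part from `b` to `c'` and `A₂`.  Same for `B`.  (`A₁ ∩ A₂ = {c}`.)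
`union_arc`: let `α` be parametrised by `γ`, `s` the least `t ∈ Icc 0 1` with `γ t ∈ β` (closed set, `b ∈ β`), `m = γ s`.  If `m = c`: the part of `α` from `a` to `c` (or `α` if `s = 1`).  If `m = a`: the part of `β` from `a` to `c` (or `β`).  Otherwise: the part of `α` from `a` to `m` and the part of `β` from `m` to `c` (`ArcX.split`, or all of it if `m = b`), they meet in `m` only, `ArcX.trans`.
-/

open Set Metric Topology

namespace Pool.JS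

variable {X : Type*} [TopologicalSpace X] [T2Space X] {J α β : Set X} {a b b' c c' : X}

omit [T2Space X] in
theorem pgg_arc0_refl (x : X) : Arc0 {x} x x := Or.inl ⟨rfl, rfl⟩

/-- an arc or a point of the curve which avoids a point -/
theorem pgg_avoid (hJ : JorX J) {x y : X} (hx : x ∈ J) (hy : y ∈ J) (hbx : x ≠ b) (hby : y ≠ b) :
    ∃ p ⊆ J, Arc0 p x y ∧ b ∉ p := by
  by_cases hxy : x = y
  · subst hxy
    exact ⟨{x}, singleton_subset_iff.2 hx, Or.inl ⟨rfl, rfl⟩, fun h => hbx (mem_singleton_iff.1 h).symm⟩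
  · obtain ⟨A, B, hA, hB, hU, hI⟩ := hJ.split hx hy hxy
    by_cases hbA : b ∈ A
    · refine ⟨B, fun z hz => hU ▸ Or.inr hz, Or.inr hB, fun hbB => ?_⟩
      have h1 : b ∈ A ∩ B := ⟨hbA, hbB⟩
      rw [hI] at h1
      rcases h1 with h2 | h2
      · exact hbx h2.symm
      · exact hby (mem_singleton_iff.1 h2).symm
    · exact ⟨A, fun z hz => hU ▸ Or.inl hz, Or.inr hA, hbA⟩

/-- both points on one arc -/
theorem pgg_same {A : Set X} (hA : ArcX A b b') (hc : c ∈ A) (hc' : c' ∈ A) (hcb : c ≠ b) (hcb' : c ≠ b')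
    (hc'b : c' ≠ b) (hc'b' : c' ≠ b') (hcc : c ≠ c') :
    ∃ p ⊆ A, ∃ p' ⊆ A, Disjoint p p' ∧ ((Arc0 p b c ∧ Arc0 p' b' c') ∨ (Arc0 p b c' ∧ Arc0 p' b' c)) := by
  obtain ⟨A₁, A₂, h1, h2, hU, hI⟩ := hA.split hc hcb hcb'
  rw [← hU] at hc'
  rcases hc' with hc' | hc'
  · obtain ⟨A₃, A₄, h3, h4, hU', hI'⟩ := h1.split hc' hc'b (Ne.symm hcc)
    refine ⟨A₃, fun z hz => hU ▸ Or.inl (hU' ▸ Or.inl hz), A₂, fun z hz => hU ▸ Or.inr hz, ?_,
      Or.inr ⟨Or.inr h3, Or.inr h2.symm⟩⟩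
    rw [disjoint_left]
    intro z hz hz'
    have h5 : z ∈ A₁ ∩ A₂ := ⟨hU' ▸ Or.inl hz, hz'⟩
    rw [hI] at h5
    have h6 : z = c := h5
    rw [h6] at hz
    have h7 : c ∈ A₃ ∩ A₄ := ⟨hz, h4.right_mem⟩
    rw [hI'] at h7
    exact hcc h7
  · obtain ⟨A₃, A₄, h3, h4, hU', hI'⟩ := h2.split hc' (Ne.symm hcc) hc'b'
    refine ⟨A₁, fun z hz => hU ▸ Or.inl hz, A₄, fun z hz => hU ▸ Or.inr (hU' ▸ Or.inr hz), ?_,
      Or.inl ⟨Or.inr h1, Or.inr h4.symm⟩⟩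
    rw [disjoint_left]
    intro z hz hz'
    have h5 : z ∈ A₁ ∩ A₂ := ⟨hz, hU' ▸ Or.inr hz'⟩
    rw [hI] at h5
    have h6 : z = c := h5
    rw [h6] at hz'
    have h7 : c ∈ A₃ ∩ A₄ := ⟨h3.left_mem, hz'⟩
    rw [hI'] at h7
    exact hcc h7

/-- one point on each arc -/
theorem pgg_diff {A B : Set X} (hA : ArcX A b b') (hB : ArcX B b b') (hAB : A ∩ B = {b, b'}) (hc : c ∈ A) (hc' : c' ∈ B)
    (hcb : c ≠ b) (hcb' : c ≠ b') (hc'b : c' ≠ b) (hc'b' : c' ≠ b') :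
    ∃ p ⊆ A, ∃ p' ⊆ B, Disjoint p p' ∧ (Arc0 p b c ∧ Arc0 p' b' c') := by
  obtain ⟨A₁, A₂, h1, h2, hU, hI⟩ := hA.split hc hcb hcb'
  obtain ⟨B₁, B₂, h3, h4, hU', hI'⟩ := hB.split hc' hc'b hc'b'
  refine ⟨A₁, fun z hz => hU ▸ Or.inl hz, B₂, fun z hz => hU' ▸ Or.inr hz, ?_, Or.inr h1, Or.inr h4.symm⟩
  rw [disjoint_left]
  intro z hz hz'
  have h5 : z ∈ A ∩ B := ⟨hU ▸ Or.inl hz, hU' ▸ Or.inr hz'⟩
  rw [hAB] at h5
  rcases h5 with h5 | h5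
  · rw [h5] at hz'
    have h6 : b ∈ B₁ ∩ B₂ := ⟨h3.left_mem, hz'⟩
    rw [hI'] at h6
    exact hc'b (mem_singleton_iff.1 h6).symm
  · have h5' : z = b' := h5
    rw [h5'] at hz
    have h6 : b' ∈ A₁ ∩ A₂ := ⟨hz, h2.right_mem⟩
    rw [hI] at h6
    exact hcb' (mem_singleton_iff.1 h6).symm

omit [T2Space X] in
theorem pgg_sub {g : ℝ → X} {s : ℝ} (hs : 0 < s) (hs1 : s ≤ 1) (hc : ContinuousOn g (Icc 0 1)) (hi : InjOn g (Icc 0 1)) :
    ArcX (g '' Icc 0 s) (g 0) (g s) := by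
  have hm : MapsTo (fun t : ℝ => s * t) (Icc 0 1) (Icc 0 1) := by
    intro t ht
    refine ⟨mul_nonneg hs.le ht.1, ?_⟩
    have : s * t ≤ 1 * 1 := mul_le_mul hs1 ht.2 ht.1 zero_le_one
    show s * t ≤ 1
    linarith
  refine ⟨fun t => g (s * t), hc.comp (by fun_prop) hm, ?_, ?_, by simp, by simp⟩
  · intro t ht t' ht' h
    have h1 := hi (hm ht) (hm ht') h
    exact mul_left_cancel₀ hs.ne' h1
  · ext x
    constructor
    · rintro ⟨t, ht, rfl⟩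
      exact ⟨s * t, ⟨mul_nonneg hs.le ht.1, by nlinarith [ht.2]⟩, rfl⟩
    · rintro ⟨u, hu, rfl⟩
      refine ⟨u / s, ⟨div_nonneg hu.1 hs.le, (div_le_one hs).2 hu.2⟩, ?_⟩
      show g (s * (u / s)) = g u
      rw [mul_div_cancel₀ _ hs.ne']

theorem JorX.matching (hJ : JorX J) (hb : b ∈ J) (hb' : b' ∈ J) (hc : c ∈ J) (hc' : c' ∈ J) (hbb : b ≠ b')
    (hcc : c ≠ c') : ∃ p ⊆ J, ∃ p' ⊆ J, Disjoint p p' ∧ ((Arc0 p b c ∧ Arc0 p' b' c') ∨ (Arc0 p b c' ∧ Arc0 p' b' c)) := by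
  by_cases h1 : b = c
  · obtain ⟨p', hp', ha, hn⟩ := pgg_avoid hJ (b := b) hb' hc' (Ne.symm hbb) (by rw [h1]; exact Ne.symm hcc)
    refine ⟨{b}, singleton_subset_iff.2 hb, p', hp', disjoint_singleton_left.2 hn, Or.inl ⟨Or.inl ⟨h1, rfl⟩, ha⟩⟩
  by_cases h2 : b = c'
  · obtain ⟨p', hp', ha, hn⟩ := pgg_avoid hJ (b := b) hb' hc (Ne.symm hbb) (by rw [h2]; exact hcc)
    refine ⟨{b}, singleton_subset_iff.2 hb, p', hp', disjoint_singleton_left.2 hn, Or.inr ⟨Or.inl ⟨h2, rfl⟩, ha⟩⟩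
  by_cases h3 : b' = c
  · obtain ⟨p, hp, ha, hn⟩ := pgg_avoid hJ (b := b') hb hc' hbb (by rw [h3]; exact Ne.symm hcc)
    refine ⟨p, hp, {b'}, singleton_subset_iff.2 hb', disjoint_singleton_right.2 hn, Or.inr ⟨ha, Or.inl ⟨h3, rfl⟩⟩⟩
  by_cases h4 : b' = c'
  · obtain ⟨p, hp, ha, hn⟩ := pgg_avoid hJ (b := b') hb hc hbb (by rw [h4]; exact hcc)
    refine ⟨p, hp, {b'}, singleton_subset_iff.2 hb', disjoint_singleton_right.2 hn, Or.inl ⟨ha, Or.inl ⟨h4, rfl⟩⟩⟩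
  obtain ⟨A, B, hA, hB, hU, hI⟩ := hJ.split hb hb' hbb
  have hAJ : A ⊆ J := fun z hz => hU ▸ Or.inl hz
  have hBJ : B ⊆ J := fun z hz => hU ▸ Or.inr hz
  rw [← hU] at hc hc'
  rcases hc with hc | hc
  · rcases hc' with hc' | hc'
    · obtain ⟨p, hp, p', hp', hd, h5⟩ := pgg_same hA hc hc' (Ne.symm h1) (Ne.symm h3) (Ne.symm h2) (Ne.symm h4) hcc
      exact ⟨p, hp.trans hAJ, p', hp'.trans hAJ, hd, h5⟩
    · obtain ⟨p, hp, p', hp', hd, h5⟩ := pgg_diff hA hB hI hc hc' (Ne.symm h1) (Ne.symm h3) (Ne.symm h2) (Ne.symm h4)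
      exact ⟨p, hp.trans hAJ, p', hp'.trans hBJ, hd, Or.inl h5⟩
  · rcases hc' with hc' | hc'
    · obtain ⟨p, hp, p', hp', hd, h5⟩ := pgg_diff hB hA (by rw [inter_comm]; exact hI) hc hc' (Ne.symm h1) (Ne.symm h3)
        (Ne.symm h2) (Ne.symm h4)
      exact ⟨p, hp.trans hBJ, p', hp'.trans hAJ, hd, Or.inl h5⟩
    · obtain ⟨p, hp, p', hp', hd, h5⟩ := pgg_same hB hc hc' (Ne.symm h1) (Ne.symm h3) (Ne.symm h2) (Ne.symm h4) hcc
      exact ⟨p, hp.trans hBJ, p', hp'.trans hBJ, hd, h5⟩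

theorem ArcX.union_arc (hα : ArcX α a b) (hβ : ArcX β b c) (hac : a ≠ c) : ∃ γ ⊆ α ∪ β, ArcX γ a c := by
  obtain ⟨g, hgc, hgi, hgα, hga, hgb⟩ := hα
  have hSc : IsClosed (Icc (0 : ℝ) 1 ∩ g ⁻¹' β) := hgc.preimage_isClosed_of_isClosed isClosed_Icc hβ.isCompact.isClosed
  have hSn : (Icc (0 : ℝ) 1 ∩ g ⁻¹' β).Nonempty :=
    ⟨1, ⟨zero_le_one, le_rfl⟩, by show g 1 ∈ β; rw [hgb]; exact hβ.left_mem⟩
  have hSb : BddBelow (Icc (0 : ℝ) 1 ∩ g ⁻¹' β) := ⟨0, fun t ht => ht.1.1⟩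
  obtain ⟨s, hs_def⟩ : ∃ s : ℝ, s = sInf (Icc (0 : ℝ) 1 ∩ g ⁻¹' β) := ⟨_, rfl⟩
  have hsS : s ∈ Icc (0 : ℝ) 1 ∩ g ⁻¹' β := by
    rw [hs_def]
    exact hSc.csInf_mem hSn hSb
  have hsl : ∀ t ∈ Icc (0 : ℝ) 1 ∩ g ⁻¹' β, s ≤ t := fun t ht => by
    rw [hs_def]
    exact csInf_le hSb ht
  have hmβ : g s ∈ β := hsS.2
  -- the part of the second arc
  have hC : g s ≠ c → ∃ C ⊆ β, ArcX C (g s) c := by
    intro hmc
    by_cases hmb : g s = b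
    · rw [hmb]
      exact ⟨β, subset_rfl, hβ⟩
    · obtain ⟨B, C, h1, h2, hU, hI⟩ := hβ.split hmβ hmb hmc
      exact ⟨C, fun z hz => hU ▸ Or.inr hz, h2⟩
  rcases hsS.1.1.eq_or_lt with hs0 | hs0
  · rw [← hs0, hga] at hC
    obtain ⟨C, hCβ, hCa⟩ := hC hac
    exact ⟨C, hCβ.trans subset_union_right, hCa⟩
  · have hA := pgg_sub hs0 hsS.1.2 hgc hgi
    rw [hga] at hA
    have hAα : g '' Icc 0 s ⊆ α := by
      rw [← hgα]
      exact image_mono (Icc_subset_Icc le_rfl hsS.1.2)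
    by_cases hmc : g s = c
    · rw [hmc] at hA
      exact ⟨_, hAα.trans subset_union_left, hA⟩
    · obtain ⟨C, hCβ, hCa⟩ := hC hmc
      refine ⟨g '' Icc 0 s ∪ C, union_subset_union hAα hCβ, hA.trans hCa ?_⟩
      apply Subset.antisymm
      · rintro _ ⟨⟨t, ht, rfl⟩, htC⟩
        have h1 : s ≤ t := hsl t ⟨⟨ht.1, ht.2.trans hsS.1.2⟩, hCβ htC⟩
        have h2 : t = s := le_antisymm ht.2 h1
        rw [h2]
        rfl
      · rintro _ rfl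
        exact ⟨⟨s, ⟨hs0.le, le_rfl⟩, rfl⟩, hCa.left_mem⟩

end Pool.JS
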