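import Pool.Agent.JS.PgE

/-!
MODULE PgH (difficulty 3).  The tripod lemma.

RECIPE.  If `q 0 = q 1 = q 2`: trivial paths at `c = q 0`.  If exactly two of them agree, say `q 0 = q 1 ≠ q 2` (or another pair): `c = q 0`, a path from `q 0` to `q 2` (`PG.path`) and two trivial paths.  Otherwise all three are different: `P` a path from `q 0` to `q 1` (`PG.path`).  If `q 2 ∈ P`: `c = q 2`, `PG.cut`.
If not: `PG.path_between` with `S = P` (an edge is contained in `P` or meets it in `V` only, since `P` is a union of edges) and `T = {q 2}`: a path `Q` from `c ∈ P` to `q 2` with `Q ∩ P = {c}`.  If `c = q 0` or `c = q 1`: trivial path, `P` and `Q`; otherwise cut `P` at `c`.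
-/

open Set Metric Topology

namespace Pool.JS

variable {X : Type*} [TopologicalSpace X] [T2Space X] {V : Set X} {E A : Set (Set X)}

/-- the tripod lemma for three points -/
def PghTri (V : Set X) (A : Set (Set X)) (q₀ q₁ q₂ : X) : Prop :=
  ∃ c ∈ V, c ∈ ⋃₀ A ∧ ∃ p₀ p₁ p₂ : Set X, PathG0 A p₀ c q₀ ∧ PathG0 A p₁ c q₁ ∧ PathG0 A p₂ c q₂ ∧
    p₀ ∩ p₁ = {c} ∧ p₀ ∩ p₂ = {c} ∧ p₁ ∩ p₂ = {c}

omit [T2Space X] in
theorem PghTri.swap₁ {q₀ q₁ q₂ : X} (h : PghTri V A q₀ q₁ q₂) : PghTri V A q₁ q₀ q₂ := by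
  obtain ⟨c, hc, hcA, p₀, p₁, p₂, h0, h1, h2, h3, h4, h5⟩ := h
  exact ⟨c, hc, hcA, p₁, p₀, p₂, h1, h0, h2, by rw [inter_comm]; exact h3, h5, h4⟩

omit [T2Space X] in
theorem PghTri.swap₂ {q₀ q₁ q₂ : X} (h : PghTri V A q₀ q₁ q₂) : PghTri V A q₀ q₂ q₁ := by
  obtain ⟨c, hc, hcA, p₀, p₁, p₂, h0, h1, h2, h3, h4, h5⟩ := h
  exact ⟨c, hc, hcA, p₀, p₂, p₁, h0, h2, h1, h4, h3, by rw [inter_comm]; exact h5⟩

theorem pgh_left_mem {B : Set (Set X)} {p : Set X} {a b : X} (h : PathG0 B p a b) : a ∈ p := by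
  rcases h with ⟨-, rfl⟩ | h
  · exact mem_singleton a
  · exact h.1.left_mem

omit [T2Space X] in
theorem pgh_one {c : X} {p : Set X} (h : c ∈ p) : ({c} : Set X) ∩ p = {c} :=
  inter_eq_left.2 (singleton_subset_iff.2 h)

theorem pgh_same (h : PG V E) (hA : A ⊆ E) (hc : IsPreconnected (⋃₀ A)) {q₀ q₂ : X} (h0 : q₀ ∈ V ∧ q₀ ∈ ⋃₀ A)
    (h2 : q₂ ∈ V ∧ q₂ ∈ ⋃₀ A) : PghTri V A q₀ q₀ q₂ := by
  have key : ∃ p, PathG0 A p q₀ q₂ := by
    by_cases he : q₀ = q₂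
    · exact ⟨{q₀}, Or.inl ⟨he, rfl⟩⟩
    · obtain ⟨p, hp⟩ := h.path hA hc h0.1 h2.1 h0.2 h2.2 he
      exact ⟨p, Or.inr hp⟩
  obtain ⟨p, hp⟩ := key
  exact ⟨q₀, h0.1, h0.2, {q₀}, {q₀}, p, Or.inl ⟨rfl, rfl⟩, Or.inl ⟨rfl, rfl⟩, hp, inter_self _,
    pgh_one (pgh_left_mem hp), pgh_one (pgh_left_mem hp)⟩

theorem pgh_ne (h : PG V E) (hA : A ⊆ E) (hc : IsPreconnected (⋃₀ A)) {q₀ q₁ q₂ : X} (h0 : q₀ ∈ V ∧ q₀ ∈ ⋃₀ A)
    (h1 : q₁ ∈ V ∧ q₁ ∈ ⋃₀ A) (h2 : q₂ ∈ V ∧ q₂ ∈ ⋃₀ A) (h01 : q₀ ≠ q₁) (h02 : q₀ ≠ q₂) (h12 : q₁ ≠ q₂) :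
    PghTri V A q₀ q₁ q₂ := by
  obtain ⟨P, hP⟩ := h.path hA hc h0.1 h1.1 h0.2 h1.2 h01
  have hG := h.sub hA
  by_cases hq : q₂ ∈ P
  · obtain ⟨p₁, p₂, e1, e2, -, e4⟩ := hG.cut hP ⟨h2.1, h2.2⟩ hq h02.symm h12.symm
    refine ⟨q₂, h2.1, h2.2, p₁, p₂, {q₂}, Or.inr e1.symm, Or.inr e2, Or.inl ⟨rfl, rfl⟩, e4, ?_, ?_⟩
    · rw [inter_comm]
      exact pgh_one e1.1.right_mem
    · rw [inter_comm]
      exact pgh_one e2.1.left_mem
  · obtain ⟨hParc, E', hE', hPe⟩ := hP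
    have hS : ∀ e ∈ A, e ⊆ P ∨ e ∩ P ⊆ V := by
      intro e he
      by_cases hee : e ∈ E'
      · left
        rw [hPe]
        exact subset_sUnion_of_mem hee
      · right
        rintro x ⟨hx, hx'⟩
        rw [hPe] at hx'
        obtain ⟨e', he', hxe'⟩ := hx'
        refine h.inter e (hA he) e' (hA (hE' he')) ?_ ⟨hx, hxe'⟩
        rintro rfl
        exact hee he'
    have hT : ∀ e ∈ A, e ⊆ {q₂} ∨ e ∩ {q₂} ⊆ V := by
      intro e _
      right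
      rintro x ⟨-, hx⟩
      rw [mem_singleton_iff.1 hx]
      exact h2.1
    have hP' : PathG A P q₀ q₁ := ⟨hParc, E', hE', hPe⟩
    obtain ⟨s, t, p, hp, hs, ht⟩ := h.path_between hA hc hS hT ⟨q₀, ⟨hParc.left_mem, h0.1⟩, h0.2⟩
      ⟨q₂, ⟨mem_singleton q₂, h2.1⟩, h2.2⟩ (disjoint_singleton_right.2 hq)
    have ht' : t = q₂ := by
      have : t ∈ p ∩ {q₂} := by
        rw [ht]
        exact mem_singleton t
      exact this.2
    subst ht'
    have hsP : s ∈ p ∩ P := by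
      rw [hs]
      exact mem_singleton s
    have hsV : s ∈ V ∩ ⋃₀ A := (hG.end_mem hp).1
    by_cases hs0 : s = q₀
    · subst hs0
      refine ⟨s, h0.1, h0.2, {s}, P, p, Or.inl ⟨rfl, rfl⟩, Or.inr hP', Or.inr hp, pgh_one hsP.2, pgh_one hsP.1, ?_⟩
      rw [inter_comm]
      exact hs
    · by_cases hs1 : s = q₁
      · subst hs1
        refine ⟨s, h1.1, h1.2, P, {s}, p, Or.inr hP'.symm, Or.inl ⟨rfl, rfl⟩, Or.inr hp, ?_, ?_, pgh_one hsP.1⟩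
        · rw [inter_comm]
          exact pgh_one hsP.2
        · rw [inter_comm]
          exact hs
      · obtain ⟨p₁, p₂, e1, e2, e3, e4⟩ := hG.cut hP' hsV hsP.2 hs0 hs1
        refine ⟨s, hsV.1, hsV.2, p₁, p₂, p, Or.inr e1.symm, Or.inr e2, Or.inr hp, e4, ?_, ?_⟩
        · apply Subset.antisymm
          · rw [← hs]
            rintro x ⟨hx, hx'⟩
            refine ⟨hx', ?_⟩
            rw [← e3]
            exact Or.inl hx
          · exact singleton_subset_iff.2 ⟨e1.1.right_mem, hsP.1⟩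
        · apply Subset.antisymm
          · rw [← hs]
            rintro x ⟨hx, hx'⟩
            refine ⟨hx', ?_⟩
            rw [← e3]
            exact Or.inr hx
          · exact singleton_subset_iff.2 ⟨e2.1.left_mem, hsP.1⟩

theorem PG.tripod (h : PG V E) (hA : A ⊆ E) (hc : IsPreconnected (⋃₀ A)) (q : Fin 3 → X) (hq : ∀ j, q j ∈ V ∧ q j ∈ ⋃₀ A) :
    ∃ c ∈ V, c ∈ ⋃₀ A ∧ ∃ p : Fin 3 → Set X, (∀ j, PathG0 A (p j) c (q j)) ∧ ∀ i j, i ≠ j → p i ∩ p j = {c} := by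
  have key : PghTri V A (q 0) (q 1) (q 2) := by
    by_cases h01 : q 0 = q 1
    · rw [← h01]
      exact pgh_same h hA hc (hq 0) (hq 2)
    · by_cases h02 : q 0 = q 2
      · rw [← h02]
        exact (pgh_same h hA hc (hq 0) (hq 1)).swap₂
      · by_cases h12 : q 1 = q 2
        · rw [← h12]
          exact ((pgh_same h hA hc (hq 1) (hq 0)).swap₂).swap₁
        · exact pgh_ne h hA hc (hq 0) (hq 1) (hq 2) h01 h02 h12
  obtain ⟨c, hcV, hcA, p₀, p₁, p₂, k0, k1, k2, k3, k4, k5⟩ := key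
  refine ⟨c, hcV, hcA, ![p₀, p₁, p₂], ?_, ?_⟩
  · intro j
    fin_cases j
    · exact k0
    · exact k1
    · exact k2
  · intro i j hij
    fin_cases i <;> fin_cases j
    · exact absurd rfl hij
    · exact k3
    · exact k4
    · rw [inter_comm]
      exact k3
    · exact absurd rfl hij
    · exact k5
    · rw [inter_comm]
      exact k4
    · rw [inter_comm]
      exact k5
    · exact absurd rfl hij

end Pool.JS
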