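import Pool.Agent.JS.PgO

/-!
MODULE PgJ (difficulty 3).  If all faces are discs then the graph has no cut point.

RECIPE.  `noCut_aux`: fix `x`; suppose `G \ {x}` is covered by closed sets `A`, `B`, both meet it and `(G \ {x}) ∩ A ∩ B = ∅`.  For `U ∈ 𝒰` the set `frontier U \ {x}` is nonempty and preconnected (`JorX.noCut`), contained in `G \ {x}`, so in `A` or in `B` (not both).
Let `P = ⋃ {closure U | U ∈ 𝒰, frontier U \ {x} ⊆ A}` and `Q` the same for `B`: closed (finite unions), they cover `Y`.  `Y \ {x}` is preconnected, and `P`, `Q` both meet it (a point of `(G \ {x}) ∩ A` lies in `closure U` for some `U ∈ 𝒰`, not in `U`, so in `frontier U`, and then `frontier U \ {x} ⊆ A`).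
So there is `y ≠ x` in `closure U ∩ closure U'`, `frontier U \ {x} ⊆ A`, `frontier U' \ {x} ⊆ B`.  Then `U ≠ U'`, `U`, `U'` are open and disjoint, so `y ∈ frontier U ∩ frontier U'`: `y ∈ A ∩ B`, contradiction.
`noCut_of_discs`: `Y = univ` (`{x}ᶜ` is connected: `sph_compl`), `𝒰 = Fc E`.  `noCut_inter`: `Y = closure U₀`, `𝒰 = {U ∈ Fc E | U ⊆ U₀}`, `G = ⋃₀ E ∩ closure U₀` (`PG.disc_cover`, `DiscDom.noCut`).
-/

open Set Metric Topology

namespace Pool.JS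

variable {X : Type*} [TopologicalSpace X] [CompactSpace X] [T2Space X] [Sph X] {V U₀ G Y : Set X} {E 𝒰 : Set (Set X)}

theorem noCut_aux (hf : 𝒰.Finite) (hd : ∀ U ∈ 𝒰, DiscDom U) (hdis : ∀ U ∈ 𝒰, ∀ U' ∈ 𝒰, U ≠ U' → Disjoint U U')
    (hY : NoCut Y) (hcov : ∀ y ∈ Y, ∃ U ∈ 𝒰, y ∈ closure U) (hGY : G ⊆ Y) (hfr : ∀ U ∈ 𝒰, frontier U ⊆ G)
    (hint : ∀ U ∈ 𝒰, Disjoint U G) : NoCut G := by
  intro x
  rw [isPreconnected_closed_iff]
  intro A B hA hB hAB hAn hBn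
  by_contra hno
  have hno' : ∀ z, z ∈ G → z ≠ x → z ∈ A → z ∈ B → False := fun z hz hzx hzA hzB =>
    hno ⟨z, ⟨hz, hzx⟩, hzA, hzB⟩
  have hF : ∀ U ∈ 𝒰, frontier U \ {x} ⊆ A ∨ frontier U \ {x} ⊆ B := by
    intro U hU
    have hp := (hd U hU).jordan.noCut x
    rw [isPreconnected_closed_iff] at hp
    have hsub : frontier U \ {x} ⊆ A ∪ B := fun z hz => hAB ⟨hfr U hU hz.1, hz.2⟩
    by_cases h1 : ((frontier U \ {x}) ∩ A).Nonempty
    · by_cases h2 : ((frontier U \ {x}) ∩ B).Nonempty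
      · exfalso
        obtain ⟨z, ⟨hz, hzx⟩, hzA, hzB⟩ := hp A B hA hB hsub h1 h2
        exact hno' z (hfr U hU hz) hzx hzA hzB
      · left
        intro z hz
        rcases hsub hz with hh | hh
        · exact hh
        · exact absurd ⟨z, hz, hh⟩ h2
    · right
      intro z hz
      rcases hsub hz with hh | hh
      · exact absurd ⟨z, hz, hh⟩ h1
      · exact hh
  have hcl : ∀ A : Set X, IsClosed (⋃ U ∈ {U | U ∈ 𝒰 ∧ frontier U \ {x} ⊆ A}, closure U) := fun A =>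
    (hf.subset fun U hU => hU.1).isClosed_biUnion fun U _ => isClosed_closure
  have hcon := hY x
  rw [isPreconnected_closed_iff] at hcon
  have hmeet : ∀ A B : Set X, (∀ U ∈ 𝒰, frontier U \ {x} ⊆ A ∨ frontier U \ {x} ⊆ B) →
      (∀ z, z ∈ G → z ≠ x → z ∈ A → z ∈ B → False) → ((G \ {x}) ∩ A).Nonempty →
      ((Y \ {x}) ∩ ⋃ U ∈ {U | U ∈ 𝒰 ∧ frontier U \ {x} ⊆ A}, closure U).Nonempty := by
    rintro A B hF hno' ⟨z, ⟨hzG, hzx⟩, hzA⟩
    obtain ⟨U, hU, hzU⟩ := hcov z (hGY hzG)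
    have hzf : z ∈ frontier U := by
      rw [(hd U hU).isOpen.frontier_eq]
      exact ⟨hzU, fun hh => Set.disjoint_left.1 (hint U hU) hh hzG⟩
    rcases hF U hU with hh | hh
    · exact ⟨z, ⟨hGY hzG, hzx⟩, mem_biUnion (x := U) ⟨hU, hh⟩ hzU⟩
    · exact (hno' z hzG hzx hzA (hh ⟨hzf, hzx⟩)).elim
  obtain ⟨y, ⟨hyY, hyx⟩, hyP, hyQ⟩ := hcon _ _ (hcl A) (hcl B) (by
      rintro y ⟨hy, hyx⟩
      obtain ⟨U, hU, hyU⟩ := hcov y hy
      rcases hF U hU with hh | hh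
      · exact Or.inl (mem_biUnion (x := U) ⟨hU, hh⟩ hyU)
      · exact Or.inr (mem_biUnion (x := U) ⟨hU, hh⟩ hyU))
    (hmeet A B hF hno' hAn)
    (hmeet B A (fun U hU => (hF U hU).symm) (fun z hz hzx hzB hzA => hno' z hz hzx hzA hzB) hBn)
  obtain ⟨U, ⟨hU, hUA⟩, hyU⟩ := mem_iUnion₂.1 hyP
  obtain ⟨U', ⟨hU', hUB⟩, hyU'⟩ := mem_iUnion₂.1 hyQ
  have hne : U ≠ U' := by
    intro he
    rw [← he] at hUB
    obtain ⟨q, hq, hqx⟩ := (hd U hU).jordan.exists_ne x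
    exact hno' q (hfr U hU hq) hqx (hUA ⟨hq, hqx⟩) (hUB ⟨hq, hqx⟩)
  have hdj := hdis U hU U' hU' hne
  have h1 : y ∉ U' := fun hh => Set.disjoint_left.1 (hdj.closure_left (hd U' hU').isOpen) hyU hh
  have h2 : y ∉ U := fun hh => Set.disjoint_left.1 (hdj.symm.closure_left (hd U hU).isOpen) hyU' hh
  have f1 : y ∈ frontier U := by rw [(hd U hU).isOpen.frontier_eq]; exact ⟨hyU, h2⟩
  have f2 : y ∈ frontier U' := by rw [(hd U' hU').isOpen.frontier_eq]; exact ⟨hyU', h1⟩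
  exact hno' y (hfr U hU f1) hyx (hUA ⟨f1, hyx⟩) (hUB ⟨f2, hyx⟩)

theorem noCut_of_discs (h : PG V E) (hd : ∀ U ∈ Fc E, DiscDom U) : NoCut (⋃₀ E) := by
  refine noCut_aux (h.finite_discs hd) hd (fun U hU U' hU' hne => Fc.disj hU hU' hne) (Y := univ) ?_
    (fun y _ => h.cover hd y) (subset_univ _) (fun U hU => Fc.frontier_sub h hU) ?_
  · intro x
    have : (univ : Set X) \ {x} = {x}ᶜ := by
      ext y
      simp
    rw [this]
    exact (sph_compl x).isPreconnected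
  · intro U hU
    exact Set.disjoint_left.2 fun z hz hzE => (mem_Fc_iff.1 hU).sub hz hzE

theorem noCut_inter (h : PG V E) (hd : ∀ U ∈ Fc E, DiscDom U) (hU : DiscDom U₀) (hs : frontier U₀ ⊆ ⋃₀ E) :
    NoCut (⋃₀ E ∩ closure U₀) := by
  refine noCut_aux (𝒰 := {U | U ∈ Fc E ∧ U ⊆ U₀}) ((h.finite_discs hd).subset fun U hU => hU.1)
    (fun U hU => hd U hU.1) (fun U hU U' hU' hne => Fc.disj hU.1 hU'.1 hne) hU.noCut ?_ inter_subset_right ?_ ?_
  · intro y hy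
    obtain ⟨U, hUF, hUU, hyU⟩ := h.disc_cover hd hU hs hy
    exact ⟨U, ⟨hUF, hUU⟩, hyU⟩
  · rintro U ⟨hUF, hUU⟩
    exact subset_inter (Fc.frontier_sub h hUF) (frontier_subset_closure.trans (closure_mono hUU))
  · rintro U ⟨hUF, _⟩
    exact Set.disjoint_left.2 fun z hz hzE => (mem_Fc_iff.1 hUF).sub hz hzE.1

end Pool.JS
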