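import Pool.Agent.JS.PgA

/-!
MODULE PgL (difficulty 3).  Cyclic chains of sets.

RECIPE.  Fix `x`; we show that `(⋃ j, N j) \ {x}` is preconnected.  The sets `N j \ {x}`: if `NoCut (N j)` it is preconnected; if `N j` is an arc from `q (j - 1)` to `q j` it is preconnected when `x ∉ N j` or `x` is one of its end points (`ArcX.interior`: it lies between the connected dense set `N j \ {ends}` and `N j`).
Case 1: all sets `N j \ {x}` are preconnected.  Consecutive sets `N j`, `N (j + 1)` have the common point `q j`; `q j ≠ x` except for at most one `j` (injectivity).  The union along the cyclic order starting after this `j` is preconnected (`IsPreconnected.iUnion_of_chain`-type lemma: for the chain `i ↦ N (j₀ + 1 + i)`, `i < p`, neighbouring sets meet: `IsPreconnected.biUnion_of_chain`, or an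
induction on `i` for `⋃ i' ≤ i`).
Case 2: `x` is an inner point of an arc `N j₀` (`x ≠ q j` for all `j`: an end point would be in case 1; if `x = q j` with `j ≠ j₀ - 1, j₀`, then `x ∈ N j₀`: then `x` is not an end point of `N j₀`; this is excluded by hypothesis `hq`).  Then `x` is in no other arc, so the other `N j \ {x}` are preconnected, and their union, a chain from `N (j₀ + 1)` to `N (j₀ - 1)` linked by the points `q j ≠ x`, `j ≠ j₀ - 1, j₀`, is
preconnected and contains `q j₀` and `q (j₀ - 1)` (here `2 ≤ p`; for `p = 2` it is one set).  `N j₀ \ {x}` is the union of two preconnected sets containing `q (j₀ - 1)` resp. `q j₀` (`ArcX.split` at `x`, arcs without one end point).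
-/

open Set Metric Topology

namespace Pool.JS

variable {X : Type*} [TopologicalSpace X] [T2Space X]

theorem pgl_smul {n : ℕ} : ∀ (i : ℕ) (hi : i < n + 2), i • (1 : Fin (n + 2)) = ⟨i, hi⟩ := by
  intro i
  induction i with
  | zero => intro hi; rw [zero_nsmul]; rfl
  | succ i ih =>
    intro hi
    rw [succ_nsmul, ih (by omega)]
    apply Fin.ext
    rw [Fin.val_add]
    have h1 : ((1 : Fin (n + 2)) : ℕ) = 1 := rfl
    rw [h1]
    exact Nat.mod_eq_of_lt hi

theorem pgl_chain {n : ℕ} (N : Fin (n + 2) → Set X) (q : Fin (n + 2) → X) (hq1 : ∀ j, q j ∈ N j)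
    (hq2 : ∀ j, q j ∈ N (j + 1)) (x : X) (j₀ : Fin (n + 2)) (k : ℕ)
    (hk : ∀ i ≤ k, IsPreconnected (N (j₀ + 1 + i • (1 : Fin (n + 2))) \ {x}))
    (hx : ∀ i < k, q (j₀ + 1 + i • (1 : Fin (n + 2))) ≠ x) :
    IsPreconnected (⋃ i ∈ Iic k, (N (j₀ + 1 + i • (1 : Fin (n + 2))) \ {x})) := by
  refine IsPreconnected.biUnion_of_chain ordConnected_Iic (fun i hi => hk i hi) ?_
  intro i _ hi
  have hik : i < k := by
    have : Order.succ i ≤ k := hi
    rw [Nat.succ_eq_succ] at this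
    omega
  refine ⟨q (j₀ + 1 + i • (1 : Fin (n + 2))), ⟨hq1 _, hx i hik⟩, ?_, hx i hik⟩
  have : (Order.succ i) • (1 : Fin (n + 2)) = i • (1 : Fin (n + 2)) + 1 := by
    rw [Nat.succ_eq_succ, Nat.succ_eq_add_one, succ_nsmul]
  rw [this, ← add_assoc]
  exact hq2 _

theorem pgl_arc {A : Set X} {a b x : X} (h : ArcX A a b) (hx : x ∈ A → x = a ∨ x = b) :
    IsPreconnected (A \ {x}) := by
  refine h.interior.1.isPreconnected.subset_closure ?_ (sdiff_subset.trans h.interior.2)
  rintro y ⟨hy, hyn⟩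
  refine ⟨hy, fun hyx => ?_⟩
  rw [mem_singleton_iff] at hyx
  subst hyx
  exact hyn (hx hy)

/-- `n + 2` sets in cyclic order -/
theorem noCut_cycle {n : ℕ} (N : Fin (n + 2) → Set X) (q : Fin (n + 2) → X) (hqi : Function.Injective q)
    (hq1 : ∀ j, q j ∈ N j) (hq2 : ∀ j, q j ∈ N (j + 1))
    (hN : ∀ j, NoCut (N j) ∨ (ArcX (N j) (q (j - 1)) (q j) ∧ ∀ i, i ≠ j → i ≠ j - 1 → q i ∉ N j))
    (hd : ∀ i j, i ≠ j → ¬ NoCut (N i) → ¬ NoCut (N j) → N i ∩ N j ⊆ range q) : NoCut (⋃ j, N j) := by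
  intro x
  have hne : ∀ (j₀ : Fin (n + 2)) (i : ℕ), i < n + 1 → j₀ + 1 + i • (1 : Fin (n + 2)) ≠ j₀ := by
    intro j₀ i hi he
    have h1 : (i + 1) • (1 : Fin (n + 2)) = 0 := by
      rw [succ_nsmul, add_comm (i • (1 : Fin (n + 2))) 1]
      rw [add_assoc] at he
      exact add_eq_left.1 he
    rw [pgl_smul (i + 1) (by omega)] at h1
    have := congrArg Fin.val h1
    simp at this
  have hsurj : ∀ (j₀ j : Fin (n + 2)), ∃ i, i ≤ n + 1 ∧ j = j₀ + 1 + i • (1 : Fin (n + 2)) := by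
    intro j₀ j
    refine ⟨(j - j₀ - 1).val, by have := (j - j₀ - 1).isLt; omega, ?_⟩
    rw [pgl_smul _ (j - j₀ - 1).isLt]
    show j = j₀ + 1 + (j - j₀ - 1)
    abel
  by_cases hall : ∀ j, IsPreconnected (N j \ {x})
  · obtain ⟨j₀, hj₀⟩ : ∃ j₀, ∀ j, j ≠ j₀ → q j ≠ x := by
      by_cases hex : ∃ j₀, q j₀ = x
      · obtain ⟨j₀, hj₀⟩ := hex
        exact ⟨j₀, fun j hj he => hj (hqi (he.trans hj₀.symm))⟩
      · exact ⟨0, fun j _ he => hex ⟨j, he⟩⟩
    have := pgl_chain N q hq1 hq2 x j₀ (n + 1) (fun i _ => hall _) (fun i hi => hj₀ _ (hne j₀ i hi))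
    convert this using 1
    ext y
    simp only [mem_sdiff, mem_iUnion, mem_singleton_iff, mem_Iic, exists_prop]
    constructor
    · rintro ⟨⟨j, hj⟩, hy⟩
      obtain ⟨i, hi, he⟩ := hsurj j₀ j
      exact ⟨i, hi, by rw [← he]; exact hj, hy⟩
    · rintro ⟨i, _, hj, hy⟩
      exact ⟨⟨_, hj⟩, hy⟩
  · push Not at hall
    obtain ⟨j₀, hj₀⟩ := hall
    have hnc : ¬ NoCut (N j₀) := fun h => hj₀ (h x)
    obtain ⟨harc, hoth⟩ := (hN j₀).resolve_left hnc
    have hx1 : x ∈ N j₀ ∧ x ≠ q (j₀ - 1) ∧ x ≠ q j₀ := by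
      by_contra hcon
      apply hj₀
      apply pgl_arc harc
      intro hx
      by_contra hno
      push Not at hno
      exact hcon ⟨hx, hno.1, hno.2⟩
    obtain ⟨hxN, hxa, hxb⟩ := hx1
    have hxq : ∀ i, q i ≠ x := by
      intro i he
      by_cases h1 : i = j₀
      · exact hxb (by rw [← he, h1])
      · by_cases h2 : i = j₀ - 1
        · exact hxa (by rw [← he, h2])
        · exact hoth i h1 h2 (by rw [he]; exact hxN)
    have hpre : ∀ j, j ≠ j₀ → IsPreconnected (N j \ {x}) := by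
      intro j hj
      by_cases hc : NoCut (N j)
      · exact hc x
      · obtain ⟨ha, -⟩ := (hN j).resolve_left hc
        apply pgl_arc ha
        intro hx
        exfalso
        obtain ⟨i, hi⟩ := hd j j₀ hj hc hnc ⟨hx, hxN⟩
        exact hxq i hi
    have hR := pgl_chain N q hq1 hq2 x j₀ n (fun i hi => hpre _ (hne j₀ i (by omega))) (fun i _ => hxq _)
    have hlast : (n + 1) • (1 : Fin (n + 2)) = -1 := by
      have h0 : (n + 1 + 1) • (1 : Fin (n + 2)) = 0 := by
        rw [succ_nsmul, pgl_smul (n + 1) (by omega)]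
        apply Fin.ext
        rw [Fin.val_add]
        have h1 : ((1 : Fin (n + 2)) : ℕ) = 1 := rfl
        rw [h1]
        simp
      rw [succ_nsmul] at h0
      exact eq_neg_of_add_eq_zero_left h0
    have hlast' : j₀ + 1 + n • (1 : Fin (n + 2)) = j₀ - 1 := by
      have : n • (1 : Fin (n + 2)) + 1 = -1 := by rw [← succ_nsmul]; exact hlast
      rw [add_assoc, add_comm 1, this, sub_eq_add_neg]
    obtain ⟨B, C, hB, hC, hBC, -⟩ := harc.split hxN hxa hxb
    have hBp : IsPreconnected (B \ {x}) := pgl_arc hB fun _ => Or.inr rfl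
    have hCp : IsPreconnected (C \ {x}) := pgl_arc hC fun _ => Or.inl rfl
    have hR1 : q j₀ ∈ ⋃ i ∈ Iic n, (N (j₀ + 1 + i • (1 : Fin (n + 2))) \ {x}) := by
      simp only [mem_iUnion, mem_Iic]
      refine ⟨0, Nat.zero_le _, ?_, hxq j₀⟩
      rw [zero_nsmul, add_zero]
      exact hq2 j₀
    have hR2 : q (j₀ - 1) ∈ ⋃ i ∈ Iic n, (N (j₀ + 1 + i • (1 : Fin (n + 2))) \ {x}) := by
      simp only [mem_iUnion, mem_Iic]
      refine ⟨n, le_rfl, ?_, hxq _⟩
      rw [hlast']
      exact hq1 _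
    have hC1 : q j₀ ∈ C \ {x} := ⟨hC.right_mem, hxq j₀⟩
    have hB1 : q (j₀ - 1) ∈ B \ {x} := ⟨hB.left_mem, hxq _⟩
    have hU1 := IsPreconnected.union (q j₀) hR1 hC1 hR hCp
    have hU2 := IsPreconnected.union (q (j₀ - 1)) (Or.inl hR2) hB1 hU1 hBp
    convert hU2 using 1
    ext y
    simp only [mem_sdiff, mem_iUnion, mem_singleton_iff, mem_Iic, mem_union, exists_prop]
    constructor
    · rintro ⟨⟨j, hj⟩, hy⟩
      by_cases hjj : j = j₀
      · rw [hjj, ← hBC] at hj
        rcases hj with hj | hj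
        · exact Or.inr ⟨hj, hy⟩
        · exact Or.inl (Or.inr ⟨hj, hy⟩)
      · obtain ⟨i, hi, he⟩ := hsurj j₀ j
        left; left
        refine ⟨i, ?_, by rw [← he]; exact hj, hy⟩
        by_contra hgt
        have hi' : i = n + 1 := by omega
        apply hjj
        rw [he, hi', hlast]
        abel
    · rintro ((⟨i, _, hj, hy⟩ | ⟨hj, hy⟩) | ⟨hj, hy⟩)
      · exact ⟨⟨_, hj⟩, hy⟩
      · exact ⟨⟨j₀, by rw [← hBC]; exact Or.inr hj⟩, hy⟩
      · exact ⟨⟨j₀, by rw [← hBC]; exact Or.inl hj⟩, hy⟩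

end Pool.JS
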