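import Pool.Agent.JS.PgI

/-!
MODULE PgN (difficulty 3).  Subdivision of edges; a new edge in a face.

RECIPE.  `subdiv`: induction on the finite set `W`; one new point `x ∈ ⋃₀ E`, `x ∉ V`: `x ∈ e`, `ArcX.split` gives `e = e₁ ∪ e₂`, `E' = (E \ {e}) ∪ {e₁, e₂}`; check `PG (insert x V) E'`.
`add_ear`: the new edge `χ` meets every old edge inside `{a, b} ⊆ V`; `χ ∩ V = {a, b}` because `V ⊆ ⋃₀ E`.
`faces_ear`: `frontier U` is a simple closed curve (`DiscDom.jordan`) contained in `⋃₀ E` (`Fc.frontier_sub`), `a, b ∈ frontier U` (`a ∈ closure (χ \ {a, b}) ⊆ closure U`, `a ∈ ⋃₀ E`), `JorX.split`: arcs `A`, `B`; `SepX (frontier U) U W` for some `W` (`JorX.jct`; `U` is connected, open and closed in the complement of its frontier, so it is one of the two sides).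
`theta` (ThB) gives `U₁`, `U₂`, and `SepX.disc` shows that they are disc domains (`frontier U₁ = A ∪ χ`).  Faces of `⋃₀ E ∪ χ`: as in ThC: a face `W` of the new graph is contained in a face `W₁` of the old one (`FaceX.sub_face`); if `W₁ ≠ U` it is disjoint from `χ`, so `W = W₁`; if `W₁ = U` then `W ⊆ U \ χ = U₁ ∪ U₂`, so `W = U₁` or `W = U₂`.
Conversely all these sets are faces (`mem_Fc_iff`, connected sets disjoint from the new graph which are contained in the stated faces).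
-/

open Set Metric Topology

namespace Pool.JS

variable {X : Type*} [TopologicalSpace X] [CompactSpace X] [T2Space X] [Sph X] {V W U χ : Set X} {E : Set (Set X)} {a b : X}

theorem pgn_one {x : X} (h : PG V E) (hx : x ∈ ⋃₀ E) (hxV : x ∉ V) :
    ∃ E', PG (insert x V) E' ∧ ⋃₀ E' = ⋃₀ E ∧ ∀ e' ∈ E', ∃ e ∈ E, e' ⊆ e := by
  obtain ⟨e, he, hxe⟩ := hx
  obtain ⟨a, ha, b, hb, hab, heV⟩ := h.arc e he
  have hxa : x ≠ a := fun hh => hxV (by rw [hh]; exact ha)
  have hxb : x ≠ b := fun hh => hxV (by rw [hh]; exact hb)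
  obtain ⟨e₁, e₂, h₁, h₂, hu, hn⟩ := hab.split hxe hxa hxb
  have he₁ : e₁ ⊆ e := by rw [← hu]; exact subset_union_left
  have he₂ : e₂ ⊆ e := by rw [← hu]; exact subset_union_right
  have hold : ∀ f ∈ E, f ≠ e → f ∩ e ⊆ V := fun f hf hne => h.inter f hf e he hne
  refine ⟨(E \ {e}) ∪ {e₁, e₂}, ?_, ?_, ?_⟩
  · refine ⟨h.finV.insert _, (h.finE.subset sdiff_subset).union (Set.toFinite _), ?_, ?_, ?_⟩
    · rintro f (⟨hf, hfe⟩ | hf | hf)
      · obtain ⟨c, hc, d, hd, hcd, hfV⟩ := h.arc f hf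
        refine ⟨c, Or.inr hc, d, Or.inr hd, hcd, ?_⟩
        rw [← hfV]
        apply Subset.antisymm
        · rintro y ⟨hy, hyx | hyV⟩
          · exfalso
            rw [hyx] at hy
            exact hxV (hold f hf hfe ⟨hy, hxe⟩)
          · exact ⟨hy, hyV⟩
        · rintro y ⟨hy, hyV⟩
          exact ⟨hy, Or.inr hyV⟩
      · subst hf
        refine ⟨a, Or.inr ha, x, Or.inl rfl, h₁, ?_⟩
        apply Subset.antisymm
        · rintro y ⟨hy, hyx | hyV⟩
          · exact Or.inr hyx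
          · have : y ∈ e ∩ V := ⟨he₁ hy, hyV⟩
            rw [heV] at this
            rcases this with hh | hh
            · exact Or.inl hh
            · exfalso
              rw [mem_singleton_iff.1 hh] at hy
              have : b ∈ f ∩ e₂ := ⟨hy, h₂.right_mem⟩
              rw [hn] at this
              exact hxb (mem_singleton_iff.1 this).symm
        · rintro y (hy | hy)
          · rw [hy]; exact ⟨h₁.left_mem, Or.inr ha⟩
          · rw [mem_singleton_iff.1 hy]; exact ⟨h₁.right_mem, Or.inl rfl⟩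
      · rw [mem_singleton_iff] at hf
        subst hf
        refine ⟨x, Or.inl rfl, b, Or.inr hb, h₂, ?_⟩
        apply Subset.antisymm
        · rintro y ⟨hy, hyx | hyV⟩
          · exact Or.inl hyx
          · have : y ∈ e ∩ V := ⟨he₂ hy, hyV⟩
            rw [heV] at this
            rcases this with hh | hh
            · exfalso
              rw [hh] at hy
              have : a ∈ e₁ ∩ f := ⟨h₁.left_mem, hy⟩
              rw [hn] at this
              exact hxa (mem_singleton_iff.1 this).symm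
            · exact Or.inr hh
        · rintro y (hy | hy)
          · rw [hy]; exact ⟨h₂.left_mem, Or.inl rfl⟩
          · rw [mem_singleton_iff.1 hy]; exact ⟨h₂.right_mem, Or.inr hb⟩
    · have hn' : e₁ ∩ e₂ ⊆ insert x V := by
        rw [hn]
        intro y hy
        exact Or.inl hy
      rintro f (⟨hf, hfe⟩ | hf | hf) g (⟨hg, hge⟩ | hg | hg) hfg
      · exact (h.inter f hf g hg hfg).trans (subset_insert _ _)
      · subst hg
        rintro y ⟨hy, hy'⟩
        exact Or.inr (hold f hf hfe ⟨hy, he₁ hy'⟩)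
      · rw [mem_singleton_iff] at hg
        subst hg
        rintro y ⟨hy, hy'⟩
        exact Or.inr (hold f hf hfe ⟨hy, he₂ hy'⟩)
      · subst hf
        rintro y ⟨hy', hy⟩
        exact Or.inr (hold g hg hge ⟨hy, he₁ hy'⟩)
      · exact absurd (hf.trans hg.symm) hfg
      · rw [mem_singleton_iff] at hg
        subst hf
        subst hg
        exact hn'
      · rw [mem_singleton_iff] at hf
        subst hf
        rintro y ⟨hy', hy⟩
        exact Or.inr (hold g hg hge ⟨hy, he₂ hy'⟩)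
      · rw [mem_singleton_iff] at hf
        subst hf
        subst hg
        rw [inter_comm]
        exact hn'
      · rw [mem_singleton_iff] at hf hg
        exact absurd (hf.trans hg.symm) hfg
    · rintro v (hv | hv)
      · exact ⟨e₁, Or.inr (Or.inl rfl), by rw [hv]; exact h₁.right_mem⟩
      · obtain ⟨f, hf, hvf⟩ := h.vert v hv
        by_cases hfe : f = e
        · rw [hfe, ← hu] at hvf
          rcases hvf with hh | hh
          · exact ⟨e₁, Or.inr (Or.inl rfl), hh⟩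
          · exact ⟨e₂, Or.inr (Or.inr rfl), hh⟩
        · exact ⟨f, Or.inl ⟨hf, hfe⟩, hvf⟩
  · apply Subset.antisymm
    · rintro y ⟨f, (⟨hf, _⟩ | hf | hf), hy⟩
      · exact ⟨f, hf, hy⟩
      · subst hf
        exact ⟨e, he, he₁ hy⟩
      · rw [mem_singleton_iff] at hf
        subst hf
        exact ⟨e, he, he₂ hy⟩
    · rintro y ⟨f, hf, hy⟩
      by_cases hfe : f = e
      · rw [hfe, ← hu] at hy
        rcases hy with hh | hh
        · exact ⟨e₁, Or.inr (Or.inl rfl), hh⟩
        · exact ⟨e₂, Or.inr (Or.inr rfl), hh⟩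
      · exact ⟨f, Or.inl ⟨hf, hfe⟩, hy⟩
  · rintro f (⟨hf, _⟩ | hf | hf)
    · exact ⟨f, hf, Subset.rfl⟩
    · subst hf
      exact ⟨e, he, he₁⟩
    · rw [mem_singleton_iff] at hf
      subst hf
      exact ⟨e, he, he₂⟩

theorem PG.subdiv (h : PG V E) (hW : W.Finite) (hWE : W ⊆ ⋃₀ E) :
    ∃ E', PG (V ∪ W) E' ∧ ⋃₀ E' = ⋃₀ E ∧ ∀ e' ∈ E', ∃ e ∈ E, e' ⊆ e := by
  revert hWE
  refine Set.Finite.induction_on W hW ?_ ?_
  · intro _
    refine ⟨E, ?_, rfl, fun e he => ⟨e, he, Subset.rfl⟩⟩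
    rw [union_empty]
    exact h
  · intro x S _ _ ih hS
    obtain ⟨E₁, hE₁, hc, hr⟩ := ih ((subset_insert _ _).trans hS)
    have hx : x ∈ ⋃₀ E₁ := by rw [hc]; exact hS (mem_insert _ _)
    rw [union_insert]
    by_cases hxV : x ∈ V ∪ S
    · rw [insert_eq_of_mem hxV]
      exact ⟨E₁, hE₁, hc, hr⟩
    · obtain ⟨E₂, hE₂, hc₂, hr₂⟩ := pgn_one hE₁ hx hxV
      refine ⟨E₂, hE₂, hc₂.trans hc, ?_⟩
      intro e' he'
      obtain ⟨e, he, hs⟩ := hr₂ e' he'
      obtain ⟨e₀, he₀, hs₀⟩ := hr e he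
      exact ⟨e₀, he₀, hs.trans hs₀⟩

theorem PG.add_ear (h : PG V E) (ha : a ∈ V) (hb : b ∈ V) (hχ : ArcX χ a b) (hi : χ ∩ ⋃₀ E = {a, b}) :
    PG V (insert χ E) := by
  have habV : ({a, b} : Set X) ⊆ V := by
    rintro y (hy | hy)
    · rw [hy]; exact ha
    · rw [mem_singleton_iff.1 hy]; exact hb
  have hχE : ∀ e ∈ E, χ ∩ e ⊆ V := by
    rintro e he y ⟨hy, hye⟩
    apply habV
    rw [← hi]
    exact ⟨hy, e, he, hye⟩
  refine ⟨h.finV, h.finE.insert _, ?_, ?_, ?_⟩
  · rintro e (he | he)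
    · subst he
      refine ⟨a, ha, b, hb, hχ, ?_⟩
      apply Subset.antisymm
      · rintro y ⟨hy, hyV⟩
        rw [← hi]
        exact ⟨hy, h.subV hyV⟩
      · rintro y hy
        refine ⟨?_, habV hy⟩
        rcases hy with hy | hy
        · rw [hy]; exact hχ.left_mem
        · rw [mem_singleton_iff.1 hy]; exact hχ.right_mem
    · exact h.arc e he
  · rintro e (he | he) f (hf | hf) hef
    · exact absurd (he.trans hf.symm) hef
    · rw [he]; exact hχE f hf
    · rw [hf, inter_comm]; exact hχE e he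
    · exact h.inter e he f hf hef
  · intro v hv
    obtain ⟨e, he, hve⟩ := h.vert v hv
    exact ⟨e, Or.inr he, hve⟩

theorem pgn_side {U U₁ U₂ : Set X} (hU : DiscDom U) (h : SepX (frontier U) U₁ U₂) : U = U₁ ∨ U = U₂ := by
  have hd : Disjoint U (frontier U) := by
    rw [hU.isOpen.frontier_eq]
    exact disjoint_sdiff_right
  have key : ∀ W : Set X, IsConnected W → Disjoint W (frontier U) → U ⊆ W → U = W := by
    intro W hW hWd hUW
    refine Subset.antisymm hUW ?_
    refine hW.isPreconnected.subset_of_closure_inter_subset hU.isOpen ?_ ?_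
    · obtain ⟨x, hx⟩ := hU.isConnected.nonempty
      exact ⟨x, hUW hx, hx⟩
    · rintro x ⟨hx, hxW⟩
      by_contra hn
      exact Set.disjoint_left.1 hWd hxW (by rw [hU.isOpen.frontier_eq]; exact ⟨hx, hn⟩)
  have d₁ : Disjoint U₁ (frontier U) := by
    have : U₁ ⊆ (frontier U)ᶜ := by rw [← h.union]; exact subset_union_left
    exact Set.disjoint_left.2 fun x hx => this hx
  have d₂ : Disjoint U₂ (frontier U) := by
    have : U₂ ⊆ (frontier U)ᶜ := by rw [← h.union]; exact subset_union_right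
    exact Set.disjoint_left.2 fun x hx => this hx
  rcases h.sub_or hU.isConnected.isPreconnected hd with hs | hs
  · exact Or.inl (key U₁ h.connU d₁ hs)
  · exact Or.inr (key U₂ h.connV d₂ hs)

theorem PG.faces_ear (h : PG V E) (hU : U ∈ Fc E) (hd : DiscDom U) (hχ : ArcX χ a b) (hi : χ ∩ ⋃₀ E = {a, b})
    (hχU : χ \ {a, b} ⊆ U) :
    ∃ U₁ U₂ : Set X, DiscDom U₁ ∧ DiscDom U₂ ∧ Disjoint U₁ U₂ ∧ U₁ ∪ U₂ = U \ χ ∧
      closure U₁ ⊆ closure U ∧ closure U₂ ⊆ closure U ∧ χ ⊆ frontier U₁ ∧ χ ⊆ frontier U₂ ∧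
      Fc (insert χ E) = (Fc E \ {U}) ∪ {U₁, U₂} := by
  have hF := mem_Fc_iff.1 hU
  have hab_mem : ∀ y ∈ ({a, b} : Set X), y ∈ ⋃₀ E ∧ y ∈ χ := by
    intro y hy
    rw [← hi] at hy
    exact ⟨hy.2, hy.1⟩
  have hfr : ∀ y ∈ ({a, b} : Set X), y ∈ frontier U := by
    intro y hy
    rw [hd.isOpen.frontier_eq]
    refine ⟨closure_mono hχU (hχ.interior.2 (hab_mem y hy).2), fun hh => hF.sub hh (hab_mem y hy).1⟩
  have hJE : frontier U ⊆ ⋃₀ E := Fc.frontier_sub h hU
  obtain ⟨A, B, hA, hB, hAB, hABi⟩ := hd.jordan.split (hfr a (Or.inl rfl)) (hfr b (Or.inr rfl)) hχ.ne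
  obtain ⟨W, hW⟩ : ∃ W, SepX (frontier U) U W := by
    obtain ⟨U₁, U₂, hs⟩ := hd.jordan.jct
    rcases pgn_side hd hs with hh | hh
    · exact ⟨U₂, by rw [← hh] at hs; exact hs⟩
    · exact ⟨U₁, by rw [← hh] at hs; exact hs.symm⟩
  obtain ⟨U₁, V₁, U₂, V₂, h₁, h₂, hdj, hun, -, -⟩ := theta hW hA hB hABi hAB hχ hχU
  have hAJ : A ⊆ frontier U := by rw [← hAB]; exact subset_union_left
  have hBJ : B ⊆ frontier U := by rw [← hAB]; exact subset_union_right
  have hg : ∀ A : Set X, ArcX A a b → A ⊆ frontier U → JorX (A ∪ χ) := by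
    intro A hA hAJ
    refine JorX.glue hA hχ ?_
    apply Subset.antisymm
    · rintro y ⟨hy, hyχ⟩
      rw [← hi]
      exact ⟨hyχ, hJE (hAJ hy)⟩
    · intro y hy
      refine ⟨?_, (hab_mem y hy).2⟩
      rcases hy with hy | hy
      · rw [hy]; exact hA.left_mem
      · rw [mem_singleton_iff.1 hy]; exact hA.right_mem
  have hU₁U : U₁ ⊆ U := fun y hy => by
    have : y ∈ U \ χ := by rw [← hun]; exact Or.inl hy
    exact this.1
  have hU₂U : U₂ ⊆ U := fun y hy => by
    have : y ∈ U \ χ := by rw [← hun]; exact Or.inr hy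
    exact this.1
  have hd₁ : DiscDom U₁ := by
    have := SepX.disc (hg A hA hAJ) h₁
    show DiscX (closure U₁) (frontier U₁) U₁
    rw [h₁.frU]
    exact this
  have hd₂ : DiscDom U₂ := by
    have := SepX.disc (hg B hB hBJ) h₂
    show DiscX (closure U₂) (frontier U₂) U₂
    rw [h₂.frU]
    exact this
  refine ⟨U₁, U₂, hd₁, hd₂, hdj, hun, closure_mono hU₁U, closure_mono hU₂U, ?_, ?_, ?_⟩
  · rw [h₁.frU]; exact subset_union_right
  · rw [h₂.frU]; exact subset_union_right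
  · have hG' : (⋃₀ insert χ E) = χ ∪ ⋃₀ E := sUnion_insert _ _
    have hsubG : ⋃₀ E ⊆ ⋃₀ insert χ E := by rw [hG']; exact subset_union_right
    have hoth : ∀ W₀, W₀ ∈ Fc E → W₀ ≠ U → W₀ ⊆ (⋃₀ insert χ E)ᶜ := by
      intro W₀ hW₀ hne y hy hyG
      rw [hG'] at hyG
      have hF₀ := mem_Fc_iff.1 hW₀
      rcases hyG with hyχ | hyE
      · by_cases hyab : y ∈ ({a, b} : Set X)
        · exact hF₀.sub hy (hab_mem y hyab).1
        · exact Set.disjoint_left.1 (Fc.disj hW₀ hU hne) hy (hχU ⟨hyχ, hyab⟩)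
      · exact hF₀.sub hy hyE
    have hin : U \ χ ⊆ (⋃₀ insert χ E)ᶜ := by
      rintro y ⟨hy, hyχ⟩ hyG
      rw [hG'] at hyG
      rcases hyG with hh | hh
      · exact hyχ hh
      · exact hF.sub hy hh
    have hface : ∀ U₁ U₂ : Set X, IsOpen U₁ → IsOpen U₂ → Disjoint U₁ U₂ → IsConnected U₁ → U₁ ∪ U₂ = U \ χ →
        FaceX (⋃₀ insert χ E) U₁ := by
      intro U₁ U₂ o₁ o₂ hdj hc hun
      refine ⟨hc.nonempty, hc.isPreconnected, ?_, ?_⟩
      · refine Subset.trans ?_ hin
        rw [← hun]; exact subset_union_left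
      · intro C hC hCs hCn
        obtain ⟨y, hyC, hyU₁⟩ := hCn
        have hyU : y ∈ U := by
          have : y ∈ U \ χ := by rw [← hun]; exact Or.inl hyU₁
          exact this.1
        have hCU : C ⊆ U := hF.max C hC (fun z hz hzE => hCs hz (hsubG hzE)) ⟨y, hyC, hyU⟩
        have hCU' : C ⊆ U₁ ∪ U₂ := by
          rw [hun]
          intro z hz
          refine ⟨hCU hz, fun hzχ => hCs hz ?_⟩
          rw [hG']
          exact Or.inl hzχ
        exact hC.subset_left_of_subset_union o₁ o₂ hdj hCU' ⟨y, hyC, hyU₁⟩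
    have hf₁ := hface U₁ U₂ h₁.openU h₂.openU hdj h₁.connU hun
    have hf₂ := hface U₂ U₁ h₂.openU h₁.openU hdj.symm h₂.connU (by rw [union_comm]; exact hun)
    ext W'
    constructor
    · intro hW'
      have hF' := mem_Fc_iff.1 hW'
      obtain ⟨W₀, hW₀, hsub⟩ := hF'.sub_face hsubG
      obtain ⟨y, hy⟩ := hF'.ne
      by_cases he : W₀ = U
      · right
        have hyU : y ∈ U₁ ∪ U₂ := by
          rw [hun]
          refine ⟨by rw [← he]; exact hsub hy, fun hyχ => hF'.sub hy ?_⟩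
          rw [hG']
          exact Or.inl hyχ
        rcases hyU with hyU | hyU
        · exact Or.inl (hF'.eq hf₁ ⟨y, hy, hyU⟩)
        · exact Or.inr (hF'.eq hf₂ ⟨y, hy, hyU⟩)
      · left
        have hW₀F : W₀ ∈ Fc E := mem_Fc_iff.2 hW₀
        have : W₀ ⊆ W' := hF'.max W₀ hW₀.conn (hoth W₀ hW₀F he) ⟨y, hsub hy, hy⟩
        have he' : W' = W₀ := Subset.antisymm hsub this
        rw [he']
        exact ⟨hW₀F, he⟩
    · rintro (⟨hW', hne⟩ | hW' | hW')
      · have hF' := mem_Fc_iff.1 hW'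
        refine mem_Fc_iff.2 ⟨hF'.ne, hF'.conn, hoth W' hW' hne, ?_⟩
        intro C hC hCs hCn
        exact hF'.max C hC (fun z hz hzE => hCs hz (hsubG hzE)) hCn
      · rw [hW']; exact mem_Fc_iff.2 hf₁
      · rw [mem_singleton_iff.1 hW']; exact mem_Fc_iff.2 hf₂

end Pool.JS
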