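import Pool.Agent.JS.SpDefs

/-!
MODULE SpA (difficulty 2).  Charts of point complements of a topological two-sphere.

RECIPE.  `exists_chart`: `σ = Subtype.val ∘ e.symm`, a composition of a homeomorphism and the open embedding `Subtype.val` (`{x}ᶜ` is open, T1).  `isCompact_preimage`: `K` is compact and `K ⊆ range σ`: `Topology.IsInducing.isCompact_preimage_iff` or
`IsEmbedding.isCompact_preimage`.  `image_isClosed`: compact image in a Hausdorff space.  `mem_closure`: if `C` is bounded, `closure C` is compact, `σ '' closure C` is closed and does not contain `x`.  If `x ∉ closure (σ '' C)` then `σ ⁻¹' closure (σ '' C)` is compact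
(first lemma) and contains `C`.  `univ_unbounded` etc. are not needed.
-/

open Set Metric Topology

namespace Pool.JS

variable {X : Type*} [TopologicalSpace X]

theorem exists_chart [T2Space X] [Sph X] (x : X) : ∃ σ : ℂ → X, Chart x σ := by
  obtain ⟨e⟩ := Sph.plane x
  refine ⟨Subtype.val ∘ e.symm, ?_, ?_⟩
  · exact (isOpen_compl_singleton.isOpenEmbedding_subtypeVal).comp e.symm.isOpenEmbedding
  · rw [range_comp, e.symm.surjective.range_eq, image_univ, Subtype.range_coe]

section

variable {x : X} {σ : ℂ → X}

theorem Chart.inj (h : Chart x σ) : Function.Injective σ := h.emb.injective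

theorem Chart.cont (h : Chart x σ) : Continuous σ := h.emb.continuous

theorem Chart.ne (h : Chart x σ) (z : ℂ) : σ z ≠ x := by
  have : σ z ∈ Set.range σ := mem_range_self z
  rw [h.range] at this
  exact this

theorem Chart.exists_eq (h : Chart x σ) {y : X} (hy : y ≠ x) : ∃ z, σ z = y := by
  have : y ∈ ({x} : Set X)ᶜ := hy
  rw [← h.range] at this
  exact this

theorem SpA_sub (h : Chart x σ) {K : Set X} (hx : x ∉ K) : K ⊆ range σ := by
  rw [h.range]
  intro y hy he
  rw [mem_singleton_iff] at he
  exact hx (he ▸ hy)

theorem Chart.image_preimage (h : Chart x σ) {K : Set X} (hx : x ∉ K) : σ '' (σ ⁻¹' K) = K :=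
  image_preimage_eq_of_subset (SpA_sub h hx)

theorem Chart.isCompact_preimage [CompactSpace X] (h : Chart x σ) {K : Set X} (hK : IsClosed K) (hx : x ∉ K) :
    IsCompact (σ ⁻¹' K) :=
  (h.emb.toIsEmbedding.isInducing.isCompact_preimage_iff (SpA_sub h hx)).2 hK.isCompact

theorem Chart.isClosed_image [T2Space X] (h : Chart x σ) {K : Set ℂ} (hK : IsCompact K) : IsClosed (σ '' K) :=
  (hK.image h.cont).isClosed

theorem Chart.mem_closure [CompactSpace X] [T2Space X] (h : Chart x σ) {C : Set ℂ} :
    x ∈ closure (σ '' C) ↔ ¬ Bornology.IsBounded C := by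
  constructor
  · intro hx hb
    have h1 : closure (σ '' C) ⊆ σ '' closure C :=
      closure_minimal (image_mono subset_closure) (h.isClosed_image hb.isCompact_closure)
    obtain ⟨z, -, hz⟩ := h1 hx
    exact h.ne z hz
  · intro hb
    by_contra hx
    apply hb
    have h1 := h.isCompact_preimage isClosed_closure hx
    exact h1.isBounded.subset (fun z hz => subset_closure (mem_image_of_mem σ hz))

end

end Pool.JS
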