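import Pool.Agent.JS.Defs

/-!
MODULE Inv (difficulty 2).  Inverses of injective continuous maps on compact sets; compact connected hulls.

RECIPE.  `exists_inverse`: `τ = Function.invFunOn γ K` (left inverse on `K`: `InjOn.leftInvOn_invFunOn`).  Continuity on `γ '' K`: for a closed set `F`
the set `{y ∈ γ '' K | τ y ∈ F} = γ '' (K ∩ F)` is compact, hence closed (`continuousOn_iff_isClosed`).
`exists_compact_connected`: for `K` empty take `∅`.  `U` is nonempty, open and preconnected, so path connected (`IsOpen.isConnected_iff_isPathConnected`).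
For `x ∈ K` a closed ball `closedBall x r_x ⊆ U`; finitely many balls (open, radius `r_x`) cover `K` (`IsCompact.elim_nhds_subcover`); fix one point `c ∈ K`, join `c` to every centre by
a path in `U` (`IsPathConnected.joinedIn`, range of the path compact and connected).  `P` = union of the finitely many (ball ∪ range of path): each of them is connected, compact and contains `c`
(`isPreconnected_sUnion`/`IsConnected.biUnion...`; use `isPreconnected_iUnion` with common point `c`).
-/

open Set Metric Topology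

namespace Pool.JS

theorem exists_inverse {X Y : Type*} [TopologicalSpace X] [TopologicalSpace Y] [T2Space Y] [Nonempty X]
    {K : Set X} (hK : IsCompact K) {γ : X → Y} (hc : ContinuousOn γ K) (hi : InjOn γ K) :
    ∃ τ : Y → X, ContinuousOn τ (γ '' K) ∧ ∀ x ∈ K, τ (γ x) = x := by
  classical
  have hl : ∀ x ∈ K, Function.invFunOn γ K (γ x) = x := fun x hx => hi.leftInvOn_invFunOn hx
  refine ⟨Function.invFunOn γ K, ?_, hl⟩
  rw [continuousOn_iff_isClosed]
  intro F hF
  refine ⟨γ '' (K ∩ F), ((hK.inter_right hF).image_of_continuousOn (hc.mono inter_subset_left)).isClosed, ?_⟩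
  ext y
  constructor
  · rintro ⟨h1, x, hx, rfl⟩
    refine ⟨⟨x, ⟨hx, ?_⟩, rfl⟩, x, hx, rfl⟩
    have h2 : Function.invFunOn γ K (γ x) ∈ F := h1
    rwa [hl x hx] at h2
  · rintro ⟨⟨x, ⟨hx, hxF⟩, rfl⟩, h2⟩
    refine ⟨?_, h2⟩
    show Function.invFunOn γ K (γ x) ∈ F
    rwa [hl x hx]

theorem exists_compact_connected {U K : Set ℂ} (hU : IsOpen U) (hc : IsPreconnected U) (hK : IsCompact K)
    (hKU : K ⊆ U) : ∃ P : Set ℂ, IsCompact P ∧ IsPreconnected P ∧ K ⊆ P ∧ P ⊆ U := by
  classical
  rcases K.eq_empty_or_nonempty with he | ⟨c, hcK⟩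
  · exact ⟨∅, isCompact_empty, isPreconnected_empty, by rw [he], empty_subset _⟩
  have hpc : IsPathConnected U := (hU.isConnected_iff_isPathConnected).1 ⟨⟨c, hKU hcK⟩, hc⟩
  have h1 : ∀ x ∈ K, ∃ r > 0, closedBall x r ⊆ U := by
    intro x hx
    obtain ⟨r, hr, h⟩ := Metric.nhds_basis_closedBall.mem_iff.1 (hU.mem_nhds (hKU hx))
    exact ⟨r, hr, h⟩
  choose! r hr hrU using h1
  obtain ⟨t, htK, ht⟩ := hK.elim_nhds_subcover (fun x => ball x (r x)) (fun x hx => ball_mem_nhds x (hr x hx))
  have h2 : ∀ x ∈ K, ∃ Q : Set ℂ, IsCompact Q ∧ IsPreconnected Q ∧ c ∈ Q ∧ closedBall x (r x) ⊆ Q ∧ Q ⊆ U := by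
    intro x hx
    obtain ⟨p, hp⟩ := hpc.joinedIn c (hKU hcK) x (hKU hx)
    refine ⟨range p ∪ closedBall x (r x), (isCompact_range p.continuous).union (isCompact_closedBall x (r x)), ?_,
      Or.inl ⟨0, p.source⟩, subset_union_right, ?_⟩
    · exact IsPreconnected.union x ⟨1, p.target⟩ (mem_closedBall_self (hr x hx).le) (isPreconnected_range p.continuous)
        (convex_closedBall x (r x)).isPreconnected
    · rintro y (⟨s, rfl⟩ | hy)
      · exact hp s
      · exact hrU x hx hy
  choose! Q hQc hQp hcQ hbQ hQU using h2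
  refine ⟨⋃ x ∈ t, Q x, t.isCompact_biUnion fun x hx => hQc x (htK x hx), ?_, ?_, ?_⟩
  · have h3 : (⋃ x ∈ t, Q x) = ⋃ x : {x // x ∈ t}, Q x.1 := by
      ext y
      simp
    rw [h3]
    exact isPreconnected_iUnion ⟨c, mem_iInter.2 fun x => hcQ x.1 (htK x.1 x.2)⟩ fun x => hQp x.1 (htK x.1 x.2)
  · intro y hy
    obtain ⟨x, hx, hxy⟩ := mem_iUnion₂.1 (ht hy)
    exact mem_iUnion₂.2 ⟨x, hx, hbQ x (htK x hx) (ball_subset_closedBall hxy)⟩
  · intro y hy
    obtain ⟨x, hx, hxy⟩ := mem_iUnion₂.1 hy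
    exact hQU x (htK x hx) hxy

end Pool.JS
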