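import Pool.Agent.JS.Defs

/-!
MODULE Cmp (difficulty 2).  Components of the complement of a closed (compact) set `K`.

RECIPE.  `cmp K a = connectedComponentIn Kᶜ a`.  `isOpen`: `IsOpen.connectedComponentIn` (the plane is locally connected).
`frontier_cmp`: a point `z` of the frontier which is not in `K` would lie in `Kᶜ` (open), some ball around `z` is in `Kᶜ` and meets the component,
so the ball is in the component (connected), so `z` is interior: contradiction with `z ∈ frontier` of the open set.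
`con_iff`: `IsPreconnected.subset_connectedComponentIn`, conversely take `C = connectedComponentIn Kᶜ a` (`a ∉ K`).
`esc_iff`: same.  `con_symm`, `con_trans` (union of two preconnected sets with a common point), `esc_of_con`.
`bdd_or_esc`: `Kᶜ` component bounded or not.  `con_of_not_bdd`: two unbounded components of the complement of a bounded set coincide:
`K ⊆ closedBall 0 M`; the set `(closedBall 0 M)ᶜ` is preconnected (`isPreconnected_compl_closedBall`, real dimension 2:
`isConnected_compl_closedBall`? in Mathlib for real vector spaces of rank > 1; otherwise annuli by polar coordinates), each unbounded `C` meets it, take unions.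
-/

open Set Metric Topology

namespace Pool.JS

/-- the component of `a` in the complement of `K` -/
noncomputable def cmp (K : Set ℂ) (a : ℂ) : Set ℂ := connectedComponentIn Kᶜ a

variable {K : Set ℂ} {a b c : ℂ}

theorem mem_cmp (ha : a ∉ K) : a ∈ cmp K a :=
  mem_connectedComponentIn ha

theorem isOpen_cmp (hK : IsClosed K) : IsOpen (cmp K a) :=
  hK.isOpen_compl.connectedComponentIn

theorem isPreconnected_cmp : IsPreconnected (cmp K a) :=
  isPreconnected_connectedComponentIn

theorem cmp_subset : cmp K a ⊆ Kᶜ :=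
  connectedComponentIn_subset _ _

theorem frontier_cmp (hK : IsClosed K) : frontier (cmp K a) ⊆ K := by
  intro z hz
  by_contra hzK
  have hz' : z ∈ cmp K z := mem_cmp hzK
  have hcl : z ∈ closure (cmp K a) := frontier_subset_closure hz
  obtain ⟨w, hw, hw'⟩ := mem_closure_iff.1 hcl (cmp K z) (isOpen_cmp hK) hz'
  have h1 : cmp K z = cmp K w := connectedComponentIn_eq hw
  have h2 : cmp K a = cmp K w := connectedComponentIn_eq hw'
  have h3 : z ∈ cmp K a := by rw [h2, ← h1]; exact hz'
  have h4 : z ∉ interior (cmp K a) := hz.2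
  rw [(isOpen_cmp hK).interior_eq] at h4
  exact h4 h3

theorem con_iff (ha : a ∉ K) : Con K a b ↔ b ∈ cmp K a := by
  constructor
  · rintro ⟨C, hC, hCK, haC, hbC⟩
    exact hC.subset_connectedComponentIn haC hCK hbC
  · intro h
    exact ⟨cmp K a, isPreconnected_cmp, cmp_subset, mem_cmp ha, h⟩

theorem esc_iff (ha : a ∉ K) : Esc K a ↔ ¬ Bornology.IsBounded (cmp K a) := by
  constructor
  · rintro ⟨C, hC, hCK, haC, hb⟩ h
    exact hb (h.subset (hC.subset_connectedComponentIn haC hCK))
  · intro h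
    exact ⟨cmp K a, isPreconnected_cmp, cmp_subset, mem_cmp ha, h⟩

theorem Con.symm (h : Con K a b) : Con K b a := by
  obtain ⟨C, hC, hCK, haC, hbC⟩ := h
  exact ⟨C, hC, hCK, hbC, haC⟩

theorem Con.trans (h : Con K a b) (h' : Con K b c) : Con K a c := by
  obtain ⟨C, hC, hCK, haC, hbC⟩ := h
  obtain ⟨D, hD, hDK, hbD, hcD⟩ := h'
  exact ⟨C ∪ D, hC.union b hbC hbD hD, union_subset hCK hDK, Or.inl haC, Or.inr hcD⟩

theorem Con.esc (h : Con K a b) (h' : Esc K b) : Esc K a := by
  obtain ⟨C, hC, hCK, haC, hbC⟩ := h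
  obtain ⟨D, hD, hDK, hbD, hun⟩ := h'
  exact ⟨C ∪ D, hC.union b hbC hbD hD, union_subset hCK hDK, Or.inl haC,
    fun hb => hun (hb.subset subset_union_right)⟩

theorem Con.mono {L : Set ℂ} (h : Con K a b) (hL : L ⊆ K) : Con L a b := by
  obtain ⟨C, hC, hCK, haC, hbC⟩ := h
  exact ⟨C, hC, hCK.trans (compl_subset_compl.2 hL), haC, hbC⟩

theorem Esc.mono {L : Set ℂ} (h : Esc K a) (hL : L ⊆ K) : Esc L a := by
  obtain ⟨C, hC, hCK, haC, hun⟩ := h
  exact ⟨C, hC, hCK.trans (compl_subset_compl.2 hL), haC, hun⟩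

/-- the exterior of a disc is preconnected -/
theorem cmp_exterior {M : ℝ} (_hM : 0 ≤ M) : IsPreconnected (closedBall (0 : ℂ) M)ᶜ := by
  have h1 : IsPreconnected (Ioi M ×ˢ (univ : Set ℝ)) := isPreconnected_Ioi.prod isPreconnected_univ
  have h2 : ContinuousOn (fun p : ℝ × ℝ => (p.1 : ℂ) * Complex.exp (p.2 * Complex.I)) (Ioi M ×ˢ (univ : Set ℝ)) := by
    fun_prop
  have h3 := h1.image _ h2
  have h4 : (fun p : ℝ × ℝ => (p.1 : ℂ) * Complex.exp (p.2 * Complex.I)) '' (Ioi M ×ˢ (univ : Set ℝ)) =
      (closedBall (0 : ℂ) M)ᶜ := by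
    ext z
    constructor
    · rintro ⟨⟨r, t⟩, ⟨hr, -⟩, rfl⟩
      have hr' : M < r := hr
      simp only [mem_compl_iff, mem_closedBall, dist_zero_right, not_le, norm_mul, Complex.norm_real,
        Complex.norm_exp_ofReal_mul_I, mul_one, Real.norm_eq_abs]
      exact lt_of_lt_of_le hr' (le_abs_self r)
    · intro hz
      simp only [mem_compl_iff, mem_closedBall, dist_zero_right, not_le] at hz
      exact ⟨(‖z‖, Complex.arg z), ⟨hz, mem_univ _⟩, Complex.norm_mul_exp_arg_mul_I z⟩
  rw [← h4]
  exact h3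

/-- two points in unbounded components of the complement of a bounded set are joined -/
theorem Esc.con (hK : Bornology.IsBounded K) (ha : Esc K a) (hb : Esc K b) : Con K a b := by
  obtain ⟨M, hM0, hM⟩ := hK.subset_closedBall_lt 0 (0 : ℂ)
  obtain ⟨C, hC, hCK, haC, hun⟩ := ha
  obtain ⟨D, hD, hDK, hbD, hun'⟩ := hb
  have hE : IsPreconnected (closedBall (0 : ℂ) M)ᶜ := cmp_exterior hM0.le
  have hEK : (closedBall (0 : ℂ) M)ᶜ ⊆ Kᶜ := compl_subset_compl.2 hM
  have key : ∀ X : Set ℂ, ¬ Bornology.IsBounded X → ∃ x ∈ X, x ∈ (closedBall (0 : ℂ) M)ᶜ := by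
    intro X hX
    by_contra hcon
    push Not at hcon
    exact hX (Metric.isBounded_closedBall.subset fun x hx => not_not.1 (hcon x hx))
  obtain ⟨x, hxC, hxE⟩ := key C hun
  obtain ⟨y, hyD, hyE⟩ := key D hun'
  exact (show Con K a x from ⟨C, hC, hCK, haC, hxC⟩).trans
    ((show Con K x y from ⟨_, hE, hEK, hxE, hyE⟩).trans (show Con K y b from ⟨D, hD, hDK, hyD, hbD⟩))

end Pool.JS
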