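import Pool.Agent.JS.LgC

/-!
MODULE LgE (difficulty 3).  Eilenberg's criterion.

If `K` separates `a` from infinity through a bounded open set `Ω ∋ a` with frontier in `K`, then `(z - a) ^ n * h₀` has a
continuous logarithm on `K` only for `n = 0` (`h₀` continuous without zeros on `closure Ω`).
-/

open Set Metric Topology

namespace Pool.JS

theorem eilenberg {K Ω : Set ℂ} (hΩ : IsOpen Ω) (hb : Bornology.IsBounded Ω) (hfr : frontier Ω ⊆ K)
    {a : ℂ} (ha : a ∈ Ω) {h₀ : ℂ → ℂ} (hc : ContinuousOn h₀ (closure Ω)) (h0 : ∀ z ∈ closure Ω, h₀ z ≠ 0)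
    {n : ℤ} (hl : HasLog K (fun z => (z - a) ^ n * h₀ z)) : n = 0 := by
  classical
  obtain ⟨g, hg, hge⟩ := hl
  have hfc : IsClosed (frontier Ω) := isClosed_frontier
  obtain ⟨G, hG⟩ := ContinuousMap.exists_restrict_eq hfc
    (⟨(frontier Ω).domRestrict g, (hg.mono hfr).domRestrict⟩ : C(frontier Ω, ℂ))
  have hGz : ∀ z ∈ frontier Ω, G z = g z := by
    intro z hz
    have h1 := congrArg (fun f : C(frontier Ω, ℂ) => f ⟨z, hz⟩) hG
    exact h1
  have hfeq : frontier Ω = closure Ω \ Ω := hΩ.frontier_eq
  obtain ⟨R, hR, hsub⟩ := (hb.closure).subset_ball_lt 0 a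
  set h : ℂ → ℂ := fun z => if z ∈ closure Ω then Complex.exp (G z) / h₀ z else (z - a) ^ n with hh
  have hin : ∀ z ∈ closure Ω, h z = Complex.exp (G z) / h₀ z := fun z hz => by
    simp only [hh, if_pos hz]
  have hout : ∀ z, z ∉ Ω → h z = (z - a) ^ n := by
    intro z hz
    by_cases hz2 : z ∈ closure Ω
    · have hzf : z ∈ frontier Ω := by rw [hfeq]; exact ⟨hz2, hz⟩
      have h1 := hge z (hfr hzf)
      rw [hin z hz2, hGz z hzf, h1]
      field_simp [h0 z hz2]
    · simp only [hh, if_neg hz2]
  have hne : ∀ z, z ∉ Ω → z - a ≠ 0 := by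
    intro z hz h1
    apply hz
    rw [sub_eq_zero.1 h1]
    exact ha
  have hc1 : ContinuousOn h (closure Ω) := by
    have : ContinuousOn (fun z => Complex.exp (G z) / h₀ z) (closure Ω) :=
      (Complex.continuous_exp.comp G.continuous).continuousOn.div hc h0
    exact this.congr hin
  have hc2 : ContinuousOn h Ωᶜ := by
    have : ContinuousOn (fun z : ℂ => (z - a) ^ n) Ωᶜ := by
      intro z hz
      have h1 : ContinuousAt (fun z : ℂ => z - a) z := by fun_prop
      exact (h1.zpow₀ n (Or.inl (hne z hz))).continuousWithinAt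
    exact this.congr hout
  have hcont : Continuous h := by
    have h1 := hc1.union_of_isClosed hc2 isClosed_closure hΩ.isClosed_compl
    have h2 : closure Ω ∪ Ωᶜ = univ := by
      ext z
      simp only [mem_union, mem_compl_iff, mem_univ, iff_true]
      by_cases hz : z ∈ Ω
      · exact Or.inl (subset_closure hz)
      · exact Or.inr hz
    rw [h2] at h1
    exact continuousOn_univ.1 h1
  refine no_ext (c := a) (a := a) (R := R) (mem_ball_self hR) (h := h) hcont.continuousOn ?_ ?_
  · intro z _
    by_cases hz : z ∈ Ω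
    · rw [hin z (subset_closure hz)]
      exact div_ne_zero (Complex.exp_ne_zero _) (h0 z (subset_closure hz))
    · rw [hout z hz]
      exact zpow_ne_zero _ (hne z hz)
  · intro z hz
    refine hout z fun hz2 => ?_
    have h1 := hsub (subset_closure hz2)
    rw [mem_ball] at h1
    rw [mem_sphere] at hz
    linarith

end Pool.JS
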