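import Pool.Agent.JS.LgD
import Pool.Agent.JS.LgE
import Pool.Agent.JS.Cmp

/-!
Separation and logarithms; Janiszewski's theorem.
-/

open Set Metric Topology

namespace Pool.JS

variable {K L : Set ℂ} {a b : ℂ}

theorem eil_not_mem_closure (hK : IsClosed K) (hb : b ∉ K) (hab : b ∉ cmp K a) : b ∉ closure (cmp K a) := by
  intro h
  have h1 : b ∈ frontier (cmp K a) := by
    rw [frontier, (isOpen_cmp hK).interior_eq]
    exact ⟨h, hab⟩
  exact hb (frontier_cmp hK h1)

theorem eil_aux (hK : IsCompact K) (ha : a ∉ K) (hb : b ∉ K) (hab : b ∉ cmp K a)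
    (hbd : Bornology.IsBounded (cmp K a)) {n m : ℤ} (h : HasLog K (fun z => (z - a) ^ n * (z - b) ^ m)) :
    n = 0 := by
  have hcl := eil_not_mem_closure hK.isClosed hb hab
  have hne : ∀ z ∈ closure (cmp K a), z - b ≠ 0 := by
    intro z hz e
    exact hcl (by rwa [← sub_eq_zero.1 e])
  refine eilenberg (isOpen_cmp hK.isClosed) hbd (frontier_cmp hK.isClosed) (mem_cmp ha)
    (h₀ := fun z => (z - b) ^ m) ?_ ?_ h
  · refine ContinuousOn.zpow₀ (by fun_prop) m ?_
    intro z hz
    exact Or.inl (hne z hz)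
  · intro z hz
    exact zpow_ne_zero _ (hne z hz)

theorem con_of_hasLog (hK : IsCompact K) (ha : a ∉ K) (hb : b ∉ K)
    (h : HasLog K (fun z => (z - a) / (z - b))) : Con K a b := by
  by_contra hcon
  have hab : b ∉ cmp K a := fun e => hcon ((con_iff ha).2 e)
  have hba : a ∉ cmp K b := fun e => hcon ((con_iff hb).2 e).symm
  by_cases h1 : Bornology.IsBounded (cmp K a)
  · have h2 : HasLog K (fun z => (z - a) ^ (1 : ℤ) * (z - b) ^ (-1 : ℤ)) := by
      refine h.congr ?_
      intro z _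
      simp [div_eq_mul_inv]
    exact one_ne_zero (eil_aux hK ha hb hab h1 h2)
  · by_cases h1' : Bornology.IsBounded (cmp K b)
    · have h2 : HasLog K (fun z => (z - b) ^ (1 : ℤ) * (z - a) ^ (-1 : ℤ)) := by
        refine h.inv.congr ?_
        intro z _
        simp [div_eq_mul_inv]
      exact one_ne_zero (eil_aux hK hb ha hba h1' h2)
    · exact hcon (Esc.con hK.isBounded ((esc_iff ha).2 h1) ((esc_iff hb).2 h1'))

theorem esc_of_hasLog (hK : IsCompact K) (ha : a ∉ K) (h : HasLog K (fun z => z - a)) : Esc K a := by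
  rw [esc_iff ha]
  intro hbd
  have h2 : HasLog K (fun z => (z - a) ^ (1 : ℤ) * (fun _ : ℂ => (1 : ℂ)) z) := by
    refine h.congr ?_
    intro z _
    simp
  exact one_ne_zero (eilenberg (isOpen_cmp hK.isClosed) hbd (frontier_cmp hK.isClosed) (mem_cmp ha)
    (h₀ := fun _ => (1 : ℂ)) (by fun_prop) (by simp) h2)

theorem indep_of_hasLog (hK : IsCompact K) (ha : a ∉ K) (hb : b ∉ K) (hab : ¬ Con K a b) (he : ¬ Esc K a)
    {n m : ℤ} (h : HasLog K (fun z => (z - a) ^ n * (z - b) ^ m)) : n = 0 := by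
  rw [esc_iff ha, not_not] at he
  exact eil_aux hK ha hb (fun e => hab ((con_iff ha).2 e)) he h

theorem janiszewski (hK : IsCompact K) (hL : IsCompact L) (hc : IsPreconnected (K ∩ L))
    (ha : a ∉ K ∪ L) (hb : b ∉ K ∪ L) (h₁ : Con K a b) (h₂ : Con L a b) : Con (K ∪ L) a b :=
  con_of_hasLog (hK.union hL) ha hb
    (HasLog.union hK.isClosed hL.isClosed hc (hasLog_div_of_con hK h₁) (hasLog_div_of_con hL h₂))

theorem janiszewski_esc (hK : IsCompact K) (hL : IsCompact L) (hc : IsPreconnected (K ∩ L))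
    (ha : a ∉ K ∪ L) (h₁ : Esc K a) (h₂ : Esc L a) : Esc (K ∪ L) a :=
  esc_of_hasLog (hK.union hL) ha
    (HasLog.union hK.isClosed hL.isClosed hc (hasLog_of_esc hK h₁) (hasLog_of_esc hL h₂))

end Pool.JS
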