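import Pool.Agent.JS.SpA
import Pool.Agent.JS.Cmp
import Pool.Agent.JS.Eil

/-!
MODULE SpC (difficulty 3).  Separation in the two-sphere and in the plane.

RECIPE.  `con_iff` `←`: the image `σ '' C`.  `esc_iff` `←`: `C` unbounded, `σ '' C ∪ {x}` is preconnected because it lies between the preconnected set `σ '' C` and its closure (`Chart.mem_closure`, `IsPreconnected.subset_closure`).
`esc_iff` `→`: let `W = cmp (σ ⁻¹' K) a` (the point `a` is not in `σ ⁻¹' K`); suppose `W` is bounded; `σ '' W` is open; `closure (σ '' W) ⊆ σ '' closure W` (compact, closed) and `closure W ⊆ W ∪ σ ⁻¹' K` (`frontier_cmp`), so `σ '' W` is clopen relative to `Kᶜ`;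
the preconnected set `C` meets it in `σ a` so `C ⊆ σ '' W`, but `x ∈ C` (`IsPreconnected.subset_of_...` or `isPreconnected_closed_iff`).  `con_iff` `→`: same argument with `W = cmp _ a`: if `W` is bounded, `C ⊆ σ '' W`, so `b ∈ W`; if `W` is unbounded and `W' = cmp _ b` is unbounded, `Esc.con`
(`σ ⁻¹' K` is bounded); if `W'` is bounded, `a ∈ W'`.
`janiszewskiX`: if `a = b` the set `{a}`.  Otherwise take a chart at `b`, `a = σ a'`; `σ ⁻¹' (K ∪ L)` etc.; the set `σ ⁻¹' K ∩ σ ⁻¹' L = σ ⁻¹' (K ∩ L)` is preconnected (`IsPreconnected.preimage_of_isOpenMap` or `IsInducing.isPreconnected_image`); `janiszewski_esc` and `esc_iff`.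
-/

open Set Metric Topology

namespace Pool.JS

variable {X : Type*} [TopologicalSpace X] {K L : Set X} {a b c : X}

theorem ConX.symm (h : ConX K a b) : ConX K b a := by
  obtain ⟨C, hC, hK, ha, hb⟩ := h
  exact ⟨C, hC, hK, hb, ha⟩

theorem ConX.trans (h : ConX K a b) (h' : ConX K b c) : ConX K a c := by
  obtain ⟨C, hC, hK, ha, hb⟩ := h
  obtain ⟨D, hD, hK', hb', hc⟩ := h'
  exact ⟨C ∪ D, IsPreconnected.union b hb hb' hC hD, union_subset hK hK', Or.inl ha, Or.inr hc⟩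

theorem ConX.mono (h : ConX K a b) (hL : L ⊆ K) : ConX L a b := by
  obtain ⟨C, hC, hK, ha, hb⟩ := h
  exact ⟨C, hC, hK.trans (compl_subset_compl.2 hL), ha, hb⟩

private theorem spC_bdd [CompactSpace X] [T2Space X] {x : X} {σ : ℂ → X} (h : Chart x σ) (hK : IsClosed K)
    {a : ℂ} (ha : σ a ∉ K) (hb : Bornology.IsBounded (cmp (σ ⁻¹' K) a)) {C : Set X}
    (hC : IsPreconnected C) (hCK : C ⊆ Kᶜ) (haC : σ a ∈ C) : C ⊆ σ '' cmp (σ ⁻¹' K) a := by
  have hKc : IsClosed (σ ⁻¹' K) := hK.preimage h.cont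
  have ha' : a ∉ σ ⁻¹' K := ha
  have hW : IsOpen (σ '' cmp (σ ⁻¹' K) a) := h.emb.isOpenMap _ (isOpen_cmp hKc)
  have hWc : IsClosed (σ '' closure (cmp (σ ⁻¹' K) a)) := h.isClosed_image hb.isCompact_closure
  have hsub : C ⊆ σ '' cmp (σ ⁻¹' K) a ∪ (σ '' closure (cmp (σ ⁻¹' K) a))ᶜ := by
    intro c hc
    by_cases hcc : c ∈ σ '' closure (cmp (σ ⁻¹' K) a)
    · obtain ⟨w, hw, rfl⟩ := hcc
      left
      by_contra hn
      have hwW : w ∉ cmp (σ ⁻¹' K) a := fun hw' => hn ⟨w, hw', rfl⟩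
      have hfr : w ∈ frontier (cmp (σ ⁻¹' K) a) := by
        rw [frontier, (isOpen_cmp hKc).interior_eq]
        exact ⟨hw, hwW⟩
      exact hCK hc (frontier_cmp hKc hfr)
    · exact Or.inr hcc
  refine IsPreconnected.subset_left_of_subset_union hW hWc.isOpen_compl ?_ hsub
    ⟨σ a, haC, a, mem_cmp ha', rfl⟩ hC
  rw [disjoint_compl_right_iff_subset]
  exact image_mono subset_closure

theorem Chart.esc_iff [CompactSpace X] [T2Space X] {x : X} {σ : ℂ → X} (h : Chart x σ) (hK : IsClosed K) (hx : x ∉ K)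
    {a : ℂ} (ha : σ a ∉ K) : ConX K (σ a) x ↔ Esc (σ ⁻¹' K) a := by
  have ha' : a ∉ σ ⁻¹' K := ha
  constructor
  · rintro ⟨C, hC, hCK, haC, hxC⟩
    rw [Pool.JS.esc_iff ha']
    intro hb
    obtain ⟨w, -, hw⟩ := spC_bdd h hK ha hb hC hCK haC hxC
    exact h.ne w hw
  · rintro ⟨C, hC, hCK, haC, hub⟩
    have hxc : x ∈ closure (σ '' C) := h.mem_closure.2 hub
    refine ⟨insert x (σ '' C), ?_, ?_, Or.inr ⟨a, haC, rfl⟩, Or.inl rfl⟩
    · exact (hC.image σ h.cont.continuousOn).subset_closure (subset_insert _ _)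
        (insert_subset hxc subset_closure)
    · rintro y (rfl | ⟨w, hw, rfl⟩)
      · exact hx
      · exact hCK hw

theorem Chart.con_iff [CompactSpace X] [T2Space X] {x : X} {σ : ℂ → X} (h : Chart x σ) (hK : IsClosed K) (hx : x ∉ K)
    {a b : ℂ} (ha : σ a ∉ K) (hb : σ b ∉ K) : ConX K (σ a) (σ b) ↔ Con (σ ⁻¹' K) a b := by
  have ha' : a ∉ σ ⁻¹' K := ha
  have hb' : b ∉ σ ⁻¹' K := hb
  constructor
  · rintro ⟨C, hC, hCK, haC, hbC⟩
    by_cases h1 : Bornology.IsBounded (cmp (σ ⁻¹' K) a)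
    · obtain ⟨w, hw, hwb⟩ := spC_bdd h hK ha h1 hC hCK haC hbC
      have := h.inj hwb
      subst this
      exact (Pool.JS.con_iff ha').2 hw
    · by_cases h2 : Bornology.IsBounded (cmp (σ ⁻¹' K) b)
      · obtain ⟨w, hw, hwb⟩ := spC_bdd h hK hb h2 hC hCK hbC haC
        have := h.inj hwb
        subst this
        exact ((Pool.JS.con_iff hb').2 hw).symm
      · exact Esc.con (h.isCompact_preimage hK hx).isBounded ((Pool.JS.esc_iff ha').2 h1)
          ((Pool.JS.esc_iff hb').2 h2)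
  · rintro ⟨C, hC, hCK, haC, hbC⟩
    refine ⟨σ '' C, hC.image σ h.cont.continuousOn, ?_, ⟨a, haC, rfl⟩, ⟨b, hbC, rfl⟩⟩
    rintro y ⟨w, hw, rfl⟩
    exact hCK hw

theorem janiszewskiX [CompactSpace X] [T2Space X] [Sph X] (hK : IsClosed K) (hL : IsClosed L)
    (hc : IsPreconnected (K ∩ L)) (ha : a ∉ K ∪ L) (hb : b ∉ K ∪ L) (h₁ : ConX K a b) (h₂ : ConX L a b) :
    ConX (K ∪ L) a b := by
  by_cases hab : a = b
  · subst hab
    refine ⟨{a}, isPreconnected_singleton, ?_, rfl, rfl⟩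
    rintro y rfl
    exact ha
  · obtain ⟨σ, h⟩ := exists_chart b
    obtain ⟨a', rfl⟩ := h.exists_eq hab
    have haK : σ a' ∉ K := fun hh => ha (Or.inl hh)
    have haL : σ a' ∉ L := fun hh => ha (Or.inr hh)
    have hbK : b ∉ K := fun hh => hb (Or.inl hh)
    have hbL : b ∉ L := fun hh => hb (Or.inr hh)
    rw [h.esc_iff hK hbK haK] at h₁
    rw [h.esc_iff hL hbL haL] at h₂
    rw [h.esc_iff (hK.union hL) hb ha]
    have hcc : IsPreconnected (σ ⁻¹' K ∩ σ ⁻¹' L) := by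
      rw [← preimage_inter]
      refine IsPreconnected.preimage_of_isOpenMap hc h.inj h.emb.isOpenMap ?_
      rw [h.range]
      rintro y hy rfl
      exact hbK hy.1
    have := janiszewski_esc (h.isCompact_preimage hK hbK) (h.isCompact_preimage hL hbL) hcc
      (a := a') (fun hh => ha hh) h₁ h₂
    exact this

end Pool.JS
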