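import Pool.Agent.JS.LgA

/-!
MODULE LgB (difficulty 3).  Continuous functions without zeros on compact convex sets have logarithms.

RECIPE.  WLOG `K` nonempty, fix `p ∈ K`.  The map `F : (t, z) ↦ f (p + t (z - p))` is continuous on the compact set `[0,1] × K`
and has no zeros, so `m = min ‖F‖ > 0`, and it is uniformly continuous (`CompactSpace`/`IsCompact.uniformContinuousOn_of_continuous`):
there is `n ≥ 1` with `‖F (t, z) - F (t', z)‖ < m` for `|t - t'| ≤ 1 / n`, `z ∈ K`.  For `k < n` put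
`r_k z = F ((k+1)/n, z) / F (k/n, z)`: `‖r_k z - 1‖ < 1`, so `r_k` has a logarithm (`hasLog_of_near`), and
`f z = F (1, z) = f p * ∏_{k<n} r_k z` (induction on the number of factors: for every `j ≤ n` the function `z ↦ F (j/n, z)` has a
logarithm on `K`: `j = 0` is a constant (`hasLog_const`), step `HasLog.mul`).
-/

open Set Metric Topology

namespace Pool.JS

theorem hasLog_of_convex {K : Set ℂ} (hK : IsCompact K) (hc : Convex ℝ K) {f : ℂ → ℂ}
    (hf : ContinuousOn f K) (h0 : ∀ z ∈ K, f z ≠ 0) : HasLog K f := by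
  rcases K.eq_empty_or_nonempty with rfl | ⟨p, hp⟩
  · exact ⟨fun _ => 0, continuousOn_empty _, fun z hz => hz.elim⟩
  -- the minimum
  obtain ⟨m, hm, hmK⟩ : ∃ m : ℝ, 0 < m ∧ ∀ z ∈ K, m ≤ ‖f z‖ := by
    obtain ⟨z0, hz0, hmin⟩ := hK.exists_isMinOn ⟨p, hp⟩ hf.norm
    exact ⟨‖f z0‖, norm_pos_iff.mpr (h0 z0 hz0), fun z hz => hmin hz⟩
  have hmem : ∀ t ∈ Icc (0 : ℝ) 1, ∀ z ∈ K, p + (t : ℂ) * (z - p) ∈ K := by
    intro t ht z hz
    have h := hc hp hz (by linarith [ht.2] : (0 : ℝ) ≤ 1 - t) ht.1 (by ring)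
    have e : (1 - t) • p + t • z = p + (t : ℂ) * (z - p) := by
      simp only [Complex.real_smul, Complex.ofReal_sub, Complex.ofReal_one]
      ring
    rwa [e] at h
  -- the homotopy
  have hF : ContinuousOn (fun q : ℝ × ℂ => f (p + (q.1 : ℂ) * (q.2 - p))) (Icc (0 : ℝ) 1 ×ˢ K) := by
    refine hf.comp (f := fun q : ℝ × ℂ => p + (q.1 : ℂ) * (q.2 - p)) ?_ ?_
    · apply Continuous.continuousOn
      fun_prop
    · intro q hq
      exact hmem q.1 hq.1 q.2 hq.2
  have hU := (isCompact_Icc.prod hK).uniformContinuousOn_of_continuous hF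
  obtain ⟨δ, hδ, hd⟩ := Metric.uniformContinuousOn_iff.mp hU m hm
  obtain ⟨n, hn⟩ := exists_nat_one_div_lt hδ
  have hn0 : (0 : ℝ) < (n : ℝ) + 1 := by positivity
  -- induction
  have key : ∀ j : ℕ, j ≤ n + 1 → HasLog K (fun z => f (p + (((j : ℝ) / ((n : ℝ) + 1) : ℝ) : ℂ) * (z - p))) := by
    intro j
    induction j with
    | zero =>
      intro _
      refine (hasLog_const (h0 p hp)).congr ?_
      intro z _
      simp
    | succ j ih =>
      intro hj
      have hjr : ((j : ℝ) + 1) ≤ (n : ℝ) + 1 := by exact_mod_cast hj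
      have h1 : (j : ℝ) / ((n : ℝ) + 1) ∈ Icc (0 : ℝ) 1 :=
        ⟨by positivity, by rw [div_le_one hn0]; linarith⟩
      have h2 : ((j : ℝ) + 1) / ((n : ℝ) + 1) ∈ Icc (0 : ℝ) 1 :=
        ⟨by positivity, by rw [div_le_one hn0]; linarith⟩
      have c1 : ContinuousOn (fun z => f (p + (((j : ℝ) / ((n : ℝ) + 1) : ℝ) : ℂ) * (z - p))) K := by
        refine hf.comp (f := fun z : ℂ => p + (((j : ℝ) / ((n : ℝ) + 1) : ℝ) : ℂ) * (z - p)) ?_ ?_
        · apply Continuous.continuousOn
          fun_prop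
        · intro z hz
          exact hmem _ h1 z hz
      have c2 : ContinuousOn (fun z => f (p + ((((j : ℝ) + 1) / ((n : ℝ) + 1) : ℝ) : ℂ) * (z - p))) K := by
        refine hf.comp (f := fun z : ℂ => p + ((((j : ℝ) + 1) / ((n : ℝ) + 1) : ℝ) : ℂ) * (z - p)) ?_ ?_
        · apply Continuous.continuousOn
          fun_prop
        · intro z hz
          exact hmem _ h2 z hz
      have n1 : ∀ z ∈ K, f (p + (((j : ℝ) / ((n : ℝ) + 1) : ℝ) : ℂ) * (z - p)) ≠ 0 :=
        fun z hz => h0 _ (hmem _ h1 z hz)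
      have hr : HasLog K (fun z => f (p + ((((j : ℝ) + 1) / ((n : ℝ) + 1) : ℝ) : ℂ) * (z - p)) /
          f (p + (((j : ℝ) / ((n : ℝ) + 1) : ℝ) : ℂ) * (z - p))) := by
        apply hasLog_of_near
        · exact c2.div c1 n1
        · intro z hz
          set a := f (p + ((((j : ℝ) + 1) / ((n : ℝ) + 1) : ℝ) : ℂ) * (z - p)) with ha
          set b := f (p + (((j : ℝ) / ((n : ℝ) + 1) : ℝ) : ℂ) * (z - p)) with hb
          have hb0 : b ≠ 0 := n1 z hz
          have e : a / b - 1 = (a - b) / b := by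
            field_simp
          rw [e, norm_div, div_lt_one (norm_pos_iff.mpr hb0)]
          have h3 := hd (((j : ℝ) + 1) / ((n : ℝ) + 1), z) ⟨h2, hz⟩ ((j : ℝ) / ((n : ℝ) + 1), z) ⟨h1, hz⟩ ?_
          · rw [dist_eq_norm] at h3
            exact lt_of_lt_of_le h3 (hmK _ (hmem _ h1 z hz))
          · rw [Prod.dist_eq]
            simp only [dist_self]
            rw [max_eq_left dist_nonneg, Real.dist_eq]
            have e2 : ((j : ℝ) + 1) / ((n : ℝ) + 1) - (j : ℝ) / ((n : ℝ) + 1) = 1 / ((n : ℝ) + 1) := by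
              field_simp
              ring
            rw [e2, abs_of_pos (by positivity)]
            exact hn
      refine ((ih (by omega)).mul hr).congr ?_
      intro z hz
      have := n1 z hz
      push_cast
      push_cast at this
      rw [mul_div_cancel₀]
      exact this
  refine (key (n + 1) le_rfl).congr ?_
  intro z _
  have e : (((n + 1 : ℕ) : ℝ) / ((n : ℝ) + 1)) = 1 := by
    push_cast
    exact div_self hn0.ne'
  rw [e]
  simp

end Pool.JS
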