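import Pool.Agent.JS.Inv
import Pool.Agent.JS.LgB

/-!
MODULE Circ (difficulty 3).  Zero-free functions on a simple closed curve, up to logarithms, are the powers of one function.

RECIPE.  `circle_class`: let `e θ = exp (θ I)`, `Icc 0 (2 π) → sphere 0 1`.  `θ ↦ f (e θ)` is continuous without zeros on `Icc 0 (2π)`; by
`hasLog_of_convex` for the compact convex set `{w | w.re ∈ Icc 0 (2π) ∧ w.im = 0}` there is `k : ℝ → ℂ` continuous on `Icc 0 (2 π)` with `exp (k θ) = f (e θ)`.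
`exp (k (2π)) = exp (k 0)`: `k (2π) = k 0 + m (2 π I)`.  Put `l θ = k θ - m θ I`, so `l (2π) = l 0` and `exp (l θ) = f (e θ) * (e θ) ^ (-m)`.
Define `g z = l (θ z)` where `θ z ∈ [0, 2π)` with `e (θ z) = z` (`Real.toIocMod`, or choose; e.g. `g z = l θ` for any `θ ∈ Icc 0 (2π)` with `e θ = z`: well defined since `e` is injective on
`Ico 0 (2π)` and `l (2π) = l 0`).  Continuity of `g` on the sphere: for closed `F`, `{z ∈ sphere | g z ∈ F} = e '' {θ ∈ Icc 0 (2π) | l θ ∈ F}` is the image of a compact set, so it is closed.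
`n = -m`.
`jordan_class`: `γ` with `γ '' sphere 0 1 = J`, `τ` its inverse (`exists_inverse`), `‖τ z‖ = 1` on `J`; apply `circle_class` to `f ∘ γ` and compose with `τ`
(`HasLog.comp`, `congr`).
-/

open Set Metric Topology

namespace Pool.JS

/-- the angle in `[0, 2π)` -/
noncomputable def circ_arg (z : ℂ) : ℝ := if 0 ≤ Complex.arg z then Complex.arg z else Complex.arg z + 2 * Real.pi

theorem circ_arg_mem (z : ℂ) : circ_arg z ∈ Ico (0 : ℝ) (2 * Real.pi) := by
  have h1 := Complex.neg_pi_lt_arg z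
  have h2 := Complex.arg_le_pi z
  have h3 := Real.pi_pos
  unfold circ_arg
  split_ifs with h
  · exact ⟨h, by linarith⟩
  · push Not at h
    exact ⟨by linarith, by linarith⟩

theorem circ_exp_arg {z : ℂ} (hz : z ∈ sphere (0 : ℂ) 1) : Complex.exp (circ_arg z * Complex.I) = z := by
  have hn : ‖z‖ = 1 := by simpa using hz
  have h1 := Complex.norm_mul_exp_arg_mul_I z
  rw [hn, Complex.ofReal_one, one_mul] at h1
  unfold circ_arg
  split_ifs with h
  · exact h1
  · push_cast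
    rw [add_mul, Complex.exp_add, h1, Complex.exp_two_pi_mul_I, mul_one]

theorem circ_exp_mem (θ : ℝ) : Complex.exp (θ * Complex.I) ∈ sphere (0 : ℂ) 1 := by
  simp [Complex.norm_exp_ofReal_mul_I]

theorem circle_class {f : ℂ → ℂ} (hf : ContinuousOn f (sphere 0 1)) (h0 : ∀ z ∈ sphere (0 : ℂ) 1, f z ≠ 0) :
    ∃ n : ℤ, HasLog (sphere 0 1) (fun z => f z * z ^ n) := by
  have hpi := Real.pi_pos
  have hS : IsCompact ((fun x : ℝ => (x : ℂ)) '' Icc 0 (2 * Real.pi)) :=
    isCompact_Icc.image Complex.continuous_ofReal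
  have hC : Convex ℝ ((fun x : ℝ => (x : ℂ)) '' Icc 0 (2 * Real.pi)) := by
    have := (convex_Icc (𝕜 := ℝ) (0 : ℝ) (2 * Real.pi)).linear_image Complex.ofRealCLM.toLinearMap
    exact this
  have hF : ContinuousOn (fun w : ℂ => f (Complex.exp (w * Complex.I)))
      ((fun x : ℝ => (x : ℂ)) '' Icc 0 (2 * Real.pi)) := by
    refine hf.comp (by fun_prop) ?_
    rintro _ ⟨x, _, rfl⟩
    exact circ_exp_mem x
  have hF0 : ∀ w ∈ ((fun x : ℝ => (x : ℂ)) '' Icc 0 (2 * Real.pi)), f (Complex.exp (w * Complex.I)) ≠ 0 := by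
    rintro _ ⟨x, _, rfl⟩
    exact h0 _ (circ_exp_mem x)
  obtain ⟨g, hg, hge⟩ := hasLog_of_convex hS hC hF hF0
  have hk : ContinuousOn (fun x : ℝ => g (x : ℂ)) (Icc 0 (2 * Real.pi)) :=
    hg.comp Complex.continuous_ofReal.continuousOn (fun x hx => ⟨x, hx, rfl⟩)
  have hke : ∀ x ∈ Icc (0 : ℝ) (2 * Real.pi), Complex.exp (g (x : ℂ)) = f (Complex.exp (x * Complex.I)) :=
    fun x hx => hge _ ⟨x, hx, rfl⟩
  have e0 := hke 0 ⟨le_rfl, by positivity⟩
  have e1 := hke (2 * Real.pi) ⟨by positivity, le_rfl⟩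
  have e2 : Complex.exp (((2 * Real.pi : ℝ) : ℂ) * Complex.I) = 1 := by
    push_cast
    exact Complex.exp_two_pi_mul_I
  rw [e2] at e1
  rw [Complex.ofReal_zero, zero_mul, Complex.exp_zero] at e0
  obtain ⟨m, hm⟩ := Complex.exp_eq_exp_iff_exists_int.1 (e1.trans e0.symm)
  -- the corrected logarithm
  set l : ℝ → ℂ := fun x => g (x : ℂ) - m * (x * Complex.I) with hl
  have hlc : ContinuousOn l (Icc 0 (2 * Real.pi)) := by
    refine hk.sub ?_
    apply Continuous.continuousOn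
    fun_prop
  have hl1 : l (2 * Real.pi) = l 0 := by
    simp only [hl]
    rw [hm]
    push_cast
    ring
  have hle : ∀ x ∈ Icc (0 : ℝ) (2 * Real.pi),
      Complex.exp (l x) = f (Complex.exp (x * Complex.I)) * Complex.exp (x * Complex.I) ^ (-m) := by
    intro x hx
    simp only [hl]
    rw [Complex.exp_sub, hke x hx, Complex.exp_int_mul, zpow_neg, div_eq_mul_inv]
  have key : ∀ x ∈ Icc (0 : ℝ) (2 * Real.pi), l (circ_arg (Complex.exp (x * Complex.I))) = l x := by
    intro x hx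
    have h1 := circ_exp_arg (circ_exp_mem x)
    have h2 := circ_arg_mem (Complex.exp (x * Complex.I))
    set y := circ_arg (Complex.exp (x * Complex.I))
    obtain ⟨j, hj⟩ := Complex.exp_eq_exp_iff_exists_int.1 h1
    have hj' : (y : ℂ) = ((x + j * (2 * Real.pi) : ℝ) : ℂ) := by
      have hI : (Complex.I : ℂ) ≠ 0 := Complex.I_ne_zero
      have : (y : ℂ) * Complex.I = ((x + j * (2 * Real.pi) : ℝ) : ℂ) * Complex.I := by
        rw [hj]
        push_cast
        ring
      exact mul_right_cancel₀ hI this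
    have hj2 : y = x + j * (2 * Real.pi) := by exact_mod_cast hj'
    obtain ⟨hx0, hx1⟩ := hx
    obtain ⟨hy0, hy1⟩ := h2
    have hjr1 : (j : ℝ) < 1 := by
      by_contra hcon
      push Not at hcon
      nlinarith
    have hjr2 : (-2 : ℝ) < j := by
      by_contra hcon
      push Not at hcon
      nlinarith
    have hji1 : j < 1 := by exact_mod_cast hjr1
    have hji2 : -2 < j := by exact_mod_cast hjr2
    have hjj : j = 0 ∨ j = -1 := by omega
    rcases hjj with rfl | rfl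
    · have : y = x := by rw [hj2]; push_cast; ring
      rw [this]
    · have h3 : y = x - 2 * Real.pi := by rw [hj2]; push_cast; ring
      have h4 : x = 2 * Real.pi := by linarith
      have h5 : y = 0 := by linarith
      rw [h5, h4, hl1]
  refine ⟨-m, fun z => l (circ_arg z), ?_, ?_⟩
  · rw [continuousOn_iff_isClosed]
    intro t ht
    have hc1 : IsClosed (Icc 0 (2 * Real.pi) ∩ l ⁻¹' t) := hlc.preimage_isClosed_of_isClosed isClosed_Icc ht
    have hc2 : IsCompact (Icc 0 (2 * Real.pi) ∩ l ⁻¹' t) := isCompact_Icc.of_isClosed_subset hc1 inter_subset_left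
    have hce : Continuous fun x : ℝ => Complex.exp (x * Complex.I) := by fun_prop
    refine ⟨(fun x : ℝ => Complex.exp (x * Complex.I)) '' (Icc 0 (2 * Real.pi) ∩ l ⁻¹' t),
      (hc2.image hce).isClosed, ?_⟩
    ext z
    constructor
    · rintro ⟨hz1, hz2⟩
      refine ⟨⟨circ_arg z, ⟨Ico_subset_Icc_self (circ_arg_mem z), hz1⟩, circ_exp_arg hz2⟩, hz2⟩
    · rintro ⟨⟨x, ⟨hx1, hx2⟩, rfl⟩, hz2⟩
      refine ⟨?_, hz2⟩
      show l (circ_arg (Complex.exp (x * Complex.I))) ∈ t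
      rw [key x hx1]
      exact hx2
  · intro z hz
    have h1 := hle (circ_arg z) (Ico_subset_Icc_self (circ_arg_mem z))
    rw [circ_exp_arg hz] at h1
    exact h1

theorem jordan_class {J : Set ℂ} (hJ : IsJordan J) : ∃ τ : ℂ → ℂ, ContinuousOn τ J ∧ (∀ z ∈ J, τ z ≠ 0) ∧
    ∀ f : ℂ → ℂ, ContinuousOn f J → (∀ z ∈ J, f z ≠ 0) → ∃ n : ℤ, HasLog J (fun z => f z * τ z ^ n) := by
  obtain ⟨γ, hγ, hi, rfl⟩ := hJ
  obtain ⟨τ, hτ, hτi⟩ := exists_inverse (isCompact_sphere (0 : ℂ) 1) hγ hi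
  have hm : MapsTo τ (γ '' sphere 0 1) (sphere 0 1) := by
    rintro _ ⟨x, hx, rfl⟩
    rw [hτi x hx]
    exact hx
  refine ⟨τ, hτ, ?_, ?_⟩
  · intro z hz h0
    have := hm hz
    rw [h0] at this
    simp at this
  · intro f hf hf0
    obtain ⟨n, hn⟩ := circle_class (f := fun w => f (γ w)) (hf.comp hγ (fun x hx => ⟨x, hx, rfl⟩))
      (fun w hw => hf0 _ ⟨w, hw, rfl⟩)
    refine ⟨n, (hn.comp hτ hm).congr ?_⟩
    rintro _ ⟨x, hx, rfl⟩
    rw [hτi x hx]

end Pool.JS
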