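import Pool.Agent.JS.JorB
import Pool.Agent.JS.Circ

/-!
MODULE Jct (difficulty 3).  The Jordan curve theorem.
-/

open Set Metric Topology

namespace Pool.JS

theorem IsJordan.unique_bdd {J : Set ℂ} (hJ : IsJordan J) {a b : ℂ} (ha : a ∉ J) (hb : b ∉ J) (ha' : ¬ Esc J a)
    (hb' : ¬ Esc J b) : Con J a b := by
  obtain ⟨τ, -, hτ0, hτ⟩ := jordan_class hJ
  have hca : ContinuousOn (fun z : ℂ => z - a) J := (continuous_id.sub continuous_const).continuousOn
  have hcb : ContinuousOn (fun z : ℂ => z - b) J := (continuous_id.sub continuous_const).continuousOn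
  have ha0 : ∀ z ∈ J, z - a ≠ 0 := fun z hz h => ha (by rwa [sub_eq_zero.1 h] at hz)
  have hb0 : ∀ z ∈ J, z - b ≠ 0 := fun z hz h => hb (by rwa [sub_eq_zero.1 h] at hz)
  obtain ⟨n, hn⟩ := hτ _ hca ha0
  obtain ⟨m, hm⟩ := hτ _ hcb hb0
  by_contra hab
  have h1 : HasLog J (fun z => (z - a) ^ m * (z - b) ^ (-n)) := by
    refine ((hn.zpow m).div (hm.zpow n)).congr ?_
    intro z hz
    have e0 := hτ0 z hz
    have e1 := ha0 z hz
    have e2 := hb0 z hz
    rw [mul_zpow, mul_zpow, ← zpow_mul, ← zpow_mul, mul_comm m n, zpow_neg]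
    have e3 : τ z ^ (n * m) ≠ 0 := zpow_ne_zero _ e0
    have e4 : (z - b) ^ n ≠ 0 := zpow_ne_zero _ e2
    field_simp
  have h2 : m = 0 := indep_of_hasLog hJ.isCompact ha hb hab ha' h1
  rw [h2] at hm
  apply hb'
  refine esc_of_hasLog hJ.isCompact hb (hm.congr ?_)
  intro z _
  simp

/-- the Jordan curve theorem -/
theorem IsJordan.jct {J : Set ℂ} (hJ : IsJordan J) : ∃ U V, Jsep J U V := by
  have hK := hJ.isCompact
  have hcl := hK.isClosed
  obtain ⟨a₀, ha₀, hea⟩ := hJ.exists_not_esc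
  have hU : ∀ a, a ∈ cmp J a₀ ↔ a ∉ J ∧ ¬ Esc J a := by
    intro a
    constructor
    · intro h
      refine ⟨fun h' => cmp_subset h h', fun h' => hea ?_⟩
      exact ((con_iff ha₀).2 h).esc h'
    · rintro ⟨h1, h2⟩
      exact (con_iff ha₀).1 (hJ.unique_bdd ha₀ h1 hea h2)
  have hbU : Bornology.IsBounded (cmp J a₀) := by
    by_contra h
    exact hea ((esc_iff ha₀).2 h)
  have hexb : ∃ b₀, b₀ ∉ J ∧ Esc J b₀ := by
    by_contra hc
    push Not at hc
    have h1 : (univ : Set ℂ) ⊆ J ∪ cmp J a₀ := by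
      intro z _
      by_cases hz : z ∈ J
      · exact Or.inl hz
      · exact Or.inr ((hU z).2 ⟨hz, hc z hz⟩)
    have h2 : Bornology.IsBounded (univ : Set ℂ) := (hK.isBounded.union hbU).subset h1
    exact NormedSpace.unbounded_univ ℝ ℂ h2
  obtain ⟨b₀, hb₀, heb⟩ := hexb
  have hV : ∀ b, b ∈ cmp J b₀ ↔ b ∉ J ∧ Esc J b := by
    intro b
    constructor
    · intro h
      refine ⟨fun h' => cmp_subset h h', ?_⟩
      exact ((con_iff hb₀).2 h).symm.esc heb
    · rintro ⟨h1, h2⟩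
      exact (con_iff hb₀).1 (Esc.con hK.isBounded heb h2)
  have hfr : ∀ W : Set ℂ, ∀ a b : ℂ, frontier W ⊆ J → a ∈ W → b ∉ W → a ∉ J → b ∉ J → frontier W = J := by
    intro W a b hW ha hb haJ hbJ
    by_contra hne
    obtain ⟨A, p, q, hA, hFA, hAJ⟩ := hJ.subarc isClosed_frontier hW hne
    obtain ⟨C, hC1, hC2, hC3, hC4⟩ := hA.con (a := a) (b := b) (fun h => haJ (hAJ h)) (fun h => hbJ (hAJ h))
    have hnf : ∀ z ∈ C, z ∉ frontier W := fun z hz h => hC2 hz (hFA h)
    have hin : ∀ z ∈ C, z ∈ W → z ∈ interior W := by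
      intro z hz hzW
      by_contra h
      exact hnf z hz ⟨subset_closure hzW, h⟩
    have hout : ∀ z ∈ C, z ∉ W → z ∈ (closure W)ᶜ := by
      intro z hz hzW h
      exact hnf z hz ⟨h, fun h' => hzW (interior_subset h')⟩
    obtain ⟨z, -, hz1, hz2⟩ := hC1 (interior W) (closure W)ᶜ isOpen_interior isClosed_closure.isOpen_compl
      (by
        intro z hz
        by_cases h : z ∈ W
        · exact Or.inl (hin z hz h)
        · exact Or.inr (hout z hz h))
      ⟨a, hC3, hin a hC3 ha⟩ ⟨b, hC4, hout b hC4 hb⟩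
    exact hz2 (subset_closure (interior_subset hz1))
  have hb₀U : b₀ ∉ cmp J a₀ := fun h => ((hU b₀).1 h).2 heb
  have ha₀V : a₀ ∉ cmp J b₀ := fun h => hea ((hV a₀).1 h).2
  refine ⟨cmp J a₀, cmp J b₀, ?_⟩
  exact
    { openU := isOpen_cmp hcl
      openV := isOpen_cmp hcl
      connU := ⟨⟨a₀, mem_cmp ha₀⟩, isPreconnected_cmp⟩
      connV := ⟨⟨b₀, mem_cmp hb₀⟩, isPreconnected_cmp⟩
      disj := Set.disjoint_left.2 fun z h1 h2 => ((hU z).1 h1).2 ((hV z).1 h2).2
      union := by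
        ext z
        constructor
        · rintro (h | h)
          · exact ((hU z).1 h).1
          · exact ((hV z).1 h).1
        · intro h
          by_cases he : Esc J z
          · exact Or.inr ((hV z).2 ⟨h, he⟩)
          · exact Or.inl ((hU z).2 ⟨h, he⟩)
      bddU := hbU
      bddV := (esc_iff hb₀).1 heb
      frU := hfr _ a₀ b₀ (frontier_cmp hcl) (mem_cmp ha₀) hb₀U ha₀ hb₀
      frV := hfr _ b₀ a₀ (frontier_cmp hcl) (mem_cmp hb₀) ha₀V hb₀ ha₀ }

theorem jsep_sub {J U V U' V' : Set ℂ} (h : Jsep J U V) (h' : Jsep J U' V') : V ⊆ V' := by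
  -- `V` is unbounded, so it is not contained in `U'`
  have h1 : V ⊆ U' ∪ V' := by
    rw [h'.union, ← h.union]
    exact subset_union_right
  rcases h.connV.isPreconnected.subset_or_subset h'.openU h'.openV h'.disj h1 with h2 | h2
  · exact absurd (h'.bddU.subset h2) h.bddV
  · exact h2

theorem Jsep.unique {J U V U' V' : Set ℂ} (h : Jsep J U V) (h' : Jsep J U' V') : U = U' ∧ V = V' := by
  have hV : V = V' := Subset.antisymm (jsep_sub h h') (jsep_sub h' h)
  refine ⟨?_, hV⟩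
  subst hV
  have e1 : U = Jᶜ \ V := by
    rw [← h.union, union_sdiff_right, h.disj.sdiff_eq_left]
  have e2 : U' = Jᶜ \ V := by
    rw [← h'.union, union_sdiff_right, h'.disj.sdiff_eq_left]
  rw [e1, e2]

end Pool.JS
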