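import Pool.Agent.JS.SpE
import Pool.Agent.JS.Jct

/-!
MODULE SpF (difficulty 3).  The Jordan curve theorem and the Schoenflies theorem in the two-sphere.

RECIPE.  `exists_inner`: a chart `σ` at `x`, `IsJordan (σ ⁻¹' J)`, `IsJordan.jct` gives `Jsep (σ ⁻¹' J) I E`; `U = σ '' I`, `V = σ '' E ∪ {x}`: `U` is open and connected; `V` is connected (`x ∈ closure (σ '' E)` as `E` is unbounded: `Chart.mem_closure`), open: `V = (σ '' (I ∪ σ ⁻¹' J))ᶜ` and `I ∪ σ ⁻¹' J = closure I` is compact.
`frontier U`: `closure U = σ '' closure I` (compact image) so `frontier U = σ '' closure I \ σ '' I = σ '' (σ ⁻¹' J) = J`.  `frontier V = closure V \ V`: `V` open, `closure V ⊆ Uᶜ`, so `frontier V ⊆ J`, and `J = σ '' frontier E ⊆ σ '' closure E ⊆ closure (σ '' E)`.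
`SepX.eq_or`: `U` is preconnected and contained in `U' ∪ V'` (open, disjoint), so `U ⊆ U'` or `U ⊆ V'`; symmetric arguments (`U' ⊆ U` or `U' ⊆ V`, ...) and counting.
`SepX.disc`: choose `x ∈ V`; `exists_inner` gives `U₁, V₁` with `x ∈ V₁`; by `eq_or` and `x ∈ V ∩ V₁` we get `U = U₁`; the map `Φ` of the statement `schoenflies_inner` (this is proved in module `Sch` for every `Jsep`; here it is the hypothesis `hS` so that the module does not depend on it) composed with `σ`.
`SepX.con_iff`: `U`, `V` are connected and disjoint from `J`; a preconnected subset of `U ∪ V` is in one of them.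
-/

open Set Metric Topology

namespace Pool.JS

variable {X : Type*} [TopologicalSpace X] [CompactSpace X] [T2Space X] [Sph X] {J U V U' V' : Set X} {a b : X}

theorem SepX.symm (h : SepX J U V) : SepX J V U :=
  ⟨h.openV, h.openU, h.connV, h.connU, h.disj.symm, by rw [union_comm]; exact h.union, h.frV, h.frU⟩

theorem spf_closure_image {x : X} {σ : ℂ → X} (h : Chart x σ) {I : Set ℂ} (hb : Bornology.IsBounded I) :
    closure (σ '' I) = σ '' closure I := by
  apply Subset.antisymm
  · exact closure_minimal (image_mono subset_closure) (h.isClosed_image hb.isCompact_closure)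
  · exact image_closure_subset_closure_image h.cont

theorem exists_inner (hJ : JorX J) {x : X} (hx : x ∉ J) {σ : ℂ → X} (h : Chart x σ) :
    ∃ I E, Jsep (σ ⁻¹' J) I E ∧ SepX J (σ '' I) (σ '' E ∪ {x}) := by
  obtain ⟨I, E, hs⟩ := (h.jordan hJ hx).jct
  have hJi : σ '' (σ ⁻¹' J) = J := h.image_preimage hx
  have hcl : closure I = I ∪ σ ⁻¹' J := by rw [closure_eq_self_union_frontier, hs.frU]
  have hVeq : σ '' E ∪ {x} = (σ '' closure I)ᶜ := by
    ext y
    by_cases hy : y = x
    · subst hy
      simp only [mem_union, mem_singleton_iff, or_true, true_iff, mem_compl_iff]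
      rintro ⟨z, -, hz⟩
      exact h.ne z hz
    · obtain ⟨z, rfl⟩ := h.exists_eq hy
      rw [mem_union, h.inj.mem_set_image, mem_compl_iff, h.inj.mem_set_image, mem_singleton_iff]
      have h1 : z ∈ I ∪ E ↔ z ∉ σ ⁻¹' J := by rw [hs.union]; rfl
      have h2 : z ∈ closure I ↔ z ∈ I ∨ z ∈ σ ⁻¹' J := by rw [hcl]; rfl
      have h3 : z ∈ I → z ∉ E := fun h4 h5 => disjoint_left.1 hs.disj h4 h5
      rw [mem_union] at h1
      constructor
      · rintro (h4 | h4)
        · intro h5
          rcases h2.1 h5 with h6 | h6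
          · exact h3 h6 h4
          · exact h1.1 (Or.inr h4) h6
        · exact absurd h4 hy
      · intro h4
        left
        have h5 : z ∉ σ ⁻¹' J := fun h6 => h4 (h2.2 (Or.inr h6))
        rcases h1.2 h5 with h6 | h6
        · exact absurd (h2.2 (Or.inl h6)) h4
        · exact h6
  have hUo : IsOpen (σ '' I) := h.emb.isOpenMap I hs.openU
  have hclo : closure (σ '' I) = σ '' closure I := spf_closure_image h hs.bddU
  have hVo : IsOpen (σ '' E ∪ {x}) := by
    rw [hVeq, ← hclo]
    exact isClosed_closure.isOpen_compl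
  have hdis : Disjoint (σ '' I) (σ '' E ∪ {x}) := by
    rw [hVeq]
    exact disjoint_compl_right.mono_left (image_mono subset_closure)
  have hun : σ '' I ∪ (σ '' E ∪ {x}) = Jᶜ := by
    ext y
    by_cases hy : y = x
    · subst hy
      simp only [mem_union, mem_singleton_iff, or_true, true_iff, mem_compl_iff]
      exact hx
    · obtain ⟨z, rfl⟩ := h.exists_eq hy
      rw [mem_union, mem_union, h.inj.mem_set_image, h.inj.mem_set_image, mem_singleton_iff]
      have h1 : z ∈ I ∪ E ↔ z ∉ σ ⁻¹' J := by rw [hs.union]; rfl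
      rw [mem_union] at h1
      rw [mem_compl_iff]
      constructor
      · rintro (h4 | h4 | h4)
        · exact h1.1 (Or.inl h4)
        · exact h1.1 (Or.inr h4)
        · exact absurd h4 hy
      · intro h4
        rcases h1.2 h4 with h5 | h5
        · exact Or.inl h5
        · exact Or.inr (Or.inl h5)
  refine ⟨I, E, hs, hUo, hVo, hs.connU.image σ h.cont.continuousOn, ?_, hdis, hun, ?_, ?_⟩
  · refine (hs.connV.image σ h.cont.continuousOn).subset_closure subset_union_left ?_
    rintro y (hy | hy)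
    · exact subset_closure hy
    · rw [mem_singleton_iff] at hy
      rw [hy]
      exact h.mem_closure.2 hs.bddV
  · rw [hUo.frontier_eq, hclo, ← image_diff h.inj, ← hs.openU.frontier_eq, hs.frU, hJi]
  · rw [hVo.frontier_eq]
    apply Subset.antisymm
    · rintro y ⟨hy1, hy2⟩
      by_contra hyJ
      have h1 : y ∈ σ '' I ∪ (σ '' E ∪ {x}) := by rw [hun]; exact hyJ
      rcases h1 with h2 | h2
      · have h3 : Disjoint (σ '' I) (closure (σ '' E ∪ {x})) := hdis.closure_right hUo
        exact disjoint_left.1 h3 h2 hy1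
      · exact hy2 h2
    · intro y hy
      refine ⟨?_, ?_⟩
      · rw [← hJi, ← hs.frV] at hy
        obtain ⟨z, hz, rfl⟩ := hy
        have h1 : σ z ∈ closure (σ '' E) :=
          image_closure_subset_closure_image h.cont ⟨z, frontier_subset_closure hz, rfl⟩
        exact closure_mono subset_union_left h1
      · intro h1
        have h2 : y ∈ Jᶜ := by rw [← hun]; exact Or.inr h1
        exact h2 hy

theorem JorX.jct (hJ : JorX J) : ∃ U V, SepX J U V := by
  obtain ⟨x, hx⟩ := hJ.ne_univ
  obtain ⟨σ, h⟩ := exists_chart x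
  obtain ⟨I, E, -, h2⟩ := exists_inner hJ hx h
  exact ⟨_, _, h2⟩

theorem SepX.spf_sub (h' : SepX J U' V') {C : Set X} (hC : IsPreconnected C) (hCJ : C ⊆ Jᶜ) :
    C ⊆ U' ∨ C ⊆ V' :=
  IsPreconnected.subset_or_subset h'.openU h'.openV h'.disj (by rw [h'.union]; exact hCJ) hC

theorem SepX.eq_or (h : SepX J U V) (h' : SepX J U' V') : (U = U' ∧ V = V') ∨ (U = V' ∧ V = U') := by
  have hU : U ⊆ Jᶜ := by rw [← h.union]; exact subset_union_left
  have hV : V ⊆ Jᶜ := by rw [← h.union]; exact subset_union_right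
  have hU' : U' ⊆ U ∪ V := by rw [h.union, ← h'.union]; exact subset_union_left
  have hV' : V' ⊆ U ∪ V := by rw [h.union, ← h'.union]; exact subset_union_right
  have key : ∀ {A B A' B' : Set X}, A' ⊆ A ∪ B → B' ⊆ A ∪ B → Disjoint A' B' → A ⊆ A' → B ⊆ B' →
      A = A' ∧ B = B' := by
    intro A B A' B' h1 h2 h3 h4 h5
    refine ⟨Subset.antisymm h4 fun y hy => ?_, Subset.antisymm h5 fun y hy => ?_⟩
    · rcases h1 hy with h6 | h6
      · exact h6
      · exact absurd (h5 h6) (disjoint_left.1 h3 hy)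
    · rcases h2 hy with h6 | h6
      · exact absurd hy (disjoint_left.1 h3 (h4 h6))
      · exact h6
  rcases h'.spf_sub h.connU.isPreconnected hU with h1 | h1 <;>
    rcases h'.spf_sub h.connV.isPreconnected hV with h2 | h2
  · obtain ⟨y, hy⟩ := h'.connV.nonempty
    rcases hV' hy with h3 | h3
    · exact absurd hy (disjoint_left.1 h'.disj (h1 h3))
    · exact absurd hy (disjoint_left.1 h'.disj (h2 h3))
  · exact Or.inl (key hU' hV' h'.disj h1 h2)
  · exact Or.inr (key hV' hU' h'.disj.symm h1 h2)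
  · obtain ⟨y, hy⟩ := h'.connU.nonempty
    rcases hU' hy with h3 | h3
    · exact absurd (h1 h3) (disjoint_left.1 h'.disj hy)
    · exact absurd (h2 h3) (disjoint_left.1 h'.disj hy)

theorem SepX.con_iff (h : SepX J U V) (ha : a ∈ U) : ConX J a b ↔ b ∈ U := by
  constructor
  · rintro ⟨C, hC, hCJ, haC, hbC⟩
    rcases h.spf_sub hC hCJ with h1 | h1
    · exact h1 hbC
    · exact absurd (h1 haC) (disjoint_left.1 h.disj ha)
  · intro hb
    exact ⟨U, h.connU.isPreconnected, by rw [← h.union]; exact subset_union_left, ha, hb⟩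

theorem SepX.closure_eq (h : SepX J U V) : closure U = U ∪ J := by
  rw [closure_eq_self_union_frontier, h.frU]

theorem SepX.disc_of (hJ : JorX J) (h : SepX J U V)
    (hS : ∀ {J U V : Set ℂ}, IsJordan J → Jsep J U V → ∃ Φ : ℂ → ℂ, ContinuousOn Φ (closedBall 0 1) ∧
      InjOn Φ (closedBall 0 1) ∧ Φ '' ball 0 1 = U ∧ Φ '' sphere 0 1 = J ∧ Φ '' closedBall 0 1 = closure U) :
    DiscX (closure U) J U := by
  obtain ⟨x, hxV⟩ := h.connV.nonempty
  have hx : x ∉ J := by
    intro hxJ
    have h1 : x ∈ Jᶜ := by rw [← h.union]; exact Or.inr hxV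
    exact h1 hxJ
  obtain ⟨σ, hσ⟩ := exists_chart x
  obtain ⟨I, E, hs, h2⟩ := exists_inner hJ hx hσ
  have hU : U = σ '' I := by
    rcases h.eq_or h2 with h3 | h3
    · exact h3.1
    · exfalso
      rw [h3.2] at hxV
      obtain ⟨z, -, hz⟩ := hxV
      exact hσ.ne z hz
  obtain ⟨Φ, hc, hi, hb, hsp, hcb⟩ := hS (hσ.jordan hJ hx) hs
  refine ⟨σ ∘ Φ, hσ.cont.comp_continuousOn hc, ?_, ?_, ?_, ?_⟩
  · exact hσ.inj.comp_injOn hi
  · rw [image_comp, hcb, hU, spf_closure_image hσ hs.bddU]
  · rw [image_comp, hsp, hσ.image_preimage hx]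
  · rw [image_comp, hb, hU]

end Pool.JS
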