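import Pool.Agent.JS.ThDefs
import Pool.Agent.JS.SpF

/-!
MODULE ThA (difficulty 2).  Sides and faces.

RECIPE.  `isClosed`: a frontier is closed.  `sub_or`: `C ⊆ Jᶜ = U ∪ V`, `U`, `V` open and disjoint (`IsPreconnected.subset_or_subset`).  `sub_left`: `sub_or` and `disj`.
`union_conn`: `U ⊆ U ∪ S ⊆ closure U = U ∪ J` (`IsConnected.subset_closure`).  `face_left`: `max`: a preconnected `C ⊆ Gᶜ ⊆ Jᶜ` which meets `U` is in `U`.
`FaceX.eq`: `max` twice.  `exists_face`: `connectedComponentIn Gᶜ a` (`IsPreconnected.subset_connectedComponentIn`).  `FaceX.side`: `W ⊆ Jᶜ` is preconnected, so `W ⊆ U` or `W ⊆ V`, and `U`, `V` are faces of `J` (`face_left`), `FaceX.eq`.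
`FaceX.sub_face`: take the face of `G` which contains a point of `W`, `max`.
-/

open Set Metric Topology

namespace Pool.JS

variable {X : Type*} [TopologicalSpace X] {J U V C S G G' W W' : Set X} {a : X}

theorem SepX.isClosed (h : SepX J U V) : IsClosed J := by
  rw [← h.frU]
  exact isClosed_frontier

theorem SepX.sub_or (h : SepX J U V) (hC : IsPreconnected C) (hCJ : Disjoint C J) : C ⊆ U ∨ C ⊆ V := by
  refine IsPreconnected.subset_or_subset h.openU h.openV h.disj ?_ hC
  rw [h.union]
  exact hCJ.subset_compl_right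

theorem SepX.sub_left (h : SepX J U V) (hC : IsPreconnected C) (hCJ : Disjoint C J) (hne : (C ∩ U).Nonempty) :
    C ⊆ U := by
  rcases h.sub_or hC hCJ with h1 | h1
  · exact h1
  · obtain ⟨x, hx, hx'⟩ := hne
    exact absurd (h1 hx) (fun h2 => (Set.disjoint_left.1 h.disj) hx' h2)

theorem SepX.union_conn (h : SepX J U V) (hS : S ⊆ J) : IsConnected (U ∪ S) := by
  refine h.connU.subset_closure subset_union_left ?_
  rw [closure_eq_self_union_frontier, h.frU]
  exact union_subset_union_right U hS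

theorem SepX.face_left (h : SepX J U V) (hG : J ⊆ G) (hU : Disjoint U G) : FaceX G U where
  ne := h.connU.nonempty
  conn := h.connU.isPreconnected
  sub := hU.subset_compl_right
  max := fun C hC hCG hne => h.sub_left hC
    (Set.disjoint_left.2 fun _ hx hx' => hCG hx (hG hx')) hne

theorem FaceX.eq (hW : FaceX G W) (hW' : FaceX G W') (h : (W ∩ W').Nonempty) : W = W' := by
  apply Subset.antisymm
  · exact hW'.max W hW.conn hW.sub h
  · refine hW.max W' hW'.conn hW'.sub ?_
    rwa [inter_comm]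

theorem exists_face (ha : a ∉ G) : ∃ W, FaceX G W ∧ a ∈ W := by
  refine ⟨connectedComponentIn Gᶜ a, ⟨?_, ?_, ?_, ?_⟩, mem_connectedComponentIn ha⟩
  · exact ⟨a, mem_connectedComponentIn ha⟩
  · exact isPreconnected_connectedComponentIn
  · exact connectedComponentIn_subset _ _
  · rintro C hC hCG ⟨b, hb, hb'⟩
    rw [connectedComponentIn_eq hb']
    exact hC.subset_connectedComponentIn hb hCG

theorem tha_symm (h : SepX J U V) : SepX J V U where
  openU := h.openV
  openV := h.openU
  connU := h.connV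
  connV := h.connU
  disj := h.disj.symm
  union := by rw [union_comm]; exact h.union
  frU := h.frV
  frV := h.frU

theorem tha_disj (h : SepX J U V) : Disjoint U J := by
  rw [Set.disjoint_left]
  intro x hx
  have : x ∈ Jᶜ := by
    rw [← h.union]
    exact Or.inl hx
  exact this

theorem FaceX.side (hW : FaceX J W) (h : SepX J U V) : W = U ∨ W = V := by
  obtain ⟨x, hx⟩ := hW.ne
  rcases h.sub_or hW.conn (Set.disjoint_left.2 fun y hy => hW.sub hy) with h1 | h1
  · exact Or.inl (hW.eq (h.face_left Subset.rfl (tha_disj h)) ⟨x, hx, h1 hx⟩)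
  · exact Or.inr (hW.eq ((tha_symm h).face_left Subset.rfl (tha_disj (tha_symm h))) ⟨x, hx, h1 hx⟩)

theorem FaceX.sub_face (hW : FaceX G' W) (h : G ⊆ G') : ∃ W₀, FaceX G W₀ ∧ W ⊆ W₀ := by
  obtain ⟨x, hx⟩ := hW.ne
  obtain ⟨W₀, h0, hx0⟩ := exists_face (G := G) (a := x) (fun h' => hW.sub hx (h h'))
  exact ⟨W₀, h0, h0.max W hW.conn (fun y hy hy' => hW.sub hy (h hy')) ⟨x, hx, hx0⟩⟩

end Pool.JS
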