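import Pool.Agent.JS.ThDefs
import Pool.Agent.JS.SpD

/-!
MODULE ThD (difficulty 3).  A cycle of edges is cut at two vertices into two arcs of edges.

RECIPE.  `edge_inner`: for `e ∈ E` the set `e \ V = e \ {p, q}` is connected and dense in `e` (`ArcX.interior`).
`split`: `JorX.split` gives arcs `A`, `B` from `p` to `q` with `A ∪ B = ⋃₀ D` and `A ∩ B = {p, q}`.  Every `e ∈ D` is contained in `A` or in `B`: the connected set `e \ V` is contained in `A ∪ B`, `A`, `B` are closed, and `(e \ V) ∩ A ∩ B = ∅` because `p, q ∈ V`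
(`isPreconnected_closed_iff` or `IsPreconnected.subset_or_subset_of_closed`); then take closures.  Let `D₁ = {e ∈ D | e ⊆ A}` and `D₂ = D \ D₁`, so `e ⊆ B` for `e ∈ D₂`.  `⋃₀ D₁ ⊆ A` and `⋃₀ D₂ ⊆ B` are closed (finite unions of compact sets).
`A ⊆ ⋃₀ D₁`: a point of `A \ {p, q}` lies in some `e ∈ D`; if `e ∈ D₂`, it is in `A ∩ B`, impossible; so `A \ {p, q} ⊆ ⋃₀ D₁`, and `A ⊆ closure (A \ {p, q})`.  Same for `B`.
-/

open Set Metric Topology

namespace Pool.JS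

variable {X : Type*} [TopologicalSpace X] [T2Space X] {V : Set X} {E D : Set (Set X)} {p q : X}

theorem GrX.edge_inner (hG : GrX V E) {e : Set X} (he : e ∈ E) :
    IsCompact e ∧ IsConnected (e \ V) ∧ e ⊆ closure (e \ V) := by
  obtain ⟨p, hp, q, hq, hA, hV⟩ := hG.arc e he
  have h1 : e \ V = e \ {p, q} := by
    ext x
    constructor
    · rintro ⟨hx, hxV⟩
      refine ⟨hx, fun h => hxV ?_⟩
      rw [← hV] at h
      exact h.2
    · rintro ⟨hx, hxp⟩
      refine ⟨hx, fun h => hxp ?_⟩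
      rw [← hV]
      exact ⟨hx, h⟩
  rw [h1]
  exact ⟨hA.isCompact, hA.interior.1, hA.interior.2⟩

theorem GrX.isClosed_sUnion (hG : GrX V E) (hD : D ⊆ E) : IsClosed (⋃₀ D) := by
  rw [sUnion_eq_biUnion]
  exact (hG.finE.subset hD).isClosed_biUnion fun e he => (hG.edge_inner (hD he)).1.isClosed

theorem GrX.split (hG : GrX V E) (hD : D ⊆ E) (hJ : JorX (⋃₀ D)) (hp : p ∈ V) (hq : q ∈ V)
    (hpD : p ∈ ⋃₀ D) (hqD : q ∈ ⋃₀ D) (hpq : p ≠ q) :
    ∃ D₁ D₂ : Set (Set X), D₁ ∪ D₂ = D ∧ Disjoint D₁ D₂ ∧ ArcX (⋃₀ D₁) p q ∧ ArcX (⋃₀ D₂) p q ∧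
      ⋃₀ D₁ ∩ ⋃₀ D₂ = {p, q} := by
  obtain ⟨A, B, hA, hB, hAB, hint⟩ := hJ.split hpD hqD hpq
  have hAc : IsClosed A := hA.isCompact.isClosed
  have hBc : IsClosed B := hB.isCompact.isClosed
  have hor : ∀ e ∈ D, e ⊆ A ∨ e ⊆ B := by
    intro e he
    obtain ⟨-, hconn, hcl⟩ := hG.edge_inner (hD he)
    have h1 : e \ V ⊆ A ∪ B := by
      intro x hx
      rw [hAB]
      exact ⟨e, he, hx.1⟩
    have h2 : (e \ V) ∩ (A ∩ B) = ∅ := by
      rw [hint]
      ext x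
      constructor
      · rintro ⟨⟨-, hxV⟩, hx | hx⟩
        · exact (hxV (hx ▸ hp)).elim
        · exact (hxV ((show x = q from hx) ▸ hq)).elim
      · intro h
        exact h.elim
    rcases (isPreconnected_iff_subset_of_disjoint_closed.1 hconn.isPreconnected) A B hAc hBc h1 h2 with h | h
    · exact Or.inl (hcl.trans (closure_minimal h hAc))
    · exact Or.inr (hcl.trans (closure_minimal h hBc))
  have hA1 : ⋃₀ {e | e ∈ D ∧ e ⊆ A} = A := by
    apply Subset.antisymm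
    · exact sUnion_subset fun e he => he.2
    · have hcl : IsClosed (⋃₀ {e | e ∈ D ∧ e ⊆ A}) := hG.isClosed_sUnion fun e he => hD he.1
      refine hA.interior.2.trans (closure_minimal ?_ hcl)
      rintro x ⟨hxA, hxp⟩
      have hx : x ∈ ⋃₀ D := by
        rw [← hAB]
        exact Or.inl hxA
      obtain ⟨e, he, hxe⟩ := hx
      rcases hor e he with h | h
      · exact ⟨e, ⟨he, h⟩, hxe⟩
      · exact (hxp (by rw [← hint]; exact ⟨hxA, h hxe⟩)).elim
  have hB1 : ⋃₀ (D \ {e | e ∈ D ∧ e ⊆ A}) = B := by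
    have hsub : ∀ e ∈ D \ {e | e ∈ D ∧ e ⊆ A}, e ⊆ B := by
      rintro e ⟨he, hne⟩
      rcases hor e he with h | h
      · exact (hne ⟨he, h⟩).elim
      · exact h
    apply Subset.antisymm
    · exact sUnion_subset hsub
    · have hcl : IsClosed (⋃₀ (D \ {e | e ∈ D ∧ e ⊆ A})) := hG.isClosed_sUnion fun e he => hD he.1
      refine hB.interior.2.trans (closure_minimal ?_ hcl)
      rintro x ⟨hxB, hxp⟩
      have hx : x ∈ ⋃₀ D := by
        rw [← hAB]
        exact Or.inr hxB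
      obtain ⟨e, he, hxe⟩ := hx
      refine ⟨e, ⟨he, ?_⟩, hxe⟩
      rintro ⟨-, h⟩
      exact hxp (by rw [← hint]; exact ⟨h hxe, hxB⟩)
  refine ⟨{e | e ∈ D ∧ e ⊆ A}, D \ {e | e ∈ D ∧ e ⊆ A}, ?_, disjoint_sdiff_right, ?_, ?_, ?_⟩
  · exact union_sdiff_cancel fun e he => he.1
  · rw [hA1]; exact hA
  · rw [hB1]; exact hB
  · rw [hA1, hB1]; exact hint

end Pool.JS
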