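import Pool.Agent.JS.Defs

/-!
# Topological two-spheres: definitions

Everything below is stated for a type `X` with `[TopologicalSpace X] [CompactSpace X] [T2Space X] [Sph X]`.
-/

open Set Metric Topology

namespace Pool.JS

/-- every point complement in `X` is homeomorphic to the plane -/
class Sph (X : Type*) [TopologicalSpace X] : Prop where
  plane : ∀ x : X, Nonempty ((({x} : Set X)ᶜ : Set X) ≃ₜ ℂ)

variable {X : Type*} [TopologicalSpace X]

/-- `A` is an arc with end points `p` and `q` -/
def ArcX (A : Set X) (p q : X) : Prop :=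
  ∃ γ : ℝ → X, ContinuousOn γ (Icc 0 1) ∧ InjOn γ (Icc 0 1) ∧ γ '' Icc 0 1 = A ∧ γ 0 = p ∧ γ 1 = q

/-- `J` is a simple closed curve -/
def JorX (J : Set X) : Prop :=
  ∃ γ : ℂ → X, ContinuousOn γ (sphere 0 1) ∧ InjOn γ (sphere 0 1) ∧ γ '' sphere 0 1 = J

/-- `D` is a closed disc with boundary curve `J` and interior `U` -/
def DiscX (D J U : Set X) : Prop :=
  ∃ Φ : ℂ → X, ContinuousOn Φ (closedBall 0 1) ∧ InjOn Φ (closedBall 0 1) ∧ Φ '' closedBall 0 1 = D ∧
    Φ '' sphere 0 1 = J ∧ Φ '' ball 0 1 = U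

/-- `a` and `b` lie in one connected subset of the complement of `K` -/
def ConX (K : Set X) (a b : X) : Prop :=
  ∃ C : Set X, IsPreconnected C ∧ C ⊆ Kᶜ ∧ a ∈ C ∧ b ∈ C

/-- `U` and `V` are the two domains of `J` -/
structure SepX (J U V : Set X) : Prop where
  openU : IsOpen U
  openV : IsOpen V
  connU : IsConnected U
  connV : IsConnected V
  disj : Disjoint U V
  union : U ∪ V = Jᶜ
  frU : frontier U = J
  frV : frontier V = J

/-- a chart of the complement of `x` -/
structure Chart (x : X) (σ : ℂ → X) : Prop where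
  emb : IsOpenEmbedding σ
  range : range σ = ({x} : Set X)ᶜ

end Pool.JS
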