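import Pool.Agent.JS.Defs

/-!
MODULE LgA (difficulty 2).  Algebra of continuous logarithms.

RECIPE.  `mono`, `congr`: trivial.  `mul`, `inv`, `div`: add, negate the logarithms (`Complex.exp_add`, `Complex.exp_neg`).
`zpow`: multiply the logarithm by the integer `n` (`Complex.exp_int_mul`).  `const`: `Complex.exp_log`.
`of_near`: `g z = Complex.log (f z)`; `f z` is in the slit plane as `‖f z - 1‖ < 1` (`Complex.mem_slitPlane_of_norm_lt_one` or
`0 < re (f z)`), `ContinuousOn.clog`.  `comp`: compose.  `exp`: trivial.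
`unique`: `exp (g1 z) = exp (g2 z)` gives `g1 z - g2 z = n z * (2 π I)` (`Complex.exp_eq_exp_iff_exists_int`); the function
`(g1 z - g2 z) / (2 π I)` is continuous on the preconnected set `C` with values in the integers; its real part is a continuous
real function on a preconnected set with values in a discrete set, so it is constant (e.g. `IsPreconnected.image` + `IsPreconnected`
subsets of `ℝ` are `OrdConnected`, or `IsPreconnected.constant` for the map into `ℤ` : locally constant).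
`union`: if `K ∩ L = ∅` the function equal to `g1` on `K` and `g2` on `L` is continuous (`ContinuousOn.union_of_isClosed` or
`ContinuousOn.piecewise`/`LocallyFinite`); otherwise subtract the constant of `unique` on `K ∩ L` first: the two logarithms
agree on `K ∩ L`, and a function on the union of two closed sets which is continuous on both is continuous on the union.
-/

open Set Metric Topology

namespace Pool.JS

variable {K L : Set ℂ} {f h : ℂ → ℂ}

theorem HasLog.mono (hf : HasLog K f) (h : L ⊆ K) : HasLog L f := by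
  obtain ⟨g, hg, e⟩ := hf
  exact ⟨g, hg.mono h, fun z hz => e z (h hz)⟩

theorem HasLog.congr (hf : HasLog K f) (e : ∀ z ∈ K, f z = h z) : HasLog K h := by
  obtain ⟨g, hg, e'⟩ := hf
  exact ⟨g, hg, fun z hz => (e' z hz).trans (e z hz)⟩

theorem HasLog.ne_zero (hf : HasLog K f) : ∀ z ∈ K, f z ≠ 0 := by
  obtain ⟨g, hg, e⟩ := hf
  intro z hz
  rw [← e z hz]
  exact Complex.exp_ne_zero _

theorem HasLog.continuousOn (hf : HasLog K f) : ContinuousOn f K := by
  obtain ⟨g, hg, e⟩ := hf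
  exact (hg.cexp).congr fun z hz => (e z hz).symm

theorem HasLog.mul (hf : HasLog K f) (hh : HasLog K h) : HasLog K (fun z => f z * h z) := by
  obtain ⟨g, hg, e⟩ := hf
  obtain ⟨g', hg', e'⟩ := hh
  refine ⟨fun z => g z + g' z, hg.add hg', fun z hz => ?_⟩
  rw [Complex.exp_add, e z hz, e' z hz]

theorem HasLog.inv (hf : HasLog K f) : HasLog K (fun z => (f z)⁻¹) := by
  obtain ⟨g, hg, e⟩ := hf
  refine ⟨fun z => -g z, hg.neg, fun z hz => ?_⟩
  rw [Complex.exp_neg, e z hz]

theorem HasLog.div (hf : HasLog K f) (hh : HasLog K h) : HasLog K (fun z => f z / h z) := by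
  refine (hf.mul hh.inv).congr fun z _ => ?_
  rw [div_eq_mul_inv]

theorem HasLog.zpow (hf : HasLog K f) (n : ℤ) : HasLog K (fun z => f z ^ n) := by
  obtain ⟨g, hg, e⟩ := hf
  refine ⟨fun z => n * g z, continuousOn_const.mul hg, fun z hz => ?_⟩
  rw [Complex.exp_int_mul, e z hz]

theorem hasLog_const {c : ℂ} (hc : c ≠ 0) : HasLog K (fun _ => c) :=
  ⟨fun _ => Complex.log c, continuousOn_const, fun _ _ => Complex.exp_log hc⟩

theorem hasLog_exp {g : ℂ → ℂ} (hg : ContinuousOn g K) : HasLog K (fun z => Complex.exp (g z)) :=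
  ⟨g, hg, fun _ _ => rfl⟩

theorem hasLog_of_near (hf : ContinuousOn f K) (h : ∀ z ∈ K, ‖f z - 1‖ < 1) : HasLog K f := by
  have hs : ∀ z ∈ K, f z ∈ Complex.slitPlane := by
    intro z hz
    rw [Complex.mem_slitPlane_iff]
    left
    have h1 : |(f z - 1).re| ≤ ‖f z - 1‖ := Complex.abs_re_le_norm _
    have h2 := abs_lt.1 (h1.trans_lt (h z hz))
    have h3 : (f z - 1).re = (f z).re - 1 := by simp
    rw [h3] at h2
    linarith [h2.1]
  refine ⟨fun z => Complex.log (f z), hf.clog hs, fun z hz => ?_⟩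
  exact Complex.exp_log (Complex.slitPlane_ne_zero (hs z hz))

theorem HasLog.comp {φ : ℂ → ℂ} (hf : HasLog L f) (hφ : ContinuousOn φ K) (hm : MapsTo φ K L) :
    HasLog K (fun z => f (φ z)) := by
  obtain ⟨g, hg, e⟩ := hf
  exact ⟨fun z => g (φ z), hg.comp hφ hm, fun z hz => e _ (hm hz)⟩

/-- two logarithms on a preconnected set differ by a constant -/
theorem log_unique {C : Set ℂ} (hC : IsPreconnected C) {g₁ g₂ : ℂ → ℂ} (h₁ : ContinuousOn g₁ C)
    (h₂ : ContinuousOn g₂ C) (h : ∀ z ∈ C, Complex.exp (g₁ z) = Complex.exp (g₂ z)) :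
    ∃ n : ℤ, ∀ z ∈ C, g₁ z = g₂ z + n * (2 * Real.pi * Complex.I) := by
  rcases C.eq_empty_or_nonempty with rfl | ⟨z₀, hz₀⟩
  · exact ⟨0, fun z hz => absurd hz (notMem_empty z)⟩
  have hpi : (2 * Real.pi * Complex.I : ℂ) ≠ 0 := by
    simp [Real.pi_ne_zero]
  have h3 : ∀ z ∈ C, ∃ n : ℤ, g₁ z = g₂ z + n * (2 * Real.pi * Complex.I) := fun z hz =>
    Complex.exp_eq_exp_iff_exists_int.1 (h z hz)
  set F : ℂ → ℝ := fun z => ((g₁ z - g₂ z) / (2 * Real.pi * Complex.I)).re with hF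
  have hFc : ContinuousOn F C :=
    Complex.continuous_re.comp_continuousOn ((h₁.sub h₂).div_const _)
  have hFn : ∀ z ∈ C, ∀ n : ℤ, g₁ z = g₂ z + n * (2 * Real.pi * Complex.I) → F z = n := by
    intro z hz n hn
    have : (g₁ z - g₂ z) / (2 * Real.pi * Complex.I) = (n : ℂ) := by
      rw [hn, add_sub_cancel_left, mul_div_cancel_right₀ _ hpi]
    rw [hF]
    simp only [this]
    simp
  obtain ⟨n₀, hn₀⟩ := h3 z₀ hz₀
  refine ⟨n₀, fun z hz => ?_⟩
  obtain ⟨n, hn⟩ := h3 z hz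
  suffices hnn : n = n₀ by rw [← hnn]; exact hn
  by_contra hne
  have hI : OrdConnected (F '' C) := (hC.image F hFc).ordConnected
  have e1 := hFn z hz n hn
  have e0 := hFn z₀ hz₀ n₀ hn₀
  have m1 : (n : ℝ) ∈ F '' C := ⟨z, hz, e1⟩
  have m0 : (n₀ : ℝ) ∈ F '' C := ⟨z₀, hz₀, e0⟩
  have key : ∀ a b : ℤ, a < b → (a : ℝ) ∈ F '' C → (b : ℝ) ∈ F '' C → False := by
    intro a b hab ha hb
    have hab' : (a : ℝ) + 1 ≤ b := by exact_mod_cast hab
    have : (a : ℝ) + 1 / 2 ∈ F '' C := hI.out ha hb ⟨by linarith, by linarith⟩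
    obtain ⟨w, hw, hw'⟩ := this
    obtain ⟨m, hm⟩ := h3 w hw
    rw [hFn w hw m hm] at hw'
    have h5 : ((2 * m : ℤ) : ℝ) = ((2 * a + 1 : ℤ) : ℝ) := by
      push_cast
      linarith
    have h6 : 2 * m = 2 * a + 1 := by exact_mod_cast h5
    omega
  rcases lt_or_gt_of_ne hne with hlt | hlt
  · exact key n n₀ hlt m1 m0
  · exact key n₀ n hlt m0 m1

theorem lga_glue (hK : IsClosed K) (hL : IsClosed L) {g₁ g₂ : ℂ → ℂ} (h₁ : ContinuousOn g₁ K)
    (h₂ : ContinuousOn g₂ L) (he : ∀ z ∈ K ∩ L, g₁ z = g₂ z) :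
    ∃ g : ℂ → ℂ, ContinuousOn g (K ∪ L) ∧ (∀ z ∈ K, g z = g₁ z) ∧ ∀ z ∈ L, g z = g₂ z := by
  classical
  refine ⟨fun z => if z ∈ K then g₁ z else g₂ z, ?_, ?_, ?_⟩
  · have a1 : ContinuousOn (fun z => if z ∈ K then g₁ z else g₂ z) K :=
      h₁.congr fun z hz => if_pos hz
    have a2 : ContinuousOn (fun z => if z ∈ K then g₁ z else g₂ z) L := by
      refine h₂.congr fun z hz => ?_
      by_cases hzK : z ∈ K
      · simp only [if_pos hzK]
        exact he z ⟨hzK, hz⟩
      · simp only [if_neg hzK]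
    exact a1.union_of_isClosed a2 hK hL
  · intro z hz
    exact if_pos hz
  · intro z hz
    by_cases hzK : z ∈ K
    · simp only [if_pos hzK]
      exact he z ⟨hzK, hz⟩
    · simp only [if_neg hzK]

theorem HasLog.union (hK : IsClosed K) (hL : IsClosed L) (hc : IsPreconnected (K ∩ L))
    (h₁ : HasLog K f) (h₂ : HasLog L f) : HasLog (K ∪ L) f := by
  obtain ⟨g₁, hg₁, e₁⟩ := h₁
  obtain ⟨g₂, hg₂, e₂⟩ := h₂
  obtain ⟨n, hn⟩ := log_unique hc (hg₁.mono inter_subset_left) (hg₂.mono inter_subset_right)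
    fun z hz => (e₁ z hz.1).trans (e₂ z hz.2).symm
  have hg₂' : ContinuousOn (fun z => g₂ z + n * (2 * Real.pi * Complex.I)) L :=
    hg₂.add continuousOn_const
  obtain ⟨g, hg, a, b⟩ := lga_glue hK hL hg₁ hg₂' hn
  refine ⟨g, hg, ?_⟩
  rintro z (hz | hz)
  · rw [a z hz, e₁ z hz]
  · rw [b z hz, ← e₂ z hz]
    exact Complex.exp_eq_exp_iff_exists_int.2 ⟨n, rfl⟩

end Pool.JS
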