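import Pool.Agent.JS.LgA

/-!
MODULE LgD (difficulty 3).  Points joined in the complement of a compact set.

RECIPE.  `hasLog_div_of_con`: let `C` be the preconnected set.  `K` compact: for every `b ∈ C` there is `ε > 0` with `ε < dist b z` for
all `z ∈ K` (`K` empty: everything trivial).  For `b' ∈ C`, `‖b - b'‖ < ε/2`... the function `(z - b)/(z - b') = 1 + (b' - b)/(z - b')` has a logarithm on `K`
(`hasLog_of_near`, `‖b' - b‖ < ‖z - b'‖`).  So the set `S = {b ∈ C | HasLog K ((z - a)/(z - b))}` is relatively open and closed in `C`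
(both directions: multiply / divide), contains `a` (constant function `1`, as `z - a ≠ 0` on `K`), so `S = C`
(`IsPreconnected.subset_of_...` or `isPreconnected_iff_subset_of_disjoint` with the open sets `⋃ balls`).  Convenient: for `b ∈ C` let
`B_b = ball b (ε_b / 2)`; `U₁ = ⋃ B_b` over `b ∈ S`, `U₂ = ⋃ B_b` over `b ∈ C \ S`; if `C ∩ U₁ ∩ U₂` contains `b''` then `b'' ∈ S` and `b'' ∉ S`.
`hasLog_of_esc`: `C` is unbounded, `K ⊆ closedBall 0 M`: take `b ∈ C` with `‖b‖ > M + 1`; `z - b = - b (1 - z / b)` has a logarithm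
(`hasLog_const`, `hasLog_of_near`), and `z - a = ((z - a)/(z - b)) (z - b)`.
-/

open Set Metric Topology

namespace Pool.JS

theorem lgd_near {K : Set ℂ} {b b' : ℂ} {ε : ℝ} (h : ∀ z ∈ K, 2 * ε ≤ ‖z - b‖) (hb : ‖b' - b‖ < ε) :
    HasLog K (fun z => (z - b) / (z - b')) := by
  have hε : 0 < ε := (norm_nonneg _).trans_lt hb
  have h1 : ∀ z ∈ K, ε < ‖z - b'‖ := by
    intro z hz
    have h2 := h z hz
    have h3 : ‖z - b‖ ≤ ‖z - b'‖ + ‖b' - b‖ := norm_sub_le_norm_sub_add_norm_sub z b' b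
    linarith
  have h0 : ∀ z ∈ K, z - b' ≠ 0 := by
    intro z hz h2
    have h3 := h1 z hz
    rw [h2, norm_zero] at h3
    linarith
  refine hasLog_of_near ?_ ?_
  · exact ContinuousOn.div (by fun_prop) (by fun_prop) h0
  · intro z hz
    have h2 : (z - b) / (z - b') - 1 = (b' - b) / (z - b') := by
      rw [div_sub_one (h0 z hz)]
      congr 1
      ring
    rw [h2, norm_div, div_lt_one (hε.trans (h1 z hz))]
    exact hb.trans (h1 z hz)

theorem lgd_step {K : Set ℂ} {a b b' : ℂ} (hb : b ∉ K) (h : HasLog K (fun z => (z - a) / (z - b)))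
    (h' : HasLog K (fun z => (z - b) / (z - b'))) : HasLog K (fun z => (z - a) / (z - b')) := by
  refine (h.mul h').congr ?_
  intro z hz
  have h1 : z - b ≠ 0 := by
    intro h2
    apply hb
    rw [← sub_eq_zero.1 h2]
    exact hz
  rw [div_mul_div_cancel₀ h1]

theorem hasLog_div_of_con {K : Set ℂ} (hK : IsCompact K) {a b : ℂ} (h : Con K a b) :
    HasLog K (fun z => (z - a) / (z - b)) := by
  obtain ⟨C, hC, hCK, ha, hb⟩ := h
  have hr : ∀ c : ℂ, ∃ r : ℝ, 0 < r ∧ (c ∉ K → ∀ z ∈ K, 2 * r ≤ ‖z - c‖) := by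
    intro c
    by_cases hc : c ∈ K
    · exact ⟨1, one_pos, fun h => absurd hc h⟩
    · obtain ⟨e, he, hs⟩ := Metric.isOpen_iff.1 hK.isClosed.isOpen_compl c hc
      refine ⟨e / 2, by linarith, fun _ z hz => ?_⟩
      by_contra h1
      push Not at h1
      have h2 : z ∈ ball c e := by
        rw [mem_ball, dist_eq_norm]
        linarith
      exact hs h2 hz
  choose r hr0 hr1 using hr
  let P : ℂ → Prop := fun c => HasLog K (fun z => (z - a) / (z - c))
  have hstep : ∀ c ∈ C, ∀ c' ∈ C, c' ∈ ball c (r c) → (P c ↔ P c') := by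
    intro c hc c' hc' h1
    rw [mem_ball, dist_eq_norm] at h1
    have h2 : HasLog K (fun z => (z - c) / (z - c')) := lgd_near (hr1 c (hCK hc)) h1
    have h3 : HasLog K (fun z => (z - c') / (z - c)) := by
      refine h2.inv.congr ?_
      intro z _
      rw [inv_div]
    exact ⟨fun h => lgd_step (hCK hc) h h2, fun h => lgd_step (hCK hc') h h3⟩
  have hPa : P a := by
    refine (hasLog_const (K := K) (one_ne_zero (α := ℂ))).congr ?_
    intro z hz
    have h1 : z - a ≠ 0 := by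
      intro h2
      apply hCK ha
      rw [← sub_eq_zero.1 h2]
      exact hz
    rw [div_self h1]
  by_contra hPb
  have hPb : ¬ P b := hPb
  let U₁ : Set ℂ := ⋃ c ∈ {c | c ∈ C ∧ P c}, ball c (r c)
  let U₂ : Set ℂ := ⋃ c ∈ {c | c ∈ C ∧ ¬ P c}, ball c (r c)
  have hU₁ : IsOpen U₁ := isOpen_biUnion fun _ _ => isOpen_ball
  have hU₂ : IsOpen U₂ := isOpen_biUnion fun _ _ => isOpen_ball
  have hcov : C ⊆ U₁ ∪ U₂ := by
    intro c hc
    by_cases h1 : P c
    · left
      exact mem_biUnion (show c ∈ {c | c ∈ C ∧ P c} from ⟨hc, h1⟩) (mem_ball_self (hr0 c))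
    · right
      exact mem_biUnion (show c ∈ {c | c ∈ C ∧ ¬ P c} from ⟨hc, h1⟩) (mem_ball_self (hr0 c))
  obtain ⟨x, hx, hx1, hx2⟩ := hC U₁ U₂ hU₁ hU₂ hcov
    ⟨a, ha, mem_biUnion (show a ∈ {c | c ∈ C ∧ P c} from ⟨ha, hPa⟩) (mem_ball_self (hr0 a))⟩
    ⟨b, hb, mem_biUnion (show b ∈ {c | c ∈ C ∧ ¬ P c} from ⟨hb, hPb⟩) (mem_ball_self (hr0 b))⟩
  simp only [U₁, U₂, mem_iUnion, mem_ofPred_eq, exists_prop] at hx1 hx2
  obtain ⟨c, ⟨hc, hPc⟩, hxc⟩ := hx1
  obtain ⟨c', ⟨hc', hPc'⟩, hxc'⟩ := hx2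
  exact hPc' ((hstep c' hc' x hx hxc').2 ((hstep c hc x hx hxc).1 hPc))

theorem hasLog_of_esc {K : Set ℂ} (hK : IsCompact K) {a : ℂ} (h : Esc K a) :
    HasLog K (fun z => z - a) := by
  obtain ⟨C, hC, hCK, ha, hu⟩ := h
  obtain ⟨M, hM⟩ := hK.isBounded.subset_closedBall (0 : ℂ)
  have hb : ∃ b ∈ C, M < ‖b‖ := by
    by_contra h1
    push Not at h1
    apply hu
    refine (isBounded_closedBall (x := (0 : ℂ)) (r := M)).subset ?_
    intro b hb
    rw [mem_closedBall_zero_iff]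
    exact h1 b hb
  obtain ⟨b, hbC, hbM⟩ := hb
  have h1 : HasLog K (fun z => (z - a) / (z - b)) := hasLog_div_of_con hK ⟨C, hC, hCK, ha, hbC⟩
  have h5 : ∀ z ∈ K, ‖z‖ < ‖b‖ := by
    intro z hz
    have h6 := hM hz
    rw [mem_closedBall_zero_iff] at h6
    linarith
  by_cases hb0 : b = 0
  · refine ⟨fun _ => 0, continuousOn_const, ?_⟩
    intro z hz
    have h6 := h5 z hz
    rw [hb0, norm_zero] at h6
    exact absurd h6 (not_lt.2 (norm_nonneg z))
  have hbn : 0 < ‖b‖ := norm_pos_iff.2 hb0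
  have h2 : HasLog K (fun z => 1 - z / b) := by
    refine hasLog_of_near (by fun_prop) ?_
    intro z hz
    have h3 : 1 - z / b - 1 = -(z / b) := by ring
    rw [h3, norm_neg, norm_div, div_lt_one hbn]
    exact h5 z hz
  have h3 : HasLog K (fun _ => -b) := hasLog_const (neg_ne_zero.2 hb0)
  refine ((h1.mul h3).mul h2).congr ?_
  intro z hz
  have h4 : z - b ≠ 0 := by
    intro h6
    have h7 := h5 z hz
    rw [sub_eq_zero.1 h6] at h7
    exact lt_irrefl _ h7
  field_simp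
  ring

end Pool.JS
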