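import Pool.Agent.JS.Inv
import Pool.Agent.JS.LgB
import Pool.Agent.JS.Eil

/-!
Arcs do not separate the plane.
-/

open Set Metric Topology

namespace Pool.JS

variable {A : Set ℂ} {p q a b : ℂ}

theorem ArcFrom.isCompact (h : ArcFrom A p q) : IsCompact A := by
  obtain ⟨γ, hc, -, rfl, -, -⟩ := h
  exact isCompact_Icc.image_of_continuousOn hc

theorem ArcFrom.isConnected (h : ArcFrom A p q) : IsConnected A := by
  obtain ⟨γ, hc, -, rfl, -, -⟩ := h
  exact (isConnected_Icc zero_le_one).image γ hc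

theorem ArcFrom.left_mem (h : ArcFrom A p q) : p ∈ A := by
  obtain ⟨γ, -, -, rfl, h0, -⟩ := h
  exact ⟨0, by simp, h0⟩

theorem ArcFrom.right_mem (h : ArcFrom A p q) : q ∈ A := by
  obtain ⟨γ, -, -, rfl, -, h1⟩ := h
  exact ⟨1, by simp, h1⟩

theorem ArcFrom.symm (h : ArcFrom A p q) : ArcFrom A q p := by
  obtain ⟨γ, hc, hi, rfl, h0, h1⟩ := h
  have hm : MapsTo (fun t : ℝ => 1 - t) (Icc 0 1) (Icc 0 1) := by
    intro t ht
    exact ⟨by linarith [ht.2], by linarith [ht.1]⟩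
  refine ⟨fun t => γ (1 - t), ?_, ?_, ?_, ?_, ?_⟩
  · exact hc.comp (by fun_prop) hm
  · intro s hs t ht hst
    have := hi (hm hs) (hm ht) hst
    simp only at this
    linarith
  · ext z
    constructor
    · rintro ⟨t, ht, rfl⟩
      exact ⟨1 - t, hm ht, rfl⟩
    · rintro ⟨t, ht, rfl⟩
      exact ⟨1 - t, hm ht, by simp⟩
  · simpa using h1
  · simpa using h0

theorem ArcFrom.ne (h : ArcFrom A p q) : p ≠ q := by
  obtain ⟨γ, -, hi, -, h0, h1⟩ := h
  intro hpq
  have : (0 : ℝ) = 1 := hi (by simp) (by simp) (by rw [h0, h1, hpq])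
  exact zero_ne_one this

theorem ArcFrom.hasLog (h : ArcFrom A p q) {f : ℂ → ℂ} (hf : ContinuousOn f A) (h0 : ∀ z ∈ A, f z ≠ 0) :
    HasLog A f := by
  obtain ⟨γ, hc, hi, rfl, -, -⟩ := h
  obtain ⟨τ, hτc, hτ⟩ := exists_inverse (isCompact_Icc (a := (0 : ℝ)) (b := 1)) hc hi
  let S : Set ℂ := (fun t : ℝ => (t : ℂ)) '' Icc (0 : ℝ) 1
  have hSc : IsCompact S := isCompact_Icc.image Complex.continuous_ofReal
  have hSv : Convex ℝ S := by
    have := (convex_Icc (0 : ℝ) 1).linear_image (Complex.ofRealCLM.toLinearMap)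
    simpa [S] using this
  have hre : MapsTo Complex.re S (Icc (0 : ℝ) 1) := by
    rintro _ ⟨t, ht, rfl⟩
    simpa using ht
  have hF : ContinuousOn (fun w : ℂ => f (γ w.re)) S := by
    refine hf.comp (hc.comp Complex.continuous_re.continuousOn hre) ?_
    intro w hw
    exact ⟨w.re, hre hw, rfl⟩
  have h1 : HasLog S (fun w : ℂ => f (γ w.re)) := by
    refine hasLog_of_convex hSc hSv hF ?_
    intro w hw
    exact h0 _ ⟨w.re, hre hw, rfl⟩
  have hφ : ContinuousOn (fun z : ℂ => ((τ z : ℝ) : ℂ)) (γ '' Icc (0 : ℝ) 1) :=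
    Complex.continuous_ofReal.comp_continuousOn hτc
  have hm : MapsTo (fun z : ℂ => ((τ z : ℝ) : ℂ)) (γ '' Icc (0 : ℝ) 1) S := by
    rintro _ ⟨t, ht, rfl⟩
    exact ⟨t, ht, by simp [hτ t ht]⟩
  refine (h1.comp hφ hm).congr ?_
  rintro _ ⟨t, ht, rfl⟩
  simp [hτ t ht]

theorem ArcFrom.con (h : ArcFrom A p q) (ha : a ∉ A) (hb : b ∉ A) : Con A a b := by
  refine con_of_hasLog h.isCompact ha hb (h.hasLog ?_ ?_)
  · refine ContinuousOn.div (by fun_prop) (by fun_prop) ?_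
    intro z hz hzb
    exact hb (by rwa [← sub_eq_zero.1 hzb])
  · intro z hz
    refine div_ne_zero (fun e => ha ?_) (fun e => hb ?_)
    · rwa [← sub_eq_zero.1 e]
    · rwa [← sub_eq_zero.1 e]

theorem ArcFrom.esc (h : ArcFrom A p q) (ha : a ∉ A) : Esc A a := by
  refine esc_of_hasLog h.isCompact ha (h.hasLog (by fun_prop) ?_)
  intro z hz e
  exact ha (by rwa [← sub_eq_zero.1 e])

end Pool.JS
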