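import Pool.Agent.JS.Inv
import Pool.Agent.JS.LgA
import Pool.Agent.JS.JorA

/-!
MODULE BkA (difficulty 3).  Compact subsets of arcs: zero-free continuous functions have logarithms.

RECIPE.  `hasLog_real`: `B` compact, contained in the real line, `B ⊆ closedBall 0 M`.  `f` is uniformly continuous on `B` and `‖f‖ ≥ m > 0` on `B`: `δ > 0` with `‖f z - f w‖ < m` for `z, w ∈ B`,
`dist z w ≤ δ`.  For `k : ℕ` put `B_k = B ∩ {z | z.re ≤ -M + k δ}`.  By induction `HasLog B_k f`: `B_0` is contained in the one point set `{-M}` (`hasLog_const`; or empty); `B_{k+1} = B_k ∪ C_k`,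
`C_k = B ∩ {z | -M + k δ ≤ z.re ≤ -M + (k+1) δ}`; `B_k ∩ C_k ⊆ {-M + k δ}` is a subsingleton, so preconnected; on `C_k` (if nonempty, with a point `c`) `f z = f c * (f z / f c)` has a logarithm
(`hasLog_const`, `hasLog_of_near`); `HasLog.union`.  Finally `B = B_k` for large `k`.
`hasLog_subarc`: `A` arc with parametrisation `γ`, inverse `τ` (`exists_inverse`, on `Icc 0 1`); `B ⊆ A` compact; the image of `B` under `z ↦ (τ z : ℂ)` is a compact subset of the real line on which
`w ↦ f (γ w.re)` is continuous (`γ` maps it to `B`) and zero-free; `HasLog.comp`.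
`hasLog_proper`: closed proper subset of a Jordan curve: `IsJordan.subarc`.
-/

open Set Metric Topology

namespace Pool.JS

/-- a small piece -/
theorem bka_small {B C : Set ℂ} {f : ℂ → ℂ} (hf : ContinuousOn f B) {m δ : ℝ} (hm : 0 < m) (hmB : ∀ z ∈ B, m ≤ ‖f z‖)
    (hδ : ∀ z ∈ B, ∀ w ∈ B, dist z w < δ → dist (f z) (f w) < m) (hC : C ⊆ B)
    (hd : ∀ z ∈ C, ∀ w ∈ C, dist z w < δ) : HasLog C f := by
  rcases C.eq_empty_or_nonempty with rfl | ⟨c, hc⟩
  · exact ⟨fun _ => 0, continuousOn_empty _, fun z hz => hz.elim⟩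
  · have hfc : f c ≠ 0 := by
      intro h
      have := hmB c (hC hc)
      rw [h, norm_zero] at this
      linarith
    have h1 : HasLog C (fun z => f z / f c) := by
      refine hasLog_of_near ((hf.mono hC).div_const _) ?_
      intro z hz
      have e : f z / f c - 1 = (f z - f c) / f c := by
        field_simp
      rw [e, norm_div, div_lt_one (norm_pos_iff.2 hfc)]
      have := hδ z (hC hz) c (hC hc) (hd z hz c hc)
      rw [dist_eq_norm] at this
      exact lt_of_lt_of_le this (hmB c (hC hc))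
    have h2 := (hasLog_const (K := C) hfc).mul h1
    refine h2.congr ?_
    intro z _
    field_simp

theorem hasLog_real {B : Set ℂ} (hB : IsCompact B) (him : ∀ z ∈ B, z.im = 0) {f : ℂ → ℂ}
    (hf : ContinuousOn f B) (h0 : ∀ z ∈ B, f z ≠ 0) : HasLog B f := by
  -- a lower bound for the norm
  obtain ⟨m, hm, hmB⟩ : ∃ m : ℝ, 0 < m ∧ ∀ z ∈ B, m ≤ ‖f z‖ := by
    rcases B.eq_empty_or_nonempty with rfl | hne
    · exact ⟨1, one_pos, fun z hz => hz.elim⟩
    · obtain ⟨z, hz, hmin⟩ := hB.exists_isMinOn hne hf.norm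
      exact ⟨‖f z‖, norm_pos_iff.2 (h0 z hz), fun w hw => hmin hw⟩
  obtain ⟨δ, hδ0, hδ⟩ := Metric.uniformContinuousOn_iff.1 (hB.uniformContinuousOn_of_continuous hf) m hm
  obtain ⟨M, hM0, hM⟩ := hB.isBounded.subset_closedBall_lt 0 (0 : ℂ)
  have hre : ∀ z ∈ B, |z.re| ≤ M := by
    intro z hz
    have := hM hz
    rw [mem_closedBall, dist_zero_right] at this
    exact (Complex.abs_re_le_norm z).trans this
  have hdist : ∀ z ∈ B, ∀ w ∈ B, dist z w = |z.re - w.re| := by
    intro z hz w hw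
    rw [Complex.dist_of_im_eq (by rw [him z hz, him w hw]), Real.dist_eq]
  have hclosed : IsClosed B := hB.isClosed
  have key : ∀ k : ℕ, HasLog (B ∩ {z | z.re ≤ -M + k * (δ / 2)}) f := by
    intro k
    induction k with
    | zero =>
      refine bka_small hf hm hmB hδ inter_subset_left ?_
      intro z hz w hw
      have h1 : z.re ≤ -M + ((0 : ℕ) : ℝ) * (δ / 2) := hz.2
      have h2 : w.re ≤ -M + ((0 : ℕ) : ℝ) * (δ / 2) := hw.2
      have h3 := abs_le.1 (hre z hz.1)
      have h4 := abs_le.1 (hre w hw.1)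
      simp only [Nat.cast_zero, zero_mul, add_zero] at h1 h2
      rw [hdist z hz.1 w hw.1, abs_lt]
      constructor <;> linarith
    | succ k ih =>
      have hun : B ∩ {z | z.re ≤ -M + ((k + 1 : ℕ) : ℝ) * (δ / 2)} =
          (B ∩ {z | z.re ≤ -M + k * (δ / 2)}) ∪
            (B ∩ {z | -M + k * (δ / 2) ≤ z.re ∧ z.re ≤ -M + ((k + 1 : ℕ) : ℝ) * (δ / 2)}) := by
        ext z
        constructor
        · rintro ⟨h1, h2⟩
          rcases le_total z.re (-M + k * (δ / 2)) with h | h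
          · exact Or.inl ⟨h1, h⟩
          · exact Or.inr ⟨h1, h, h2⟩
        · rintro (⟨h1, h2⟩ | ⟨h1, h2, h3⟩)
          · refine ⟨h1, ?_⟩
            have h2' : z.re ≤ -M + k * (δ / 2) := h2
            change z.re ≤ -M + ((k + 1 : ℕ) : ℝ) * (δ / 2)
            push_cast
            nlinarith
          · exact ⟨h1, h3⟩
      rw [hun]
      have hc1 : IsClosed (B ∩ {z : ℂ | z.re ≤ -M + k * (δ / 2)}) :=
        hclosed.inter (isClosed_le Complex.continuous_re continuous_const)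
      have hc2 : IsClosed (B ∩ {z : ℂ | -M + k * (δ / 2) ≤ z.re ∧ z.re ≤ -M + ((k + 1 : ℕ) : ℝ) * (δ / 2)}) :=
        hclosed.inter ((isClosed_le continuous_const Complex.continuous_re).inter
          (isClosed_le Complex.continuous_re continuous_const))
      refine HasLog.union hc1 hc2 ?_ ih ?_
      · refine Set.Subsingleton.isPreconnected ?_
        rintro z ⟨⟨hz1, hz2⟩, ⟨-, hz3, -⟩⟩ w ⟨⟨hw1, hw2⟩, ⟨-, hw3, -⟩⟩
        have hz2' : z.re ≤ -M + k * (δ / 2) := hz2
        have hw2' : w.re ≤ -M + k * (δ / 2) := hw2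
        refine Complex.ext ?_ ?_
        · linarith
        · rw [him z hz1, him w hw1]
      · refine bka_small hf hm hmB hδ inter_subset_left ?_
        rintro z ⟨hz1, hz2, hz3⟩ w ⟨hw1, hw2, hw3⟩
        rw [hdist z hz1 w hw1, abs_lt]
        push_cast at hz3 hw3
        constructor <;> nlinarith
  obtain ⟨k, hk⟩ := exists_nat_gt (2 * M / (δ / 2))
  have hk' : 2 * M ≤ k * (δ / 2) := by
    rw [div_lt_iff₀ (by positivity)] at hk
    exact hk.le
  refine (key k).mono ?_
  intro z hz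
  refine ⟨hz, ?_⟩
  have := (abs_le.1 (hre z hz)).2
  change z.re ≤ -M + k * (δ / 2)
  linarith

theorem hasLog_subarc {A B : Set ℂ} {p q : ℂ} (hA : ArcFrom A p q) (hB : IsCompact B) (hBA : B ⊆ A) {f : ℂ → ℂ}
    (hf : ContinuousOn f B) (h0 : ∀ z ∈ B, f z ≠ 0) : HasLog B f := by
  obtain ⟨γ, hγc, hγi, hγA, -, -⟩ := hA
  obtain ⟨τ, hτc, hτ⟩ := exists_inverse isCompact_Icc hγc hγi
  rw [hγA] at hτc
  have hmem : ∀ z ∈ B, τ z ∈ Icc (0 : ℝ) 1 ∧ γ (τ z) = z := by
    intro z hz
    have : z ∈ γ '' Icc 0 1 := by rw [hγA]; exact hBA hz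
    obtain ⟨x, hx, rfl⟩ := this
    rw [hτ x hx]
    exact ⟨hx, rfl⟩
  have hφ : ContinuousOn (fun z => ((τ z : ℝ) : ℂ)) B :=
    Complex.continuous_ofReal.comp_continuousOn (hτc.mono hBA)
  have hB' : IsCompact ((fun z => ((τ z : ℝ) : ℂ)) '' B) := hB.image_of_continuousOn hφ
  have hlog : HasLog ((fun z => ((τ z : ℝ) : ℂ)) '' B) (fun w => f (γ w.re)) := by
    refine hasLog_real hB' ?_ ?_ ?_
    · rintro _ ⟨z, -, rfl⟩
      exact Complex.ofReal_im _
    · have h1 : ContinuousOn (fun w : ℂ => γ w.re) ((fun z => ((τ z : ℝ) : ℂ)) '' B) := by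
        refine hγc.comp Complex.continuous_re.continuousOn ?_
        rintro _ ⟨z, hz, rfl⟩
        exact (hmem z hz).1
      refine hf.comp h1 ?_
      rintro _ ⟨z, hz, rfl⟩
      change γ ((τ z : ℝ) : ℂ).re ∈ B
      rw [Complex.ofReal_re, (hmem z hz).2]
      exact hz
    · rintro _ ⟨z, hz, rfl⟩
      change f (γ ((τ z : ℝ) : ℂ).re) ≠ 0
      rw [Complex.ofReal_re, (hmem z hz).2]
      exact h0 z hz
  refine (hlog.comp hφ (mapsTo_image _ _)).congr ?_
  intro z hz
  rw [Complex.ofReal_re, (hmem z hz).2]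

theorem hasLog_proper {J B : Set ℂ} (hJ : IsJordan J) (hB : IsCompact B) (hBJ : B ⊆ J) (hne : B ≠ J) {f : ℂ → ℂ}
    (hf : ContinuousOn f B) (h0 : ∀ z ∈ B, f z ≠ 0) : HasLog B f := by
  obtain ⟨A, p, q, hA, hBA, -⟩ := hJ.subarc hB.isClosed hBJ hne
  exact hasLog_subarc hA hB hBA hf h0

end Pool.JS
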