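import Pool.Agent.JS.Circ

/-!
MODULE BkB (difficulty 3).  Squares.

`sq c r` is the closed square with centre `c` and half side `r`, `bd c r` its boundary.
RECIPE.  `isCompact`, `convex`: the square is `[c.re - r, c.re + r] ×ℂ [c.im - r, c.im + r]` (`IsCompact.reProdIm`, `Convex.reProdIm`).
Put `m z = max |z.re| |z.im|` (continuous, positive for `z ≠ 0`) and `γ z = c + (r / m z) * z` on the unit circle: continuous, `γ z ∈ bd c r`, injective (if `γ z = γ w` then `z` is a positive multiple of `w`, both of norm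
one), onto (`w ∈ bd c r`: `z = (w - c)/‖w - c‖`, `m (w - c) = r`).  So `bd c r` is a Jordan curve.
`bd_class`: `F z = f (γ z)` on the circle; `circle_class`: `F z * z ^ n` has a logarithm; `γ z - c = (r / m z) z` and `z ↦ ((r / m z : ℝ) : ℂ) ^ n` has a (real) logarithm `n * Real.log (r / m z)`, so `F z * (γ z - c) ^ n`
has a logarithm on the circle; go back with the inverse `w ↦ (w - c)/‖w - c‖` of `γ` (`HasLog.comp`, `congr`).
`extend`: a function with a logarithm `g` on the compact set `B ⊆ S`, `S` compact: Tietze extension `G` of `g`, `F = exp ∘ G`.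
-/

open Set Metric Topology

namespace Pool.JS

/-- the closed square with centre `c` and half side `r` -/
def sq (c : ℂ) (r : ℝ) : Set ℂ := {z | |z.re - c.re| ≤ r ∧ |z.im - c.im| ≤ r}

/-- the boundary of the square -/
def bd (c : ℂ) (r : ℝ) : Set ℂ := {z | z ∈ sq c r ∧ (|z.re - c.re| = r ∨ |z.im - c.im| = r)}

theorem bkb_sq_eq (c : ℂ) (r : ℝ) : sq c r = Icc (c.re - r) (c.re + r) ×ℂ Icc (c.im - r) (c.im + r) := by
  ext z
  rw [Complex.mem_reProdIm]
  change (|z.re - c.re| ≤ r ∧ |z.im - c.im| ≤ r) ↔ _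
  rw [abs_le, abs_le, mem_Icc, mem_Icc]
  constructor
  · rintro ⟨⟨h1, h2⟩, h3, h4⟩
    exact ⟨⟨by linarith, by linarith⟩, by linarith, by linarith⟩
  · rintro ⟨⟨h1, h2⟩, h3, h4⟩
    exact ⟨⟨by linarith, by linarith⟩, by linarith, by linarith⟩

theorem isCompact_sq (c : ℂ) (r : ℝ) : IsCompact (sq c r) := by
  rw [bkb_sq_eq]
  exact isCompact_Icc.reProdIm isCompact_Icc

theorem convex_sq (c : ℂ) (r : ℝ) : Convex ℝ (sq c r) := by
  rw [bkb_sq_eq]
  intro x hx y hy a b ha hb hab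
  rw [Complex.mem_reProdIm] at hx hy ⊢
  have e1 : (a • x + b • y).re = a • x.re + b • y.re := by simp
  have e2 : (a • x + b • y).im = a • x.im + b • y.im := by simp
  rw [e1, e2]
  exact ⟨convex_Icc _ _ hx.1 hy.1 ha hb hab, convex_Icc _ _ hx.2 hy.2 ha hb hab⟩

/-- the sup norm -/
noncomputable def bkb_m (z : ℂ) : ℝ := max |z.re| |z.im|

theorem bkb_m_cont : Continuous bkb_m :=
  (Complex.continuous_re.abs).max (Complex.continuous_im.abs)

theorem bkb_m_pos {z : ℂ} (h : z ≠ 0) : 0 < bkb_m z := by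
  unfold bkb_m
  by_contra hcon
  have h1 := le_max_left |z.re| |z.im|
  have h2 := le_max_right |z.re| |z.im|
  have h3 : |z.re| = 0 := le_antisymm (h1.trans (not_lt.1 hcon)) (abs_nonneg _)
  have h4 : |z.im| = 0 := le_antisymm (h2.trans (not_lt.1 hcon)) (abs_nonneg _)
  exact h (Complex.ext (abs_eq_zero.1 h3) (abs_eq_zero.1 h4))

theorem bkb_m_smul {t : ℝ} (ht : 0 ≤ t) (z : ℂ) : bkb_m ((t : ℂ) * z) = t * bkb_m z := by
  unfold bkb_m
  have e1 : ((t : ℂ) * z).re = t * z.re := by simp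
  have e2 : ((t : ℂ) * z).im = t * z.im := by simp
  rw [e1, e2, abs_mul, abs_mul, abs_of_nonneg ht, mul_max_of_nonneg _ _ ht]

theorem bkb_mem {c w : ℂ} {r : ℝ} : w ∈ bd c r ↔ bkb_m (w - c) = r := by
  unfold bkb_m
  change ((|w.re - c.re| ≤ r ∧ |w.im - c.im| ≤ r) ∧ (|w.re - c.re| = r ∨ |w.im - c.im| = r)) ↔ _
  rw [Complex.sub_re, Complex.sub_im]
  constructor
  · rintro ⟨⟨h1, h2⟩, h3 | h3⟩
    · rw [h3]; exact max_eq_left h2
    · rw [h3]; exact max_eq_right h1
  · intro h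
    have h1 := le_max_left |w.re - c.re| |w.im - c.im|
    have h2 := le_max_right |w.re - c.re| |w.im - c.im|
    rw [h] at h1 h2
    refine ⟨⟨h1, h2⟩, ?_⟩
    rcases max_choice |w.re - c.re| |w.im - c.im| with h3 | h3
    · exact Or.inl (h3.symm.trans h)
    · exact Or.inr (h3.symm.trans h)

theorem bkb_ne {c w : ℂ} {r : ℝ} (hr : 0 < r) (hw : w ∈ bd c r) : w - c ≠ 0 := by
  intro h
  rw [bkb_mem, h] at hw
  unfold bkb_m at hw
  simp only [Complex.zero_re, Complex.zero_im, abs_zero, max_self] at hw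
  exact hr.ne hw

/-- parametrisation -/
noncomputable def bkb_g (c : ℂ) (r : ℝ) (z : ℂ) : ℂ := c + ((r / bkb_m z : ℝ) : ℂ) * z

/-- the inverse -/
noncomputable def bkb_i (c : ℂ) (w : ℂ) : ℂ := (((‖w - c‖)⁻¹ : ℝ) : ℂ) * (w - c)

theorem bkb_sph {z : ℂ} (hz : z ∈ sphere (0 : ℂ) 1) : z ≠ 0 := by
  rintro rfl
  rw [mem_sphere, dist_self] at hz
  exact zero_ne_one hz

theorem bkb_g_mem (c : ℂ) {r : ℝ} (hr : 0 < r) {z : ℂ} (hz : z ∈ sphere (0 : ℂ) 1) : bkb_g c r z ∈ bd c r := by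
  have hm := bkb_m_pos (bkb_sph hz)
  rw [bkb_mem]
  unfold bkb_g
  rw [add_sub_cancel_left, bkb_m_smul (by positivity), div_mul_cancel₀ _ hm.ne']

theorem bkb_i_mem {c w : ℂ} {r : ℝ} (hr : 0 < r) (hw : w ∈ bd c r) : bkb_i c w ∈ sphere (0 : ℂ) 1 := by
  have h := norm_pos_iff.2 (bkb_ne hr hw)
  rw [mem_sphere, dist_zero_right]
  unfold bkb_i
  rw [norm_mul, Complex.norm_real, Real.norm_of_nonneg (by positivity), inv_mul_cancel₀ h.ne']

theorem bkb_g_i {c w : ℂ} {r : ℝ} (hr : 0 < r) (hw : w ∈ bd c r) : bkb_g c r (bkb_i c w) = w := by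
  have h := norm_pos_iff.2 (bkb_ne hr hw)
  have hm : bkb_m (w - c) = r := bkb_mem.1 hw
  unfold bkb_g bkb_i
  rw [bkb_m_smul (by positivity), hm, ← mul_assoc, ← Complex.ofReal_mul]
  have : r / (‖w - c‖⁻¹ * r) * ‖w - c‖⁻¹ = 1 := by
    field_simp
  rw [this]
  simp

theorem bkb_g_cont (c : ℂ) (r : ℝ) : ContinuousOn (bkb_g c r) (sphere 0 1) := by
  unfold bkb_g
  refine continuousOn_const.add (ContinuousOn.mul ?_ continuousOn_id)
  refine Complex.continuous_ofReal.comp_continuousOn ?_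
  exact continuousOn_const.div bkb_m_cont.continuousOn fun z hz => (bkb_m_pos (bkb_sph hz)).ne'

theorem bkb_i_cont (c : ℂ) {r : ℝ} (hr : 0 < r) : ContinuousOn (bkb_i c) (bd c r) := by
  unfold bkb_i
  refine ContinuousOn.mul ?_ (continuousOn_id.sub continuousOn_const)
  refine Complex.continuous_ofReal.comp_continuousOn ?_
  refine ContinuousOn.inv₀ (by fun_prop) ?_
  intro w hw
  exact (norm_pos_iff.2 (bkb_ne hr hw)).ne'

theorem isJordan_bd (c : ℂ) {r : ℝ} (hr : 0 < r) : IsJordan (bd c r) := by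
  refine ⟨bkb_g c r, bkb_g_cont c r, ?_, ?_⟩
  · intro z hz w hw h
    have h1 : ((r / bkb_m z : ℝ) : ℂ) * z = ((r / bkb_m w : ℝ) : ℂ) * w := add_left_cancel h
    have hz1 : ‖z‖ = 1 := by simpa using hz
    have hw1 : ‖w‖ = 1 := by simpa using hw
    have hmz := bkb_m_pos (bkb_sph hz)
    have hmw := bkb_m_pos (bkb_sph hw)
    have h2 := congrArg norm h1
    rw [norm_mul, norm_mul, hz1, hw1, Complex.norm_real, Complex.norm_real,
      Real.norm_of_nonneg (by positivity), Real.norm_of_nonneg (by positivity), mul_one, mul_one] at h2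
    rw [h2] at h1
    refine mul_left_cancel₀ ?_ h1
    have : r / bkb_m w ≠ 0 := (div_pos hr hmw).ne'
    exact_mod_cast this
  · ext w
    constructor
    · rintro ⟨z, hz, rfl⟩
      exact bkb_g_mem c hr hz
    · intro hw
      exact ⟨bkb_i c w, bkb_i_mem hr hw, bkb_g_i hr hw⟩

theorem bd_class (c : ℂ) {r : ℝ} (hr : 0 < r) {f : ℂ → ℂ} (hf : ContinuousOn f (bd c r))
    (h0 : ∀ z ∈ bd c r, f z ≠ 0) : ∃ n : ℤ, HasLog (bd c r) (fun z => f z * (z - c) ^ n) := by
  obtain ⟨n, hn⟩ := circle_class (f := fun z => f (bkb_g c r z))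
    (hf.comp (bkb_g_cont c r) fun z hz => bkb_g_mem c hr hz) (fun z hz => h0 _ (bkb_g_mem c hr hz))
  refine ⟨n, ?_⟩
  have h1 : HasLog (sphere 0 1) (fun z => ((r / bkb_m z : ℝ) : ℂ)) := by
    have hcont : ContinuousOn (fun z : ℂ => ((Real.log (r / bkb_m z) : ℝ) : ℂ)) (sphere 0 1) := by
      refine Complex.continuous_ofReal.comp_continuousOn (ContinuousOn.log ?_ ?_)
      · exact continuousOn_const.div bkb_m_cont.continuousOn fun z hz => (bkb_m_pos (bkb_sph hz)).ne'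
      · intro z hz
        exact (div_pos hr (bkb_m_pos (bkb_sph hz))).ne'
    refine (hasLog_exp hcont).congr ?_
    intro z hz
    rw [← Complex.ofReal_exp, Real.exp_log (div_pos hr (bkb_m_pos (bkb_sph hz)))]
  have h2 := hn.mul (h1.zpow n)
  have h3 : HasLog (sphere 0 1) (fun z => f (bkb_g c r z) * (bkb_g c r z - c) ^ n) := by
    refine h2.congr ?_
    intro z _
    unfold bkb_g
    rw [add_sub_cancel_left, mul_zpow]
    ring
  refine (h3.comp (bkb_i_cont c hr) fun w hw => bkb_i_mem hr hw).congr ?_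
  intro w hw
  rw [bkb_g_i hr hw]

theorem HasLog.extend {B : Set ℂ} (hB : IsClosed B) {f : ℂ → ℂ} (h : HasLog B f) :
    ∃ F : ℂ → ℂ, Continuous F ∧ (∀ z, F z ≠ 0) ∧ ∀ z ∈ B, F z = f z := by
  obtain ⟨g, hg, hgf⟩ := h
  obtain ⟨G, hG⟩ := ContinuousMap.exists_restrict_eq hB (⟨B.domRestrict g, continuousOn_iff_continuous_domRestrict.1 hg⟩ : C(B, ℂ))
  refine ⟨fun z => Complex.exp (G z), Complex.continuous_exp.comp G.continuous, fun z => Complex.exp_ne_zero _, ?_⟩
  intro z hz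
  have : G z = g z := by
    have := congrArg (fun k : C(B, ℂ) => k ⟨z, hz⟩) hG
    exact this
  change Complex.exp (G z) = f z
  rw [this]
  exact hgf z hz

end Pool.JS
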