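import Pool.Agent.JS.BkA
import Pool.Agent.JS.BkB

/-!
MODULE BkC (difficulty 3).  Extension over the squares of a grid.

RECIPE.  `step`: `B = Q ∩ sq c r`, compact, `B ⊆ bd c r`; `c ∉ Q` (`c` is in the square but not in its boundary).
If `B ≠ bd c r`: `HasLog B f` (`hasLog_proper`, `isJordan_bd`), take `n = 0` and `F = f` on `Q`, `F = ` the extension of `HasLog.extend` on `sq c r` (agree on `B`, both sets closed, so `F` is continuous on
the union: define `F z = if z ∈ Q then f z else E z`, which equals `E` on the whole square).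
If `B = bd c r`: `n` from `bd_class`, `f z * (z - c) ^ n` has a logarithm on `B`, extend it to `E` and put `F z = if z ∈ Q then f z * (z - c) ^ n else E z`.
`grid`: induction on `(S \ T).card`, for all `T` and `f`.  `T = S`: `hasLog_of_convex` (the union is compact), product over the empty set.  Otherwise `c ∈ S \ T`, `Q = ⋃ x ∈ T, sq x r`, `Q ∩ sq c r ⊆ bd c r` by
hypothesis; `step` gives `n₀`, `F`; the induction hypothesis for `insert c T`, `F` gives `n`; the new exponent function is `n` with the value `n₀` at `c` (`Function.update`), `S \ T = insert c (S \ insert c T)`;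
restrict to `Q` (`HasLog.mono`, `congr`).
-/

open Set Metric Topology

namespace Pool.JS

theorem bkc_ex {Q : Set ℂ} (hQ : IsCompact Q) {c : ℂ} {r : ℝ} (hr : 0 < r) (hQs : Q ∩ sq c r ⊆ bd c r)
    {f : ℂ → ℂ} (hf : ContinuousOn f Q) (h0 : ∀ z ∈ Q, f z ≠ 0) :
    ∃ n : ℤ, HasLog (Q ∩ sq c r) (fun z => f z * (z - c) ^ n) := by
  by_cases hne : Q ∩ sq c r = bd c r
  · rw [hne]
    have hsub : bd c r ⊆ Q := by rw [← hne]; exact inter_subset_left
    exact bd_class c hr (hf.mono hsub) fun z hz => h0 z (hsub hz)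
  · refine ⟨0, ?_⟩
    have h1 : HasLog (Q ∩ sq c r) f :=
      hasLog_proper (isJordan_bd c hr) (hQ.inter (isCompact_sq c r)) hQs hne (hf.mono inter_subset_left)
        fun z hz => h0 z hz.1
    refine h1.congr ?_
    intro z _
    rw [zpow_zero, mul_one]

theorem grid_step {Q : Set ℂ} (hQ : IsCompact Q) {c : ℂ} {r : ℝ} (hr : 0 < r) (hQs : Q ∩ sq c r ⊆ bd c r)
    {f : ℂ → ℂ} (hf : ContinuousOn f Q) (h0 : ∀ z ∈ Q, f z ≠ 0) :
    ∃ n : ℤ, ∃ F : ℂ → ℂ, ContinuousOn F (Q ∪ sq c r) ∧ (∀ z ∈ Q ∪ sq c r, F z ≠ 0) ∧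
      ∀ z ∈ Q, F z = f z * (z - c) ^ n := by
  classical
  obtain ⟨n, hn⟩ := bkc_ex hQ hr hQs hf h0
  obtain ⟨G, hG, hG0, hGe⟩ := hn.extend (hQ.inter (isCompact_sq c r)).isClosed
  have hcQ : ∀ z ∈ Q, z - c ≠ 0 := by
    intro z hz h
    have hzc : z = c := sub_eq_zero.1 h
    have h1 : z ∈ sq c r := by
      rw [hzc]
      exact ⟨by simpa using hr.le, by simpa using hr.le⟩
    exact bkb_ne hr (hQs ⟨hz, h1⟩) h
  refine ⟨n, fun z => if z ∈ Q then f z * (z - c) ^ n else G z, ?_, ?_, ?_⟩
  · refine ContinuousOn.union_of_isClosed ?_ ?_ hQ.isClosed (isCompact_sq c r).isClosed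
    · have h1 : ContinuousOn (fun z => f z * (z - c) ^ n) Q :=
        hf.mul ((continuousOn_id.sub continuousOn_const).zpow₀ n fun z hz => Or.inl (hcQ z hz))
      refine h1.congr ?_
      intro z hz
      exact if_pos hz
    · refine hG.continuousOn.congr ?_
      intro z hz
      by_cases h : z ∈ Q
      · change (if z ∈ Q then f z * (z - c) ^ n else G z) = G z
        rw [if_pos h, hGe z ⟨h, hz⟩]
      · exact if_neg h
  · intro z _
    change (if z ∈ Q then f z * (z - c) ^ n else G z) ≠ 0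
    by_cases h : z ∈ Q
    · rw [if_pos h]
      exact mul_ne_zero (h0 z h) (zpow_ne_zero n (hcQ z h))
    · rw [if_neg h]
      exact hG0 z
  · intro z hz
    exact if_pos hz

open Classical in
theorem grid_log {S T : Finset ℂ} {r : ℝ} (hr : 0 < r) (hTS : T ⊆ S)
    (hd : ∀ c ∈ S, ∀ x ∈ S, x ≠ c → sq x r ∩ sq c r ⊆ bd c r) (hc : Convex ℝ (⋃ c ∈ S, sq c r))
    {f : ℂ → ℂ} (hf : ContinuousOn f (⋃ c ∈ T, sq c r)) (h0 : ∀ z ∈ ⋃ c ∈ T, sq c r, f z ≠ 0) :
    ∃ n : ℂ → ℤ, HasLog (⋃ c ∈ T, sq c r) (fun z => f z * ∏ c ∈ S \ T, (z - c) ^ n c) := by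
  have hcomp : ∀ T : Finset ℂ, IsCompact (⋃ c ∈ T, sq c r) := fun T =>
    T.isCompact_biUnion fun c _ => isCompact_sq c r
  induction hk : (S \ T).card generalizing T f with
  | zero =>
    have h1 : S \ T = ∅ := Finset.card_eq_zero.1 hk
    have h2 : T = S := Finset.Subset.antisymm hTS (Finset.sdiff_eq_empty_iff_subset.1 h1)
    subst h2
    refine ⟨fun _ => 0, (hasLog_of_convex (hcomp T) hc hf h0).congr ?_⟩
    intro z _
    rw [h1, Finset.prod_empty, mul_one]
  | succ k ih =>
    have hpos : 0 < (S \ T).card := by omega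
    obtain ⟨c, hcST⟩ := Finset.card_pos.1 hpos
    have hcS : c ∈ S := (Finset.mem_sdiff.1 hcST).1
    have hcT : c ∉ T := (Finset.mem_sdiff.1 hcST).2
    have hQs : (⋃ x ∈ T, sq x r) ∩ sq c r ⊆ bd c r := by
      rintro z ⟨hz, hzc⟩
      simp only [mem_iUnion] at hz
      obtain ⟨x, hx, hzx⟩ := hz
      refine hd c hcS x (hTS hx) ?_ ⟨hzx, hzc⟩
      rintro rfl
      exact hcT hx
    obtain ⟨n₀, F, hF, hF0, hFe⟩ := grid_step (hcomp T) hr hQs hf h0
    have hun : (⋃ x ∈ insert c T, sq x r) = (⋃ x ∈ T, sq x r) ∪ sq c r := by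
      rw [Finset.set_biUnion_insert, union_comm]
    have hins : insert c (S \ insert c T) = S \ T := by
      ext x
      simp only [Finset.mem_insert, Finset.mem_sdiff, not_or]
      constructor
      · rintro (rfl | ⟨h1, h2, h3⟩)
        · exact ⟨hcS, hcT⟩
        · exact ⟨h1, h3⟩
      · rintro ⟨h1, h2⟩
        by_cases h : x = c
        · exact Or.inl h
        · exact Or.inr ⟨h1, h, h2⟩
    have hnot : c ∉ S \ insert c T := fun h => (Finset.mem_sdiff.1 h).2 (Finset.mem_insert_self _ _)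
    have hcard : (S \ insert c T).card = k := by
      have := Finset.card_insert_of_notMem hnot
      rw [hins, hk] at this
      omega
    obtain ⟨n, hn⟩ := ih (T := insert c T) (f := F) (Finset.insert_subset hcS hTS) (by rw [hun]; exact hF)
      (by rw [hun]; exact hF0) hcard
    refine ⟨Function.update n c n₀, ?_⟩
    have h1 : HasLog (⋃ x ∈ T, sq x r) (fun z => F z * ∏ x ∈ S \ insert c T, (z - x) ^ n x) :=
      hn.mono (by rw [hun]; exact subset_union_left)
    refine h1.congr ?_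
    intro z hz
    rw [hFe z hz, ← hins, Finset.prod_insert hnot, Function.update_self]
    have h2 : ∏ x ∈ S \ insert c T, (z - x) ^ Function.update n c n₀ x = ∏ x ∈ S \ insert c T, (z - x) ^ n x := by
      refine Finset.prod_congr rfl ?_
      intro x hx
      rw [Function.update_of_ne]
      rintro rfl
      exact hnot hx
    rw [h2, mul_assoc]

end Pool.JS
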