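import Pool.Agent.JS.BkB

/-!
MODULE BkD (difficulty 2).  Grids around compact sets.

RECIPE.  `K ⊆ W` compact, `W` open: `δ > 0` with `thickening δ K ⊆ W` (`IsCompact.exists_thickening_subset_open`).  Choose `N ≥ 1` natural with `K ⊆ closedBall 0 N` and `r = 1 / (2 M)`, `M ≥ 1` natural, with `2 √2 r < δ` (`4 r < δ` is enough).
Centres: `c i j = ((2 i + 1) r, (2 j + 1) r)` for integers `-N M ≤ i, j < N M` (`Finset.image` over `Finset.Ico ×ˢ Finset.Ico`); the square of `(i, j)` is `[2 i r, 2 (i+1) r] × [2 j r, 2 (j+1) r]`.  The union of all is `[-N, N]²` (as `2 r N M = N`):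
for `z` in the big square take `i = ⌊z.re / (2 r)⌋` (and `i = N M - 1` if `z.re = N`), it is convex.  Two different squares: `i ≠ i'`, say `i' < i`: a common point has `2 i r ≤ re ≤ 2 (i' + 1) r ≤ 2 i r`, so `re = 2 i r = c.re - r`
(or `+ r`), in the boundary of both; same for `j`.  `T` = the squares which meet `K`; two points of a square have distance `≤ 4 r < δ`, so the square is in `W`.
-/

open Set Metric Topology

namespace Pool.JS

/-- the one-dimensional grid -/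
private theorem BkD_line {N M : ℕ} (hN : 1 ≤ N) (hM : 1 ≤ M) {x : ℝ} (hx : |x| ≤ N) :
    ∃ i : ℤ, -((N : ℤ) * M) ≤ i ∧ i < (N : ℤ) * M ∧ |x - (2 * (i : ℝ) + 1) * (1 / (2 * (M : ℝ)))| ≤ 1 / (2 * (M : ℝ)) := by
  have hM0 : (0 : ℝ) < M := by exact_mod_cast (lt_of_lt_of_le zero_lt_one hM)
  have hN0 : (1 : ℝ) ≤ N := by exact_mod_cast hN
  have hM1 : (1 : ℝ) ≤ M := by exact_mod_cast hM
  obtain ⟨h1, h2⟩ := abs_le.mp hx
  have hNM : (1 : ℤ) ≤ (N : ℤ) * M := by
    have : 1 ≤ N * M := Nat.one_le_iff_ne_zero.mpr (Nat.mul_ne_zero (by omega) (by omega))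
    exact_mod_cast this
  -- it suffices to have `i ≤ x M ≤ i + 1`
  have key : ∀ i : ℤ, (i : ℝ) ≤ x * M → x * M ≤ i + 1 →
      |x - (2 * (i : ℝ) + 1) * (1 / (2 * (M : ℝ)))| ≤ 1 / (2 * (M : ℝ)) := by
    intro i a b
    have e : x - (2 * (i : ℝ) + 1) * (1 / (2 * (M : ℝ))) = (2 * (x * M) - 2 * i - 1) * (1 / (2 * (M : ℝ))) := by
      field_simp
      ring
    rw [e, abs_mul, abs_of_pos (by positivity : (0 : ℝ) < 1 / (2 * (M : ℝ)))]
    have : |2 * (x * M) - 2 * i - 1| ≤ 1 := by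
      rw [abs_le]
      constructor <;> linarith
    calc |2 * (x * M) - 2 * i - 1| * (1 / (2 * (M : ℝ))) ≤ 1 * (1 / (2 * (M : ℝ))) :=
          mul_le_mul_of_nonneg_right this (by positivity)
      _ = _ := one_mul _
  rcases lt_or_ge ⌊x * M⌋ ((N : ℤ) * M) with h | h
  · refine ⟨⌊x * M⌋, ?_, h, key _ (Int.floor_le _) (Int.lt_floor_add_one _).le⟩
    rw [Int.le_floor]
    push_cast
    nlinarith
  · refine ⟨(N : ℤ) * M - 1, by omega, by omega, key _ ?_ ?_⟩
    · have := Int.le_floor.mp h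
      push_cast at this ⊢
      linarith
    · push_cast
      nlinarith

theorem exists_grid {K W : Set ℂ} (hK : IsCompact K) (hW : IsOpen W) (hKW : K ⊆ W) :
    ∃ (r : ℝ) (S T : Finset ℂ), 0 < r ∧ T ⊆ S ∧ (∀ c ∈ S, ∀ x ∈ S, x ≠ c → sq x r ∩ sq c r ⊆ bd c r) ∧
      Convex ℝ (⋃ c ∈ S, sq c r) ∧ K ⊆ (⋃ c ∈ T, sq c r) ∧ (⋃ c ∈ T, sq c r) ⊆ W ∧
      ∀ c ∈ S, c ∈ K → c ∈ T := by
  classical
  obtain ⟨δ, hδ, hδW⟩ := hK.exists_thickening_subset_open hW hKW
  obtain ⟨R, hR⟩ := hK.isBounded.subset_closedBall (0 : ℂ)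
  obtain ⟨N, hN⟩ := exists_nat_gt (max R 1)
  obtain ⟨M, hM⟩ := exists_nat_gt (max (2 / δ) 1)
  have hN1 : 1 ≤ N := by
    have : (1 : ℝ) < N := lt_of_le_of_lt (le_max_right _ _) hN
    exact_mod_cast this.le
  have hM1 : 1 ≤ M := by
    have : (1 : ℝ) < M := lt_of_le_of_lt (le_max_right _ _) hM
    exact_mod_cast this.le
  have hM0 : (0 : ℝ) < M := by exact_mod_cast (lt_of_lt_of_le zero_lt_one hM1)
  have hRN : R ≤ N := (lt_of_le_of_lt (le_max_left _ _) hN).le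
  obtain ⟨r, hr⟩ : ∃ r : ℝ, r = 1 / (2 * (M : ℝ)) := ⟨_, rfl⟩
  have hr0 : 0 < r := by rw [hr]; positivity
  have hrM : 2 * r * M = 1 := by rw [hr]; field_simp
  have hrδ : 4 * r < δ := by
    have h1 : 2 / δ < M := lt_of_le_of_lt (le_max_left _ _) hM
    rw [div_lt_iff₀ hδ] at h1
    have h2 : 4 * r * M = 2 := by linarith
    by_contra h
    have h3 : δ * M ≤ 4 * r * M := mul_le_mul_of_nonneg_right (not_lt.mp h) hM0.le
    linarith
  let I : Finset ℤ := Finset.Ico (-((N : ℤ) * M)) ((N : ℤ) * M)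
  let f : ℤ × ℤ → ℂ := fun p => ⟨(2 * (p.1 : ℝ) + 1) * r, (2 * (p.2 : ℝ) + 1) * r⟩
  let S : Finset ℂ := (I ×ˢ I).image f
  let T : Finset ℂ := S.filter (fun c => (sq c r ∩ K).Nonempty)
  have hS : ∀ c ∈ S, ∃ i ∈ I, ∃ j ∈ I, c.re = (2 * (i : ℝ) + 1) * r ∧ c.im = (2 * (j : ℝ) + 1) * r := by
    intro c hc
    obtain ⟨⟨i, j⟩, hij, rfl⟩ := Finset.mem_image.mp hc
    rw [Finset.mem_product] at hij
    exact ⟨i, hij.1, j, hij.2, rfl, rfl⟩
  have hcov : ∀ z ∈ sq 0 (N : ℝ), ∃ c ∈ S, z ∈ sq c r := by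
    intro z hz
    obtain ⟨i, i1, i2, i3⟩ := BkD_line hN1 hM1 (x := z.re) (by simpa using hz.1)
    obtain ⟨j, j1, j2, j3⟩ := BkD_line hN1 hM1 (x := z.im) (by simpa using hz.2)
    rw [← hr] at i3 j3
    refine ⟨f (i, j), Finset.mem_image.mpr ⟨(i, j), ?_, rfl⟩, i3, j3⟩
    rw [Finset.mem_product, Finset.mem_Ico, Finset.mem_Ico]
    exact ⟨⟨i1, i2⟩, ⟨j1, j2⟩⟩
  have hrange : ∀ i ∈ I, ∀ x : ℝ, |x - (2 * (i : ℝ) + 1) * r| ≤ r → |x| ≤ N := by
    intro i hi x hx
    rw [Finset.mem_Ico] at hi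
    have a : -((N : ℝ) * M) ≤ i := by exact_mod_cast hi.1
    have b : (i : ℝ) + 1 ≤ (N : ℝ) * M := by
      have : i + 1 ≤ (N : ℤ) * M := by omega
      exact_mod_cast this
    have e : 2 * r * ((N : ℝ) * M) = N := by
      calc 2 * r * ((N : ℝ) * M) = N * (2 * r * M) := by ring
        _ = N := by rw [hrM, mul_one]
    rw [abs_le] at hx ⊢
    have h2 : 0 ≤ 2 * r * ((i : ℝ) + N * M) := mul_nonneg (by linarith) (by linarith)
    have h3 : 0 ≤ 2 * r * ((N : ℝ) * M - (i + 1)) := mul_nonneg (by linarith) (by linarith)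
    constructor <;> nlinarith [hx.1, hx.2]
  have hU : (⋃ c ∈ S, sq c r) = sq 0 (N : ℝ) := by
    apply Subset.antisymm
    · intro z hz
      simp only [mem_iUnion, exists_prop] at hz
      obtain ⟨c, hc, hz⟩ := hz
      obtain ⟨i, hi, j, hj, e1, e2⟩ := hS c hc
      refine ⟨?_, ?_⟩
      · have := hz.1
        rw [e1] at this
        simpa using hrange i hi _ this
      · have := hz.2
        rw [e2] at this
        simpa using hrange j hj _ this
    · intro z hz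
      obtain ⟨c, hc, hz⟩ := hcov z hz
      simp only [mem_iUnion, exists_prop]
      exact ⟨c, hc, hz⟩
  have hline : ∀ (i j : ℤ) (x : ℝ), i ≠ j → |x - (2 * (i : ℝ) + 1) * r| ≤ r → |x - (2 * (j : ℝ) + 1) * r| ≤ r →
      |x - (2 * (i : ℝ) + 1) * r| = r := by
    intro i j x hij h1 h2
    refine le_antisymm h1 ?_
    have h3 : (1 : ℝ) ≤ |(i : ℝ) - j| := by
      have : (1 : ℤ) ≤ |i - j| := Int.one_le_abs (sub_ne_zero.mpr hij)
      exact_mod_cast this
    have h4 : 2 * r ≤ |x - (2 * (i : ℝ) + 1) * r| + |x - (2 * (j : ℝ) + 1) * r| := by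
      have e : (x - (2 * (j : ℝ) + 1) * r) - (x - (2 * (i : ℝ) + 1) * r) = ((i : ℝ) - j) * (2 * r) := by ring
      have h5 : |((i : ℝ) - j) * (2 * r)| = |(i : ℝ) - j| * (2 * r) := by
        rw [abs_mul, abs_of_pos (by linarith : (0 : ℝ) < 2 * r)]
      have h6 := abs_sub (x - (2 * (j : ℝ) + 1) * r) (x - (2 * (i : ℝ) + 1) * r)
      rw [e, h5] at h6
      nlinarith
    linarith
  refine ⟨r, S, T, hr0, Finset.filter_subset _ _, ?_, ?_, ?_, ?_, ?_⟩
  · rintro c hc x hx hne z ⟨hz, hz'⟩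
    refine ⟨hz', ?_⟩
    obtain ⟨i, hi, j, hj, e1, e2⟩ := hS c hc
    obtain ⟨i', hi', j', hj', e1', e2'⟩ := hS x hx
    have hij : i ≠ i' ∨ j ≠ j' := by
      by_contra h
      push Not at h
      apply hne
      apply Complex.ext
      · rw [e1, e1', h.1]
      · rw [e2, e2', h.2]
    rcases hij with h | h
    · left
      have a := hz'.1
      have b := hz.1
      rw [e1] at a ⊢
      rw [e1'] at b
      exact hline i i' _ h a b
    · right
      have a := hz'.2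
      have b := hz.2
      rw [e2] at a ⊢
      rw [e2'] at b
      exact hline j j' _ h a b
  · rw [hU]
    exact convex_sq _ _
  · intro z hz
    have hz0 : z ∈ sq 0 (N : ℝ) := by
      have h := hR hz
      rw [mem_closedBall, dist_zero_right] at h
      refine ⟨?_, ?_⟩
      · rw [Complex.zero_re, sub_zero]
        exact (Complex.abs_re_le_norm z).trans (h.trans hRN)
      · rw [Complex.zero_im, sub_zero]
        exact (Complex.abs_im_le_norm z).trans (h.trans hRN)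
    obtain ⟨c, hc, hzc⟩ := hcov z hz0
    simp only [mem_iUnion, exists_prop]
    exact ⟨c, Finset.mem_filter.mpr ⟨hc, ⟨z, hzc, hz⟩⟩, hzc⟩
  · intro z hz
    simp only [mem_iUnion, exists_prop] at hz
    obtain ⟨c, hc, hz⟩ := hz
    obtain ⟨hc, w, hw, hwK⟩ := Finset.mem_filter.mp hc
    apply hδW
    rw [mem_thickening_iff]
    refine ⟨w, hwK, ?_⟩
    refine lt_of_le_of_lt ?_ hrδ
    rw [dist_eq_norm]
    refine (Complex.norm_le_abs_re_add_abs_im _).trans ?_
    rw [Complex.sub_re, Complex.sub_im]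
    have h1 := abs_sub (z.re - c.re) (w.re - c.re)
    have h2 := abs_sub (z.im - c.im) (w.im - c.im)
    have e1 : z.re - c.re - (w.re - c.re) = z.re - w.re := by ring
    have e2 : z.im - c.im - (w.im - c.im) = z.im - w.im := by ring
    rw [e1] at h1
    rw [e2] at h2
    linarith [hz.1, hz.2, hw.1, hw.2]
  · intro c hc hcK
    refine Finset.mem_filter.mpr ⟨hc, c, ⟨?_, ?_⟩, hcK⟩
    · rw [sub_self, abs_zero]
      exact hr0.le
    · rw [sub_self, abs_zero]
      exact hr0.le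

end Pool.JS
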