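import Pool.Agent.JS.BkC
import Pool.Agent.JS.BkD
import Pool.Agent.JS.Eil
import Pool.Agent.JS.Inv

/-!
MODULE BkE (difficulty 3).  Borsuk's theorem, and logarithms on domains.

RECIPE.  `borsuk`: Tietze extension `F` of `f` from the closed set `K` (`F` continuous on `ℂ`), `W = {z | F z ≠ 0}` open, `K ⊆ W`; `exists_grid`, `grid_log` for `F`: `F * ∏ (z - c) ^ n c` has a logarithm on `K` (`mono`).
For `c ∈ S \ T`: `c ∉ K`, so `Esc K c`, `z - c` has a logarithm on `K` (`hasLog_of_esc`), so has the product (`Finset` induction with `HasLog.mul`, `HasLog.zpow`); divide.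
`fill`: `K ⊆ U` compact, `U` open, every `c ∉ U` has `Esc K c`.  `K' = K ∪ {c | c ∉ K ∧ ¬ Esc K c} ⊆ U`.  Its complement is `{c ∉ K | Esc K c}`, a union of components `cmp K c` (if `Esc K c` and `b ∈ cmp K c` then `Esc K b`), so open; `K'` is bounded (points
outside a large closed ball containing `K` escape), so compact.  For `c ∉ K'`: `cmp K c` is unbounded, preconnected, disjoint from `K'` (all its points escape): `Esc K' c`.  So `borsuk` applies to `K'`, then `mono`.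
`hasLog_open`: fix `z₀ ∈ U`, `w₀` with `exp w₀ = f z₀`.  For a compact preconnected `P ⊆ U` with `z₀ ∈ P` there is a logarithm `g` on `P` with `g z₀ = w₀` (add a constant `2 π I n`), unique on `P` (`log_unique`).  For `z ∈ U` choose `P_z` with
`z₀, z ∈ P_z` (`exists_compact_connected` for `{z₀, z}`) and put `G z = g_{P_z} z`; for any other `P'` with `z ∈ P'` the values agree (consider `P_z ∪ P'`, compact, preconnected with the common point `z₀`).  Continuity at `z`: for a closed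
ball `D ⊆ U` around `z`, `P = P_z ∪ D` is compact preconnected and `G = g_P` on `D`.
-/

open Set Metric Topology

namespace Pool.JS

theorem borsuk {K : Set ℂ} (hK : IsCompact K) (hesc : ∀ c, c ∉ K → Esc K c) {f : ℂ → ℂ} (hf : ContinuousOn f K)
    (h0 : ∀ z ∈ K, f z ≠ 0) : HasLog K f := by
  classical
  obtain ⟨F, hF⟩ := ContinuousMap.exists_restrict_eq hK.isClosed
    (⟨K.restrict f, continuousOn_iff_continuous_restrict.1 hf⟩ : C(K, ℂ))
  have hFf : ∀ z ∈ K, F z = f z := fun z hz => DFunLike.congr_fun hF ⟨z, hz⟩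
  have hW : IsOpen {z : ℂ | F z ≠ 0} := isOpen_ne_fun F.continuous continuous_const
  obtain ⟨r, S, T, hr, hTS, hd, hc, hKT, hTW, hST⟩ := exists_grid hK hW (fun z hz => by
    show F z ≠ 0
    rw [hFf z hz]
    exact h0 z hz)
  obtain ⟨n, hn⟩ := grid_log hr hTS hd hc (f := F) F.continuous.continuousOn (fun z hz => hTW hz)
  have hprod : ∀ D : Finset ℂ, (∀ c ∈ D, c ∉ K) → HasLog K (fun z => ∏ c ∈ D, (z - c) ^ n c) := by
    intro D
    induction D using Finset.induction_on with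
    | empty =>
      intro _
      simpa using (hasLog_const (K := K) (c := 1) one_ne_zero)
    | insert c D hc ih =>
      intro hD
      have h1 := ih (fun x hx => hD x (Finset.mem_insert_of_mem hx))
      have h2 := (hasLog_of_esc hK (hesc c (hD c (Finset.mem_insert_self c D)))).zpow (n c)
      refine (h2.mul h1).congr ?_
      intro z hz
      rw [Finset.prod_insert hc]
  have h1 := hn.mono hKT
  have h2 := hprod _ (fun c hc hcK => (Finset.mem_sdiff.1 hc).2 (hST c (Finset.mem_sdiff.1 hc).1 hcK))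
  refine (h1.div h2).congr ?_
  intro z hz
  have h3 := h2.ne_zero z hz
  rw [← hFf z hz]
  exact mul_div_cancel_right₀ _ h3

theorem bke_ray {K : Set ℂ} {M : ℝ} (hM : 0 ≤ M) (hK : K ⊆ closedBall 0 M) {c : ℂ} (hc : M < ‖c‖) : Esc K c := by
  have hc0 : 0 < ‖c‖ := hM.trans_lt hc
  refine ⟨(fun t : ℝ => (t : ℂ) * c) '' Ici 1, isPreconnected_Ici.image _ (by fun_prop), ?_, ⟨1, self_mem_Ici, by simp⟩, ?_⟩
  · rintro y ⟨t, ht, rfl⟩ hy
    have h1 : ‖(t : ℂ) * c‖ ≤ M := by simpa using hK hy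
    rw [norm_mul, Complex.norm_real, Real.norm_eq_abs, abs_of_nonneg (zero_le_one.trans ht)] at h1
    have h2 : 1 * ‖c‖ ≤ t * ‖c‖ := mul_le_mul_of_nonneg_right ht hc0.le
    linarith
  · intro hb
    obtain ⟨R, hR⟩ := hb.exists_norm_le
    have h1 : (1 : ℝ) ≤ (|R| + 1) / ‖c‖ + 1 := by
      have : 0 ≤ (|R| + 1) / ‖c‖ := by positivity
      linarith
    have h2 := hR _ ⟨(|R| + 1) / ‖c‖ + 1, h1, rfl⟩
    rw [norm_mul, Complex.norm_real, Real.norm_eq_abs, abs_of_nonneg (zero_le_one.trans h1), add_mul,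
      div_mul_cancel₀ _ hc0.ne'] at h2
    have h3 := le_abs_self R
    linarith

theorem borsuk_fill {U K : Set ℂ} (hU : IsOpen U) (hK : IsCompact K) (hKU : K ⊆ U) (hesc : ∀ c, c ∉ U → Esc K c)
    {f : ℂ → ℂ} (hf : ContinuousOn f U) (h0 : ∀ z ∈ U, f z ≠ 0) : HasLog K f := by
  have hn : ∀ c, Esc K c → c ∉ K := by
    rintro c ⟨C, -, hC, hc, -⟩ hcK
    exact hC hc hcK
  have hcmp : ∀ c, Esc K c → ∀ b ∈ cmp K c, Esc K b := by
    intro c hc b hb
    exact (((con_iff (hn c hc)).2 hb).symm).esc hc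
  have hcl : IsClosed {c : ℂ | ¬ Esc K c} := by
    rw [← isOpen_compl_iff, isOpen_iff_mem_nhds]
    intro c hc
    have hc' : Esc K c := by
      by_contra h
      exact hc h
    refine Filter.mem_of_superset ((isOpen_cmp hK.isClosed).mem_nhds (mem_cmp (hn c hc'))) ?_
    intro b hb hb'
    exact hb' (hcmp c hc' b hb)
  obtain ⟨M, hM⟩ := hK.isBounded.subset_closedBall (0 : ℂ)
  have hK' : IsCompact {c : ℂ | ¬ Esc K c} := by
    refine (isCompact_closedBall (0 : ℂ) (max M 0)).of_isClosed_subset hcl ?_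
    intro c hc
    by_contra h
    rw [mem_closedBall, dist_zero_right, not_le] at h
    exact hc (bke_ray (le_max_right M 0) (hM.trans (closedBall_subset_closedBall (le_max_left M 0))) h)
  have hsub : {c : ℂ | ¬ Esc K c} ⊆ U := by
    intro c hc
    by_contra h
    exact hc (hesc c h)
  have hesc' : ∀ c, c ∉ {c : ℂ | ¬ Esc K c} → Esc {c : ℂ | ¬ Esc K c} c := by
    intro c hc
    have hc' : Esc K c := by
      by_contra h
      exact hc h
    refine ⟨cmp K c, isPreconnected_cmp, ?_, mem_cmp (hn c hc'), (esc_iff (hn c hc')).1 hc'⟩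
    intro b hb hb'
    exact hb' (hcmp c hc' b hb)
  exact (borsuk hK' hesc' (hf.mono hsub) (fun z hz => h0 z (hsub hz))).mono (fun z hz h => hn z h hz)

theorem hasLog_open {U : Set ℂ} (hU : IsOpen U) (hc : IsPreconnected U) {f : ℂ → ℂ} (hf : ContinuousOn f U)
    (h : ∀ K ⊆ U, IsCompact K → HasLog K f) : HasLog U f := by
  classical
  rcases U.eq_empty_or_nonempty with he | ⟨z₀, hz₀⟩
  · subst he
    exact ⟨fun _ => 0, continuousOn_empty _, fun z hz => absurd hz (notMem_empty z)⟩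
  obtain ⟨w₀, hw₀⟩ : ∃ w₀ : ℂ, Complex.exp w₀ = f z₀ := by
    obtain ⟨g, -, hg⟩ := h {z₀} (singleton_subset_iff.2 hz₀) isCompact_singleton
    exact ⟨g z₀, hg z₀ rfl⟩
  -- normalised logarithms
  have hA : ∀ P : Set ℂ, IsCompact P → P ⊆ U → ∃ g : ℂ → ℂ, ContinuousOn g P ∧
      (∀ z ∈ P, Complex.exp (g z) = f z) ∧ (z₀ ∈ P → g z₀ = w₀) := by
    intro P hP hPU
    obtain ⟨g, hgc, hg⟩ := h P hPU hP
    by_cases hz : z₀ ∈ P
    · have h1 : Complex.exp (g z₀) = Complex.exp w₀ := by rw [hg z₀ hz, hw₀]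
      obtain ⟨n, hn⟩ := Complex.exp_eq_exp_iff_exists_int.1 h1
      refine ⟨fun z => g z - n * (2 * Real.pi * Complex.I), hgc.sub continuousOn_const, ?_, ?_⟩
      · intro z hzP
        rw [Complex.exp_sub, Complex.exp_int_mul_two_pi_mul_I, div_one]
        exact hg z hzP
      · intro _
        show g z₀ - n * (2 * Real.pi * Complex.I) = w₀
        rw [hn]
        ring
    · exact ⟨g, hgc, hg, fun h => absurd h hz⟩
  have hB : ∀ P : Set ℂ, IsPreconnected P → z₀ ∈ P → ∀ g₁ g₂ : ℂ → ℂ, ContinuousOn g₁ P → ContinuousOn g₂ P →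
      (∀ z ∈ P, Complex.exp (g₁ z) = f z) → (∀ z ∈ P, Complex.exp (g₂ z) = f z) → g₁ z₀ = w₀ → g₂ z₀ = w₀ →
      ∀ z ∈ P, g₁ z = g₂ z := by
    intro P hP hz g₁ g₂ h₁ h₂ e₁ e₂ n₁ n₂ z hzP
    obtain ⟨n, hn⟩ := log_unique hP h₁ h₂ (fun z hz => by rw [e₁ z hz, e₂ z hz])
    have h1 := hn z₀ hz
    rw [n₁, n₂] at h1
    have h2 : (n : ℂ) * (2 * Real.pi * Complex.I) = 0 := by
      have : w₀ + (n : ℂ) * (2 * Real.pi * Complex.I) - w₀ = 0 := by rw [← h1, sub_self]
      rwa [add_sub_cancel_left] at this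
    rw [hn z hzP, h2, add_zero]
  have hP : ∀ z ∈ U, ∃ P : Set ℂ, IsCompact P ∧ IsPreconnected P ∧ z₀ ∈ P ∧ z ∈ P ∧ P ⊆ U := by
    intro z hz
    obtain ⟨P, h1, h2, h3, h4⟩ := exists_compact_connected (K := {z₀, z}) hU hc (by
      exact (finite_singleton z).insert z₀ |>.isCompact) (by
        rintro y (rfl | rfl)
        · exact hz₀
        · exact hz)
    exact ⟨P, h1, h2, h3 (mem_insert _ _), h3 (mem_insert_of_mem _ rfl), h4⟩
  choose! P hPc hPp hP0 hPz hPU using hP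
  choose! g hgc hge hg0 using hA
  have key : ∀ Q : Set ℂ, IsCompact Q → IsPreconnected Q → z₀ ∈ Q → Q ⊆ U → ∀ z ∈ Q, g (P z) z = g Q z := by
    intro Q hQ hQp hQ0 hQU z hz
    have hzU := hQU hz
    have c1 : IsCompact (P z ∪ Q) := (hPc z hzU).union hQ
    have c2 : IsPreconnected (P z ∪ Q) := IsPreconnected.union z₀ (hP0 z hzU) hQ0 (hPp z hzU) hQp
    have c3 : P z ∪ Q ⊆ U := union_subset (hPU z hzU) hQU
    have c4 : z₀ ∈ P z ∪ Q := Or.inl (hP0 z hzU)
    have k1 := hB (P z) (hPp z hzU) (hP0 z hzU) (g (P z)) (g (P z ∪ Q)) (hgc _ (hPc z hzU) (hPU z hzU))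
      ((hgc _ c1 c3).mono subset_union_left) (hge _ (hPc z hzU) (hPU z hzU))
      (fun y hy => hge _ c1 c3 y (Or.inl hy)) (hg0 _ (hPc z hzU) (hPU z hzU) (hP0 z hzU)) (hg0 _ c1 c3 c4) z (hPz z hzU)
    have k2 := hB Q hQp hQ0 (g Q) (g (P z ∪ Q)) (hgc _ hQ hQU)
      ((hgc _ c1 c3).mono subset_union_right) (hge _ hQ hQU)
      (fun y hy => hge _ c1 c3 y (Or.inr hy)) (hg0 _ hQ hQU hQ0) (hg0 _ c1 c3 c4) z hz
    rw [k1, k2]
  refine ⟨fun z => g (P z) z, ?_, fun z hz => hge _ (hPc z hz) (hPU z hz) z (hPz z hz)⟩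
  intro z hz
  obtain ⟨r, hr, hrU⟩ := Metric.nhds_basis_closedBall.mem_iff.1 (hU.mem_nhds hz)
  have c1 : IsCompact (P z ∪ closedBall z r) := (hPc z hz).union (isCompact_closedBall z r)
  have c2 : IsPreconnected (P z ∪ closedBall z r) := IsPreconnected.union z (hPz z hz) (mem_closedBall_self hr.le)
    (hPp z hz) (convex_closedBall z r).isPreconnected
  have c3 : P z ∪ closedBall z r ⊆ U := union_subset (hPU z hz) hrU
  have c4 : z₀ ∈ P z ∪ closedBall z r := Or.inl (hP0 z hz)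
  have hD : closedBall z r ∈ 𝓝 z := closedBall_mem_nhds z hr
  have h1 : ContinuousAt (g (P z ∪ closedBall z r)) z :=
    ((hgc _ c1 c3).mono subset_union_right).continuousAt hD
  have h2 : (fun y => g (P y) y) =ᶠ[𝓝 z] g (P z ∪ closedBall z r) := by
    filter_upwards [hD] with y hy
    exact key _ c1 c2 c4 c3 y (Or.inr hy)
  exact (h1.congr h2.symm).continuousWithinAt

end Pool.JS
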