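import Pool.Agent.JS.BkE
import Pool.Agent.JS.Jct

/-!
MODULE BkF (difficulty 1).  Logarithms on the inner domain of a Jordan curve.

RECIPE.  For `K ⊆ U` compact and `c ∉ U`: `Uᶜ = closure V` (`closure V = V ∪ frontier V = V ∪ J`) is preconnected (`IsPreconnected.closure`), unbounded, disjoint from `K`, so `Esc K c`.  `borsuk_fill`, `hasLog_open`.
-/

open Set Metric Topology

namespace Pool.JS

theorem Jsep.hasLog {J U V : Set ℂ} (h : Jsep J U V) {f : ℂ → ℂ} (hf : ContinuousOn f U) (h0 : ∀ z ∈ U, f z ≠ 0) :
    HasLog U f := by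
  refine hasLog_open h.openU h.connU.isPreconnected hf (fun K hKU hK => borsuk_fill h.openU hK hKU (fun c hc => ?_) hf h0)
  refine ⟨closure V, h.connV.isPreconnected.closure, ?_, ?_, fun hb => h.bddV (hb.subset subset_closure)⟩
  · intro y hy hyK
    exact (disjoint_left.1 (h.disj.closure_right h.openU)) (hKU hyK) hy
  · by_cases hcJ : c ∈ J
    · rw [← h.frV] at hcJ
      exact frontier_subset_closure hcJ
    · have h1 : c ∈ U ∪ V := by
        rw [h.union]
        exact hcJ
      rcases h1 with h1 | h1
      · exact absurd h1 hc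
      · exact subset_closure h1

end Pool.JS
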