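import Pool.Agent.JS.CaDefs

/-!
MODULE CaA (difficulty 2).  Geometry of the crosscuts.

RECIPE.  `‖cc ζ r t‖² = ‖1 - r exp (t I)‖² = 1 - 2 r cos t + r²`.  `T r = arccos (r / 2)`, `cos (T r) = r / 2`, `0 < T r ≤ π / 2` for `0 ≤ r < 1` (`< π / 2` if `r > 0`).  `|t| < T r ⇒ cos t > r / 2 ⇒ ‖cc‖ < 1`
(`cos` is even and strictly antitone on `[0, π]`); `|t| = T r ⇒ ‖cc‖ = 1`.  `injOn`: `exp (t I)` is injective on `(-π, π]`.  `exists_cc`: `w = (ζ - z)/(r ζ)` has norm one, `w = exp (t I)` with `t = arg w ∈ (-π, π]`, `z = cc ζ r t`, and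
`‖z‖ < 1` means `cos t > r / 2`, so `|t| < T r`.  `dist_cc`: `cc ζ r t - ζ = - r ζ exp (t I)`.
`half_in`: convex.  `half_out`: let `E = ball 0 1 \ closedBall ζ r`, `N = ball 0 1 ∩ ball (-ζ) (1/2)` convex, nonempty, `N ⊆ E` (`dist z ζ ≥ 2 - 1/2 > r`).  For `z ∈ E` the half open segment `z_t = z + t (-ζ - z)`, `t ∈ [0, 1)`, is in `E`
(`‖z_t‖ < 1`; `dist z_t ζ ≥ dist z ζ`: the function `t ↦ ‖z_t - ζ‖²` has derivative `2 re⟨z_t - ζ, -ζ - z⟩`, at `t = 0` equal to `2 (1 - ‖z‖²)`-like `≥ 0` and it is convex in `t`, so it is nondecreasing for `t ≥ 0`: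
`re (conj (z - ζ) (-ζ - z)) = ‖ζ‖² - ‖z‖² = 1 - ‖z‖² > 0`) and enters `N`.  So `E` is the union of the connected sets `N ∪ segment_z`, all containing `N` (`isPreconnected_sUnion`).
`cover`: a point of `ball 0 1` is in `ball ζ r`, on the sphere (then on the crosscut), or outside.
-/

open Set Metric Topology

namespace Pool.JS

variable {ζ z : ℂ} {r t : ℝ}

theorem T_pos (hr : r < 1) : 0 < T r := by
  unfold T
  rw [Real.arccos_pos]
  linarith

theorem T_lt (hr : 0 < r) : T r < Real.pi / 2 := by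
  unfold T
  rw [Real.arccos_lt_pi_div_two]
  positivity

theorem continuous_cc (ζ : ℂ) (r : ℝ) : Continuous (cc ζ r) := by
  unfold cc
  fun_prop

theorem dist_cc (hζ : ‖ζ‖ = 1) (hr : 0 ≤ r) (t : ℝ) : dist (cc ζ r t) ζ = r := by
  rw [dist_eq_norm]
  unfold cc
  have e : ζ * (1 - r * Complex.exp (t * Complex.I)) - ζ = -(ζ * (r * Complex.exp (t * Complex.I))) := by ring
  rw [e, norm_neg, norm_mul, norm_mul, hζ, Complex.norm_exp_ofReal_mul_I, Complex.norm_real, Real.norm_of_nonneg hr]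
  ring

namespace CaA

theorem nsq (hζ : ‖ζ‖ = 1) (r t : ℝ) : ‖cc ζ r t‖ ^ 2 = 1 - 2 * r * Real.cos t + r ^ 2 := by
  unfold cc
  rw [norm_mul, hζ, one_mul, Complex.sq_norm, Complex.normSq_apply]
  have h1 : (1 - (r : ℂ) * Complex.exp (t * Complex.I)).re = 1 - r * Real.cos t := by
    simp [Complex.exp_ofReal_mul_I_re]
  have h2 : (1 - (r : ℂ) * Complex.exp (t * Complex.I)).im = -(r * Real.sin t) := by
    simp [Complex.exp_ofReal_mul_I_im]
  rw [h1, h2]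
  have h3 := Real.sin_sq_add_cos_sq t
  linear_combination r ^ 2 * h3

theorem cos_T (hr : 0 < r) (hr1 : r < 1) : Real.cos (T r) = r / 2 := by
  unfold T
  exact Real.cos_arccos (by linarith) (by linarith)

theorem T_le_pi (r : ℝ) : T r ≤ Real.pi := Real.arccos_le_pi _

theorem lt_iff (hr : 0 < r) (hr1 : r < 1) {t : ℝ} (ht : |t| ≤ Real.pi) : |t| < T r ↔ r / 2 < Real.cos t := by
  rw [← cos_T hr hr1, ← Real.cos_abs t]
  have h1 : |t| ∈ Icc 0 Real.pi := ⟨abs_nonneg _, ht⟩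
  have h2 : T r ∈ Icc 0 Real.pi := ⟨(T_pos hr1).le, T_le_pi r⟩
  exact (Real.strictAntiOn_cos.lt_iff_gt h2 h1).symm

theorem one_of_sq {x : ℝ} (h0 : 0 ≤ x) (h : x ^ 2 = 1) : x = 1 := by nlinarith

theorem far {z ζ : ℂ} (hζ : ‖ζ‖ = 1) (hz : ‖z‖ < 1) {t : ℝ} (h0 : 0 ≤ t) (h1 : t ≤ 1) :
    dist z ζ ≤ dist (z + t • (-ζ - z)) ζ := by
  rw [dist_eq_norm, dist_eq_norm]
  have hS : ζ.re * ζ.re + ζ.im * ζ.im = 1 := by
    rw [← Complex.normSq_apply, ← Complex.sq_norm, hζ]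
    norm_num
  have hz2 : z.re * z.re + z.im * z.im ≤ 1 := by
    rw [← Complex.normSq_apply, ← Complex.sq_norm]
    have := norm_nonneg z
    nlinarith
  have hd : (z.re - ζ.re) * (z.re - ζ.re) + (z.im - ζ.im) * (z.im - ζ.im) ≤ 4 := by
    nlinarith [sq_nonneg (z.re + ζ.re), sq_nonneg (z.im + ζ.im)]
  have key : ‖z - ζ‖ ^ 2 ≤ ‖z + t • (-ζ - z) - ζ‖ ^ 2 := by
    rw [Complex.sq_norm, Complex.sq_norm, Complex.normSq_apply, Complex.normSq_apply]
    have e1 : (z + t • (-ζ - z) - ζ).re = (1 - t) * z.re - t * ζ.re - ζ.re := by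
      simp only [Complex.sub_re, Complex.add_re, Complex.smul_re, Complex.neg_re, smul_eq_mul]
      ring
    have e2 : (z + t • (-ζ - z) - ζ).im = (1 - t) * z.im - t * ζ.im - ζ.im := by
      simp only [Complex.sub_im, Complex.add_im, Complex.smul_im, Complex.neg_im, smul_eq_mul]
      ring
    rw [e1, e2, Complex.sub_re, Complex.sub_im]
    have id : ((1 - t) * z.re - t * ζ.re - ζ.re) * ((1 - t) * z.re - t * ζ.re - ζ.re) +
        ((1 - t) * z.im - t * ζ.im - ζ.im) * ((1 - t) * z.im - t * ζ.im - ζ.im) =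
        (1 - t ^ 2) * ((z.re - ζ.re) * (z.re - ζ.re) + (z.im - ζ.im) * (z.im - ζ.im)) + 4 * t ^ 2 +
          2 * t * (1 - t) * (1 - (z.re * z.re + z.im * z.im)) := by
      linear_combination (2 * t + 2 * t ^ 2) * hS
    rw [id]
    have a1 : 0 ≤ 2 * t * (1 - t) * (1 - (z.re * z.re + z.im * z.im)) :=
      mul_nonneg (mul_nonneg (by linarith) (by linarith)) (by linarith)
    have a2 : 0 ≤ t ^ 2 * (4 - ((z.re - ζ.re) * (z.re - ζ.re) + (z.im - ζ.im) * (z.im - ζ.im))) :=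
      mul_nonneg (sq_nonneg _) (by linarith)
    linarith
  exact (pow_le_pow_iff_left₀ (norm_nonneg _) (norm_nonneg _) two_ne_zero).1 key

theorem inside {z ζ : ℂ} (hζ : ‖ζ‖ = 1) (hz : ‖z‖ < 1) {t : ℝ} (h0 : 0 ≤ t) (h1 : t < 1) : ‖z + t • (-ζ - z)‖ < 1 := by
  have e : z + t • (-ζ - z) = (1 - t) • z + t • (-ζ) := by
    rw [smul_sub, sub_smul, one_smul]
    ring
  rw [e]
  calc ‖(1 - t) • z + t • (-ζ)‖ ≤ ‖(1 - t) • z‖ + ‖t • (-ζ)‖ := norm_add_le _ _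
    _ = (1 - t) * ‖z‖ + t := by
      rw [norm_smul, norm_smul, norm_neg, hζ, Real.norm_of_nonneg h0, Real.norm_of_nonneg (by linarith : 0 ≤ 1 - t), mul_one]
    _ < 1 := by nlinarith

end CaA

theorem cc_mem (hζ : ‖ζ‖ = 1) (hr : 0 < r) (hr1 : r < 1) (ht : t ∈ Ioo (-T r) (T r)) : cc ζ r t ∈ ball (0 : ℂ) 1 := by
  rw [mem_ball_zero_iff]
  have h1 : |t| < T r := abs_lt.2 ht
  have h2 : r / 2 < Real.cos t := (CaA.lt_iff hr hr1 (h1.le.trans (CaA.T_le_pi r))).1 h1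
  have h3 := CaA.nsq hζ r t
  have h4 : ‖cc ζ r t‖ ^ 2 < 1 ^ 2 := by
    rw [h3]
    nlinarith
  exact (pow_lt_pow_iff_left₀ (norm_nonneg _) zero_le_one two_ne_zero).1 h4

theorem norm_cc_T (hζ : ‖ζ‖ = 1) (hr : 0 < r) (hr1 : r < 1) : ‖cc ζ r (T r)‖ = 1 ∧ ‖cc ζ r (-T r)‖ = 1 := by
  constructor
  · apply CaA.one_of_sq (norm_nonneg _)
    rw [CaA.nsq hζ, CaA.cos_T hr hr1]
    ring
  · apply CaA.one_of_sq (norm_nonneg _)
    rw [CaA.nsq hζ, Real.cos_neg, CaA.cos_T hr hr1]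
    ring

theorem cc_injOn (hζ : ‖ζ‖ = 1) (hr : 0 < r) (hr1 : r < 1) : InjOn (cc ζ r) (Icc (-T r) (T r)) := by
  intro t ht t' ht' h
  have hT := T_lt hr
  have hz : ζ ≠ 0 := by
    rintro rfl
    rw [norm_zero] at hζ
    exact zero_ne_one hζ
  unfold cc at h
  have h1 := mul_left_cancel₀ hz h
  have hr' : (r : ℂ) ≠ 0 := by exact_mod_cast hr.ne'
  have h2 : Complex.exp (t * Complex.I) = Complex.exp (t' * Complex.I) := by
    have h3 := sub_right_injective h1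
    exact mul_left_cancel₀ hr' h3
  have h3 : Real.sin t = Real.sin t' := by
    have h4 := congrArg Complex.im h2
    rwa [Complex.exp_ofReal_mul_I_im, Complex.exp_ofReal_mul_I_im] at h4
  exact Real.injOn_sin ⟨by linarith [ht.1], by linarith [ht.2]⟩ ⟨by linarith [ht'.1], by linarith [ht'.2]⟩ h3

theorem exists_cc (hζ : ‖ζ‖ = 1) (hr : 0 < r) (hr1 : r < 1) (hz : z ∈ ball (0 : ℂ) 1) (hzr : dist z ζ = r) :
    ∃ t ∈ Ioo (-T r) (T r), cc ζ r t = z := by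
  have hz0 : ζ ≠ 0 := by
    rintro rfl
    rw [norm_zero] at hζ
    exact zero_ne_one hζ
  have hr' : (r : ℂ) ≠ 0 := by exact_mod_cast hr.ne'
  have hw : ‖(ζ - z) / (r * ζ)‖ = 1 := by
    rw [norm_div, norm_mul, hζ, Complex.norm_real, Real.norm_of_nonneg hr.le, mul_one, ← dist_eq_norm, dist_comm, hzr,
      div_self hr.ne']
  have he : Complex.exp (((ζ - z) / (r * ζ)).arg * Complex.I) = (ζ - z) / (r * ζ) := by
    have h := Complex.norm_mul_exp_arg_mul_I ((ζ - z) / (r * ζ))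
    rw [hw, Complex.ofReal_one, one_mul] at h
    exact h
  have hc : cc ζ r ((ζ - z) / (r * ζ)).arg = z := by
    unfold cc
    rw [he]
    field_simp
    ring
  refine ⟨((ζ - z) / (r * ζ)).arg, ?_, hc⟩
  rw [mem_Ioo, ← abs_lt, CaA.lt_iff hr hr1 (Complex.abs_arg_le_pi _)]
  have h1 := CaA.nsq hζ r ((ζ - z) / (r * ζ)).arg
  rw [hc] at h1
  rw [mem_ball_zero_iff] at hz
  have h2 : ‖z‖ ^ 2 < 1 := by
    have := norm_nonneg z
    nlinarith
  rw [h1] at h2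
  by_contra h3
  rw [not_lt] at h3
  nlinarith

theorem half_in (ζ : ℂ) (r : ℝ) : IsPreconnected (ball (0 : ℂ) 1 ∩ ball ζ r) :=
  ((convex_ball (0 : ℂ) 1).inter (convex_ball ζ r)).isPreconnected

theorem half_out (hζ : ‖ζ‖ = 1) (hr : 0 < r) (hr1 : r < 1) : IsPreconnected (ball (0 : ℂ) 1 \ closedBall ζ r) := by
  have hNE : ball (0 : ℂ) 1 ∩ ball (-ζ) (1 / 2) ⊆ ball (0 : ℂ) 1 \ closedBall ζ r := by
    intro z hz
    refine ⟨hz.1, ?_⟩
    intro h
    have h1 : dist z (-ζ) < 1 / 2 := hz.2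
    have h2 : dist z ζ ≤ r := h
    have h3 : dist ζ (-ζ) = 2 := by
      rw [dist_eq_norm, sub_neg_eq_add, ← two_mul, norm_mul, hζ]
      norm_num
    have h4 := dist_triangle_left ζ (-ζ) z
    linarith
  have hN : IsPreconnected (ball (0 : ℂ) 1 ∩ ball (-ζ) (1 / 2)) :=
    ((convex_ball (0 : ℂ) 1).inter (convex_ball (-ζ) (1 / 2))).isPreconnected
  have hx : ((3 / 4 : ℝ) • (-ζ)) ∈ ball (0 : ℂ) 1 ∩ ball (-ζ) (1 / 2) := by
    constructor
    · rw [mem_ball_zero_iff, norm_smul, norm_neg, hζ]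
      norm_num
    · rw [mem_ball, dist_eq_norm]
      have e : (3 / 4 : ℝ) • (-ζ) - -ζ = (1 / 4 : ℝ) • ζ := by
        rw [sub_neg_eq_add, smul_neg]
        have : ζ = (1 : ℝ) • ζ := (one_smul ℝ ζ).symm
        nth_rewrite 2 [this]
        rw [← neg_smul, ← add_smul]
        norm_num
      rw [e, norm_smul, hζ]
      norm_num
  refine isPreconnected_of_forall ((3 / 4 : ℝ) • (-ζ)) ?_
  intro z hz
  have hz1 : ‖z‖ < 1 := mem_ball_zero_iff.1 hz.1
  have hz2 : r < dist z ζ := not_le.1 hz.2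
  refine ⟨(fun t : ℝ => z + t • (-ζ - z)) '' Ico 0 1 ∪ (ball (0 : ℂ) 1 ∩ ball (-ζ) (1 / 2)), ?_, Or.inr hx, Or.inl ?_, ?_⟩
  · apply union_subset _ hNE
    rintro _ ⟨t, ht, rfl⟩
    refine ⟨mem_ball_zero_iff.2 (CaA.inside hζ hz1 ht.1 ht.2), ?_⟩
    intro h
    have h1 : dist (z + t • (-ζ - z)) ζ ≤ r := h
    have h2 := CaA.far hζ hz1 ht.1 ht.2.le
    linarith
  · refine ⟨0, ⟨le_rfl, zero_lt_one⟩, ?_⟩
    simp
  · apply IsPreconnected.union' _ _ hN
    · refine ⟨z + (4 / 5 : ℝ) • (-ζ - z), ⟨4 / 5, ⟨by norm_num, by norm_num⟩, rfl⟩, ?_, ?_⟩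
      · exact mem_ball_zero_iff.2 (CaA.inside hζ hz1 (by norm_num) (by norm_num))
      · rw [mem_ball, dist_eq_norm]
        have e : z + (4 / 5 : ℝ) • (-ζ - z) - -ζ = (1 / 5 : ℝ) • (z + ζ) := by
          apply Complex.ext
          · simp only [Complex.sub_re, Complex.add_re, Complex.smul_re, Complex.neg_re, smul_eq_mul]
            ring
          · simp only [Complex.sub_im, Complex.add_im, Complex.smul_im, Complex.neg_im, smul_eq_mul]
            ring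
        rw [e, norm_smul, Real.norm_of_nonneg (by norm_num)]
        have h1 := norm_add_le z ζ
        rw [hζ] at h1
        linarith
    · apply isPreconnected_Ico.image
      fun_prop

end Pool.JS
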