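import Pool.Agent.JS.CaDefs

/-!
MODULE CaB (difficulty 3).  Area and polar coordinates.
-/

open Set Metric Topology MeasureTheory

namespace Pool.JS

theorem CaB_det (c : ℂ) :
    ((ContinuousLinearMap.toSpanSingleton ℂ c : ℂ →L[ℂ] ℂ).restrictScalars ℝ).det = ‖c‖ ^ 2 := by
  have h1 : ((ContinuousLinearMap.toSpanSingleton ℂ c : ℂ →L[ℂ] ℂ).restrictScalars ℝ).det
      = LinearMap.det (LinearMap.mulLeft ℝ c) := by
    unfold ContinuousLinearMap.det
    congr 1
    ext x
    simp [mul_comm]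
  rw [h1, ← Complex.normSq_eq_norm_sq, ← Algebra.norm_complex_apply, Algebra.norm_apply]
  rfl

theorem area_bound {φ : ℂ → ℂ} (hd : DifferentiableOn ℂ φ (ball 0 1)) (hi : InjOn φ (ball 0 1))
    (hb : Bornology.IsBounded (φ '' ball 0 1)) :
    ∫⁻ z in ball (0 : ℂ) 1, ENNReal.ofReal (‖deriv φ z‖ ^ 2) < ⊤ := by
  have hf : ∀ x ∈ ball (0 : ℂ) 1, HasFDerivWithinAt φ
      ((ContinuousLinearMap.toSpanSingleton ℂ (deriv φ x) : ℂ →L[ℂ] ℂ).restrictScalars ℝ)
      (ball 0 1) x := by
    intro x hx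
    have h := (hd.differentiableAt (isOpen_ball.mem_nhds hx)).hasDerivAt
    exact (h.hasFDerivAt.restrictScalars ℝ).hasFDerivWithinAt
  have h2 := lintegral_abs_det_fderiv_eq_addHaar_image volume measurableSet_ball hf hi
  have h3 : ∫⁻ z in ball (0 : ℂ) 1, ENNReal.ofReal (‖deriv φ z‖ ^ 2) = volume (φ '' ball 0 1) := by
    rw [← h2]
    apply lintegral_congr
    intro z
    rw [CaB_det, abs_of_nonneg (by positivity)]
  rw [h3]
  exact hb.measure_lt_top

theorem CaB_cos {r t : ℝ} (ht : t ∈ Ioo (-T r) (T r)) : r / 2 < Real.cos t ∨ r / 2 ≤ -1 := by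
  have h1 : |t| < Real.arccos (r / 2) := abs_lt.2 ⟨ht.1, ht.2⟩
  by_cases h : r / 2 ≤ -1
  · exact Or.inr h
  · left
    push Not at h
    have h2 : Real.cos (Real.arccos (r / 2)) < Real.cos |t| :=
      Real.cos_lt_cos_of_nonneg_of_le_pi (abs_nonneg t) (Real.arccos_le_pi _) h1
    rw [Real.cos_abs] at h2
    by_cases h3 : r / 2 ≤ 1
    · rwa [Real.cos_arccos h.le h3] at h2
    · push Not at h3
      rw [Real.arccos_of_one_le h3.le] at h1
      exact absurd h1 (not_lt.2 (abs_nonneg t))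

theorem CaB_mem {ζ : ℂ} (hζ : ‖ζ‖ = 1) {r t : ℝ} (hr : 0 < r) (ht : t ∈ Ioo (-T r) (T r)) :
    cc ζ r t ∈ ball (0 : ℂ) 1 := by
  have hc : r / 2 < Real.cos t := by
    rcases CaB_cos ht with h | h
    · exact h
    · linarith
  rw [mem_ball_zero_iff]
  unfold cc
  rw [norm_mul, hζ, one_mul]
  have h1 : ‖(1 - (r : ℂ) * Complex.exp (t * Complex.I))‖ ^ 2 < 1 ^ 2 := by
    rw [← Complex.normSq_eq_norm_sq, Complex.normSq_apply]
    have hre : (1 - (r : ℂ) * Complex.exp (t * Complex.I)).re = 1 - r * Real.cos t := by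
      simp [Complex.exp_ofReal_mul_I_re]
    have him : (1 - (r : ℂ) * Complex.exp (t * Complex.I)).im = - (r * Real.sin t) := by
      simp [Complex.exp_ofReal_mul_I_im]
    rw [hre, him]
    have h5 := Real.sin_sq_add_cos_sq t
    have h6 := mul_pos hr (sub_pos.2 hc)
    have h7 : (1 - r * Real.cos t) * (1 - r * Real.cos t) + -(r * Real.sin t) * -(r * Real.sin t)
        = 1 - 2 * (r * Real.cos t) + r ^ 2 * (Real.sin t ^ 2 + Real.cos t ^ 2) := by ring
    rw [h7, h5]
    nlinarith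
  exact lt_of_pow_lt_pow_left₀ 2 zero_le_one h1

theorem CaB_symm (ζ : ℂ) (r t : ℝ) : ζ * (1 - Complex.polarCoord.symm (r, t)) = cc ζ r t := by
  unfold cc
  rw [Complex.polarCoord_symm_apply, Complex.exp_mul_I]
  simp

theorem polar_bound {g : ℂ → ENNReal} (hg : Measurable g) {ζ : ℂ} (hζ : ‖ζ‖ = 1) :
    ∫⁻ r in Ioo (0 : ℝ) 1, ∫⁻ t in Ioo (-T r) (T r), ENNReal.ofReal r * g (cc ζ r t)
      ≤ ∫⁻ z in ball (0 : ℂ) 1, g z := by
  set G : ℂ → ENNReal := (ball (0 : ℂ) 1).indicator g with hG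
  have hGm : Measurable G := hg.indicator measurableSet_ball
  have hmp : MeasurePreserving (fun w : ℂ => ζ * (1 - w)) volume volume := by
    have h1 : MeasurePreserving (fun w : ℂ => 1 - w) volume volume :=
      Measure.measurePreserving_sub_left volume 1
    have h2 := (rotation ⟨ζ, mem_sphere_zero_iff_norm.2 hζ⟩).measurePreserving
    have h3 := h2.comp h1
    exact h3
  have e1 : ∫⁻ z in ball (0 : ℂ) 1, g z = ∫⁻ w, G (ζ * (1 - w)) := by
    rw [hmp.lintegral_comp hGm, hG, lintegral_indicator measurableSet_ball]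
  have e2 := Complex.lintegral_comp_polarCoord_symm (fun w => G (ζ * (1 - w)))
  rw [e1, ← e2, polarCoord_target, Measure.volume_eq_prod, ← Measure.prod_restrict, lintegral_prod]
  · refine le_trans (lintegral_mono_set (fun r hr => hr.1 : Ioo (0 : ℝ) 1 ⊆ Ioi 0)) ?_
    refine setLIntegral_mono' measurableSet_Ioi ?_
    intro r hr
    have hr' : (0 : ℝ) < r := hr
    have hT : Ioo (-T r) (T r) ⊆ Ioo (-Real.pi) Real.pi := by
      intro t ht
      have := Real.arccos_le_pi (r / 2)
      unfold T at ht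
      exact ⟨by linarith [ht.1], by linarith [ht.2]⟩
    refine le_trans ?_ (lintegral_mono_set hT)
    refine setLIntegral_mono' measurableSet_Ioo ?_
    intro t ht
    simp only [CaB_symm, smul_eq_mul]
    rw [hG, indicator_of_mem (CaB_mem hζ hr' ht)]
  · apply Measurable.aemeasurable
    simp only [smul_eq_mul]
    apply Measurable.mul
    · exact ENNReal.measurable_ofReal.comp measurable_fst
    · apply hGm.comp
      apply Continuous.measurable
      simp only [Complex.polarCoord_symm_apply]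
      fun_prop

end Pool.JS
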