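import Pool.Agent.JS.CaA
import Pool.Agent.JS.CaB

/-!
MODULE CaC (difficulty 3).  Short crosscuts (length-area principle).

RECIPE.  `exists_short`: suppose not; `δ = min ε 1 > 0`.  For `r ∈ Ioo 0 δ`: `ofReal ε < ∫⁻ t in Ioo (-T r) (T r), ofReal (r ‖φ'‖)`.  Cauchy-Schwarz (`ENNReal.lintegral_mul_le_Lp_mul_Lq` with exponents 2, or `inner_mul_le_norm_mul_norm`-free: for `λ > 0`
`2 λ x ≤ λ² + x²`): the square of the right side is at most `ofReal π * ∫⁻ ofReal (r² ‖φ'‖²)` (the interval has length `2 T r ≤ π`), so `∫⁻ t, ofReal r * ofReal (‖φ'‖²) ≥ ofReal (ε² / (π r))`.  Integrate over `r ∈ Ioo 0 δ`: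
`∫⁻ r in Ioo 0 δ, ofReal (ε² / (π r)) = ⊤` (the integral over `(δ 2^(-k-1), δ 2^(-k))` is at least `(ε²/π) / 2` for every `k`; or `intervalIntegrable_inv_iff`/ `not_integrableOn...`), but it is `≤ ∫⁻ z in ball 0 1, ofReal (‖φ' z‖²) < ⊤` by `polar_bound` with
`g z = ofReal (‖deriv φ z‖ ^ 2)` (measurable: `measurable_deriv`) and `area_bound`.
`exists_kappa`: `v t = deriv φ (cc ζ r t) * (-(ζ * r * I * exp (t I)))` is the derivative of `t ↦ φ (cc ζ r t)` on `Ioo (-T r) (T r)` (`cc_mem`), `‖v t‖ = r ‖deriv φ (cc ζ r t)‖`, continuous there, integrable by the bound.  `κ t = φ (cc ζ r 0) + ∫ s in (0)..t, v s`: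
continuous on `Icc` (`intervalIntegral.continuousOn_primitive_interval'`), `= φ (cc ζ r t)` on `Ioo` (`intervalIntegral.integral_eq_sub_of_hasDerivAt`), `dist (κ s) (κ t) = ‖∫ s..t v‖ ≤ ∫ ‖v‖ ≤ ε`.
-/

open Set Metric Topology MeasureTheory

namespace Pool.JS

/-- Cauchy-Schwarz on one crosscut -/
theorem cac_cs {h : ℝ → ℝ} {r ε : ℝ} (hr : 0 < r) (hε : 0 < ε)
    (hI : ENNReal.ofReal ε < ∫⁻ t in Ioo (-T r) (T r), ENNReal.ofReal (r * |h t|)) :
    ENNReal.ofReal (ε ^ 2 / Real.pi * r⁻¹) ≤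
      ∫⁻ t in Ioo (-T r) (T r), ENNReal.ofReal r * ENNReal.ofReal (|h t| ^ 2) := by
  have hπ := Real.pi_pos
  set P := ∫⁻ t in Ioo (-T r) (T r), ENNReal.ofReal r * ENNReal.ofReal (|h t| ^ 2) with hP
  have h1 : ∫⁻ t in Ioo (-T r) (T r), ENNReal.ofReal (r * |h t|) ≤
      ∫⁻ t in Ioo (-T r) (T r), (ENNReal.ofReal (ε / (2 * Real.pi)) +
        ENNReal.ofReal (Real.pi * r / (2 * ε)) * (ENNReal.ofReal r * ENNReal.ofReal (|h t| ^ 2))) := by
    apply lintegral_mono
    intro t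
    simp only
    rw [← ENNReal.ofReal_mul hr.le, ← ENNReal.ofReal_mul (by positivity), ← ENNReal.ofReal_add (by positivity) (by positivity)]
    apply ENNReal.ofReal_le_ofReal
    have h2 := sq_nonneg (ε / Real.pi - r * |h t|)
    have e1 : ε / (2 * Real.pi) + Real.pi * r / (2 * ε) * (r * |h t| ^ 2) - r * |h t| =
        Real.pi / (2 * ε) * (ε / Real.pi - r * |h t|) ^ 2 := by
      field_simp
      ring
    have h3 : 0 ≤ Real.pi / (2 * ε) * (ε / Real.pi - r * |h t|) ^ 2 := by positivity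
    linarith
  have h2 : ∫⁻ t in Ioo (-T r) (T r), (ENNReal.ofReal (ε / (2 * Real.pi)) +
        ENNReal.ofReal (Real.pi * r / (2 * ε)) * (ENNReal.ofReal r * ENNReal.ofReal (|h t| ^ 2))) ≤
      ENNReal.ofReal (ε / 2) + ENNReal.ofReal (Real.pi * r / (2 * ε)) * P := by
    rw [lintegral_add_left measurable_const, lintegral_const_mul' _ _ ENNReal.ofReal_ne_top]
    refine add_le_add ?_ le_rfl
    rw [lintegral_const, Measure.restrict_apply_univ, Real.volume_Ioo, ← ENNReal.ofReal_mul (by positivity)]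
    apply ENNReal.ofReal_le_ofReal
    have h4 := (T_lt hr).le
    have h5 : T r - -T r ≤ Real.pi := by linarith
    calc ε / (2 * Real.pi) * (T r - -T r) ≤ ε / (2 * Real.pi) * Real.pi :=
          mul_le_mul_of_nonneg_left h5 (by positivity)
      _ = ε / 2 := by field_simp
  have h3 := lt_of_lt_of_le hI (h1.trans h2)
  have h4 : ENNReal.ofReal ε = ENNReal.ofReal (ε / 2) + ENNReal.ofReal (ε / 2) := by
    rw [← ENNReal.ofReal_add (by positivity) (by positivity)]
    congr 1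
    ring
  rw [h4] at h3
  have h5 : ENNReal.ofReal (ε / 2) < ENNReal.ofReal (Real.pi * r / (2 * ε)) * P :=
    (ENNReal.add_lt_add_iff_left ENNReal.ofReal_ne_top).1 h3
  have h6 : ENNReal.ofReal (2 * ε / (Real.pi * r)) * ENNReal.ofReal (ε / 2) ≤
      ENNReal.ofReal (2 * ε / (Real.pi * r)) * (ENNReal.ofReal (Real.pi * r / (2 * ε)) * P) :=
    mul_le_mul_right h5.le _
  rw [← mul_assoc, ← ENNReal.ofReal_mul (by positivity), ← ENNReal.ofReal_mul (by positivity)] at h6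
  have e1 : 2 * ε / (Real.pi * r) * (ε / 2) = ε ^ 2 / Real.pi * r⁻¹ := by
    field_simp
  have e2 : 2 * ε / (Real.pi * r) * (Real.pi * r / (2 * ε)) = 1 := by
    field_simp
  rw [e1, e2, ENNReal.ofReal_one, one_mul] at h6
  exact h6

theorem cac_top {c δ : ℝ} (hc : 0 < c) (hδ : 0 < δ) :
    ∫⁻ r in Ioo (0 : ℝ) δ, ENNReal.ofReal (c * r⁻¹) = ⊤ := by
  by_contra hne
  have hm : AEStronglyMeasurable (fun r : ℝ => c * r⁻¹) (volume.restrict (Ioo (0 : ℝ) δ)) := by
    apply Measurable.aestronglyMeasurable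
    fun_prop
  have hint : Integrable (fun r : ℝ => c * r⁻¹) (volume.restrict (Ioo (0 : ℝ) δ)) := by
    refine ⟨hm, ?_⟩
    rw [hasFiniteIntegral_iff_norm]
    have e : ∫⁻ r in Ioo (0 : ℝ) δ, ENNReal.ofReal ‖c * r⁻¹‖ = ∫⁻ r in Ioo (0 : ℝ) δ, ENNReal.ofReal (c * r⁻¹) := by
      apply setLIntegral_congr_fun measurableSet_Ioo
      intro r hr
      have : 0 < r := hr.1
      simp only
      rw [Real.norm_of_nonneg (by positivity)]
    rw [e]
    exact lt_of_le_of_ne le_top hne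
  have h2 : IntegrableOn (fun r : ℝ => r⁻¹) (Ioo (0 : ℝ) δ) := by
    have := hint.const_mul c⁻¹
    refine this.congr (Filter.Eventually.of_forall fun r => ?_)
    simp only
    rw [← mul_assoc, inv_mul_cancel₀ hc.ne', one_mul]
  have h3 : IntervalIntegrable (fun r : ℝ => r⁻¹) volume 0 δ := by
    rw [intervalIntegrable_iff_integrableOn_Ioo_of_le hδ.le]
    exact h2
  rw [intervalIntegrable_inv_iff] at h3
  rcases h3 with h3 | h3
  · exact hδ.ne h3
  · exact h3 left_mem_uIcc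

theorem exists_short {φ : ℂ → ℂ} (hd : DifferentiableOn ℂ φ (ball 0 1)) (hi : InjOn φ (ball 0 1))
    (hb : Bornology.IsBounded (φ '' ball 0 1)) {ζ : ℂ} (hζ : ‖ζ‖ = 1) {ε : ℝ} (hε : 0 < ε) :
    ∃ r, 0 < r ∧ r < ε ∧ r < 1 ∧
      ∫⁻ t in Ioo (-T r) (T r), ENNReal.ofReal (r * ‖deriv φ (cc ζ r t)‖) ≤ ENNReal.ofReal ε := by
  by_contra hne
  push Not at hne
  set δ := min ε 1 with hδ'
  have hδ : 0 < δ := lt_min hε one_pos
  have hA := area_bound hd hi hb
  have hg : Measurable (fun z : ℂ => ENNReal.ofReal (‖deriv φ z‖ ^ 2)) := by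
    have := measurable_deriv φ
    fun_prop
  have hP := polar_bound hg hζ
  have h1 : ∫⁻ r in Ioo (0 : ℝ) δ, ENNReal.ofReal (ε ^ 2 / Real.pi * r⁻¹) ≤
      ∫⁻ r in Ioo (0 : ℝ) δ, ∫⁻ t in Ioo (-T r) (T r),
        ENNReal.ofReal r * ENNReal.ofReal (‖deriv φ (cc ζ r t)‖ ^ 2) := by
    apply setLIntegral_mono' measurableSet_Ioo
    intro r hr
    have h := hne r hr.1 (lt_of_lt_of_le hr.2 (min_le_left _ _)) (lt_of_lt_of_le hr.2 (min_le_right _ _))
    have := cac_cs (h := fun t => ‖deriv φ (cc ζ r t)‖) hr.1 hε (by simpa only [abs_norm] using h)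
    simpa only [abs_norm] using this
  have h2 : ∫⁻ r in Ioo (0 : ℝ) δ, ∫⁻ t in Ioo (-T r) (T r),
        ENNReal.ofReal r * ENNReal.ofReal (‖deriv φ (cc ζ r t)‖ ^ 2) ≤
      ∫⁻ r in Ioo (0 : ℝ) 1, ∫⁻ t in Ioo (-T r) (T r),
        ENNReal.ofReal r * ENNReal.ofReal (‖deriv φ (cc ζ r t)‖ ^ 2) :=
    lintegral_mono_set (Ioo_subset_Ioo_right (min_le_right _ _))
  have h3 := lt_of_le_of_lt (h1.trans (h2.trans hP)) hA
  rw [cac_top (by positivity) hδ] at h3
  exact absurd h3 (lt_irrefl _)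

theorem exists_kappa {φ : ℂ → ℂ} (hd : DifferentiableOn ℂ φ (ball 0 1)) {ζ : ℂ} (hζ : ‖ζ‖ = 1) {r : ℝ} (hr : 0 < r)
    (hr1 : r < 1) {ε : ℝ} (hε : 0 < ε)
    (h : ∫⁻ t in Ioo (-T r) (T r), ENNReal.ofReal (r * ‖deriv φ (cc ζ r t)‖) ≤ ENNReal.ofReal ε) :
    ∃ κ : ℝ → ℂ, ContinuousOn κ (Icc (-T r) (T r)) ∧ (∀ t ∈ Ioo (-T r) (T r), κ t = φ (cc ζ r t)) ∧
      ∀ s ∈ Icc (-T r) (T r), ∀ t ∈ Icc (-T r) (T r), dist (κ s) (κ t) ≤ ε := by
  have hT := T_pos hr1
  set a := T r with ha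
  set w : ℝ → ℂ := fun t => -(ζ * (r * (Complex.exp (t * Complex.I) * Complex.I))) with hw
  set v : ℝ → ℂ := fun t => deriv φ (cc ζ r t) * w t with hv
  have hwc : Continuous w := by
    simp only [hw]
    fun_prop
  have hwn : ∀ t, ‖w t‖ = r := by
    intro t
    simp only [hw]
    rw [norm_neg, norm_mul, norm_mul, norm_mul, hζ, Complex.norm_I, Complex.norm_exp_ofReal_mul_I, Complex.norm_real,
      Real.norm_of_nonneg hr.le]
    ring
  have hcc : ∀ t, HasDerivAt (fun t : ℝ => cc ζ r t) (w t) t := by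
    intro t
    have h1 : HasDerivAt (fun t : ℝ => Complex.exp (t * Complex.I)) (Complex.exp (t * Complex.I) * Complex.I) t := by
      have h2 : HasDerivAt (fun t : ℝ => (t : ℂ) * Complex.I) Complex.I t := by
        simpa using (Complex.ofRealCLM.hasDerivAt (x := t)).mul_const Complex.I
      exact h2.cexp
    have h3 := ((h1.const_mul (r : ℂ)).const_sub 1).const_mul ζ
    refine h3.congr_deriv ?_
    simp only [hw]
    ring
  have hder : ∀ t ∈ Ioo (-a) a, HasDerivAt (fun t : ℝ => φ (cc ζ r t)) (v t) t := by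
    intro t ht
    have hm := cc_mem hζ hr hr1 ht
    have h1 : HasDerivAt φ (deriv φ (cc ζ r t)) (cc ζ r t) :=
      (hd.differentiableAt (isOpen_ball.mem_nhds hm)).hasDerivAt
    exact HasDerivAt.comp (h₂ := φ) (h := fun t : ℝ => cc ζ r t) t h1 (hcc t)
  have hvm : Measurable v := by
    simp only [hv]
    exact ((measurable_deriv φ).comp (continuous_cc ζ r).measurable).mul hwc.measurable
  have hvn : ∀ t, ‖v t‖ = r * ‖deriv φ (cc ζ r t)‖ := by
    intro t
    simp only [hv]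
    rw [norm_mul, hwn, mul_comm]
  have hvi : IntegrableOn v (Ioo (-a) a) := by
    refine ⟨hvm.aestronglyMeasurable, ?_⟩
    rw [hasFiniteIntegral_iff_norm]
    simp only [hvn]
    exact lt_of_le_of_lt h ENNReal.ofReal_lt_top
  have hvI : IntervalIntegrable v volume (-a) a := by
    rw [intervalIntegrable_iff_integrableOn_Ioo_of_le (by linarith)]
    exact hvi
  have hvS : ∀ s ∈ Icc (-a) a, ∀ t ∈ Icc (-a) a, IntervalIntegrable v volume s t := by
    intro s hs t ht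
    refine hvI.mono_set ?_
    rw [uIcc_of_le (by linarith : -a ≤ a)]
    exact uIcc_subset_Icc hs ht
  have h0 : (0 : ℝ) ∈ Icc (-a) a := ⟨by linarith, by linarith⟩
  have hnorm : ∫ x in Ioc (-a) a, ‖v x‖ ≤ ε := by
    rw [integral_Ioc_eq_integral_Ioo, integral_norm_eq_lintegral_enorm hvm.aestronglyMeasurable]
    have e : ∫⁻ x in Ioo (-a) a, ‖v x‖ₑ = ∫⁻ t in Ioo (-a) a, ENNReal.ofReal (r * ‖deriv φ (cc ζ r t)‖) := by
      apply lintegral_congr
      intro t
      rw [← hvn, ofReal_norm]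
    rw [e]
    exact (ENNReal.toReal_mono ENNReal.ofReal_ne_top h).trans_eq (ENNReal.toReal_ofReal hε.le)
  refine ⟨fun t => φ (cc ζ r 0) + ∫ s in (0 : ℝ)..t, v s, ?_, ?_, ?_⟩
  · apply ContinuousOn.add continuousOn_const
    have := intervalIntegral.continuousOn_primitive_interval' hvI (a := 0)
      (by rw [uIcc_of_le (by linarith : -a ≤ a)]; exact h0)
    rwa [uIcc_of_le (by linarith : -a ≤ a)] at this
  · intro t ht
    have := intervalIntegral.integral_eq_sub_of_hasDerivAt (f := fun t : ℝ => φ (cc ζ r t)) (f' := v) (a := 0) (b := t)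
      (fun x hx => hder x ?_) (hvS 0 h0 t (Ioo_subset_Icc_self ht))
    · simp only
      rw [this]
      ring
    · rcases le_total 0 t with h' | h'
      · rw [uIcc_of_le h'] at hx
        exact ⟨by linarith [hx.1], lt_of_le_of_lt hx.2 ht.2⟩
      · rw [uIcc_of_ge h'] at hx
        exact ⟨lt_of_lt_of_le ht.1 hx.1, by linarith [hx.2]⟩
  · intro s hs t ht
    rw [dist_eq_norm]
    have e' : (φ (cc ζ r 0) + ∫ s in (0 : ℝ)..s, v s) - (φ (cc ζ r 0) + ∫ s in (0 : ℝ)..t, v s) = ∫ x in t..s, v x := by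
      rw [← intervalIntegral.integral_interval_sub_left (hvS 0 h0 s hs) (hvS 0 h0 t ht)]
      ring
    simp only
    rw [e']
    refine (intervalIntegral.norm_integral_le_integral_norm_uIoc).trans ?_
    refine le_trans ?_ hnorm
    have hsub : uIoc t s ⊆ Ioc (-a) a := by
      rw [uIoc]
      exact Ioc_subset_Ioc (le_min ht.1 hs.1) (max_le ht.2 hs.2)
    apply setIntegral_mono_set
    · have : IntegrableOn v (Ioc (-a) a) := by
        rw [integrableOn_Ioc_iff_integrableOn_Ioo]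
        exact hvi
      exact this.norm
    · exact Filter.Eventually.of_forall fun x => norm_nonneg _
    · exact hsub.eventuallyLE

end Pool.JS
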