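import Pool.Agent.JS.Defs

/-!
MODULE CaD (difficulty 3).  Two near points of a simple closed curve are joined by a small arc of the curve.

RECIPE.  `c θ = γ (exp (θ I))`, continuous, `2π`-periodic, `c θ = c θ' ↔ θ - θ' ∈ 2 π ℤ`.  By uniform continuity of `γ` on the circle (compact) choose `η ∈ (0, 1)` with `|θ - θ'| ≤ η ⇒ dist (c θ) (c θ') < ε`.
The set `{(θ, s) | θ ∈ Icc 0 (2π), s ∈ Icc η (2π - η)}` is compact and `dist (c θ) (c (θ + s)) > 0` on it, so it has a minimum `δ > 0`.  Let `p = c θ`, `θ ∈ [0, 2π)`, `q = c (θ + s)`, `s ∈ (0, 2π)`, `dist p q < δ`: `s < η` or `s > 2π - η`.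
First case `A = c '' Icc θ (θ + s)`; second case `A = c '' Icc (θ + s) (θ + 2π)`, which has the end points `q` and `c (θ + 2π) = p` (reverse it).  Both are arcs (affine reparametrisation of `Icc 0 1`), contained in `J` and in `ball p ε`.
-/

open Set Metric Topology

namespace Pool.JS

variable {J A : Set ℂ} {p q : ℂ}

theorem cad_param (hJ : IsJordan J) : ∃ c : ℝ → ℂ, Continuous c ∧ (∀ θ, c (θ + 2 * Real.pi) = c θ) ∧
    (∀ α, InjOn c (Ico α (α + 2 * Real.pi))) ∧ (∀ α, ∀ x ∈ J, ∃ θ ∈ Ico α (α + 2 * Real.pi), c θ = x) ∧ ∀ θ, c θ ∈ J := by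
  obtain ⟨γ, hc, hi, hJe⟩ := hJ
  have hs : ∀ θ : ℝ, Complex.exp (θ * Complex.I) ∈ sphere (0 : ℂ) 1 := by
    intro θ
    rw [mem_sphere_zero_iff_norm, Complex.norm_exp_ofReal_mul_I]
  have hpi := Real.pi_pos
  have hper : ∀ (θ : ℝ) (m : ℤ), Complex.exp (((θ + m * (2 * Real.pi) : ℝ) : ℂ) * Complex.I) = Complex.exp (θ * Complex.I) := by
    intro θ m
    rw [Complex.exp_eq_exp_iff_exists_int]
    refine ⟨m, ?_⟩
    push_cast
    ring
  refine ⟨fun θ => γ (Complex.exp (θ * Complex.I)), ?_, ?_, ?_, ?_, ?_⟩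
  · exact hc.comp_continuous (by fun_prop) hs
  · intro θ
    show γ (Complex.exp (((θ + 2 * Real.pi : ℝ) : ℂ) * Complex.I)) = _
    have h1 := hper θ 1
    rw [Int.cast_one, one_mul] at h1
    rw [h1]
  · intro α θ hθ θ' hθ' h
    have h1 := hi (hs θ) (hs θ') h
    rw [Complex.exp_eq_exp_iff_exists_int] at h1
    obtain ⟨n, hn⟩ := h1
    have h2 : θ = θ' + n * (2 * Real.pi) := by
      have h3 : (θ : ℂ) * Complex.I = ((θ' + n * (2 * Real.pi) : ℝ) : ℂ) * Complex.I := by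
        rw [hn]
        push_cast
        ring
      exact_mod_cast mul_right_cancel₀ Complex.I_ne_zero h3
    have h4 : n = 0 := by
      have h5 : (n : ℝ) < 1 := by
        by_contra h6
        push Not at h6
        nlinarith [hθ.2, hθ'.1]
      have h6 : -1 < (n : ℝ) := by
        by_contra h6
        push Not at h6
        nlinarith [hθ.1, hθ'.2]
      have h7 : n < 1 := by exact_mod_cast h5
      have h8 : -1 < n := by exact_mod_cast h6
      omega
    rw [h4, Int.cast_zero, zero_mul, add_zero] at h2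
    exact h2
  · intro α x hx
    rw [← hJe] at hx
    obtain ⟨z, hz, rfl⟩ := hx
    obtain ⟨m, hm, -⟩ := existsUnique_add_zsmul_mem_Ico (by linarith : 0 < 2 * Real.pi) (Complex.arg z) α
    refine ⟨_, hm, ?_⟩
    show γ (Complex.exp (((Complex.arg z + m • (2 * Real.pi) : ℝ) : ℂ) * Complex.I)) = γ z
    rw [zsmul_eq_mul, hper]
    have h1 := Complex.norm_mul_exp_arg_mul_I z
    rw [mem_sphere_zero_iff_norm] at hz
    rw [hz, Complex.ofReal_one, one_mul] at h1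
    rw [h1]
  · intro θ
    rw [← hJe]
    exact ⟨_, hs θ, rfl⟩

theorem cad_arc {c : ℝ → ℂ} (hc : Continuous c) {α β : ℝ} (h : α < β) (hi : InjOn c (Icc α β)) :
    ArcFrom (c '' Icc α β) (c α) (c β) := by
  have hm : ∀ t ∈ Icc (0 : ℝ) 1, α + t * (β - α) ∈ Icc α β := by
    intro t ht
    constructor
    · nlinarith [mul_nonneg ht.1 (sub_nonneg.2 h.le)]
    · nlinarith [mul_nonneg (sub_nonneg.2 ht.2) (sub_nonneg.2 h.le)]
  refine ⟨fun t => c (α + t * (β - α)), (hc.comp (by fun_prop)).continuousOn, ?_, ?_, ?_, ?_⟩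
  · intro t ht t' ht' h1
    have h2 := hi (hm t ht) (hm t' ht') h1
    have h3 : t * (β - α) = t' * (β - α) := by linarith
    exact mul_right_cancel₀ (sub_ne_zero.2 h.ne') h3
  · apply Subset.antisymm
    · rintro x ⟨t, ht, rfl⟩
      exact ⟨_, hm t ht, rfl⟩
    · rintro x ⟨θ, hθ, rfl⟩
      have h1 : 0 < β - α := sub_pos.2 h
      refine ⟨(θ - α) / (β - α), ⟨div_nonneg (sub_nonneg.2 hθ.1) h1.le, ?_⟩, ?_⟩
      · rw [div_le_one h1]
        linarith [hθ.2]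
      · show c (α + (θ - α) / (β - α) * (β - α)) = c θ
        rw [div_mul_cancel₀ _ h1.ne']
        congr 1
        ring
  · show c (α + 0 * (β - α)) = c α
    rw [zero_mul, add_zero]
  · show c (α + 1 * (β - α)) = c β
    congr 1
    ring

theorem cad_symm (h : ArcFrom A p q) : ArcFrom A q p := by
  obtain ⟨γ, hc, hi, hA, h0, h1⟩ := h
  have hm : ∀ t ∈ Icc (0 : ℝ) 1, 1 - t ∈ Icc (0 : ℝ) 1 := by
    intro t ht
    exact ⟨by linarith [ht.2], by linarith [ht.1]⟩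
  refine ⟨fun t => γ (1 - t), hc.comp (by fun_prop) hm, ?_, ?_, ?_, ?_⟩
  · intro t ht t' ht' h2
    have h3 := hi (hm t ht) (hm t' ht') h2
    linarith
  · rw [← hA]
    apply Subset.antisymm
    · rintro x ⟨t, ht, rfl⟩
      exact ⟨_, hm t ht, rfl⟩
    · rintro x ⟨t, ht, rfl⟩
      refine ⟨1 - t, hm t ht, ?_⟩
      show γ (1 - (1 - t)) = γ t
      rw [sub_sub_cancel]
  · show γ (1 - 0) = q
    rw [sub_zero, h1]
  · show γ (1 - 1) = p
    rw [sub_self, h0]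

theorem IsJordan.small_arc {J : Set ℂ} (hJ : IsJordan J) {ε : ℝ} (hε : 0 < ε) :
    ∃ δ > 0, ∀ p ∈ J, ∀ q ∈ J, p ≠ q → dist p q < δ → ∃ A, ArcFrom A p q ∧ A ⊆ J ∧ A ⊆ ball p ε := by
  obtain ⟨c, hc, hper, hi, hs, hin⟩ := cad_param hJ
  have hpi := Real.pi_gt_three
  have hpi4 := Real.pi_lt_four
  have huc : UniformContinuousOn c (Icc (-1) 20) := isCompact_Icc.uniformContinuousOn_of_continuous hc.continuousOn
  rw [Metric.uniformContinuousOn_iff] at huc
  obtain ⟨η', hη', hu⟩ := huc ε hε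
  set η := min η' 1 with hη
  have hη0 : 0 < η := lt_min hη' one_pos
  have hη1 : η ≤ 1 := min_le_right _ _
  have hη2 : η ≤ η' := min_le_left _ _
  have hS : IsCompact (Icc (0 : ℝ) (2 * Real.pi) ×ˢ Icc η (2 * Real.pi - η)) := isCompact_Icc.prod isCompact_Icc
  have hSne : (Icc (0 : ℝ) (2 * Real.pi) ×ˢ Icc η (2 * Real.pi - η)).Nonempty :=
    ⟨(0, η), ⟨le_refl _, by linarith⟩, ⟨le_refl _, by linarith⟩⟩
  have hF : Continuous fun x : ℝ × ℝ => dist (c x.1) (c (x.1 + x.2)) := by fun_prop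
  obtain ⟨x₀, hx₀, hmin⟩ := hS.exists_isMinOn hSne hF.continuousOn
  have hpos : 0 < dist (c x₀.1) (c (x₀.1 + x₀.2)) := by
    rw [dist_pos]
    intro h
    have h1 := hi x₀.1 ⟨le_refl _, by linarith⟩ ⟨by linarith [hx₀.2.1], by linarith [hx₀.2.2]⟩ h
    linarith [hx₀.2.1]
  refine ⟨_, hpos, ?_⟩
  intro p hp q hq hpq hd
  obtain ⟨θ, hθ, rfl⟩ := hs 0 p hp
  obtain ⟨φ, hφ, rfl⟩ := hs θ q hq
  rw [zero_add] at hθ
  have hne : θ < φ := lt_of_le_of_ne hφ.1 (fun h => hpq (by rw [h]))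
  have hcase : φ - θ < η ∨ 2 * Real.pi - η < φ - θ := by
    by_contra h
    push Not at h
    have h1 : (θ, φ - θ) ∈ Icc (0 : ℝ) (2 * Real.pi) ×ˢ Icc η (2 * Real.pi - η) :=
      ⟨⟨hθ.1, hθ.2.le⟩, ⟨h.1, h.2⟩⟩
    have h2 : dist (c x₀.1) (c (x₀.1 + x₀.2)) ≤ dist (c θ) (c (θ + (φ - θ))) := hmin h1
    have h3 : θ + (φ - θ) = φ := by ring
    rw [h3] at h2
    linarith
  rcases hcase with h | h
  · refine ⟨c '' Icc θ φ, cad_arc hc hne ((hi θ).mono ?_), ?_, ?_⟩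
    · intro x hx
      exact ⟨hx.1, lt_of_le_of_lt hx.2 hφ.2⟩
    · rintro y ⟨x, -, rfl⟩
      exact hin x
    · rintro y ⟨x, hx, rfl⟩
      rw [mem_ball]
      apply hu x ⟨by linarith [hx.1, hθ.1], by linarith [hx.2, hφ.2, hθ.2]⟩ θ ⟨by linarith [hθ.1], by linarith [hθ.2]⟩
      rw [Real.dist_eq, abs_of_nonneg (by linarith [hx.1])]
      linarith [hx.2]
  · have hA := cad_arc hc hφ.2 ((hi φ).mono (fun x hx => (⟨hx.1, by linarith [hx.2]⟩ : x ∈ Ico φ (φ + 2 * Real.pi))))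
    rw [hper θ] at hA
    refine ⟨_, cad_symm hA, ?_, ?_⟩
    · rintro y ⟨x, -, rfl⟩
      exact hin x
    · rintro y ⟨x, hx, rfl⟩
      rw [mem_ball, ← hper θ]
      apply hu x ⟨by linarith [hx.1, hφ.1, hθ.1], by linarith [hx.2, hθ.2]⟩ (θ + 2 * Real.pi) ⟨by linarith [hθ.1], by linarith [hθ.2]⟩
      rw [Real.dist_eq, abs_of_nonpos (by linarith [hx.2])]
      linarith [hx.1]

end Pool.JS
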