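import Pool.Agent.JS.RmDefs

/-!
Crosscuts of the unit disc: circles around a boundary point `ζ`, `‖ζ‖ = 1`.
-/

open Set Metric Topology

namespace Pool.JS

/-- half of the opening angle of the crosscut of radius `r` -/
noncomputable def T (r : ℝ) : ℝ := Real.arccos (r / 2)

/-- the crosscut of radius `r` around `ζ` -/
noncomputable def cc (ζ : ℂ) (r t : ℝ) : ℂ := ζ * (1 - r * Complex.exp (t * Complex.I))

/-- the closed crosscut `L` with end points `a`, `b` (a closed curve if `a = b`) -/
def CrossCut (L : Set ℂ) (a b : ℂ) : Prop := (a ≠ b ∧ ArcFrom L a b) ∨ (a = b ∧ a ∈ L ∧ IsJordan L)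

end Pool.JS
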