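import Pool.Agent.JS.CaDefs
import Pool.Agent.JS.Jct

/-!
MODULE CaE (difficulty 3).  A small crosscut cuts off a small domain.

RECIPE.  `inner_subset`: `closedBall a ρ` complement is connected (dimension 2), unbounded and disjoint from `Γ`, so it is contained in the outer domain (`IsPreconnected` in `I ∪ E` and `I` is bounded); so `I ⊆ closedBall a ρ`.
`crosscut_small`: `Γ = L ∪ A` if `a ≠ b` (`IsJordan.glue`, `L ∩ A = {a, b}` because `L \ {a, b} ⊆ U`, `A ⊆ J`, `U ∩ J = ∅`), `Γ = L` if `a = b`.  `Γ ⊆ closedBall a ρ` is a Jordan curve; `Jsep Γ I E` (`IsJordan.jct`).  `c ∈ L \ {a, b}` exists (hypothesis), `c ∈ U`, `c ∈ Γ = frontier I`: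
the open neighbourhood `U` of `c` meets `I` in a point `x`, `x ∉ Γ ⊇ L`, so `x ∈ U \ L ⊆ D₁ ∪ D₂`.  If `x ∈ D₁`: `D₁ ⊆ U \ L` is disjoint from `Γ` (`A ⊆ J`), preconnected and meets `I`, so `D₁ ⊆ I ⊆ closedBall a ρ`.  Same for `D₂`.
-/

open Set Metric Topology

namespace Pool.JS

theorem Jsep.inner_subset {Γ I E : Set ℂ} (h : Jsep Γ I E) {a : ℂ} {ρ : ℝ} (hΓ : Γ ⊆ closedBall a ρ) :
    I ⊆ closedBall a ρ := by
  intro x hx
  by_contra hn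
  have hd : ρ < ‖x - a‖ := by
    rw [mem_closedBall, dist_eq_norm, not_le] at hn
    exact hn
  obtain ⟨u, hu0, hu⟩ : ∃ u : ℂ, u ≠ 0 ∧ ∀ t : ℝ, 0 ≤ t → ρ < ‖x + t * u - a‖ := by
    by_cases hxa : x = a
    · refine ⟨1, one_ne_zero, fun t _ => ?_⟩
      rw [hxa, sub_self, norm_zero] at hd
      exact hd.trans_le (norm_nonneg _)
    · refine ⟨x - a, sub_ne_zero.2 hxa, fun t ht => ?_⟩
      have h1 : x + (t : ℂ) * (x - a) - a = ((1 + t : ℝ) : ℂ) * (x - a) := by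
        push_cast
        ring
      rw [h1, norm_mul, Complex.norm_real, Real.norm_eq_abs, abs_of_nonneg (by linarith)]
      have h2 : 0 ≤ t * ‖x - a‖ := mul_nonneg ht (norm_nonneg _)
      linarith
  have hR : IsPreconnected ((fun t : ℝ => x + (t : ℂ) * u) '' Ici 0) := isPreconnected_Ici.image _ (by fun_prop)
  have hsub : ((fun t : ℝ => x + (t : ℂ) * u) '' Ici 0) ⊆ I ∪ E := by
    rw [h.union]
    rintro y ⟨t, ht, rfl⟩ hy
    have h1 := hΓ hy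
    rw [mem_closedBall, dist_eq_norm] at h1
    exact absurd h1 (not_le.2 (hu t ht))
  have hI : ((fun t : ℝ => x + (t : ℂ) * u) '' Ici 0) ⊆ I :=
    IsPreconnected.subset_left_of_subset_union h.openU h.openV h.disj hsub ⟨x, ⟨0, self_mem_Ici, by simp⟩, hx⟩ hR
  obtain ⟨R, hR⟩ := h.bddU.exists_norm_le
  have hu' : 0 < ‖u‖ := norm_pos_iff.2 hu0
  have ht : (0 : ℝ) ≤ (|R| + ‖x‖ + 1) / ‖u‖ := by positivity
  have h1 := hR _ (hI ⟨(|R| + ‖x‖ + 1) / ‖u‖, ht, rfl⟩)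
  have h2 : ‖(((|R| + ‖x‖ + 1) / ‖u‖ : ℝ) : ℂ) * u‖ = |R| + ‖x‖ + 1 := by
    rw [norm_mul, Complex.norm_real, Real.norm_eq_abs, abs_of_nonneg ht, div_mul_cancel₀ _ hu'.ne']
  have h3 : ‖(((|R| + ‖x‖ + 1) / ‖u‖ : ℝ) : ℂ) * u‖ ≤ ‖x + (((|R| + ‖x‖ + 1) / ‖u‖ : ℝ) : ℂ) * u‖ + ‖x‖ := by
    have := norm_sub_le (x + (((|R| + ‖x‖ + 1) / ‖u‖ : ℝ) : ℂ) * u) x
    rwa [add_sub_cancel_left] at this
  have h4 := le_abs_self R
  rw [h2] at h3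
  linarith

theorem cae_aux {J U V L Γ D₁ D₂ : Set ℂ} {a c : ℂ} {ρ : ℝ} (h : Jsep J U V) (hΓ : IsJordan Γ) (hLΓ : L ⊆ Γ)
    (hΓJ : Γ ⊆ L ∪ J) (hcU : c ∈ U) (hcL : c ∈ L) (h₁ : IsPreconnected D₁) (h₂ : IsPreconnected D₂)
    (hD₁ : D₁ ⊆ U \ L) (hD₂ : D₂ ⊆ U \ L) (hcov : U \ L ⊆ D₁ ∪ D₂) (hρ : Γ ⊆ closedBall a ρ) :
    D₁ ⊆ closedBall a ρ ∨ D₂ ⊆ closedBall a ρ := by
  obtain ⟨I, E, hI⟩ := hΓ.jct
  have hUJ : ∀ x ∈ U, x ∉ J := by
    intro x hx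
    have : x ∈ Jᶜ := by
      rw [← h.union]
      exact Or.inl hx
    exact this
  have hcI : c ∈ closure I := by
    have : c ∈ frontier I := by
      rw [hI.frU]
      exact hLΓ hcL
    exact frontier_subset_closure this
  obtain ⟨x, hxU, hxI⟩ := mem_closure_iff.1 hcI U h.openU hcU
  have hxΓ : x ∉ Γ := by
    have : x ∈ Γᶜ := by
      rw [← hI.union]
      exact Or.inl hxI
    exact this
  have key : ∀ D : Set ℂ, IsPreconnected D → D ⊆ U \ L → x ∈ D → D ⊆ closedBall a ρ := by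
    intro D hD hDU hx
    have h1 : D ⊆ I ∪ E := by
      rw [hI.union]
      intro y hy hyΓ
      rcases hΓJ hyΓ with h2 | h2
      · exact (hDU hy).2 h2
      · exact hUJ y (hDU hy).1 h2
    exact (IsPreconnected.subset_left_of_subset_union hI.openU hI.openV hI.disj h1 ⟨x, hx, hxI⟩ hD).trans (hI.inner_subset hρ)
  rcases hcov ⟨hxU, fun hxL => hxΓ (hLΓ hxL)⟩ with hx | hx
  · exact Or.inl (key D₁ h₁ hD₁ hx)
  · exact Or.inr (key D₂ h₂ hD₂ hx)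

theorem crosscut_small {J U V L D₁ D₂ : Set ℂ} {a b c : ℂ} {ρ : ℝ} (h : Jsep J U V) (hL : CrossCut L a b) (ha : a ∈ J)
    (hb : b ∈ J) (hLU : L \ {a, b} ⊆ U) (hc : c ∈ L \ {a, b}) (h₁ : IsPreconnected D₁) (h₂ : IsPreconnected D₂)
    (hD₁ : D₁ ⊆ U \ L) (hD₂ : D₂ ⊆ U \ L) (hcov : U \ L ⊆ D₁ ∪ D₂) (hLρ : L ⊆ closedBall a ρ)
    (hA : a ≠ b → ∃ A, ArcFrom A a b ∧ A ⊆ J ∧ A ⊆ closedBall a ρ) :
    D₁ ⊆ closedBall a ρ ∨ D₂ ⊆ closedBall a ρ := by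
  have hUJ : ∀ x ∈ U, x ∉ J := by
    intro x hx
    have : x ∈ Jᶜ := by
      rw [← h.union]
      exact Or.inl hx
    exact this
  rcases hL with ⟨hab, hL⟩ | ⟨hab, haL, hL⟩
  · obtain ⟨A, hA1, hA2, hA3⟩ := hA hab
    have hLA : L ∩ A = {a, b} := by
      apply Subset.antisymm
      · rintro x ⟨hxL, hxA⟩
        by_contra hn
        exact hUJ x (hLU ⟨hxL, hn⟩) (hA2 hxA)
      · rintro x (rfl | rfl)
        · exact ⟨hL.left_mem, hA1.left_mem⟩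
        · exact ⟨hL.right_mem, hA1.right_mem⟩
    exact cae_aux h (IsJordan.glue hL hA1 hLA) subset_union_left (union_subset_union_right L hA2) (hLU hc) hc.1 h₁ h₂ hD₁ hD₂ hcov
      (union_subset hLρ hA3)
  · exact cae_aux h hL Subset.rfl subset_union_left (hLU hc) hc.1 h₁ h₂ hD₁ hD₂ hcov hLρ

end Pool.JS
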