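import Pool.Agent.JS.CaA
import Pool.Agent.JS.JorA

/-!
MODULE CaF (difficulty 3).  Images of crosscuts.

RECIPE.  `not_mem`: if `w ∈ U`, `ψ` is continuous at `w` (`U` open), so `ψ (φ z) = z → ψ w ∈ ball 0 1` along `F`, but `z → ζ` with `‖ζ‖ = 1`: limits in a Hausdorff space are unique.  (`w ∈ closure U` by `maps`.)
`crosscut`: `a = κ (-T r)`, `b = κ (T r)`.  They are limits of `φ (cc ζ r t)`, `t → ± T r` inside (`ContinuousWithinAt` of `κ`), `cc ζ r (± T r)` has norm one (`norm_cc_T`): `not_mem` gives `a, b ∉ U`, and `a, b ∈ closure U`, so `a, b ∈ frontier U = J`.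
`κ` is injective on `Ioo` (`φ` has the left inverse `ψ`, `cc_injOn`) with values in `U`.  If `a ≠ b`, `κ` is injective on `Icc (-T r) (T r)`: `L = κ '' Icc` is an arc (affine reparametrisation).  If `a = b`: `κ '' Icc (-T r) 0` and `κ '' Icc 0 (T r)` are
arcs from `a` to `κ 0`, meeting only in `{a, κ 0}`: `IsJordan.glue`.
`L \ {a, b} = φ '' {cc ζ r t | t ∈ Ioo}` and by `exists_cc` this is `φ '' (ball 0 1 ∩ sphere ζ r)`.
-/

open Set Metric Topology Filter

namespace Pool.JS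

theorem CaF_arc {κ : ℝ → ℂ} {x y : ℝ} (hxy : x ≠ y) (hc : ContinuousOn κ (uIcc x y)) (hi : InjOn κ (uIcc x y)) :
    ArcFrom (κ '' uIcc x y) (κ x) (κ y) := by
  have himg : (AffineMap.lineMap x y : ℝ → ℝ) '' Icc (0 : ℝ) 1 = uIcc x y := by
    rw [← segment_eq_image_lineMap, segment_eq_uIcc]
  refine ⟨fun s => κ (AffineMap.lineMap x y s), ?_, ?_, ?_, ?_, ?_⟩
  · refine hc.comp (Continuous.continuousOn ?_) ?_
    · exact AffineMap.lineMap_continuous
    · rw [← himg]
      exact mapsTo_image _ _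
  · refine hi.comp ?_ ?_
    · exact (AffineMap.lineMap_injective ℝ hxy).injOn
    · rw [← himg]
      exact mapsTo_image _ _
  · rw [← himg, image_image]
  · simp
  · simp

theorem Conf.not_mem {U : Set ℂ} (hU : IsOpen U) {φ ψ : ℂ → ℂ} (h : Conf U φ ψ) {ζ w : ℂ} (hζ : ‖ζ‖ = 1) {F : Filter ℂ}
    [F.NeBot] (hF : F ≤ 𝓝 ζ) (hF' : F ≤ 𝓟 (ball 0 1)) (hw : Tendsto φ F (𝓝 w)) : w ∈ closure U ∧ w ∉ U := by
  have hb : ∀ᶠ z in F, z ∈ ball (0 : ℂ) 1 := hF' (mem_principal_self _)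
  refine ⟨mem_closure_of_tendsto hw (hb.mono fun z hz => h.maps hz), fun hwU => ?_⟩
  have hc : ContinuousAt ψ w := (h.diffinv.differentiableAt (hU.mem_nhds hwU)).continuousAt
  have h1 : Tendsto (fun z => ψ (φ z)) F (𝓝 (ψ w)) := hc.tendsto.comp hw
  have h2 : Tendsto (fun z : ℂ => z) F (𝓝 (ψ w)) :=
    h1.congr' (hb.mono fun z hz => h.left z hz)
  have h3 : Tendsto (fun z : ℂ => z) F (𝓝 ζ) := hF
  have h4 : ψ w = ζ := tendsto_nhds_unique h2 h3
  have h5 := h.mapsinv hwU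
  rw [h4, mem_ball_zero_iff, hζ] at h5
  exact lt_irrefl _ h5

theorem Conf.crosscut {J U V : Set ℂ} (hJ : Jsep J U V) {φ ψ : ℂ → ℂ} (h : Conf U φ ψ) {ζ : ℂ} (hζ : ‖ζ‖ = 1) {r : ℝ}
    (hr : 0 < r) (hr1 : r < 1) {κ : ℝ → ℂ} (hκ : ContinuousOn κ (Icc (-T r) (T r)))
    (hκφ : ∀ t ∈ Ioo (-T r) (T r), κ t = φ (cc ζ r t)) :
    κ (-T r) ∈ J ∧ κ (T r) ∈ J ∧ CrossCut (κ '' Icc (-T r) (T r)) (κ (-T r)) (κ (T r)) ∧
      κ '' Icc (-T r) (T r) \ {κ (-T r), κ (T r)} = φ '' (ball 0 1 ∩ sphere ζ r) := by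
  have hT : 0 < T r := T_pos hr1
  have hlt : -T r < T r := by linarith
  have hcl : closure (Ioo (-T r) (T r)) = Icc (-T r) (T r) := closure_Ioo hlt.ne
  have hUJ : ∀ w, w ∈ U → w ∉ J := fun w hw hwJ => by
    have : w ∈ Jᶜ := hJ.union ▸ Or.inl hw
    exact this hwJ
  have hend : ∀ e ∈ Icc (-T r) (T r), ‖cc ζ r e‖ = 1 → κ e ∈ J := by
    intro e he hn
    have : (𝓝[Ioo (-T r) (T r)] e).NeBot := by
      rw [← mem_closure_iff_nhdsWithin_neBot, hcl]
      exact he
    have hF : map (cc ζ r) (𝓝[Ioo (-T r) (T r)] e) ≤ 𝓝 (cc ζ r e) :=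
      ((continuous_cc ζ r).tendsto e).mono_left nhdsWithin_le_nhds
    have hF' : map (cc ζ r) (𝓝[Ioo (-T r) (T r)] e) ≤ 𝓟 (ball 0 1) := by
      rw [le_principal_iff, mem_map]
      filter_upwards [self_mem_nhdsWithin] with t ht
      exact cc_mem hζ hr hr1 ht
    have hw : Tendsto φ (map (cc ζ r) (𝓝[Ioo (-T r) (T r)] e)) (𝓝 (κ e)) := by
      rw [tendsto_map'_iff]
      have h1 : Tendsto κ (𝓝[Ioo (-T r) (T r)] e) (𝓝 (κ e)) :=
        ((hκ e he).mono Ioo_subset_Icc_self).tendsto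
      refine h1.congr' ?_
      filter_upwards [self_mem_nhdsWithin] with t ht
      exact hκφ t ht
    have h2 := h.not_mem hJ.openU hn hF hF' hw
    rw [← hJ.frU, hJ.openU.frontier_eq]
    exact h2
  have ha : κ (-T r) ∈ J := hend _ (left_mem_Icc.2 hlt.le) (norm_cc_T hζ hr hr1).2
  have hb : κ (T r) ∈ J := hend _ (right_mem_Icc.2 hlt.le) (norm_cc_T hζ hr hr1).1
  have hin : ∀ t ∈ Ioo (-T r) (T r), κ t ∈ U := by
    intro t ht
    rw [hκφ t ht]
    exact h.maps (cc_mem hζ hr hr1 ht)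
  have hinj : ∀ t ∈ Ioo (-T r) (T r), ∀ t' ∈ Ioo (-T r) (T r), κ t = κ t' → t = t' := by
    intro t ht t' ht' he
    rw [hκφ t ht, hκφ t' ht'] at he
    have h1 := congrArg ψ he
    rw [h.left _ (cc_mem hζ hr hr1 ht), h.left _ (cc_mem hζ hr hr1 ht')] at h1
    exact cc_injOn hζ hr hr1 (Ioo_subset_Icc_self ht) (Ioo_subset_Icc_self ht') h1
  have hcases : ∀ t ∈ Icc (-T r) (T r), t ∈ Ioo (-T r) (T r) ∨ t = -T r ∨ t = T r := by
    intro t ht
    rcases eq_or_lt_of_le ht.1 with h1 | h1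
    · exact Or.inr (Or.inl h1.symm)
    · rcases eq_or_lt_of_le ht.2 with h2 | h2
      · exact Or.inr (Or.inr h2)
      · exact Or.inl ⟨h1, h2⟩
  have hJe : ∀ t, t = -T r ∨ t = T r → κ t ∈ J := by
    rintro t (rfl | rfl)
    · exact ha
    · exact hb
  have hP : ∀ t ∈ Icc (-T r) (T r), ∀ t' ∈ Icc (-T r) (T r), κ t = κ t' →
      t = t' ∨ ((t = -T r ∨ t = T r) ∧ (t' = -T r ∨ t' = T r)) := by
    intro t ht t' ht' he
    rcases hcases t ht with h1 | h1
    · rcases hcases t' ht' with h2 | h2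
      · exact Or.inl (hinj t h1 t' h2 he)
      · exfalso
        have h3 := hJe t' h2
        rw [← he] at h3
        exact hUJ _ (hin t h1) h3
    · rcases hcases t' ht' with h2 | h2
      · exfalso
        have h3 := hJe t h1
        rw [he] at h3
        exact hUJ _ (hin t' h2) h3
      · exact Or.inr ⟨h1, h2⟩
  refine ⟨ha, hb, ?_, ?_⟩
  · by_cases hab : κ (-T r) = κ (T r)
    · right
      refine ⟨hab, mem_image_of_mem κ (left_mem_Icc.2 hlt.le), ?_⟩
      have hA : ArcFrom (κ '' Icc (-T r) 0) (κ (-T r)) (κ 0) := by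
        have h0 : uIcc (-T r) 0 = Icc (-T r) 0 := uIcc_of_le (by linarith)
        have hs : Icc (-T r) 0 ⊆ Icc (-T r) (T r) := Icc_subset_Icc_right hT.le
        have := CaF_arc (κ := κ) (x := -T r) (y := 0) (by linarith) (h0 ▸ hκ.mono hs) (by
          rw [h0]
          intro t ht t' ht' he
          rcases hP t (hs ht) t' (hs ht') he with h1 | ⟨h1 | h1, h2 | h2⟩
          · exact h1
          · rw [h1, h2]
          · exfalso; have := ht'.2; linarith
          · exfalso; have := ht.2; linarith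
          · exfalso; have := ht.2; linarith)
        rwa [h0] at this
      have hB : ArcFrom (κ '' Icc 0 (T r)) (κ (-T r)) (κ 0) := by
        have h0 : uIcc (T r) 0 = Icc 0 (T r) := uIcc_of_ge hT.le
        have hs : Icc 0 (T r) ⊆ Icc (-T r) (T r) := Icc_subset_Icc_left (by linarith)
        have := CaF_arc (κ := κ) (x := T r) (y := 0) hT.ne' (h0 ▸ hκ.mono hs) (by
          rw [h0]
          intro t ht t' ht' he
          rcases hP t (hs ht) t' (hs ht') he with h1 | ⟨h1 | h1, h2 | h2⟩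
          · exact h1
          · exfalso; have := ht.1; linarith
          · exfalso; have := ht.1; linarith
          · exfalso; have := ht'.1; linarith
          · rw [h1, h2])
        rw [h0, ← hab] at this
        exact this
      have hAB : κ '' Icc (-T r) 0 ∩ κ '' Icc 0 (T r) = {κ (-T r), κ 0} := by
        ext w
        simp only [mem_inter_iff, mem_image, mem_insert_iff, mem_singleton_iff]
        constructor
        · rintro ⟨⟨t, ht, rfl⟩, ⟨t', ht', he⟩⟩
          have ht1 : t ∈ Icc (-T r) (T r) := ⟨ht.1, ht.2.trans hT.le⟩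
          have ht1' : t' ∈ Icc (-T r) (T r) := ⟨(by linarith [ht'.1]), ht'.2⟩
          rcases hP t ht1 t' ht1' he.symm with h1 | ⟨h1 | h1, -⟩
          · right
            have : t = 0 := le_antisymm ht.2 (h1 ▸ ht'.1)
            rw [this]
          · left; rw [h1]
          · left; rw [h1, hab]
        · rintro (rfl | rfl)
          · exact ⟨⟨-T r, left_mem_Icc.2 (by linarith), rfl⟩, ⟨T r, right_mem_Icc.2 hT.le, hab.symm⟩⟩
          · exact ⟨⟨0, right_mem_Icc.2 (by linarith), rfl⟩, ⟨0, left_mem_Icc.2 hT.le, rfl⟩⟩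
      have hg := IsJordan.glue hA hB hAB
      rw [← image_union, Icc_union_Icc_eq_Icc (by linarith) hT.le] at hg
      exact hg
    · left
      refine ⟨hab, ?_⟩
      have h0 : uIcc (-T r) (T r) = Icc (-T r) (T r) := uIcc_of_le hlt.le
      have := CaF_arc (κ := κ) (x := -T r) (y := T r) hlt.ne (h0 ▸ hκ) (by
        rw [h0]
        intro t ht t' ht' he
        rcases hP t ht t' ht' he with h1 | ⟨h1 | h1, h2 | h2⟩
        · exact h1
        · rw [h1, h2]
        · exfalso; rw [h1, h2] at he; exact hab he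
        · exfalso; rw [h1, h2] at he; exact hab he.symm
        · rw [h1, h2])
      rwa [h0] at this
  · ext w
    constructor
    · rintro ⟨⟨t, ht, rfl⟩, hw⟩
      rcases hcases t ht with h1 | h1 | h1
      · refine ⟨cc ζ r t, ⟨cc_mem hζ hr hr1 h1, ?_⟩, (hκφ t h1).symm⟩
        rw [mem_sphere]
        exact dist_cc hζ hr.le t
      · exact absurd (by rw [h1]; exact Or.inl rfl) hw
      · exact absurd (by rw [h1]; exact Or.inr rfl) hw
    · rintro ⟨z, ⟨hz, hzs⟩, rfl⟩
      obtain ⟨t, ht, rfl⟩ := exists_cc hζ hr hr1 hz (mem_sphere.1 hzs)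
      rw [← hκφ t ht]
      refine ⟨mem_image_of_mem κ (Ioo_subset_Icc_self ht), ?_⟩
      rintro (h1 | h1)
      · exact hUJ _ (hin t ht) (h1 ▸ ha)
      · rw [mem_singleton_iff] at h1
        exact hUJ _ (hin t ht) (h1 ▸ hb)

end Pool.JS
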