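import Pool.Agent.JS.CaC
import Pool.Agent.JS.CaD
import Pool.Agent.JS.CaE
import Pool.Agent.JS.CaF

/-!
MODULE CaG (difficulty 3).  The conformal map has small oscillation near every boundary point.

RECIPE.  `φ 0 ∈ U`, `J` is closed and disjoint from `U`: `ρ > 0` with `2 ρ ≤ ε` and `ρ < dist (φ 0) a` for all `a ∈ J` (`J` compact: `IsJordan` image of the circle; `infDist`).  `δ` from `IsJordan.small_arc` for `ρ`.  `ε' = min (min ρ (δ / 2)) (1/2)`; `exists_short` for `ε'`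
(`φ '' ball 0 1 ⊆ U` bounded, `φ` injective as it has a left inverse) gives `r`, `exists_kappa` gives `κ`; `Conf.crosscut`: `a = κ (-T r)`, `b = κ (T r)`, `L = κ '' Icc`.  `L ⊆ closedBall a ρ`; `dist a b ≤ ε' < δ`, so the arc `A` of `hA` exists.
`D₁ = φ '' (ball 0 1 ∩ ball ζ r)`, `D₂ = φ '' (ball 0 1 \ closedBall ζ r)` are preconnected (`half_in`, `half_out`, `φ` continuous), contained in `U \ L` (`L ∩ U = φ '' (ball 0 1 ∩ sphere ζ r)` and `φ` is injective) and cover it (`U = φ '' ball 0 1`).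
`c = κ 0`.  `crosscut_small`: `D₂ ∌ ...`: `φ 0 ∈ D₂` (`dist 0 ζ = 1 > r`) and `dist (φ 0) a > ρ`, so `D₁ ⊆ closedBall a ρ`: two points of `D₁` have distance at most `2 ρ ≤ ε`.
-/

open Set Metric Topology

namespace Pool.JS

theorem Conf.small {J U V : Set ℂ} (hJ : IsJordan J) (hs : Jsep J U V) {φ ψ : ℂ → ℂ} (h : Conf U φ ψ) {ζ : ℂ}
    (hζ : ‖ζ‖ = 1) {ε : ℝ} (hε : 0 < ε) : ∃ r > 0, ∀ z ∈ ball (0 : ℂ) 1 ∩ ball ζ r, ∀ w ∈ ball (0 : ℂ) 1 ∩ ball ζ r,
      dist (φ z) (φ w) ≤ ε := by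
  have hJc : IsCompact J := by
    obtain ⟨γ, hγ, -, rfl⟩ := hJ
    exact (isCompact_sphere 0 1).image_of_continuousOn hγ
  have hJU : ∀ x ∈ J, x ∉ U := by
    intro x hx
    rw [← hs.frU, hs.openU.frontier_eq] at hx
    exact hx.2
  have hinj : InjOn φ (ball 0 1) := by
    intro x hx y hy hxy
    rw [← h.left x hx, ← h.left y hy, hxy]
  have h0 : (0 : ℂ) ∈ ball (0 : ℂ) 1 := mem_ball_self one_pos
  have hJn : J.Nonempty := by
    obtain ⟨γ, hγ, -, rfl⟩ := hJ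
    exact ⟨γ 1, 1, by simp, rfl⟩
  have hd : 0 < infDist (φ 0) J :=
    (hJc.isClosed.notMem_iff_infDist_pos hJn).1 (fun hx => hJU _ hx (h.maps h0))
  obtain ⟨ρ, hρ, hρε, hρd⟩ : ∃ ρ > 0, 2 * ρ ≤ ε ∧ ρ < infDist (φ 0) J := by
    refine ⟨min (ε / 2) (infDist (φ 0) J / 2), by positivity, ?_, ?_⟩
    · linarith [min_le_left (ε / 2) (infDist (φ 0) J / 2)]
    · linarith [min_le_right (ε / 2) (infDist (φ 0) J / 2)]
  obtain ⟨δ, hδ, hδ'⟩ := hJ.small_arc hρ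
  obtain ⟨ε', hε', h1, h2⟩ : ∃ ε' > 0, ε' ≤ ρ ∧ ε' < δ := by
    refine ⟨min ρ (δ / 2), by positivity, min_le_left _ _, ?_⟩
    linarith [min_le_right ρ (δ / 2)]
  have hbd : Bornology.IsBounded (φ '' ball 0 1) := by
    apply hs.bddU.subset
    rintro _ ⟨x, hx, rfl⟩
    exact h.maps hx
  obtain ⟨r, hr, -, hr1, hint⟩ := exists_short h.diff hinj hbd hζ hε'
  obtain ⟨κ, hκc, hκφ, hκd⟩ := exists_kappa h.diff hζ hr hr1 hε' hint
  obtain ⟨ha, hb, hcc, hdf⟩ := Conf.crosscut hs h hζ hr hr1 hκc hκφ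
  have hT := T_pos hr1
  have hTl : -T r ∈ Icc (-T r) (T r) := ⟨le_rfl, by linarith⟩
  have hTr : T r ∈ Icc (-T r) (T r) := ⟨by linarith, le_rfl⟩
  have hT0 : (0 : ℝ) ∈ Ioo (-T r) (T r) := ⟨by linarith, hT⟩
  have hLU : κ '' Icc (-T r) (T r) \ {κ (-T r), κ (T r)} ⊆ U := by
    rw [hdf]
    rintro _ ⟨x, hx, rfl⟩
    exact h.maps hx.1
  have hc : κ 0 ∈ κ '' Icc (-T r) (T r) \ {κ (-T r), κ (T r)} := by
    rw [hdf]
    refine ⟨cc ζ r 0, ⟨cc_mem hζ hr hr1 hT0, ?_⟩, (hκφ 0 hT0).symm⟩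
    rw [mem_sphere]
    exact dist_cc hζ hr.le 0
  have key : ∀ z ∈ ball (0 : ℂ) 1, φ z ∈ κ '' Icc (-T r) (T r) → dist z ζ = r := by
    intro z hz hzL
    have h3 : φ z ∉ ({κ (-T r), κ (T r)} : Set ℂ) := by
      intro h4
      rcases h4 with h4 | h4
      · exact hJU _ ha (h4 ▸ h.maps hz)
      · rw [mem_singleton_iff] at h4
        exact hJU _ hb (h4 ▸ h.maps hz)
    have h5 : φ z ∈ φ '' (ball 0 1 ∩ sphere ζ r) := by
      rw [← hdf]
      exact ⟨hzL, h3⟩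
    obtain ⟨w, hw, hwz⟩ := h5
    have h6 : w = z := hinj hw.1 hz hwz
    rw [← h6]
    exact hw.2
  have hmain := crosscut_small (D₁ := φ '' (ball 0 1 ∩ ball ζ r)) (D₂ := φ '' (ball 0 1 \ closedBall ζ r)) (ρ := ρ)
    hs hcc ha hb hLU hc
    ((half_in ζ r).image φ (h.diff.continuousOn.mono inter_subset_left))
    ((half_out hζ hr hr1).image φ (h.diff.continuousOn.mono diff_subset))
    (by
      rintro _ ⟨z, hz, rfl⟩
      refine ⟨h.maps hz.1, fun hL => ?_⟩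
      have := key z hz.1 hL
      have h7 : dist z ζ < r := hz.2
      linarith)
    (by
      rintro _ ⟨z, hz, rfl⟩
      refine ⟨h.maps hz.1, fun hL => ?_⟩
      have := key z hz.1 hL
      apply hz.2
      rw [mem_closedBall]
      exact this.le)
    (by
      rintro x ⟨hxU, hxL⟩
      have hz := h.mapsinv hxU
      rcases lt_trichotomy (dist (ψ x) ζ) r with h7 | h7 | h7
      · left
        exact ⟨ψ x, ⟨hz, h7⟩, h.right x hxU⟩
      · exfalso
        apply hxL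
        have h8 : x ∈ φ '' (ball 0 1 ∩ sphere ζ r) := ⟨ψ x, ⟨hz, h7⟩, h.right x hxU⟩
        rw [← hdf] at h8
        exact h8.1
      · right
        refine ⟨ψ x, ⟨hz, ?_⟩, h.right x hxU⟩
        rw [mem_closedBall]
        linarith)
    (by
      rintro _ ⟨t, ht, rfl⟩
      rw [mem_closedBall]
      exact (hκd t ht _ hTl).trans h1)
    (by
      intro hab
      obtain ⟨A, hA, hAJ, hAb⟩ := hδ' _ ha _ hb hab (lt_of_le_of_lt (hκd _ hTl _ hTr) h2)
      exact ⟨A, hA, hAJ, hAb.trans ball_subset_closedBall⟩)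
  rcases hmain with hm | hm
  · refine ⟨r, hr, ?_⟩
    intro z hz w hw
    have h8 : dist (φ z) (κ (-T r)) ≤ ρ := hm ⟨z, hz, rfl⟩
    have h9 : dist (φ w) (κ (-T r)) ≤ ρ := hm ⟨w, hw, rfl⟩
    have := dist_triangle_right (φ z) (φ w) (κ (-T r))
    linarith
  · exfalso
    have h8 : dist (φ 0) (κ (-T r)) ≤ ρ := by
      apply hm
      refine ⟨0, ⟨h0, ?_⟩, rfl⟩
      rw [mem_closedBall, dist_comm, dist_zero_right, hζ]
      linarith
    have h9 : infDist (φ 0) J ≤ dist (φ 0) (κ (-T r)) := infDist_le_dist_of_mem ha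
    linarith

end Pool.JS
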