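import Pool.Agent.JS.CaF

/-!
MODULE CaH (difficulty 2).  The continuous extension to the closed disc.

RECIPE.  `Φ = extendFrom (ball 0 1) φ`: for `x ∈ closedBall 0 1 = closure (ball 0 1)` the map `φ` has a limit along `𝓝[ball 0 1] x`: for `x` in the ball by continuity, for `‖x‖ = 1` by `hs` and completeness (Cauchy filter `map φ (𝓝[ball 0 1] x)`, which is `NeBot`):
`continuousOn_extendFrom`.  `Φ = φ` on the ball (`extendFrom_eq`/`extendFrom_extends`).  For `‖ζ‖ = 1`, `Φ ζ` is the limit of `φ` along `𝓝[ball 0 1] ζ`: `Conf.not_mem` gives `Φ ζ ∈ closure U \ U = frontier U = J`.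
`Φ '' ball = U` (`maps`, `right`, `mapsinv`).  `Φ '' closedBall` is compact and contains `U`, so it contains `closure U ⊇ J`; a point of `J` is not in `U = Φ '' ball`, so it is in `Φ '' sphere`.
-/

open Set Metric Topology Filter

namespace Pool.JS

/-- a continuous extension of a conformal map to the closed disc -/
structure Ext (J U : Set ℂ) (Φ : ℂ → ℂ) : Prop where
  cont : ContinuousOn Φ (closedBall 0 1)
  diff : DifferentiableOn ℂ Φ (ball 0 1)
  inj : InjOn Φ (ball 0 1)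
  imball : Φ '' ball 0 1 = U
  imsphere : Φ '' sphere 0 1 = J
  imclosed : Φ '' closedBall 0 1 = closure U

theorem Conf.exists_ext {J U V : Set ℂ} (hs : Jsep J U V) {φ ψ : ℂ → ℂ} (h : Conf U φ ψ)
    (hsm : ∀ ζ : ℂ, ‖ζ‖ = 1 → ∀ ε > 0, ∃ r > 0, ∀ z ∈ ball (0 : ℂ) 1 ∩ ball ζ r, ∀ w ∈ ball (0 : ℂ) 1 ∩ ball ζ r,
      dist (φ z) (φ w) ≤ ε) : ∃ Φ, Ext J U Φ := by
  have hcl : closure (ball (0 : ℂ) 1) = closedBall 0 1 := closure_ball 0 one_ne_zero
  have hne : ∀ x ∈ closedBall (0 : ℂ) 1, (𝓝[ball (0 : ℂ) 1] x).NeBot := by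
    intro x hx
    rw [← mem_closure_iff_nhdsWithin_neBot, hcl]
    exact hx
  have hlimball : ∀ x ∈ ball (0 : ℂ) 1, Tendsto φ (𝓝[ball (0 : ℂ) 1] x) (𝓝 (φ x)) := by
    intro x hx
    exact h.diff.continuousOn x hx
  have hlim : ∀ x ∈ closedBall (0 : ℂ) 1, ∃ y, Tendsto φ (𝓝[ball (0 : ℂ) 1] x) (𝓝 y) := by
    intro x hx
    by_cases hxb : x ∈ ball (0 : ℂ) 1
    · exact ⟨_, hlimball x hxb⟩
    · have hx1 : ‖x‖ = 1 := by
        have h1 : ‖x‖ ≤ 1 := by simpa using hx
        have h2 : ¬ ‖x‖ < 1 := by simpa using hxb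
        linarith [not_lt.mp h2]
      have := hne x hx
      have hc : Cauchy (map φ (𝓝[ball (0 : ℂ) 1] x)) := by
        rw [Metric.cauchy_iff]
        refine ⟨inferInstance, ?_⟩
        intro ε hε
        obtain ⟨r, hr, hr'⟩ := hsm x hx1 (ε / 2) (by positivity)
        refine ⟨φ '' (ball (0 : ℂ) 1 ∩ ball x r), ?_, ?_⟩
        · apply image_mem_map
          exact inter_mem self_mem_nhdsWithin (mem_nhdsWithin_of_mem_nhds (ball_mem_nhds x hr))
        · rintro _ ⟨z, hz, rfl⟩ _ ⟨w, hw, rfl⟩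
          have := hr' z hz w hw
          linarith
      obtain ⟨y, hy⟩ := CompleteSpace.complete hc
      exact ⟨y, hy⟩
  set Φ : ℂ → ℂ := extendFrom (ball (0 : ℂ) 1) φ with hΦ
  have hcont : ContinuousOn Φ (closedBall 0 1) :=
    continuousOn_extendFrom (by rw [hcl]) hlim
  have hΦb : ∀ x ∈ ball (0 : ℂ) 1, Φ x = φ x := by
    intro x hx
    exact extendFrom_eq (subset_closure hx) (hlimball x hx)
  have hΦs : ∀ x ∈ sphere (0 : ℂ) 1, Φ x ∈ J := by
    intro x hx
    have hx1 : ‖x‖ = 1 := by simpa using hx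
    have hxc : x ∈ closedBall (0 : ℂ) 1 := sphere_subset_closedBall hx
    have := hne x hxc
    have ht : Tendsto φ (𝓝[ball (0 : ℂ) 1] x) (𝓝 (Φ x)) := tendsto_extendFrom (hlim x hxc)
    have hm := Conf.not_mem hs.openU h hx1 (F := 𝓝[ball (0 : ℂ) 1] x) nhdsWithin_le_nhds
      (by rw [le_principal_iff]; exact self_mem_nhdsWithin) ht
    rw [← hs.frU, hs.openU.frontier_eq]
    exact hm
  have himb : Φ '' ball 0 1 = U := by
    apply Subset.antisymm
    · rintro _ ⟨x, hx, rfl⟩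
      rw [hΦb x hx]
      exact h.maps hx
    · intro u hu
      refine ⟨ψ u, h.mapsinv hu, ?_⟩
      rw [hΦb _ (h.mapsinv hu)]
      exact h.right u hu
  have hJU : ∀ x ∈ J, x ∉ U := by
    intro x hx
    rw [← hs.frU, hs.openU.frontier_eq] at hx
    exact hx.2
  have hcomp : IsCompact (Φ '' closedBall 0 1) := (isCompact_closedBall 0 1).image_of_continuousOn hcont
  have hclU : closure U ⊆ Φ '' closedBall 0 1 := by
    apply closure_minimal _ hcomp.isClosed
    rw [← himb]
    exact image_mono ball_subset_closedBall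
  have hJcl : J ⊆ closure U := by
    rw [← hs.frU]
    exact frontier_subset_closure
  have hims : Φ '' sphere 0 1 = J := by
    apply Subset.antisymm
    · rintro _ ⟨x, hx, rfl⟩
      exact hΦs x hx
    · intro y hy
      obtain ⟨x, hx, rfl⟩ := hclU (hJcl hy)
      refine ⟨x, ?_, rfl⟩
      rw [mem_closedBall] at hx
      rw [mem_sphere]
      by_contra hne'
      have hlt : dist x 0 < 1 := lt_of_le_of_ne hx hne'
      exact hJU _ hy (himb ▸ mem_image_of_mem Φ (mem_ball.mpr hlt))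
  refine ⟨Φ, ⟨hcont, ?_, ?_, himb, hims, ?_⟩⟩
  · exact h.diff.congr hΦb
  · intro x hx y hy hxy
    rw [hΦb x hx, hΦb y hy] at hxy
    rw [← h.left x hx, ← h.left y hy, hxy]
  · apply Subset.antisymm
    · rintro _ ⟨x, hx, rfl⟩
      by_cases hxb : x ∈ ball (0 : ℂ) 1
      · exact subset_closure (himb ▸ mem_image_of_mem Φ hxb)
      · apply hJcl
        apply hΦs
        rw [mem_closedBall] at hx
        rw [mem_ball, not_lt] at hxb
        rw [mem_sphere]
        exact le_antisymm hx hxb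
    · exact hclU

end Pool.JS
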