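import Pool.Agent.JS.CaH

/-!
MODULE CaI (difficulty 3).  The extension is not constant on an arc of the circle.

RECIPE.  Suppose `Φ (exp (θ I)) = w` for all `θ ∈ Ioo α β`, `α < β`.  Choose `n ≥ 1` with `2 π / n < β - α` and `F z = ∏_{k < n} (Φ (exp (2 π k I / n) z) - w)`: holomorphic on `ball 0 1`, continuous on `closedBall 0 1`, and zero on the circle: for `z = exp (x I)` some
`x + 2 π k / n + 2 π m` lies in `Ioo α β` (the multiples of `2 π / n` are denser than `β - α`).  Maximum principle (`Complex.eqOn_closedBall...` / `Complex.norm_le_of_forall_mem_frontier_norm_le`): `F = 0` on the ball.  The finitely many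
factors are analytic on the preconnected ball and the product is zero, so one factor is identically zero (`AnalyticOnNhd.eq_zero_or_eq_zero_of_mul_eq_zero`, or: the zero sets of the factors in the ball cover the uncountable ball, one of them is
infinite with an accumulation point; or evaluate: the injective function `Φ` takes the value `w` at most once in the ball, so every factor has at most one zero in the ball, and `F` has at most `n` zeros).  The last argument is the simplest:
`F = 0` at infinitely many points of the ball, but the factor number `k` vanishes at `z` only if `Φ (ω^k z) = w`, at most one `z` for every `k`.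
-/

open Set Metric Topology

namespace Pool.JS

theorem Ext.not_const {J U : Set ℂ} {Φ : ℂ → ℂ} (h : Ext J U Φ) {α β : ℝ} (hαβ : α < β) (w : ℂ) :
    ¬ ∀ θ ∈ Ioo α β, Φ (Complex.exp (θ * Complex.I)) = w := by
  intro hw
  have hpi := Real.pi_pos
  obtain ⟨n, hn⟩ := exists_nat_gt (2 * Real.pi / (β - α))
  have hn0 : (0 : ℝ) < n := lt_trans (by have := sub_pos.2 hαβ; positivity) hn
  have hn1 : 2 * Real.pi / n < β - α := by
    rw [div_lt_iff₀ (sub_pos.2 hαβ)] at hn
    rw [div_lt_iff₀ hn0]
    linarith
  have hnz : (n : ℤ) ≠ 0 := by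
    have : (0 : ℤ) < n := by exact_mod_cast hn0
    exact this.ne'
  have hom : ∀ k : ℕ, ‖Complex.exp (((2 * Real.pi * k / n : ℝ) : ℂ) * Complex.I)‖ = 1 := fun k =>
    Complex.norm_exp_ofReal_mul_I _
  have hmaps : ∀ k : ℕ, MapsTo (fun z : ℂ => Complex.exp (((2 * Real.pi * k / n : ℝ) : ℂ) * Complex.I) * z) (ball 0 1) (ball 0 1) := by
    intro k z hz
    rw [mem_ball_zero_iff] at hz ⊢
    rw [norm_mul, hom k, one_mul]
    exact hz
  have hmapc : ∀ k : ℕ, MapsTo (fun z : ℂ => Complex.exp (((2 * Real.pi * k / n : ℝ) : ℂ) * Complex.I) * z) (closedBall 0 1) (closedBall 0 1) := by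
    intro k z hz
    rw [mem_closedBall_zero_iff] at hz ⊢
    rw [norm_mul, hom k, one_mul]
    exact hz
  have hF : DiffContOnCl ℂ (fun z : ℂ => ∏ k ∈ Finset.range n,
      (Φ (Complex.exp (((2 * Real.pi * k / n : ℝ) : ℂ) * Complex.I) * z) - w)) (ball 0 1) := by
    constructor
    · apply DifferentiableOn.fun_finset_prod
      intro k _
      apply DifferentiableOn.sub_const
      exact h.diff.comp (by fun_prop) (hmaps k)
    · rw [closure_ball (0 : ℂ) one_ne_zero]
      apply continuousOn_finset_prod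
      intro k _
      apply ContinuousOn.sub _ continuousOn_const
      exact h.cont.comp (by fun_prop) (hmapc k)
  have hfr : EqOn (fun z : ℂ => ∏ k ∈ Finset.range n,
      (Φ (Complex.exp (((2 * Real.pi * k / n : ℝ) : ℂ) * Complex.I) * z) - w)) (fun _ => 0) (frontier (ball 0 1)) := by
    rw [frontier_ball (0 : ℂ) one_ne_zero]
    intro z hz
    have hz1 : ‖z‖ = 1 := mem_sphere_zero_iff_norm.1 hz
    have hzx : z = Complex.exp ((Complex.arg z : ℂ) * Complex.I) := by
      have := Complex.norm_mul_exp_arg_mul_I z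
      rw [hz1] at this
      simpa using this.symm
    set x := Complex.arg z with hx
    -- the integer
    set j : ℤ := ⌊(α - x) * n / (2 * Real.pi)⌋ + 1 with hj
    have hj1 : (α - x) * n / (2 * Real.pi) < j := by
      rw [hj]
      push_cast
      exact Int.lt_floor_add_one _
    have hj2 : (j : ℝ) ≤ (α - x) * n / (2 * Real.pi) + 1 := by
      rw [hj]
      push_cast
      linarith [Int.floor_le ((α - x) * n / (2 * Real.pi))]
    have h2pi : (0 : ℝ) < 2 * Real.pi := by positivity
    have hj1' : α < x + 2 * Real.pi * j / n := by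
      rw [div_lt_iff₀ h2pi] at hj1
      have : α - x < j * (2 * Real.pi) / n := by
        rw [lt_div_iff₀ hn0]
        exact hj1
      have e : (j : ℝ) * (2 * Real.pi) / n = 2 * Real.pi * j / n := by ring
      linarith
    have hj2' : x + 2 * Real.pi * j / n < β := by
      have h1 : (j : ℝ) * (2 * Real.pi) ≤ (α - x) * n + 2 * Real.pi := by
        have := mul_le_mul_of_nonneg_right hj2 h2pi.le
        rwa [add_mul, div_mul_cancel₀ _ h2pi.ne', one_mul] at this
      have h2 : (j : ℝ) * (2 * Real.pi) / n ≤ α - x + 2 * Real.pi / n := by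
        rw [div_le_iff₀ hn0, add_mul, div_mul_cancel₀ _ hn0.ne']
        exact h1
      have e : (j : ℝ) * (2 * Real.pi) / n = 2 * Real.pi * j / n := by ring
      linarith
    -- reduce modulo n
    have hk0 : 0 ≤ j % (n : ℤ) := Int.emod_nonneg _ hnz
    have hkn : j % (n : ℤ) < n := Int.emod_lt_of_pos _ (by exact_mod_cast hn0)
    obtain ⟨k, hk⟩ := Int.eq_ofNat_of_zero_le hk0
    have hkn' : k < n := by
      rw [hk] at hkn
      exact_mod_cast hkn
    have hjk : (j : ℝ) = k + n * (j / (n : ℤ) : ℤ) := by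
      have := Int.emod_add_mul_ediv j (n : ℤ)
      rw [hk] at this
      exact_mod_cast this.symm
    apply Finset.prod_eq_zero (Finset.mem_range.2 hkn')
    have h3 := hw (x + 2 * Real.pi * j / n) ⟨hj1', hj2'⟩
    have h4 : Complex.exp (((x + 2 * Real.pi * j / n : ℝ) : ℂ) * Complex.I) =
        Complex.exp (((2 * Real.pi * k / n : ℝ) : ℂ) * Complex.I) * z := by
      rw [hzx, ← Complex.exp_add, Complex.exp_eq_exp_iff_exists_int]
      refine ⟨j / (n : ℤ), ?_⟩
      have h5 : x + 2 * Real.pi * j / n = 2 * Real.pi * k / n + x + (j / (n : ℤ) : ℤ) * (2 * Real.pi) := by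
        rw [hjk]
        field_simp
        ring
      rw [h5]
      push_cast
      ring
    rw [← h4, h3, sub_self]
  have hz : ∀ z ∈ ball (0 : ℂ) 1, ∃ k : Fin n, Φ (Complex.exp (((2 * Real.pi * (k : ℕ) / n : ℝ) : ℂ) * Complex.I) * z) = w := by
    intro z hz
    have h1 := Complex.eqOn_closure_of_eqOn_frontier isBounded_ball hF (diffContOnCl_const) hfr (subset_closure hz)
    obtain ⟨k, hk, hk0⟩ := Finset.prod_eq_zero_iff.1 h1
    exact ⟨⟨k, Finset.mem_range.1 hk⟩, sub_eq_zero.1 hk0⟩
  have hzi : ∀ i : Fin (n + 1), ((((i : ℕ) : ℝ) / (n + 1) : ℝ) : ℂ) ∈ ball (0 : ℂ) 1 := by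
    intro i
    rw [mem_ball_zero_iff, Complex.norm_real, Real.norm_eq_abs, abs_of_nonneg (by positivity), div_lt_one (by positivity)]
    exact_mod_cast i.2
  choose k hk using fun i => hz _ (hzi i)
  obtain ⟨i, i', hne, he⟩ := Fintype.exists_ne_map_eq_of_card_lt k (by simp)
  have h1 := hk i
  have h2 := hk i'
  rw [← he] at h2
  have h3 := h.inj (hmaps _ (hzi i)) (hmaps _ (hzi i')) (h1.trans h2.symm)
  have h4 : ((((i : ℕ) : ℝ) / (n + 1) : ℝ) : ℂ) = ((((i' : ℕ) : ℝ) / (n + 1) : ℝ) : ℂ) :=
    mul_left_cancel₀ (Complex.exp_ne_zero _) h3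
  have h5 : ((i : ℕ) : ℝ) / (n + 1) = ((i' : ℕ) : ℝ) / (n + 1) := Complex.ofReal_injective h4
  have h6 : ((i : ℕ) : ℝ) = ((i' : ℕ) : ℝ) := by
    have hne : ((n : ℝ) + 1) ≠ 0 := by positivity
    field_simp at h5
    exact h5
  exact hne (Fin.ext (by exact_mod_cast h6))

end Pool.JS
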