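import Pool.Agent.JS.CaI
import Pool.Agent.JS.Jct

/-!
MODULE CaJ (difficulty 4).  The extension is injective: the Schoenflies theorem for inner domains.

Suppose `Φ ζ₁ = Φ ζ₂ = w`, `ζ₁ ≠ ζ₂` on the circle; `w ∈ J`.  `L_i = Φ '' {t ζ_i | t ∈ [0, 1]}` are arcs from `Φ 0` to `w` (`Φ` is injective on the ball, `w ∉ U`), `L₁ ∩ L₂ = {Φ 0, w}`, `L_i \ {w} ⊆ U`.
`Γ = L₁ ∪ L₂` is a Jordan curve (`IsJordan.glue`), `Jsep Γ I E`.
(a) `V ∪ (J \ {w})` : `V` is connected, unbounded, disjoint from `Γ`, so `V ⊆ E`; `J = frontier V ⊆ closure E = E ∪ Γ`, `J ∩ Γ = {w}`, so `J \ {w} ⊆ E`, hence `I ∩ J = ∅`, `I ∩ V = ∅`, `I ⊆ U`.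
(b) Take `z₀` in the ball with `Φ z₀ ∈ I`, `z₀ = t₀ exp (x₀ I)`.  For `x` near `x₀` the point `Φ (t₀ exp (x I))` is in `I`, the open segment `t exp (x I)`, `0 < t < 1`, does not meet the two radii, its image is
preconnected and disjoint from `Γ`, so it is contained in `I`.
(c) `Φ (exp (x I))` is the limit of `Φ (t exp (x I)) ∈ I`, `t → 1`, so it lies in `closure I = I ∪ Γ`, and in `J`, so it is `w`.  Contradiction to `Ext.not_const`.
-/

open Set Metric Topology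

namespace Pool.JS

/-- the image of the closed radius -/
def cajL (Φ : ℂ → ℂ) (ζ : ℂ) : Set ℂ := (fun t : ℝ => Φ ((t : ℂ) * ζ)) '' Icc 0 1

theorem caj_U {J U : Set ℂ} {Φ : ℂ → ℂ} (h : Ext J U Φ) {z : ℂ} (hz : ‖z‖ < 1) : Φ z ∈ U := by
  rw [← h.imball]
  exact mem_image_of_mem _ (mem_ball_zero_iff.2 hz)

theorem caj_J {J U : Set ℂ} {Φ : ℂ → ℂ} (h : Ext J U Φ) {z : ℂ} (hz : ‖z‖ = 1) : Φ z ∈ J := by
  rw [← h.imsphere]
  exact mem_image_of_mem _ (mem_sphere_zero_iff_norm.2 hz)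

theorem caj_norm {ζ : ℂ} (hζ : ‖ζ‖ = 1) {t : ℝ} (ht : 0 ≤ t) : ‖(t : ℂ) * ζ‖ = t := by
  rw [norm_mul, hζ, mul_one, Complex.norm_real, Real.norm_of_nonneg ht]

/-- a point of the ball whose image is on the image of the radius is on the radius -/
theorem caj_mem {J U : Set ℂ} {Φ : ℂ → ℂ} (h : Ext J U Φ) (hUJ : Disjoint U J) {ζ z : ℂ} (hζ : ‖ζ‖ = 1)
    (hz : ‖z‖ < 1) (hm : Φ z ∈ cajL Φ ζ) : ∃ t : ℝ, 0 ≤ t ∧ t < 1 ∧ z = t * ζ := by
  obtain ⟨t, ht, he⟩ := hm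
  simp only at he
  rcases lt_or_eq_of_le ht.2 with h1 | h1
  · refine ⟨t, ht.1, h1, ?_⟩
    refine (h.inj ?_ ?_ he).symm
    · rw [mem_ball_zero_iff, caj_norm hζ ht.1]
      exact h1
    · rw [mem_ball_zero_iff]
      exact hz
  · exfalso
    have m1 : Φ ((t : ℂ) * ζ) ∈ J := caj_J h (by rw [caj_norm hζ ht.1, h1])
    rw [he] at m1
    exact disjoint_left.1 hUJ (caj_U h hz) m1

theorem caj_arc {J U : Set ℂ} {Φ : ℂ → ℂ} (h : Ext J U Φ) (hUJ : Disjoint U J) {ζ : ℂ} (hζ : ‖ζ‖ = 1) :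
    ArcFrom (cajL Φ ζ) (Φ 0) (Φ ζ) := by
  have hζ0 : ζ ≠ 0 := by
    intro h0
    rw [h0, norm_zero] at hζ
    exact zero_ne_one hζ
  refine ⟨fun t : ℝ => Φ ((t : ℂ) * ζ), ?_, ?_, rfl, by simp, by simp⟩
  · refine h.cont.comp (f := fun t : ℝ => (t : ℂ) * ζ) ?_ ?_
    · apply Continuous.continuousOn
      fun_prop
    · intro t ht
      rw [mem_closedBall_zero_iff, caj_norm hζ ht.1]
      exact ht.2
  · have key : ∀ s ∈ Icc (0 : ℝ) 1, ∀ t ∈ Icc (0 : ℝ) 1, Φ ((s : ℂ) * ζ) = Φ ((t : ℂ) * ζ) → s < 1 → s = t := by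
      intro s hs t ht he h1
      have hm : Φ ((s : ℂ) * ζ) ∈ cajL Φ ζ := ⟨s, hs, rfl⟩
      rcases lt_or_eq_of_le ht.2 with h2 | h2
      · have := h.inj (by rw [mem_ball_zero_iff, caj_norm hζ hs.1]; exact h1)
          (by rw [mem_ball_zero_iff, caj_norm hζ ht.1]; exact h2) he
        have := mul_right_cancel₀ hζ0 this
        exact_mod_cast this
      · exfalso
        have m1 : Φ ((t : ℂ) * ζ) ∈ J := caj_J h (by rw [caj_norm hζ ht.1, h2])
        rw [← he] at m1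
        exact disjoint_left.1 hUJ (caj_U h (by rw [caj_norm hζ hs.1]; exact h1)) m1
    intro s hs t ht he
    rcases lt_or_eq_of_le hs.2 with h1 | h1
    · exact key s hs t ht he h1
    · rcases lt_or_eq_of_le ht.2 with h2 | h2
      · exact (key t ht s hs he.symm h2).symm
      · rw [h1, h2]

theorem caj_main {J U V : Set ℂ} (hs : Jsep J U V) {Φ : ℂ → ℂ} (h : Ext J U Φ) {ζ₁ ζ₂ : ℂ} (h1 : ‖ζ₁‖ = 1)
    (h2 : ‖ζ₂‖ = 1) (hne : ζ₁ ≠ ζ₂) (he : Φ ζ₁ = Φ ζ₂) : False := by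
  have hUJ : Disjoint U J := by
    rw [disjoint_left]
    intro x hx hJ
    have : x ∈ U ∪ V := Or.inl hx
    rw [hs.union] at this
    exact this hJ
  have hVJ : Disjoint V J := by
    rw [disjoint_left]
    intro x hx hJ
    have : x ∈ U ∪ V := Or.inr hx
    rw [hs.union] at this
    exact this hJ
  set w := Φ ζ₁ with hw
  have hwJ : w ∈ J := caj_J h h1
  have hwU : w ∉ U := fun hU => disjoint_left.1 hUJ hU hwJ
  have A1 := caj_arc h hUJ h1
  have A2 := caj_arc h hUJ h2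
  rw [← he] at A2
  -- points of the arcs
  have hL : ∀ {ζ : ℂ}, ‖ζ‖ = 1 → Φ ζ = w → ∀ x ∈ cajL Φ ζ, x ∈ U ∨ x = w := by
    rintro ζ hζ hζw x ⟨t, ht, rfl⟩
    rcases lt_or_eq_of_le ht.2 with h3 | h3
    · left
      exact caj_U h (by rw [caj_norm hζ ht.1]; exact h3)
    · right
      simp only
      rw [h3, Complex.ofReal_one, one_mul, hζw]
  have hint : cajL Φ ζ₁ ∩ cajL Φ ζ₂ = {Φ 0, w} := by
    apply Subset.antisymm
    · rintro x ⟨⟨s, hs', rfl⟩, hx2⟩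
      rcases lt_or_eq_of_le hs'.2 with h3 | h3
      · left
        have hn : ‖(s : ℂ) * ζ₁‖ < 1 := by rw [caj_norm h1 hs'.1]; exact h3
        obtain ⟨t, ht0, ht1, e⟩ := caj_mem h hUJ h2 hn hx2
        have e1 : s = t := by
          rw [← caj_norm h1 hs'.1, e, caj_norm h2 ht0]
        simp only
        rw [← e1] at e
        by_cases h0 : (s : ℂ) = 0
        · rw [h0, zero_mul]
        · exact absurd (mul_left_cancel₀ h0 e) hne
      · right
        simp only [mem_singleton_iff]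
        rw [h3, Complex.ofReal_one, one_mul]
    · rintro x (rfl | rfl)
      · exact ⟨A1.left_mem, A2.left_mem⟩
      · exact ⟨A1.right_mem, A2.right_mem⟩
  have hΓ := IsJordan.glue A1 A2 hint
  set Γ := cajL Φ ζ₁ ∪ cajL Φ ζ₂ with hΓd
  obtain ⟨I, E, hIE⟩ := hΓ.jct
  have hΓU : ∀ x ∈ Γ, x ∈ U ∨ x = w := by
    rintro x (hx | hx)
    · exact hL h1 rfl x hx
    · exact hL h2 he.symm x hx
  -- (a)
  have hVΓ : V ⊆ I ∪ E := by
    rw [hIE.union]
    intro x hx hxΓ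
    rcases hΓU x hxΓ with h3 | h3
    · exact disjoint_left.1 hs.disj h3 hx
    · rw [h3] at hx
      exact disjoint_left.1 hVJ hx hwJ
  have hVE : V ⊆ E := by
    rcases hs.connV.isPreconnected.subset_or_subset hIE.openU hIE.openV hIE.disj hVΓ with h3 | h3
    · exact absurd (hIE.bddU.subset h3) hs.bddV
    · exact h3
  have hIΓ : ∀ x ∈ I, x ∉ Γ := by
    intro x hx
    have : x ∈ I ∪ E := Or.inl hx
    rw [hIE.union] at this
    exact this
  have hIJ : ∀ x ∈ I, x ∉ J := by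
    intro x hxI hxJ
    have h3 : x ∈ closure E := by
      rw [← hs.frV] at hxJ
      exact closure_mono hVE (frontier_subset_closure hxJ)
    rw [closure_eq_self_union_frontier, hIE.frV] at h3
    rcases h3 with h3 | h3
    · exact disjoint_left.1 hIE.disj hxI h3
    · exact hIΓ x hxI h3
  have hIU : I ⊆ U := by
    intro x hxI
    by_contra hxU
    have h3 : x ∈ Jᶜ := hIJ x hxI
    rw [← hs.union] at h3
    rcases h3 with h3 | h3
    · exact hxU h3
    · exact disjoint_left.1 hIE.disj hxI (hVE h3)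
  -- (b)
  obtain ⟨y, hy⟩ := hIE.connU.nonempty
  have hyU := hIU hy
  rw [← h.imball] at hyU
  obtain ⟨z₀, hz₀, rfl⟩ := hyU
  rw [mem_ball_zero_iff] at hz₀
  set t₀ := ‖z₀‖ with ht₀
  have hz0 : z₀ ≠ 0 := by
    intro h0
    rw [h0] at hy
    exact hIΓ _ hy (Or.inl A1.left_mem)
  have ht0 : 0 < t₀ := norm_pos_iff.2 hz0
  have hpol : (t₀ : ℂ) * Complex.exp (z₀.arg * Complex.I) = z₀ := Complex.norm_mul_exp_arg_mul_I z₀
  -- the open set of good points
  have hD : IsOpen (ball (0 : ℂ) 1 ∩ Φ ⁻¹' I) :=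
    (h.cont.mono ball_subset_closedBall).isOpen_inter_preimage isOpen_ball hIE.openU
  have hcont : Continuous fun x : ℝ => (t₀ : ℂ) * Complex.exp (x * Complex.I) := by fun_prop
  have hO := hD.preimage hcont
  have hx0 : z₀.arg ∈ (fun x : ℝ => (t₀ : ℂ) * Complex.exp (x * Complex.I)) ⁻¹' (ball (0 : ℂ) 1 ∩ Φ ⁻¹' I) := by
    show (t₀ : ℂ) * Complex.exp (z₀.arg * Complex.I) ∈ ball (0 : ℂ) 1 ∩ Φ ⁻¹' I
    rw [hpol]
    exact ⟨mem_ball_zero_iff.2 hz₀, hy⟩
  obtain ⟨δ, hδ, hsub⟩ := Metric.isOpen_iff.1 hO _ hx0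
  refine h.not_const (α := z₀.arg - δ) (β := z₀.arg + δ) (by linarith) w ?_
  intro x hx
  have hxD : (t₀ : ℂ) * Complex.exp (x * Complex.I) ∈ ball (0 : ℂ) 1 ∩ Φ ⁻¹' I := by
    apply hsub
    rw [Real.ball_eq_Ioo]
    exact hx
  have hex : ‖Complex.exp (x * Complex.I)‖ = 1 := Complex.norm_exp_ofReal_mul_I x
  -- the open segment
  have hseg : ∀ t ∈ Ioo (0 : ℝ) 1, Φ ((t : ℂ) * Complex.exp (x * Complex.I)) ∉ Γ := by
    intro t ht hm
    have hn : ‖(t : ℂ) * Complex.exp (x * Complex.I)‖ < 1 := by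
      rw [caj_norm hex ht.1.le]
      exact ht.2
    have aux : ∀ {ζ : ℂ}, ‖ζ‖ = 1 → cajL Φ ζ ⊆ Γ → Φ ((t : ℂ) * Complex.exp (x * Complex.I)) ∈ cajL Φ ζ → False := by
      intro ζ hζ hsubΓ hm'
      obtain ⟨s, hs0, hs1, e⟩ := caj_mem h hUJ hζ hn hm'
      have e1 : t = s := by
        rw [← caj_norm hex ht.1.le, e, caj_norm hζ hs0]
      rw [← e1] at e
      have ht' : (t : ℂ) ≠ 0 := by exact_mod_cast ht.1.ne'
      have e2 := mul_left_cancel₀ ht' e
      refine hIΓ _ hxD.2 (hsubΓ ?_)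
      rw [e2]
      exact ⟨t₀, ⟨ht0.le, hz₀.le⟩, rfl⟩
    rcases hm with hm | hm
    · exact aux h1 subset_union_left hm
    · exact aux h2 subset_union_right hm
  have hcs : ContinuousOn (fun t : ℝ => Φ ((t : ℂ) * Complex.exp (x * Complex.I))) (Icc 0 1) := by
    refine h.cont.comp (f := fun t : ℝ => (t : ℂ) * Complex.exp (x * Complex.I)) ?_ ?_
    · apply Continuous.continuousOn
      fun_prop
    · intro t ht
      rw [mem_closedBall_zero_iff, caj_norm hex ht.1]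
      exact ht.2
  have himg : (fun t : ℝ => Φ ((t : ℂ) * Complex.exp (x * Complex.I))) '' Ioo 0 1 ⊆ I := by
    have hpre : IsPreconnected ((fun t : ℝ => Φ ((t : ℂ) * Complex.exp (x * Complex.I))) '' Ioo 0 1) :=
      isPreconnected_Ioo.image _ (hcs.mono Ioo_subset_Icc_self)
    have hsubIE : (fun t : ℝ => Φ ((t : ℂ) * Complex.exp (x * Complex.I))) '' Ioo 0 1 ⊆ I ∪ E := by
      rintro _ ⟨t, ht, rfl⟩
      rw [hIE.union]
      exact hseg t ht
    rcases hpre.subset_or_subset hIE.openU hIE.openV hIE.disj hsubIE with h3 | h3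
    · exact h3
    · exact absurd (h3 ⟨t₀, ⟨ht0, hz₀⟩, rfl⟩) (disjoint_left.1 hIE.disj hxD.2)
  -- (c)
  have hcl : Φ (Complex.exp (x * Complex.I)) ∈ closure I := by
    have h3 : (1 : ℝ) ∈ closure (Ioo (0 : ℝ) 1) := by
      rw [closure_Ioo zero_ne_one]
      exact ⟨zero_le_one, le_rfl⟩
    have h4 : ContinuousWithinAt (fun t : ℝ => Φ ((t : ℂ) * Complex.exp (x * Complex.I))) (Ioo 0 1) 1 :=
      (hcs 1 ⟨zero_le_one, le_rfl⟩).mono Ioo_subset_Icc_self
    have h5 := h4.mem_closure_image h3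
    simp only [Complex.ofReal_one, one_mul] at h5
    exact closure_mono himg h5
  rw [closure_eq_self_union_frontier, hIE.frU] at hcl
  have hJ' : Φ (Complex.exp (x * Complex.I)) ∈ J := caj_J h hex
  rcases hcl with h3 | h3
  · exact absurd hJ' (hIJ _ h3)
  · rcases hΓU _ h3 with h4 | h4
    · exact absurd hJ' (disjoint_left.1 hUJ h4)
    · exact h4

theorem Ext.injOn {J U V : Set ℂ} (hs : Jsep J U V) {Φ : ℂ → ℂ} (h : Ext J U Φ) : InjOn Φ (closedBall 0 1) := by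
  have hUJ : Disjoint U J := by
    rw [disjoint_left]
    intro x hx hJ
    have : x ∈ U ∪ V := Or.inl hx
    rw [hs.union] at this
    exact this hJ
  intro z₁ h₁ z₂ h₂ he
  rw [mem_closedBall_zero_iff] at h₁ h₂
  rcases lt_or_eq_of_le h₁ with a1 | a1 <;> rcases lt_or_eq_of_le h₂ with a2 | a2
  · exact h.inj (mem_ball_zero_iff.2 a1) (mem_ball_zero_iff.2 a2) he
  · exfalso
    have := caj_J h a2
    rw [← he] at this
    exact disjoint_left.1 hUJ (caj_U h a1) this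
  · exfalso
    have := caj_J h a1
    rw [he] at this
    exact disjoint_left.1 hUJ (caj_U h a2) this
  · by_contra hne
    exact caj_main hs h a1 a2 hne he

end Pool.JS
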