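import Mathlib

/-!
# Planar topology (Jordan, Schoenflies): definitions

The basic tool is the existence of continuous logarithms on compact subsets of the plane (Eilenberg, Borsuk).
-/

open Set Metric Topology

namespace Pool.JS

/-- `f` has a continuous logarithm on `K` -/
def HasLog (K : Set ℂ) (f : ℂ → ℂ) : Prop :=
  ∃ g : ℂ → ℂ, ContinuousOn g K ∧ ∀ z ∈ K, Complex.exp (g z) = f z

/-- `a` and `b` lie in one connected subset of the complement of `K` -/
def Con (K : Set ℂ) (a b : ℂ) : Prop :=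
  ∃ C : Set ℂ, IsPreconnected C ∧ C ⊆ Kᶜ ∧ a ∈ C ∧ b ∈ C

/-- `a` lies in an unbounded connected subset of the complement of `K` -/
def Esc (K : Set ℂ) (a : ℂ) : Prop :=
  ∃ C : Set ℂ, IsPreconnected C ∧ C ⊆ Kᶜ ∧ a ∈ C ∧ ¬ Bornology.IsBounded C

/-- `A` is an arc with end points `p` and `q` -/
def ArcFrom (A : Set ℂ) (p q : ℂ) : Prop :=
  ∃ γ : ℝ → ℂ, ContinuousOn γ (Icc 0 1) ∧ InjOn γ (Icc 0 1) ∧ γ '' Icc 0 1 = A ∧ γ 0 = p ∧ γ 1 = q

/-- `J` is a simple closed curve -/
def IsJordan (J : Set ℂ) : Prop :=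
  ∃ γ : ℂ → ℂ, ContinuousOn γ (sphere 0 1) ∧ InjOn γ (sphere 0 1) ∧ γ '' sphere 0 1 = J

/-- `U` is the inner domain and `V` the outer domain of `J` -/
structure Jsep (J U V : Set ℂ) : Prop where
  openU : IsOpen U
  openV : IsOpen V
  connU : IsConnected U
  connV : IsConnected V
  disj : Disjoint U V
  union : U ∪ V = Jᶜ
  bddU : Bornology.IsBounded U
  bddV : ¬ Bornology.IsBounded V
  frU : frontier U = J
  frV : frontier V = J

end Pool.JS
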