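import Pool.Agent.JS.Arc
import Pool.Agent.JS.JorA

/-!
MODULE JorB (difficulty 3).  A simple closed curve separates the plane.

RECIPE.  Suppose every `a ∉ J` has `Esc J a`.  Then any two points of `Jᶜ` are joined (`Esc.con`), so `Jᶜ` is preconnected (it is one component; `isPreconnected_of_forall_pair`) and open.
Let `p ≠ q` in `J` (`J` nonempty, `exists_ne`), `A`, `B` the two arcs (`split`), `0 < r < dist p q`, `S = sphere p r` (`p, q ∉ S`).
`S₁ = {z ∈ S | infDist z B ≤ infDist z A}`, `S₂ = {z ∈ S | infDist z A ≤ infDist z B}`: compact, `S₁ ∪ S₂ = S`, `S₁ ∩ A = ∅` (if `z ∈ A`, `infDist z B ≤ 0`, `z ∈ B` closed, so `z ∈ {p, q}`),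
`S₂ ∩ B = ∅`, so `S₁ ∩ S₂ ⊆ Jᶜ`.  `P` compact preconnected, `S₁ ∩ S₂ ⊆ P ⊆ Jᶜ` (`exists_compact_connected`).  `K₁ = S₁ ∪ P` is disjoint from `A`, `K₂ = S₂ ∪ P` from `B`:
`Con K₁ p q` (with the connected set `A`), `Con K₂ p q` (with `B`), so `(z - p)/(z - q)` has logarithms on `K₁`, `K₂` (`hasLog_div_of_con`), `K₁ ∩ K₂ = P` (as `S₁ ∩ S₂ ⊆ P`), so on `K₁ ∪ K₂ ⊇ S`
(`HasLog.union`).  On `S`, `z - q = (p - q) (1 + (z - p)/(p - q))` has a logarithm (`hasLog_const`, `hasLog_of_near`, `‖z - p‖ = r < ‖p - q‖`), hence `z - p = (z - p) ^ 1` too: `not_sphere` (LgC), contradiction.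
-/

open Set Metric Topology

namespace Pool.JS

theorem IsJordan.exists_not_esc {J : Set ℂ} (hJ : IsJordan J) : ∃ a, a ∉ J ∧ ¬ Esc J a := by
  by_contra hcon
  have hesc : ∀ a, a ∉ J → Esc J a := by
    intro a ha
    by_contra h
    exact hcon ⟨a, ha, h⟩
  have hJc : IsCompact J := hJ.isCompact
  have hU : IsOpen Jᶜ := hJc.isClosed.isOpen_compl
  have hUc : IsPreconnected Jᶜ := by
    refine isPreconnected_of_forall_pair ?_
    intro a ha b hb
    obtain ⟨C, h1, h2, h3, h4⟩ := Esc.con hJc.isBounded (hesc a ha) (hesc b hb)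
    exact ⟨C, h2, h3, h4, h1⟩
  obtain ⟨p, hp⟩ := hJ.isConnected.nonempty
  obtain ⟨q, hq, hqp⟩ := hJ.exists_ne p
  obtain ⟨A, B, hA, hB, hAB, hABi⟩ := hJ.split hp hq (Ne.symm hqp)
  have hd : 0 < dist p q := dist_pos.2 (Ne.symm hqp)
  set r : ℝ := dist p q / 2 with hr
  have hr0 : 0 < r := by positivity
  have hrq : r < dist p q := by rw [hr]; linarith
  have hpS : p ∉ sphere p r := by
    rw [mem_sphere, dist_self]
    exact hr0.ne
  have hqS : q ∉ sphere p r := by
    rw [mem_sphere, dist_comm]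
    exact hrq.ne'
  have hAclosed : IsClosed A := hA.isCompact.isClosed
  have hBclosed : IsClosed B := hB.isCompact.isClosed
  have hAne : A.Nonempty := ⟨p, hA.left_mem⟩
  have hBne : B.Nonempty := ⟨p, hB.left_mem⟩
  have key : ∀ z ∈ sphere p r, z ∈ A → z ∈ B → False := by
    intro z hz h1 h2
    have h3 : z ∈ ({p, q} : Set ℂ) := hABi ▸ ⟨h1, h2⟩
    rcases h3 with h3 | h3
    · rw [h3] at hz; exact hpS hz
    · rw [mem_singleton_iff.1 h3] at hz; exact hqS hz
  set S₁ : Set ℂ := sphere p r ∩ {z | infDist z B ≤ infDist z A} with hS₁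
  set S₂ : Set ℂ := sphere p r ∩ {z | infDist z A ≤ infDist z B} with hS₂
  have hS₁c : IsCompact S₁ := (isCompact_sphere p r).inter_right
    (isClosed_le (continuous_infDist_pt B) (continuous_infDist_pt A))
  have hS₂c : IsCompact S₂ := (isCompact_sphere p r).inter_right
    (isClosed_le (continuous_infDist_pt A) (continuous_infDist_pt B))
  have hS₁A : ∀ z ∈ S₁, z ∉ A := by
    intro z hz hzA
    have h1 : infDist z B ≤ infDist z A := hz.2
    rw [infDist_zero_of_mem hzA] at h1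
    have h2 : infDist z B = 0 := le_antisymm h1 infDist_nonneg
    exact key z hz.1 hzA ((hBclosed.mem_iff_infDist_zero hBne).2 h2)
  have hS₂B : ∀ z ∈ S₂, z ∉ B := by
    intro z hz hzB
    have h1 : infDist z A ≤ infDist z B := hz.2
    rw [infDist_zero_of_mem hzB] at h1
    have h2 : infDist z A = 0 := le_antisymm h1 infDist_nonneg
    exact key z hz.1 ((hAclosed.mem_iff_infDist_zero hAne).2 h2) hzB
  have hint : S₁ ∩ S₂ ⊆ Jᶜ := by
    intro z hz hzJ
    rw [← hAB] at hzJ
    rcases hzJ with h | h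
    · exact hS₁A z hz.1 h
    · exact hS₂B z hz.2 h
  obtain ⟨P, hPc, hPp, hP1, hP2⟩ := exists_compact_connected hU hUc (hS₁c.inter hS₂c) hint
  have hAJ : A ⊆ J := hAB ▸ subset_union_left
  have hBJ : B ⊆ J := hAB ▸ subset_union_right
  have c1 : Con (S₁ ∪ P) p q := by
    refine ⟨A, hA.isConnected.isPreconnected, ?_, hA.left_mem, hA.right_mem⟩
    intro z hz hz'
    rcases hz' with h | h
    · exact hS₁A z h hz
    · exact hP2 h (hAJ hz)
  have c2 : Con (S₂ ∪ P) p q := by
    refine ⟨B, hB.isConnected.isPreconnected, ?_, hB.left_mem, hB.right_mem⟩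
    intro z hz hz'
    rcases hz' with h | h
    · exact hS₂B z h hz
    · exact hP2 h (hBJ hz)
  have l1 := hasLog_div_of_con (hS₁c.union hPc) c1
  have l2 := hasLog_div_of_con (hS₂c.union hPc) c2
  have hPi : (S₁ ∪ P) ∩ (S₂ ∪ P) = P := by
    rw [← inter_union_distrib_right]
    exact union_eq_self_of_subset_left hP1
  have l3 := HasLog.union (hS₁c.union hPc).isClosed (hS₂c.union hPc).isClosed (by rw [hPi]; exact hPp) l1 l2
  have hsub : sphere p r ⊆ (S₁ ∪ P) ∪ (S₂ ∪ P) := by
    intro z hz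
    rcases le_total (infDist z B) (infDist z A) with h | h
    · exact Or.inl (Or.inl ⟨hz, h⟩)
    · exact Or.inr (Or.inl ⟨hz, h⟩)
  have l4 := l3.mono hsub
  have hpq0 : p - q ≠ 0 := sub_ne_zero.2 (Ne.symm hqp)
  have l5 : HasLog (sphere p r) (fun z => (p - q) * (1 + (z - p) / (p - q))) := by
    refine (hasLog_const hpq0).mul (hasLog_of_near (f := fun z => 1 + (z - p) / (p - q)) ?_ ?_)
    · fun_prop
    · intro z hz
      have h1 : ‖z - p‖ = r := by rw [← dist_eq_norm]; exact hz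
      have h2 : ‖p - q‖ = dist p q := (dist_eq_norm p q).symm
      rw [add_sub_cancel_left, norm_div, h1, h2, div_lt_one hd]
      exact hrq
  have l6 : HasLog (sphere p r) (fun z => z - q) := l5.congr fun z _ => by
    field_simp
    ring
  have l7 : HasLog (sphere p r) (fun z => (z - p) ^ (1 : ℤ)) := (l4.mul l6).congr fun z hz => by
    have h1 : z - q ≠ 0 := by
      rw [sub_ne_zero]
      rintro rfl
      exact hqS hz
    rw [zpow_one]
    field_simp
  have := not_sphere hr0 l7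
  exact one_ne_zero this

end Pool.JS
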