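import Pool.Agent.JS.LgB

/-!
MODULE LgC (difficulty 3).  Winding numbers of circles.

RECIPE.  `not_sphere`: suppose `g` is continuous on `sphere c R` with `exp (g z) = (z - c) ^ n`.  With `u θ = c + R exp (θ I)`,
`θ ∈ ℝ` (on the sphere), `exp (g (u θ)) = R ^ n exp (n θ I)`, so `k θ = g (u θ) - n θ I` is continuous on `ℝ` with `exp (k θ) = R ^ n`
constant; hence `k` is constant (its differences are integer multiples of `2 π I`, `ℝ` connected; `k θ - k 0` is a continuous function
with values in `{m * 2 π I}`), but `u (2 π) = u 0` gives `k (2 π) = k 0 - 2 π n I`, so `n = 0`.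
`no_ext`: `h` has a logarithm on the closed ball (`hasLog_of_convex`), so `(z - a) ^ n` has one on the sphere (`mono`, `congr`).
On the sphere `(z - c) / (z - a)` has a logarithm: `z ↦ 1 - t (a - c) / (z - c)`... precisely `(z - a) / (z - c) = 1 - (a - c) / (z - c)` and
`‖(a - c) / (z - c)‖ = ‖a - c‖ / R < 1`: `hasLog_of_near`.  So `(z - c) ^ n = (z - a) ^ n / ((z - a)/(z - c)) ^ n` has a logarithm
on the sphere, `not_sphere` gives `n = 0`.
-/

open Set Metric Topology

namespace Pool.JS

theorem not_sphere {c : ℂ} {R : ℝ} (hR : 0 < R) {n : ℤ} (h : HasLog (sphere c R) (fun z => (z - c) ^ n)) :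
    n = 0 := by
  obtain ⟨g, hg, hge⟩ := h
  have hRC : (R : ℂ) ≠ 0 := by exact_mod_cast hR.ne'
  have hC : IsPreconnected {w : ℂ | w.im = 0} := by
    have h1 : Convex ℝ {w : ℂ | w.im = 0} := by
      intro x hx y hy a b _ _ _
      have hx' : x.im = 0 := hx
      have hy' : y.im = 0 := hy
      show (a • x + b • y).im = 0
      rw [Complex.add_im, Complex.smul_im, Complex.smul_im, hx', hy', smul_zero, smul_zero, add_zero]
    exact h1.isPreconnected
  have hU : ∀ w : ℂ, w.im = 0 → c + R * Complex.exp (w * Complex.I) ∈ sphere c R := by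
    intro w hw
    rw [mem_sphere_iff_norm, add_sub_cancel_left, norm_mul, Complex.norm_real, Real.norm_eq_abs,
      abs_of_pos hR, Complex.norm_exp]
    have : (w * Complex.I).re = 0 := by
      rw [Complex.mul_re, Complex.I_re, Complex.I_im, hw]
      ring
    rw [this, Real.exp_zero, mul_one]
  have hUc : Continuous fun w : ℂ => c + R * Complex.exp (w * Complex.I) :=
    continuous_const.add (continuous_const.mul (Complex.continuous_exp.comp
      (continuous_id.mul continuous_const)))
  have h1 : ContinuousOn (fun w : ℂ => g (c + R * Complex.exp (w * Complex.I))) {w : ℂ | w.im = 0} :=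
    hg.comp hUc.continuousOn hU
  have h2 : ContinuousOn (fun w : ℂ => (n : ℂ) * (w * Complex.I + Complex.log R)) {w : ℂ | w.im = 0} :=
    (continuous_const.mul ((continuous_id.mul continuous_const).add continuous_const)).continuousOn
  obtain ⟨m, hm⟩ := log_unique hC h1 h2 (by
    intro w hw
    rw [hge _ (hU w hw), Complex.exp_int_mul, Complex.exp_add, Complex.exp_log hRC]
    show (c + R * Complex.exp (w * Complex.I) - c) ^ n = _
    rw [add_sub_cancel_left, mul_comm (R : ℂ)])
  have e0 := hm 0 (show (0 : ℂ).im = 0 from rfl)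
  have e1 := hm (2 * Real.pi) (by
    show ((2 : ℂ) * Real.pi).im = 0
    simp)
  have e2 : Complex.exp (2 * Real.pi * Complex.I) = Complex.exp (0 * Complex.I) := by
    rw [Complex.exp_two_pi_mul_I, zero_mul, Complex.exp_zero]
  rw [e2] at e1
  rw [e0] at e1
  have e3 : (n : ℂ) * (2 * Real.pi * Complex.I) = 0 := by
    linear_combination -e1
  rcases mul_eq_zero.mp e3 with h | h
  · exact_mod_cast h
  · exact absurd h Complex.two_pi_I_ne_zero

theorem no_ext {c a : ℂ} {R : ℝ} (ha : a ∈ ball c R) {h : ℂ → ℂ} (hc : ContinuousOn h (closedBall c R))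
    (h0 : ∀ z ∈ closedBall c R, h z ≠ 0) {n : ℤ} (hn : ∀ z ∈ sphere c R, h z = (z - a) ^ n) : n = 0 := by
  have hac : ‖a - c‖ < R := mem_ball_iff_norm.mp ha
  have hR : 0 < R := lt_of_le_of_lt (norm_nonneg _) hac
  have h1 : HasLog (closedBall c R) h :=
    hasLog_of_convex (isCompact_closedBall c R) (convex_closedBall c R) hc h0
  have h2 : HasLog (sphere c R) (fun z => (z - a) ^ n) := (h1.mono sphere_subset_closedBall).congr hn
  have hzc : ∀ z ∈ sphere c R, z - c ≠ 0 := by
    intro z hz e
    rw [mem_sphere_iff_norm, e, norm_zero] at hz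
    exact hR.ne hz
  have hza : ∀ z ∈ sphere c R, z - a ≠ 0 := by
    intro z hz e
    rw [mem_sphere_iff_norm] at hz
    have : z = a := sub_eq_zero.mp e
    rw [this] at hz
    linarith
  have h3 : HasLog (sphere c R) (fun z => (z - a) / (z - c)) := by
    apply hasLog_of_near
    · exact (continuousOn_id.sub continuousOn_const).div (continuousOn_id.sub continuousOn_const) hzc
    · intro z hz
      have e1 : (z - a) / (z - c) - 1 = (c - a) / (z - c) := by
        have := hzc z hz
        field_simp
        ring
      rw [e1, norm_div, mem_sphere_iff_norm.mp hz, norm_sub_rev, div_lt_one hR]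
      exact hac
  apply not_sphere hR (n := n) (c := c)
  apply (h2.div (h3.zpow n)).congr
  intro z hz
  have e1 := hzc z hz
  have e2 := hza z hz
  show (z - a) ^ n / ((z - a) / (z - c)) ^ n = (z - c) ^ n
  rw [div_zpow, div_div_eq_mul_div, mul_comm, mul_div_assoc, div_self (zpow_ne_zero n e2), mul_one]

end Pool.JS
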