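import Pool.Agent.JS.PgDefs
import Pool.Agent.JS.ThA
import Pool.Agent.JS.SpA
import Pool.Agent.JS.SpD

/-!
MODULE PgA (difficulty 2).  First facts on finite plane graphs, faces and disc domains.

RECIPE.  `sub`: for `e ∈ D`: `e ∩ (V ∩ ⋃₀ D) = e ∩ V`.  `mem_Fc_iff`: `FaceX` (module ThDefs) of `⋃₀ E`: the component `connectedComponentIn Gᶜ x` has these properties, a `FaceX` is the component of each of its points.
`locConn`: every point of `X` is in the range of a chart (open embedding of `ℂ`), e.g. `locallyConnectedSpace_iff_subsets_isOpen_isConnected` (images of small balls; take two charts at different points; `X` has at least two points since `{x}ᶜ ≃ₜ ℂ`).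
`Fc.isOpen`: the complement of the closed set `⋃₀ E` is open, `IsOpen.connectedComponentIn`.  `Fc.frontier_sub`: a point of `frontier U \ ⋃₀ E` would be in a face `U'` (open), `U' ∩ U` nonempty, `U' = U`, but `U` is open and disjoint from its frontier.
`DiscDom`: with `Φ`: `closure U = Φ '' closedBall`, `frontier U = Φ '' sphere`, `U = Φ '' ball`; as `Φ` is injective `U = closure U \ frontier U = interior U`, open.  `noCut` for `closure U`: the closed ball without one point is connected (star shaped, or convex minus a point in dimension 2: every two points of `closedBall \ {z}` are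
joined by a segment or a broken line; or: `closure U \ {x}` lies between the connected set `U \ {x}` and its closure, and `ball \ {z}` is connected: `IsOpen.isConnected_compl_singleton`-type lemmas `IsConnected.isConnected_compl_singleton_of_...`; for `x ∉ U` the set `closure U \ {x}` lies between `U` and `closure U`).
`JorX.noCut`: for `u ≠ v` in `J \ {x}` `JorX.split` gives two arcs from `u` to `v` in `J`; one of them does not contain `x` (`A ∩ B = {u, v}`): `isPreconnected_of_forall_pair`.
-/

open Set Metric Topology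

namespace Pool.JS

variable {X : Type*} [TopologicalSpace X]

private theorem pga_closedBall (z : ℂ) : IsPreconnected (closedBall (0 : ℂ) 1 \ {z}) := by
  rcases lt_trichotomy ‖z‖ 1 with hz | hz | hz
  · -- radial image of the circle
    have hrank : 1 < Module.rank ℝ ℂ := by
      rw [Complex.rank_real_complex]
      norm_num
    have hs : IsPreconnected (sphere (0 : ℂ) 1) := isPreconnected_sphere hrank 0 1
    have hI : IsPreconnected (Ioc (0 : ℝ) 1) := isPreconnected_Ioc
    have hp := (hs.prod hI).image (fun x : ℂ × ℝ => z + (x.2 : ℂ) * (x.1 - z)) (by fun_prop)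
    have he : (fun x : ℂ × ℝ => z + (x.2 : ℂ) * (x.1 - z)) '' (sphere (0 : ℂ) 1 ×ˢ Ioc (0 : ℝ) 1) =
        closedBall (0 : ℂ) 1 \ {z} := by
      apply Subset.antisymm
      · rintro w ⟨⟨s, t⟩, ⟨hs1, ht⟩, rfl⟩
        simp only [mem_sphere_iff_norm, sub_zero] at hs1
        have ht0 : (0 : ℝ) < t := ht.1
        have ht1 : t ≤ 1 := ht.2
        refine ⟨?_, ?_⟩
        · rw [mem_closedBall_zero_iff]
          have : z + (t : ℂ) * (s - z) = ((1 - t : ℝ) : ℂ) * z + (t : ℂ) * s := by
            push_cast
            ring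
          simp only
          rw [this]
          calc ‖((1 - t : ℝ) : ℂ) * z + (t : ℂ) * s‖ ≤ ‖((1 - t : ℝ) : ℂ) * z‖ + ‖(t : ℂ) * s‖ :=
                norm_add_le _ _
            _ = (1 - t) * ‖z‖ + t * ‖s‖ := by
                rw [norm_mul, norm_mul, Complex.norm_real, Complex.norm_real, Real.norm_eq_abs,
                  Real.norm_eq_abs, abs_of_nonneg (by linarith), abs_of_pos ht0]
            _ ≤ 1 := by
                rw [hs1]
                nlinarith
        · intro hw
          rw [mem_singleton_iff] at hw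
          simp only at hw
          have h0 : (t : ℂ) * (s - z) = 0 := by
            have := congrArg (fun w => w - z) hw
            simpa using this
          rcases mul_eq_zero.1 h0 with h | h
          · exact ht0.ne' (by exact_mod_cast h)
          · have : s = z := sub_eq_zero.1 h
            rw [this] at hs1
            linarith
      · rintro w ⟨hw, hwz⟩
        rw [mem_closedBall_zero_iff] at hw
        have hwz' : w ≠ z := fun h => hwz h
        have hd : 0 < ‖w - z‖ := norm_pos_iff.2 (sub_ne_zero.2 hwz')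
        -- `r ≥ 1` with `‖z + r (w - z)‖ = 1`
        have hcont : ContinuousOn (fun r : ℝ => ‖z + (r : ℂ) * (w - z)‖) (Icc 1 (1 + 2 / ‖w - z‖)) := by
          fun_prop
        have hle : (1 : ℝ) ≤ 1 + 2 / ‖w - z‖ := by
          have : 0 < 2 / ‖w - z‖ := by positivity
          linarith
        have hivt := intermediate_value_Icc hle hcont
        have h1 : ‖z + ((1 : ℝ) : ℂ) * (w - z)‖ ≤ 1 := by
          have : z + ((1 : ℝ) : ℂ) * (w - z) = w := by
            push_cast
            ring
          rw [this]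
          exact hw
        have h2 : 1 ≤ ‖z + ((1 + 2 / ‖w - z‖ : ℝ) : ℂ) * (w - z)‖ := by
          have h3 : ‖((1 + 2 / ‖w - z‖ : ℝ) : ℂ) * (w - z)‖ = ‖w - z‖ + 2 := by
            rw [norm_mul, Complex.norm_real, Real.norm_eq_abs, abs_of_nonneg (by linarith)]
            field_simp
          have h4 := norm_sub_le (z + ((1 + 2 / ‖w - z‖ : ℝ) : ℂ) * (w - z)) z
          rw [add_sub_cancel_left, h3] at h4
          linarith
        obtain ⟨r, hr, hr1⟩ := hivt ⟨h1, h2⟩
        simp only at hr1
        have hr0 : (0 : ℝ) < r := by linarith [hr.1]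
        have hrc : (r : ℂ) ≠ 0 := by exact_mod_cast hr0.ne'
        refine ⟨(z + (r : ℂ) * (w - z), 1 / r), ⟨?_, ?_, ?_⟩, ?_⟩
        · rw [mem_sphere_zero_iff_norm]
          exact hr1
        · show (0 : ℝ) < 1 / r
          positivity
        · show (1 : ℝ) / r ≤ 1
          rw [div_le_one hr0]
          exact hr.1
        · simp only
          push_cast
          field_simp
          ring
    rw [← he]
    exact hp
  · -- an extreme point
    have h1 : IsPreconnected (ball (0 : ℂ) 1) := (convex_ball (0 : ℂ) 1).isPreconnected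
    refine h1.subset_closure ?_ ?_
    · intro w hw
      refine ⟨ball_subset_closedBall hw, ?_⟩
      rintro rfl
      rw [mem_ball_zero_iff] at hw
      linarith
    · rw [closure_ball (0 : ℂ) one_ne_zero]
      exact sdiff_subset
  · have : closedBall (0 : ℂ) 1 \ {z} = closedBall (0 : ℂ) 1 := by
      apply sdiff_singleton_eq_self
      rw [mem_closedBall_zero_iff]
      linarith
    rw [this]
    exact (convex_closedBall (0 : ℂ) 1).isPreconnected

section

variable {V : Set X} {E D : Set (Set X)} {U U' G : Set X} {x : X}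

theorem PG.gr (h : PG V E) : GrX V E := ⟨h.finV, h.finE, h.arc, h.inter⟩

theorem PG.subV (h : PG V E) : V ⊆ ⋃₀ E := by
  intro v hv
  obtain ⟨e, he, hve⟩ := h.vert v hv
  exact ⟨e, he, hve⟩

theorem PG.carX_eq (h : PG V E) : carX V E = ⋃₀ E := by
  unfold carX
  exact union_eq_self_of_subset_left h.subV

theorem PG.sub (h : PG V E) (hD : D ⊆ E) : PG (V ∩ ⋃₀ D) D := by
  refine ⟨h.finV.subset inter_subset_left, h.finE.subset hD, ?_, ?_, ?_⟩
  · intro e he
    obtain ⟨a, ha, b, hb, hab, hV⟩ := h.arc e (hD he)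
    have ha' : a ∈ e := by
      have : a ∈ e ∩ V := by
        rw [hV]
        exact mem_insert _ _
      exact this.1
    have hb' : b ∈ e := by
      have : b ∈ e ∩ V := by
        rw [hV]
        exact mem_insert_of_mem _ rfl
      exact this.1
    refine ⟨a, ⟨ha, e, he, ha'⟩, b, ⟨hb, e, he, hb'⟩, hab, ?_⟩
    rw [← hV]
    ext y
    constructor
    · rintro ⟨h1, h2, -⟩
      exact ⟨h1, h2⟩
    · rintro ⟨h1, h2⟩
      exact ⟨h1, h2, e, he, h1⟩
  · intro e he e' he' hne y hy
    exact ⟨h.inter e (hD he) e' (hD he') hne hy, e, he, hy.1⟩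
  · rintro v ⟨-, e, he, hv⟩
    exact ⟨e, he, hv⟩

theorem PG.isClosed_sUnion [T2Space X] (h : PG V E) (hD : D ⊆ E) : IsClosed (⋃₀ D) := by
  rw [sUnion_eq_biUnion]
  refine (h.finE.subset hD).isClosed_biUnion ?_
  intro e he
  obtain ⟨a, ha, b, hb, hab, hV⟩ := h.arc e (hD he)
  exact hab.isCompact.isClosed

theorem mem_Fc_iff : U ∈ Fc E ↔ FaceX (⋃₀ E) U := by
  constructor
  · rintro ⟨x, hx, rfl⟩
    refine ⟨⟨x, mem_connectedComponentIn hx⟩, isPreconnected_connectedComponentIn,
      connectedComponentIn_subset _ _, ?_⟩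
    rintro C hC hCs ⟨y, hyC, hy⟩
    rw [connectedComponentIn_eq hy]
    exact hC.subset_connectedComponentIn hyC hCs
  · intro h
    obtain ⟨x, hx⟩ := h.ne
    refine ⟨x, h.sub hx, Subset.antisymm (h.conn.subset_connectedComponentIn hx h.sub) ?_⟩
    exact h.max _ isPreconnected_connectedComponentIn (connectedComponentIn_subset _ _)
      ⟨x, mem_connectedComponentIn (h.sub hx), hx⟩

theorem Fc.disj (hU : U ∈ Fc E) (hU' : U' ∈ Fc E) (h : U ≠ U') : Disjoint U U' := by
  rw [Set.disjoint_iff_inter_eq_empty]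
  by_contra hne
  exact h ((mem_Fc_iff.1 hU).eq (mem_Fc_iff.1 hU') (nonempty_iff_ne_empty.2 hne))

theorem Fc.exists_mem (hx : x ∉ ⋃₀ E) : ∃ U ∈ Fc E, x ∈ U :=
  ⟨_, ⟨x, hx, rfl⟩, mem_connectedComponentIn hx⟩

theorem DiscDom.isOpen (h : DiscDom U) : IsOpen U := by
  obtain ⟨Φ, hc, hi, h1, h2, h3⟩ := h
  have h4 : U ⊆ interior U := by
    intro y hy
    by_contra hn
    have hf : y ∈ frontier U := ⟨subset_closure hy, hn⟩
    rw [← h2] at hf
    rw [← h3] at hy
    obtain ⟨a, ha, hay⟩ := hf
    obtain ⟨b, hb, hby⟩ := hy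
    have := hi (sphere_subset_closedBall ha) (ball_subset_closedBall hb) (hay.trans hby.symm)
    subst this
    rw [mem_sphere] at ha
    rw [mem_ball] at hb
    linarith
  have : U = interior U := Subset.antisymm h4 interior_subset
  rw [this]
  exact isOpen_interior

theorem DiscDom.isConnected (h : DiscDom U) : IsConnected U := by
  obtain ⟨Φ, hc, hi, h1, h2, h3⟩ := h
  rw [← h3]
  exact ((convex_ball (0 : ℂ) 1).isConnected ⟨0, mem_ball_self one_pos⟩).image Φ
    (hc.mono ball_subset_closedBall)

theorem DiscDom.jordan (h : DiscDom U) : JorX (frontier U) := by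
  obtain ⟨Φ, hc, hi, h1, h2, h3⟩ := h
  exact ⟨Φ, hc.mono sphere_subset_closedBall, hi.mono sphere_subset_closedBall, h2⟩

theorem DiscDom.noCut (h : DiscDom U) : NoCut (closure U) := by
  obtain ⟨Φ, hc, hi, h1, h2, h3⟩ := h
  intro x
  rw [← h1]
  by_cases hx : x ∈ Φ '' closedBall 0 1
  · obtain ⟨z, hz, rfl⟩ := hx
    have : Φ '' closedBall 0 1 \ {Φ z} = Φ '' (closedBall 0 1 \ {z}) := by
      apply Subset.antisymm
      · rintro y ⟨⟨w, hw, rfl⟩, hy⟩
        exact ⟨w, ⟨hw, fun hwz => hy (by rw [mem_singleton_iff.1 hwz]; rfl)⟩, rfl⟩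
      · rintro y ⟨w, ⟨hw, hwz⟩, rfl⟩
        exact ⟨⟨w, hw, rfl⟩, fun hy => hwz (hi hw hz hy)⟩
    rw [this]
    exact (pga_closedBall z).image Φ (hc.mono sdiff_subset)
  · rw [sdiff_singleton_eq_self hx]
    exact (convex_closedBall (0 : ℂ) 1).isPreconnected.image Φ hc

theorem JorX.noCut [T2Space X] (h : JorX G) : NoCut G := by
  intro x
  apply isPreconnected_of_forall_pair
  rintro u ⟨hu, hux⟩ v ⟨hv, hvx⟩
  by_cases huv : u = v
  · subst huv
    exact ⟨{u}, by
      rintro y rfl
      exact ⟨hu, hux⟩, rfl, rfl, isPreconnected_singleton⟩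
  · obtain ⟨A, B, hA, hB, hAB, hI⟩ := h.split hu hv huv
    by_cases hxA : x ∈ A
    · have hxB : x ∉ B := by
        intro hxB
        have : x ∈ A ∩ B := ⟨hxA, hxB⟩
        rw [hI] at this
        rcases this with h1 | h1
        · exact hux (by rw [h1]; rfl)
        · exact hvx (by rw [mem_singleton_iff.1 h1]; rfl)
      refine ⟨B, ?_, hB.left_mem, hB.right_mem, hB.isConnected.isPreconnected⟩
      intro y hy
      refine ⟨?_, ?_⟩
      · rw [← hAB]
        exact Or.inr hy
      · rintro rfl
        exact hxB hy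
    · refine ⟨A, ?_, hA.left_mem, hA.right_mem, hA.isConnected.isPreconnected⟩
      intro y hy
      refine ⟨?_, ?_⟩
      · rw [← hAB]
        exact Or.inl hy
      · rintro rfl
        exact hxA hy

end

private theorem pga_chart [T2Space X] [Sph X] (x : X) :
    ∃ (y : X) (σ : ℂ → X) (z : ℂ), Chart y σ ∧ σ z = x := by
  obtain ⟨τ, hτ⟩ := exists_chart x
  obtain ⟨σ, hσ⟩ := exists_chart (τ 0)
  obtain ⟨z, hz⟩ := hσ.exists_eq (hτ.ne 0).symm
  exact ⟨τ 0, σ, z, hσ, hz⟩

theorem locConn [CompactSpace X] [T2Space X] [Sph X] : LocallyConnectedSpace X := by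
  choose y σ z hσ hz using fun x : X => pga_chart x
  refine locallyConnectedSpace_of_connected_bases (fun x ε => σ x '' ball (z x) ε)
    (fun _ ε => (0 : ℝ) < ε) ?_ ?_
  · intro x
    have h1 := (Metric.nhds_basis_ball (x := z x)).map (σ x)
    rw [(hσ x).emb.map_nhds_eq, hz x] at h1
    exact h1
  · intro x ε _
    exact (convex_ball (z x) ε).isPreconnected.image _ (hσ x).cont.continuousOn

theorem sph_compl [CompactSpace X] [T2Space X] [Sph X] (x : X) : IsConnected ({x}ᶜ : Set X) := by
  obtain ⟨σ, hσ⟩ := exists_chart x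
  rw [← hσ.range]
  exact isConnected_range hσ.cont

theorem Fc.isOpen [CompactSpace X] [T2Space X] [Sph X] {V : Set X} {E : Set (Set X)} {U : Set X} (h : PG V E)
    (hU : U ∈ Fc E) : IsOpen U := by
  have : LocallyConnectedSpace X := locConn
  obtain ⟨x, hx, rfl⟩ := hU
  exact (h.isClosed_sUnion subset_rfl).isOpen_compl.connectedComponentIn

theorem Fc.frontier_sub [CompactSpace X] [T2Space X] [Sph X] {V : Set X} {E : Set (Set X)} {U : Set X} (h : PG V E)
    (hU : U ∈ Fc E) : frontier U ⊆ ⋃₀ E := by
  intro y hy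
  by_contra hn
  obtain ⟨U', hU', hyU'⟩ := Fc.exists_mem hn
  have h1 : (U' ∩ U).Nonempty := mem_closure_iff.1 hy.1 U' (Fc.isOpen h hU') hyU'
  have h2 : U' = U := (mem_Fc_iff.1 hU').eq (mem_Fc_iff.1 hU) h1
  apply hy.2
  rw [(Fc.isOpen h hU).interior_eq, ← h2]
  exact hyU'

end Pool.JS
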