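import Pool.Agent.JS.PgA
import Pool.Agent.JS.ThD

/-!
MODULE PgB (difficulty 2).  Edges are determined by the carrier.

RECIPE.  `mem_of_point`: `x ∈ e'` for some `e' ∈ D`; if `e' ≠ e` then `x ∈ e ∩ e' ⊆ V`.  `inner_sub`: the preconnected set `C ⊆ ⋃₀ E \ V` is covered by the closed sets `e` and `⋃₀ (E \ {e})`, which have only points of `V` in common; `C` meets `e` in `x`: `isPreconnected_closed_iff`.
`edge_sub`: `e \ V` is connected and dense in `e` (`GrX.edge_inner`), `inner_sub` for `C = e \ V` and the graph `E'`, closure.  `unique`: by symmetry `E ⊆ E'`: `e ∈ E`, `x ∈ e \ V`, `x ∈ e' ∈ E'`, `edge_sub` twice gives `e ⊆ e'` and `e' ⊆ e`.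
-/

open Set Metric Topology

namespace Pool.JS

variable {X : Type*} [TopologicalSpace X] [T2Space X] {V : Set X} {E E' D : Set (Set X)} {C e e' : Set X} {x : X}

private theorem pgb_mid (h : PG V E) (he : e ∈ E) : ∃ x ∈ e, x ∉ V := by
  obtain ⟨x, hx⟩ := (h.gr.edge_inner he).2.1.nonempty
  exact ⟨x, hx.1, hx.2⟩

theorem PG.mem_of_point (h : PG V E) (he : e ∈ E) (hD : D ⊆ E) (hx : x ∈ e) (hxV : x ∉ V) (hxD : x ∈ ⋃₀ D) : e ∈ D := by
  obtain ⟨e', he', hxe'⟩ := hxD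
  by_cases hee : e = e'
  · rw [hee]
    exact he'
  · exact absurd (h.inter e he e' (hD he') hee ⟨hx, hxe'⟩) hxV

theorem PG.mem_of_sub (h : PG V E) (he : e ∈ E) (hD : D ⊆ E) (hs : e ⊆ ⋃₀ D) : e ∈ D := by
  obtain ⟨x, hx, hxV⟩ := pgb_mid h he
  exact h.mem_of_point he hD hx hxV (hs hx)

theorem PG.sUnion_inj (h : PG V E) (hD : D ⊆ E) (hE' : E' ⊆ E) (he : ⋃₀ D = ⋃₀ E') : D = E' := by
  apply Subset.antisymm
  · intro d hd
    exact h.mem_of_sub (hD hd) hE' (he ▸ subset_sUnion_of_mem hd)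
  · intro d hd
    exact h.mem_of_sub (hE' hd) hD (he ▸ subset_sUnion_of_mem hd)

theorem PG.inner_sub (h : PG V E) (hC : IsPreconnected C) (hCs : C ⊆ ⋃₀ E \ V) (he : e ∈ E) (hx : x ∈ C) (hxe : x ∈ e) :
    C ⊆ e := by
  intro y hy
  by_contra hye
  have h1 : IsClosed e := (h.gr.edge_inner he).1.isClosed
  have h2 : IsClosed (⋃₀ (E \ {e})) := h.isClosed_sUnion sdiff_subset
  have hcov : C ⊆ e ∪ ⋃₀ (E \ {e}) := by
    intro z hz
    obtain ⟨e', he', hze'⟩ := (hCs hz).1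
    by_cases hee : e' = e
    · left
      rw [← hee]
      exact hze'
    · right
      exact ⟨e', ⟨he', hee⟩, hze'⟩
  have hyr : y ∈ ⋃₀ (E \ {e}) := by
    rcases hcov hy with h3 | h3
    · exact absurd h3 hye
    · exact h3
  obtain ⟨z, hzC, hze, e', ⟨he', hee⟩, hze'⟩ :=
    isPreconnected_closed_iff.1 hC e (⋃₀ (E \ {e})) h1 h2 hcov ⟨x, hx, hxe⟩ ⟨y, hy, hyr⟩
  exact (hCs hzC).2 (h.inter e he e' he' (fun h4 => hee h4.symm) ⟨hze, hze'⟩)

theorem PG.edge_sub (h : PG V E) (h' : PG V E') (hs : ⋃₀ E = ⋃₀ E') (he : e ∈ E) (he' : e' ∈ E') (hx : x ∈ e)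
    (hx' : x ∈ e') (hxV : x ∉ V) : e ⊆ e' := by
  have h1 := h.gr.edge_inner he
  have h2 : e \ V ⊆ e' := by
    refine h'.inner_sub h1.2.1.isPreconnected ?_ he' (x := x) ⟨hx, hxV⟩ hx'
    intro y hy
    refine ⟨?_, hy.2⟩
    rw [← hs]
    exact ⟨e, he, hy.1⟩
  have h3 : IsClosed e' := (h'.gr.edge_inner he').1.isClosed
  exact h1.2.2.trans (closure_minimal h2 h3)

/-- the set of edges is determined by the vertices and the carrier -/
theorem PG.unique (h : PG V E) (h' : PG V E') (hs : ⋃₀ E = ⋃₀ E') : E = E' := by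
  have key : ∀ {E E' : Set (Set X)}, PG V E → PG V E' → ⋃₀ E = ⋃₀ E' → E ⊆ E' := by
    intro E E' h h' hs e he
    obtain ⟨x, hx, hxV⟩ := pgb_mid h he
    have : x ∈ ⋃₀ E' := by
      rw [← hs]
      exact ⟨e, he, hx⟩
    obtain ⟨e', he', hx'⟩ := this
    have h1 := h.edge_sub h' hs he he' hx hx' hxV
    have h2 := h'.edge_sub h hs.symm he' he hx' hx hxV
    rw [Subset.antisymm h1 h2]
    exact he'
  exact Subset.antisymm (key h h' hs) (key h' h hs.symm)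

end Pool.JS
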