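import Pool.Agent.JS.PgB
import Pool.Agent.JS.ThD

/-!
MODULE PgD (difficulty 4).  Paths of edges.

RECIPE.  `nested`: let `γ` parametrise `A`, `γ 0 = a`.  If `C ⊆ A` is preconnected with `a ∈ C` and `γ s ∈ C`, then `γ '' Icc 0 s ⊆ C`: otherwise `γ r ∉ C` for some `r ∈ (0, s)` and `C` is covered by the closed sets `γ '' Icc 0 r`, `γ '' Icc r 1` whose intersection is `{γ r}`.  So two such sets, each with a point different from `a`, have infinitely many common points: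
state it as: `C, C' ⊆ A` preconnected, `a ∈ C ∩ C'`, both nontrivial, then `(C ∩ C').Infinite`.
`end_mem`: `a ∈ p = ⋃₀ E'`, `a ∈ e ∈ E'`; if `a ∉ V` then `a` is an inner point of the arc `e ⊆ p`; cut `e` at `a` (`ArcX.split`): `e = B ∪ C`, `B ∩ C = {a}`, both arcs, in contradiction to `nested` (`B ∩ C` would be infinite).
`end_edge`: existence: `a ∈ ⋃₀ E'`.  Uniqueness: two different edges through `a` in the arc would have infinitely many common points (`nested`), but `e ∩ e' ⊆ V` is finite.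
`cut`: `ArcX.split` at `c`: `p = B ∪ C`, `B ∩ C = {c}`; every edge `e ⊆ p` is in `B` or in `C` (`e \ V` is connected, `c ∈ V`, `B`, `C` closed; then closures); `B` is the union of the edges in `B`: `B \ {c}` is covered by them, they form a closed set and `B \ {c}` is dense in the arc `B`.
`symm`, `trans`: `ArcX.symm`, `ArcX.trans`, union of the edge sets.  `mono`.  `trim`: a path can be shortened: see the statement; take a cut at the first/last point: first apply `cut` at suitable vertices; simplest: choose a sub-path `p'` (a `PathG E p' s t` with `p' ⊆ p`, `s ∈ S ∩ V`, `t ∈ T ∩ V`) with the least number of edges in `p'` (`Nat.find` for the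
`ncard` of the set of edges contained in `p'`); if `p'` contained another vertex `c ∈ S ∪ T`, `cut` at `c` would give a shorter one; so `p' ∩ S ∩ V = {s}`; a point of `p' ∩ S` outside `V` lies in an edge `e ⊆ p'` with `e ∩ S` not contained in `V`, so `e ⊆ S`, and both ends of `e` are in `S`: contradiction.
`jordan_two`: let `v ∈ e ∈ D`, `e ∩ V = {v, u}`; `GrX.split` (ThD) at `v, u`: `D = D₁ ∪ D₂` disjoint, `end_edge` for both: exactly one edge of `D₁` and exactly one of `D₂` contain `v`.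
-/

open Set Metric Topology

namespace Pool.JS

variable {X : Type*} [TopologicalSpace X] [T2Space X] {V : Set X} {E E' D : Set (Set X)} {A C C' p q S T : Set X}
  {a b c v : X}

theorem pgd_seg {γ : ℝ → X} (hc : ContinuousOn γ (Icc 0 1)) (hi : InjOn γ (Icc 0 1)) (hC : IsPreconnected C)
    (hCA : C ⊆ γ '' Icc 0 1) (h0 : γ 0 ∈ C) {s : ℝ} (hs : s ∈ Icc (0 : ℝ) 1) (hsC : γ s ∈ C) : γ '' Icc 0 s ⊆ C := by
  rintro _ ⟨r, hr, rfl⟩
  by_contra hrC
  have hr1 : r ∈ Icc (0 : ℝ) 1 := ⟨hr.1, hr.2.trans hs.2⟩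
  have hsub1 : Icc (0 : ℝ) r ⊆ Icc 0 1 := Icc_subset_Icc le_rfl hr1.2
  have hsub2 : Icc r (1 : ℝ) ⊆ Icc 0 1 := Icc_subset_Icc hr1.1 le_rfl
  have hcl1 : IsClosed (γ '' Icc 0 r) := (isCompact_Icc.image_of_continuousOn (hc.mono hsub1)).isClosed
  have hcl2 : IsClosed (γ '' Icc r 1) := (isCompact_Icc.image_of_continuousOn (hc.mono hsub2)).isClosed
  have hcov : C ⊆ γ '' Icc 0 r ∪ γ '' Icc r 1 := by
    intro x hx
    obtain ⟨u, hu, rfl⟩ := hCA hx
    rcases le_total u r with h | h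
    · exact Or.inl ⟨u, ⟨hu.1, h⟩, rfl⟩
    · exact Or.inr ⟨u, ⟨h, hu.2⟩, rfl⟩
  obtain ⟨x, hxC, ⟨u, hu, hux⟩, ⟨w, hw, hwx⟩⟩ := isPreconnected_closed_iff.1 hC _ _ hcl1 hcl2 hcov
    ⟨γ 0, h0, ⟨0, ⟨le_rfl, hr.1⟩, rfl⟩⟩ ⟨γ s, hsC, ⟨s, ⟨hr.2, hs.2⟩, rfl⟩⟩
  have huw : u = w := hi (hsub1 hu) (hsub2 hw) (hux.trans hwx.symm)
  have hur : u = r := le_antisymm hu.2 (huw ▸ hw.1)
  rw [← hur, hux] at hrC
  exact hrC hxC

theorem ArcX.nested (h : ArcX A a b) (hC : IsPreconnected C) (hC' : IsPreconnected C') (hCA : C ⊆ A) (hCA' : C' ⊆ A)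
    (ha : a ∈ C) (ha' : a ∈ C') (hn : C.Nontrivial) (hn' : C'.Nontrivial) : (C ∩ C').Infinite := by
  obtain ⟨γ, hc, hi, hA, h0, h1⟩ := h
  subst hA
  have key : ∀ C : Set X, IsPreconnected C → C ⊆ γ '' Icc 0 1 → a ∈ C → C.Nontrivial →
      ∃ s : ℝ, 0 < s ∧ s ≤ 1 ∧ γ '' Icc 0 s ⊆ C := by
    intro C hC hCA ha hn
    obtain ⟨c, hcC, hca⟩ := hn.exists_ne a
    obtain ⟨s, hs, rfl⟩ := hCA hcC
    refine ⟨s, lt_of_le_of_ne hs.1 ?_, hs.2, pgd_seg hc hi hC hCA (h0 ▸ ha) hs hcC⟩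
    intro h
    apply hca
    rw [← h, h0]
  obtain ⟨s, hs0, hs1, hs⟩ := key C hC hCA ha hn
  obtain ⟨s', hs0', hs1', hs'⟩ := key C' hC' hCA' ha' hn'
  have hm : 0 < min s s' := lt_min hs0 hs0'
  have hsub : γ '' Icc 0 (min s s') ⊆ C ∩ C' := subset_inter
    ((image_mono (Icc_subset_Icc le_rfl (min_le_left _ _))).trans hs)
    ((image_mono (Icc_subset_Icc le_rfl (min_le_right _ _))).trans hs')
  refine Infinite.mono hsub (Infinite.image (hi.mono (Icc_subset_Icc le_rfl ((min_le_left _ _).trans hs1))) ?_)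
  exact Icc_infinite hm

theorem PathG.symm (hp : PathG E p a b) : PathG E p b a := ⟨ArcX.symm hp.1, hp.2⟩

theorem pgd_nontrivial (h : ArcX A a b) : A.Nontrivial := ⟨a, h.left_mem, b, h.right_mem, h.ne⟩

theorem pgd_end (h : PG V E) (hp : PathG E p a b) : a ∈ V := by
  obtain ⟨hA, E', hE', rfl⟩ := hp
  obtain ⟨e, he, hae⟩ := hA.left_mem
  by_contra haV
  obtain ⟨x, hx, y, hy, hexy, heV⟩ := h.arc e (hE' he)
  have hax : a ≠ x := fun h => haV (h ▸ hx)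
  have hay : a ≠ y := fun h => haV (h ▸ hy)
  obtain ⟨B, C, hB, hC, hBC, hBC'⟩ := hexy.split hae hax hay
  have hes : e ⊆ ⋃₀ E' := subset_sUnion_of_mem he
  have hinf := hA.nested hB.isConnected.isPreconnected hC.isConnected.isPreconnected
    ((subset_union_left.trans hBC.subset).trans hes) ((subset_union_right.trans hBC.subset).trans hes)
    hB.right_mem hC.left_mem (pgd_nontrivial hB) (pgd_nontrivial hC)
  rw [hBC'] at hinf
  exact hinf (finite_singleton a)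

theorem PG.end_mem (h : PG V E) (hp : PathG E p a b) : a ∈ V ∧ b ∈ V :=
  ⟨pgd_end h hp, pgd_end h hp.symm⟩

theorem pgd_edge_arc (h : PG V E) {e : Set X} (he : e ∈ E) : IsPreconnected e ∧ e.Nontrivial := by
  obtain ⟨x, hx, y, hy, hexy, heV⟩ := h.arc e he
  exact ⟨hexy.isConnected.isPreconnected, pgd_nontrivial hexy⟩

theorem PG.end_edge (h : PG V E) (hD : D ⊆ E) (hp : ArcX (⋃₀ D) a b) : ∃ e ∈ D, a ∈ e ∧ ∀ e' ∈ D, a ∈ e' → e' = e := by
  obtain ⟨e, he, hae⟩ := hp.left_mem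
  refine ⟨e, he, hae, ?_⟩
  intro e' he' hae'
  by_contra hne
  have hinf := hp.nested (pgd_edge_arc h (hD he')).1 (pgd_edge_arc h (hD he)).1
    (subset_sUnion_of_mem he') (subset_sUnion_of_mem he) hae' hae (pgd_edge_arc h (hD he')).2
    (pgd_edge_arc h (hD he)).2
  exact hinf (h.finV.subset (h.inter e' (hD he') e (hD he) hne))

theorem PathG.mono (hp : PathG E p a b) (hE : E ⊆ E') : PathG E' p a b := by
  obtain ⟨hA, E₀, hE₀, hp⟩ := hp
  exact ⟨hA, E₀, hE₀.trans hE, hp⟩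

theorem PathG.trans (hp : PathG E p a b) (hq : PathG E q b c) (hpq : p ∩ q = {b}) : PathG E (p ∪ q) a c := by
  obtain ⟨hA, E₀, hE₀, hp⟩ := hp
  obtain ⟨hA', E₁, hE₁, hq⟩ := hq
  refine ⟨hA.trans hA' hpq, E₀ ∪ E₁, union_subset hE₀ hE₁, ?_⟩
  rw [sUnion_union, hp, hq]

theorem pgd_sub_arc (h : PG V E) (hE' : E' ⊆ E) {B C : Set X} (hB : ArcX B a b) (hC : IsClosed C)
    (hBC : B ∪ C = ⋃₀ E') (hc : B ∩ C = {c}) (hcV : c ∈ V) (hcab : c ∈ ({a, b} : Set X)) : PathG E B a b := by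
  have hBcl : IsClosed B := hB.isCompact.isClosed
  refine ⟨hB, {e ∈ E' | e ⊆ B}, (sep_subset _ _).trans hE', ?_⟩
  apply Subset.antisymm
  · have hcl : IsClosed (⋃₀ {e ∈ E' | e ⊆ B}) := h.isClosed_sUnion ((sep_subset _ _).trans hE')
    refine hB.interior.2.trans (closure_minimal ?_ hcl)
    rintro x ⟨hxB, hxn⟩
    have hx : x ∈ ⋃₀ E' := hBC ▸ Or.inl hxB
    obtain ⟨e, he, hxe⟩ := hx
    have hei := h.gr.edge_inner (hE' he)
    have hsub : e \ V ⊆ B ∪ C := by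
      rw [hBC]
      exact sdiff_subset.trans (subset_sUnion_of_mem he)
    have hdis : (e \ V) ∩ (B ∩ C) = ∅ := by
      rw [hc, eq_empty_iff_forall_notMem]
      rintro y ⟨⟨_, hy⟩, hyc⟩
      rw [mem_singleton_iff.1 hyc] at hy
      exact hy hcV
    rcases isPreconnected_iff_subset_of_disjoint_closed.1 hei.2.1.isPreconnected B C hBcl hC hsub hdis with h1 | h1
    · exact ⟨e, ⟨he, hei.2.2.trans (closure_minimal h1 hBcl)⟩, hxe⟩
    · exfalso
      have hxC : x ∈ C := hei.2.2.trans (closure_minimal h1 hC) hxe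
      have : x ∈ B ∩ C := ⟨hxB, hxC⟩
      rw [hc, mem_singleton_iff] at this
      rw [this] at hxn
      exact hxn hcab
  · exact sUnion_subset fun e he => he.2

theorem PG.cut (h : PG V E) (hp : PathG E p a b) (hc : c ∈ V) (hcp : c ∈ p) (hca : c ≠ a) (hcb : c ≠ b) :
    ∃ p₁ p₂ : Set X, PathG E p₁ a c ∧ PathG E p₂ c b ∧ p₁ ∪ p₂ = p ∧ p₁ ∩ p₂ = {c} := by
  obtain ⟨hA, E', hE', hp⟩ := hp
  obtain ⟨B, C, hB, hC, hBC, hBC'⟩ := hA.split hcp hca hcb
  refine ⟨B, C, ?_, ?_, hBC, hBC'⟩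
  · exact pgd_sub_arc h hE' hB hC.isCompact.isClosed (hBC.trans hp) hBC' hc (by simp)
  · exact pgd_sub_arc h hE' hC hB.isCompact.isClosed ((union_comm C B).trans (hBC.trans hp))
      ((inter_comm C B).trans hBC') hc (by simp)

theorem pgd_card (h : PG V E) {p₁ p₂ : Set X} (h1 : PathG E p₁ a b) (h12 : p₁ ∪ p₂ = p) (h12' : p₁ ∩ p₂ = {c}) :
    {e ∈ E | e ⊆ p₂}.ncard < {e ∈ E | e ⊆ p}.ncard := by
  apply ncard_lt_ncard _ (h.finE.subset (sep_subset _ _))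
  refine ⟨fun e he => ⟨he.1, he.2.trans (h12 ▸ subset_union_right)⟩, ?_⟩
  intro hsub
  obtain ⟨hA, E', hE', rfl⟩ := h1
  obtain ⟨e, he, hae⟩ := hA.left_mem
  have hep : e ⊆ p := (subset_sUnion_of_mem he).trans (h12 ▸ subset_union_left)
  have he2 : e ⊆ p₂ := (hsub ⟨hE' he, hep⟩).2
  have he3 : e ⊆ {c} := h12' ▸ subset_inter (subset_sUnion_of_mem he) he2
  obtain ⟨x, hx, y, hy, hxy⟩ := (pgd_edge_arc h (hE' he)).2
  exact hxy ((mem_singleton_iff.1 (he3 hx)).trans (mem_singleton_iff.1 (he3 hy)).symm)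

theorem pgd_trim (h : PG V E) (hST : Disjoint S T) : ∀ (n : ℕ) (p : Set X) (s t : X), PathG E p s t → s ∈ S → t ∈ T →
    {e ∈ E | e ⊆ p}.ncard ≤ n → ∃ s' t' : X, ∃ p' ⊆ p, PathG E p' s' t' ∧ s' ∈ S ∧ t' ∈ T ∧
      (∀ c ∈ V, c ∈ p' → c ∈ S → c = s') ∧ (∀ c ∈ V, c ∈ p' → c ∈ T → c = t') := by
  intro n
  induction n with
  | zero =>
    intro p s t hp hs ht hn
    exfalso
    obtain ⟨hA, E', hE', rfl⟩ := hp
    obtain ⟨e, he, hae⟩ := hA.left_mem
    have hfin : {e ∈ E | e ⊆ ⋃₀ E'}.Finite := h.finE.subset (sep_subset _ _)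
    have := (ncard_eq_zero hfin).1 (Nat.le_zero.1 hn)
    have he' : e ∈ {e ∈ E | e ⊆ ⋃₀ E'} := ⟨hE' he, subset_sUnion_of_mem he⟩
    rw [this] at he'
    exact he'
  | succ n ih =>
    intro p s t hp hs ht hn
    by_cases hS' : ∀ c ∈ V, c ∈ p → c ∈ S → c = s
    · by_cases hT' : ∀ c ∈ V, c ∈ p → c ∈ T → c = t
      · exact ⟨s, t, p, Subset.rfl, hp, hs, ht, hS', hT'⟩
      · push Not at hT'
        obtain ⟨c, hcV, hcp, hcT, hct⟩ := hT'
        have hcs : c ≠ s := fun hcs => Set.disjoint_left.1 hST hs (hcs ▸ hcT)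
        obtain ⟨p₁, p₂, h1, h2, h12, h12'⟩ := h.cut hp hcV hcp hcs hct
        have hlt := pgd_card (p := p) h h2 ((union_comm p₂ p₁).trans h12) ((inter_comm p₂ p₁).trans h12')
        obtain ⟨s', t', p', hp', hh⟩ := ih p₁ s c h1 hs hcT (by omega)
        exact ⟨s', t', p', hp'.trans (h12 ▸ subset_union_left), hh⟩
    · push Not at hS'
      obtain ⟨c, hcV, hcp, hcS, hcs⟩ := hS'
      have hct : c ≠ t := fun hct => Set.disjoint_left.1 hST hcS (hct ▸ ht)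
      obtain ⟨p₁, p₂, h1, h2, h12, h12'⟩ := h.cut hp hcV hcp hcs hct
      have hlt := pgd_card (p := p) h h1 h12 h12'
      obtain ⟨s', t', p', hp', hh⟩ := ih p₂ c t h2 hcS ht (by omega)
      exact ⟨s', t', p', hp'.trans (h12 ▸ subset_union_right), hh⟩

theorem pgd_one (h : PG V E) (hp : PathG E p a b) (hS : ∀ e ∈ E, e ⊆ S ∨ e ∩ S ⊆ V) {s : X} (hs : s ∈ S) (hsp : s ∈ p)
    (hc : ∀ c ∈ V, c ∈ p → c ∈ S → c = s) : p ∩ S = {s} := by
  apply Subset.antisymm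
  · rintro x ⟨hxp, hxS⟩
    by_cases hxV : x ∈ V
    · exact hc x hxV hxp hxS
    · exfalso
      obtain ⟨hA, E', hE', rfl⟩ := hp
      obtain ⟨e, he, hxe⟩ := hxp
      rcases hS e (hE' he) with h1 | h1
      · obtain ⟨u, hu, v, hv, huv, heV⟩ := h.arc e (hE' he)
        have e1 := hc u hu (subset_sUnion_of_mem he huv.left_mem) (h1 huv.left_mem)
        have e2 := hc v hv (subset_sUnion_of_mem he huv.right_mem) (h1 huv.right_mem)
        exact huv.ne (e1.trans e2.symm)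
      · exact hxV (h1 ⟨hxe, hxS⟩)
  · rintro x hx
    rw [mem_singleton_iff.1 hx]
    exact ⟨hsp, hs⟩

/-- a path from `S` to `T` contains one which meets `S` and `T` in its end points only -/
theorem PG.trim (h : PG V E) (hp : PathG E p a b) (hS : ∀ e ∈ E, e ⊆ S ∨ e ∩ S ⊆ V) (hT : ∀ e ∈ E, e ⊆ T ∨ e ∩ T ⊆ V)
    (ha : a ∈ S) (hb : b ∈ T) (hST : Disjoint S T) :
    ∃ s t : X, ∃ p' ⊆ p, PathG E p' s t ∧ p' ∩ S = {s} ∧ p' ∩ T = {t} := by
  obtain ⟨s, t, p', hp', hpath, hs, ht, hcS, hcT⟩ := pgd_trim h hST _ p a b hp ha hb le_rfl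
  exact ⟨s, t, p', hp', hpath, pgd_one h hpath hS hs hpath.1.left_mem hcS, pgd_one h hpath hT ht hpath.1.right_mem hcT⟩

/-- a cycle of edges has exactly two edges at each of its vertices -/
theorem PG.jordan_two (h : PG V E) (hD : D ⊆ E) (hJ : JorX (⋃₀ D)) (hv : v ∈ V) (hvD : v ∈ ⋃₀ D) :
    {e ∈ D | v ∈ e}.ncard = 2 := by
  obtain ⟨e, he, hve⟩ := hvD
  have hvD : v ∈ ⋃₀ D := ⟨e, he, hve⟩
  have hu : ∃ u ∈ V, u ∈ e ∧ v ≠ u := by
    obtain ⟨x, hx, y, hy, hexy, heV⟩ := h.arc e (hD he)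
    by_cases hvx : v = x
    · exact ⟨y, hy, hexy.right_mem, hvx ▸ hexy.ne⟩
    · exact ⟨x, hx, hexy.left_mem, hvx⟩
  obtain ⟨u, hu, hue, hvu⟩ := hu
  obtain ⟨D₁, D₂, hDD, hdis, h1, h2, h12⟩ := h.gr.split hD hJ hv hu hvD ⟨e, he, hue⟩ hvu
  have hD1 : D₁ ⊆ E := (hDD ▸ subset_union_left : D₁ ⊆ D).trans hD
  have hD2 : D₂ ⊆ E := (hDD ▸ subset_union_right : D₂ ⊆ D).trans hD
  obtain ⟨e₁, he1, hve1, hun1⟩ := h.end_edge hD1 h1
  obtain ⟨e₂, he2, hve2, hun2⟩ := h.end_edge hD2 h2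
  have hne : e₁ ≠ e₂ := fun hh => Set.disjoint_left.1 hdis he1 (hh ▸ he2)
  have hset : {e ∈ D | v ∈ e} = {e₁, e₂} := by
    apply Subset.antisymm
    · rintro x ⟨hxD, hvx⟩
      rw [← hDD] at hxD
      rcases hxD with hx | hx
      · exact Or.inl (hun1 x hx hvx)
      · exact Or.inr (hun2 x hx hvx)
    · rintro x (rfl | rfl)
      · exact ⟨hDD ▸ Or.inl he1, hve1⟩
      · exact ⟨hDD ▸ Or.inr he2, hve2⟩
  rw [hset, ncard_pair hne]

end Pool.JS
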