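import Pool.Agent.JS.ThDefs

/-!
# Finite plane graphs in a topological two-sphere: the definitions used for MP_c7bb65_an
-/

open Set Metric Topology

namespace Pool.JS

variable {X : Type*} [TopologicalSpace X]

/-- a finite graph in `X` without isolated vertices: `V` the vertices, `E` the edges -/
structure PG (V : Set X) (E : Set (Set X)) : Prop where
  finV : V.Finite
  finE : E.Finite
  arc : ∀ e ∈ E, ∃ a ∈ V, ∃ b ∈ V, ArcX e a b ∧ e ∩ V = {a, b}
  inter : ∀ e ∈ E, ∀ e' ∈ E, e ≠ e' → e ∩ e' ⊆ V
  vert : ∀ v ∈ V, ∃ e ∈ E, v ∈ e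

/-- the faces of the graph: the components of the complement -/
def Fc (E : Set (Set X)) : Set (Set X) :=
  {U | ∃ x, x ∉ ⋃₀ E ∧ U = connectedComponentIn (⋃₀ E)ᶜ x}

/-- no point disconnects `G` -/
def NoCut (G : Set X) : Prop := ∀ x, IsPreconnected (G \ {x})

/-- `p` is an arc from `a` to `b` and a union of edges in `E` -/
def PathG (E : Set (Set X)) (p : Set X) (a b : X) : Prop := ArcX p a b ∧ ∃ E' ⊆ E, p = ⋃₀ E'

/-- the same, or a point -/
def PathG0 (E : Set (Set X)) (p : Set X) (a b : X) : Prop := (a = b ∧ p = {a}) ∨ PathG E p a b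

/-- an arc or a point -/
def Arc0 (p : Set X) (a b : X) : Prop := (a = b ∧ p = {a}) ∨ ArcX p a b

/-- `U` is a Jordan domain: the closure is a closed disc with interior `U` and boundary circle `frontier U` -/
def DiscDom (U : Set X) : Prop := DiscX (closure U) (frontier U) U

/-- the union of the boundaries of the faces whose closure meets `S` -/
def MG (E : Set (Set X)) (S : Set X) : Set X :=
  ⋃₀ {F | ∃ U ∈ Fc E, (closure U ∩ S).Nonempty ∧ F = frontier U}

/-- every vertex has valence at most three -/
def Val3 (V : Set X) (E : Set (Set X)) : Prop := ∀ v ∈ V, {e ∈ E | v ∈ e}.ncard ≤ 3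

end Pool.JS
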