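import Pool.Agent.JS.ThDefs
import Pool.Agent.JS.SpD

/-!
MODULE ThE (difficulty 3).  Combinatorial paths give arcs.
-/

open Set Metric Topology

namespace Pool.JS

variable {X : Type*} [TopologicalSpace X] [T2Space X] {V : Set X} {E F : Set (Set X)} {u v : X}

theorem GrX.ends (hG : GrX V E) {e : Set X} (he : e ∈ E) (hu : u ∈ V) (hv : v ∈ V)
    (h : ArcX e u v ∨ ArcX e v u) : e ∩ V = {u, v} := by
  obtain ⟨p, hp, q, hq, -, hpq⟩ := hG.arc e he
  have hue : u ∈ e := by
    rcases h with h | h
    · exact h.left_mem
    · exact h.right_mem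
  have hve : v ∈ e := by
    rcases h with h | h
    · exact h.right_mem
    · exact h.left_mem
  have huv : u ≠ v := by
    rcases h with h | h
    · exact h.ne
    · exact h.ne.symm
  have h1 : u ∈ ({p, q} : Set X) := hpq ▸ (⟨hue, hu⟩ : u ∈ e ∩ V)
  have h2 : v ∈ ({p, q} : Set X) := hpq ▸ (⟨hve, hv⟩ : v ∈ e ∩ V)
  rw [hpq]
  rcases h1 with h1 | h1
  · rcases h2 with h2 | h2
    · exact absurd (h1.trans h2.symm) huv
    · rw [mem_singleton_iff] at h2
      rw [h1, h2]
  · rw [mem_singleton_iff] at h1
    rcases h2 with h2 | h2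
    · rw [h1, h2, Set.pair_comm]
    · rw [mem_singleton_iff] at h2
      exact absurd (h1.trans h2.symm) huv

theorem GrX.walk_arc (hG : GrX V E) (hF : F ⊆ E) (w : (sgX V F).Walk u v) (hw : w.IsPath) (huv : u ≠ v) :
    ∃ D ⊆ F, D.Nonempty ∧ ArcX (⋃₀ D) u v ∧ ∀ x ∈ V, x ∈ ⋃₀ D → x ∈ w.support := by
  induction w with
  | nil => exact absurd rfl huv
  | @cons u w v h w' ih =>
    rw [SimpleGraph.Walk.cons_isPath_iff] at hw
    obtain ⟨hw', hus⟩ := hw
    obtain ⟨huw, huV, hwV, e, heF, harc⟩ := h
    have hends : e ∩ V = {u, w} := hG.ends (hF heF) huV hwV harc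
    have harc' : ArcX e u w := by
      rcases harc with h | h
      · exact h
      · exact h.symm
    by_cases hwv : w = v
    · subst hwv
      refine ⟨{e}, by simpa using heF, ⟨e, rfl⟩, ?_, ?_⟩
      · rw [sUnion_singleton]
        exact harc'
      · intro x hx hxe
        rw [sUnion_singleton] at hxe
        have : x ∈ ({u, w} : Set X) := hends ▸ (⟨hxe, hx⟩ : x ∈ e ∩ V)
        rw [SimpleGraph.Walk.support_cons, List.mem_cons]
        rcases this with h | h
        · exact Or.inl h
        · rw [mem_singleton_iff] at h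
          rw [h]
          exact Or.inr (SimpleGraph.Walk.start_mem_support _)
    · obtain ⟨D', hD'F, -, harcD', hsup⟩ := ih hw' hwv
      have huD' : u ∉ ⋃₀ D' := fun h => hus (hsup u huV h)
      have hwD' : w ∈ ⋃₀ D' := harcD'.left_mem
      have hwe : w ∈ e := harc'.right_mem
      have hint : e ∩ ⋃₀ D' = {w} := by
        apply Subset.antisymm
        · rintro x ⟨hxe, hxD⟩
          obtain ⟨e'', he'', hxe''⟩ := hxD
          have hne : e ≠ e'' := by
            intro heq
            apply huD'
            refine ⟨e'', he'', ?_⟩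
            rw [← heq]
            exact harc'.left_mem
          have hxV : x ∈ V := hG.inter e (hF heF) e'' (hF (hD'F he'')) hne ⟨hxe, hxe''⟩
          have hx2 : x ∈ ({u, w} : Set X) := hends ▸ (⟨hxe, hxV⟩ : x ∈ e ∩ V)
          rcases hx2 with h | h
          · exfalso
            apply huD'
            rw [← h]
            exact ⟨e'', he'', hxe''⟩
          · exact h
        · intro x hx
          rw [mem_singleton_iff] at hx
          rw [hx]
          exact ⟨hwe, hwD'⟩
      refine ⟨insert e D', ?_, ⟨e, mem_insert _ _⟩, ?_, ?_⟩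
      · intro y hy
        rcases hy with h | h
        · rw [h]; exact heF
        · exact hD'F h
      · rw [sUnion_insert]
        exact harc'.trans harcD' hint
      · intro x hx hxD
        rw [sUnion_insert] at hxD
        rw [SimpleGraph.Walk.support_cons, List.mem_cons]
        rcases hxD with h | h
        · have : x ∈ ({u, w} : Set X) := hends ▸ (⟨h, hx⟩ : x ∈ e ∩ V)
          rcases this with h | h
          · exact Or.inl h
          · rw [mem_singleton_iff] at h
            rw [h]
            exact Or.inr (SimpleGraph.Walk.start_mem_support _)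
        · exact Or.inr (hsup x hx h)

end Pool.JS
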