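import Pool.Agent.JS.PgD
import Pool.Agent.JS.ThE

/-!
MODULE PgE (difficulty 3).  Connected unions of edges contain paths.

RECIPE.  `path`: let `P` be the set of vertices reachable from `u` in `sgX V A`; suppose `v ∉ P`.  The closed sets `⋃₀ {e ∈ A | e meets P}` and `⋃₀ {e ∈ A | e ∩ P = ∅}` cover `⋃₀ A`; an edge which meets `P` has both ends in `P` (they are adjacent), so the two sets are disjoint (different edges meet in vertices, which are end points of both);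
`u` is in the first one, `v` in the second one (`v` lies in an edge; if this edge meets `P`, `v ∈ P`): contradiction with `isPreconnected_closed_iff`.  So there is a walk, hence a path (`Walk.bypass`), and `GrX.walk_arc` (ThE).  `path_between`: `path` and `PG.trim` (PgD) applied to the graph `PG.sub` or directly with `E = A`.
-/

open Set Metric Topology

namespace Pool.JS

variable {X : Type*} [TopologicalSpace X] [T2Space X] {V : Set X} {E A : Set (Set X)} {S T : Set X} {u v : X}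

theorem pge_mem {F : Set (Set X)} (w : (sgX V F).Walk u v) : u ∈ V → v ∈ V := by
  induction w with
  | nil => exact id
  | cons h _ ih => exact fun _ => ih h.2.2.1

theorem pge_step (h : PG V E) (hA : A ⊆ E) {e : Set X} (he : e ∈ A) {x y : X} (hy : y ∈ e) (hyV : y ∈ V) (hx : x ∈ e)
    (hxV : x ∈ V) (hr : (sgX V A).Reachable u y) : (sgX V A).Reachable u x := by
  by_cases hxy : y = x
  · rw [← hxy]
    exact hr
  · obtain ⟨a, ha, b, hb, harc, hab⟩ := h.arc e (hA he)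
    have h1 : y ∈ ({a, b} : Set X) := hab ▸ ⟨hy, hyV⟩
    have h2 : x ∈ ({a, b} : Set X) := hab ▸ ⟨hx, hxV⟩
    have h3 : (sgX V A).Adj y x := by
      refine ⟨hxy, hyV, hxV, e, he, ?_⟩
      rcases h1 with rfl | rfl
      · rcases h2 with rfl | rfl
        · exact absurd rfl hxy
        · exact Or.inl harc
      · rcases h2 with rfl | rfl
        · exact Or.inr harc
        · exact absurd rfl hxy
    exact hr.trans h3.reachable

theorem PG.path (h : PG V E) (hA : A ⊆ E) (hc : IsPreconnected (⋃₀ A)) (hu : u ∈ V) (hv : v ∈ V) (huA : u ∈ ⋃₀ A)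
    (hvA : v ∈ ⋃₀ A) (huv : u ≠ v) : ∃ p, PathG A p u v := by
  classical
  have key : (sgX V A).Reachable u v := by
    by_contra hcon
    obtain ⟨eu, heu, hue⟩ := huA
    obtain ⟨ev, hev, hve⟩ := hvA
    have c1 : IsClosed (⋃₀ {e ∈ A | ∃ x ∈ e, x ∈ V ∧ (sgX V A).Reachable u x}) :=
      h.isClosed_sUnion fun e he => hA he.1
    have c2 : IsClosed (⋃₀ {e ∈ A | ¬ ∃ x ∈ e, x ∈ V ∧ (sgX V A).Reachable u x}) :=
      h.isClosed_sUnion fun e he => hA he.1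
    have hcov : ⋃₀ A ⊆ ⋃₀ {e ∈ A | ∃ x ∈ e, x ∈ V ∧ (sgX V A).Reachable u x} ∪
        ⋃₀ {e ∈ A | ¬ ∃ x ∈ e, x ∈ V ∧ (sgX V A).Reachable u x} := by
      rintro x ⟨e, he, hx⟩
      by_cases hP : ∃ x ∈ e, x ∈ V ∧ (sgX V A).Reachable u x
      · exact Or.inl ⟨e, ⟨he, hP⟩, hx⟩
      · exact Or.inr ⟨e, ⟨he, hP⟩, hx⟩
    have h1 : (⋃₀ A ∩ ⋃₀ {e ∈ A | ∃ x ∈ e, x ∈ V ∧ (sgX V A).Reachable u x}).Nonempty :=
      ⟨u, ⟨eu, heu, hue⟩, eu, ⟨heu, u, hue, hu, SimpleGraph.Reachable.refl u⟩, hue⟩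
    have h2 : (⋃₀ A ∩ ⋃₀ {e ∈ A | ¬ ∃ x ∈ e, x ∈ V ∧ (sgX V A).Reachable u x}).Nonempty := by
      refine ⟨v, ⟨ev, hev, hve⟩, ev, ⟨hev, ?_⟩, hve⟩
      rintro ⟨x, hx, hxV, hr⟩
      exact hcon (pge_step h hA hev hx hxV hve hv hr)
    obtain ⟨x, -, ⟨e₁, ⟨he₁, y, hy, hyV, hr⟩, hx₁⟩, e₂, ⟨he₂, hn⟩, hx₂⟩ :=
      isPreconnected_closed_iff.1 hc _ _ c1 c2 hcov h1 h2
    have hne : e₁ ≠ e₂ := by
      rintro rfl
      exact hn ⟨y, hy, hyV, hr⟩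
    have hxV : x ∈ V := h.inter e₁ (hA he₁) e₂ (hA he₂) hne ⟨hx₁, hx₂⟩
    exact hn ⟨x, hx₂, hxV, pge_step h hA he₁ hy hyV hx₁ hxV hr⟩
  obtain ⟨w⟩ := key
  obtain ⟨D, hD, -, harc, -⟩ := h.gr.walk_arc hA (w.toPath : (sgX V A).Walk u v) w.toPath.2 huv
  exact ⟨⋃₀ D, harc, D, hD, rfl⟩

theorem PG.path_between (h : PG V E) (hA : A ⊆ E) (hc : IsPreconnected (⋃₀ A)) (hS : ∀ e ∈ A, e ⊆ S ∨ e ∩ S ⊆ V)
    (hT : ∀ e ∈ A, e ⊆ T ∨ e ∩ T ⊆ V) (hSn : (S ∩ V ∩ ⋃₀ A).Nonempty) (hTn : (T ∩ V ∩ ⋃₀ A).Nonempty)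
    (hST : Disjoint S T) : ∃ s t : X, ∃ p, PathG A p s t ∧ p ∩ S = {s} ∧ p ∩ T = {t} := by
  obtain ⟨s₀, ⟨hs1, hs2⟩, hs3⟩ := hSn
  obtain ⟨t₀, ⟨ht1, ht2⟩, ht3⟩ := hTn
  have hne : s₀ ≠ t₀ := by
    rintro rfl
    exact Set.disjoint_left.1 hST hs1 ht1
  obtain ⟨p, hp⟩ := h.path hA hc hs2 ht2 hs3 ht3 hne
  have hS' : ∀ e ∈ A, e ⊆ S ∨ e ∩ S ⊆ V ∩ ⋃₀ A := by
    intro e he
    rcases hS e he with h1 | h1
    · exact Or.inl h1
    · exact Or.inr fun x hx => ⟨h1 hx, e, he, hx.1⟩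
  have hT' : ∀ e ∈ A, e ⊆ T ∨ e ∩ T ⊆ V ∩ ⋃₀ A := by
    intro e he
    rcases hT e he with h1 | h1
    · exact Or.inl h1
    · exact Or.inr fun x hx => ⟨h1 hx, e, he, hx.1⟩
  obtain ⟨s, t, p', -, hp', h1, h2⟩ := (h.sub hA).trim hp hS' hT' hs1 ht1 hST
  exact ⟨s, t, p', hp', h1, h2⟩

end Pool.JS
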