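import Pool.Agent.JS.RmDefs

/-!
MODULE RmD.  The square root trick.
-/

open Set Metric Topology

namespace Pool.JS

/-- the disc automorphism -/
noncomputable def mob (c w : ℂ) : ℂ := (w - c) / (1 - (starRingEnd ℂ) c * w)

lemma mob_id (c w : ℂ) : ‖1 - (starRingEnd ℂ) c * w‖ ^ 2 - ‖w - c‖ ^ 2 = (1 - ‖c‖ ^ 2) * (1 - ‖w‖ ^ 2) := by
  rw [← Complex.normSq_eq_norm_sq, ← Complex.normSq_eq_norm_sq, ← Complex.normSq_eq_norm_sq, ← Complex.normSq_eq_norm_sq]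
  simp only [Complex.normSq_apply, Complex.sub_re, Complex.sub_im, Complex.mul_re, Complex.mul_im, Complex.one_re,
    Complex.one_im, Complex.conj_re, Complex.conj_im]
  ring

lemma mob_lt {c w : ℂ} (hc : ‖c‖ < 1) (hw : ‖w‖ < 1) : ‖w - c‖ < ‖1 - (starRingEnd ℂ) c * w‖ := by
  have h := mob_id c w
  have h1 : 0 < (1 - ‖c‖ ^ 2) * (1 - ‖w‖ ^ 2) := by
    have h2 := norm_nonneg c
    have h3 := norm_nonneg w
    apply mul_pos <;> nlinarith
  have h4 : ‖w - c‖ ^ 2 < ‖1 - (starRingEnd ℂ) c * w‖ ^ 2 := by linarith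
  exact lt_of_pow_lt_pow_left₀ 2 (norm_nonneg _) h4

lemma mob_den {c w : ℂ} (hc : ‖c‖ < 1) (hw : ‖w‖ < 1) : 1 - (starRingEnd ℂ) c * w ≠ 0 := by
  intro h
  have := mob_lt hc hw
  rw [h, norm_zero] at this
  exact absurd (norm_nonneg (w - c)) (not_le.2 this)

lemma mob_norm {c w : ℂ} (hc : ‖c‖ < 1) (hw : ‖w‖ < 1) : ‖mob c w‖ < 1 := by
  have h := mob_lt hc hw
  have h1 : 0 < ‖1 - (starRingEnd ℂ) c * w‖ := lt_of_le_of_lt (norm_nonneg _) h
  rw [mob, norm_div, div_lt_one h1]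
  exact h

lemma mob_inj {c w v : ℂ} (hc : ‖c‖ < 1) (hw : ‖w‖ < 1) (hv : ‖v‖ < 1) (h : mob c w = mob c v) : w = v := by
  unfold mob at h
  rw [div_eq_div_iff (mob_den hc hw) (mob_den hc hv)] at h
  have h1 : (w - v) * (1 - (starRingEnd ℂ) c * c) = 0 := by linear_combination h
  rcases mul_eq_zero.1 h1 with h2 | h2
  · exact sub_eq_zero.1 h2
  · exact absurd h2 (mob_den hc hc)

lemma mob_deriv {c w : ℂ} (h : 1 - (starRingEnd ℂ) c * w ≠ 0) :
    HasDerivAt (mob c) ((1 - (starRingEnd ℂ) c * c) / (1 - (starRingEnd ℂ) c * w) ^ 2) w := by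
  have h1 : HasDerivAt (fun w : ℂ => w - c) 1 w := (hasDerivAt_id w).sub_const c
  have h2 : HasDerivAt (fun w : ℂ => 1 - (starRingEnd ℂ) c * w) (-((starRingEnd ℂ) c)) w := by
    have := ((hasDerivAt_id w).const_mul ((starRingEnd ℂ) c)).const_sub 1
    simpa using this
  have h3 := h1.div h2 h
  refine HasDerivAt.congr_deriv h3 ?_
  congr 1
  ring

lemma sqrt_deriv {U : Set ℂ} (hU : IsOpen U) {g s : ℂ → ℂ} (hs : ContinuousOn s U) (hs0 : ∀ z ∈ U, s z ≠ 0)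
    (hsq : ∀ z ∈ U, s z ^ 2 = g z) {z g' : ℂ} (hz : z ∈ U) (hg : HasDerivAt g g' z) :
    HasDerivAt s (g' / (2 * s z)) z := by
  rw [hasDerivAt_iff_tendsto_slope] at hg ⊢
  have hsc : ContinuousAt s z := hs.continuousAt (hU.mem_nhds hz)
  have h1 : Filter.Tendsto (fun w => s w + s z) (𝓝[≠] z) (𝓝 (2 * s z)) := by
    have := (hsc.tendsto.add_const (s z)).mono_left (nhdsWithin_le_nhds (s := {z}ᶜ))
    rwa [← two_mul] at this
  have hne : (2 : ℂ) * s z ≠ 0 := mul_ne_zero two_ne_zero (hs0 z hz)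
  refine (hg.div h1 hne).congr' ?_
  filter_upwards [h1.eventually_ne hne, nhdsWithin_le_nhds (hU.mem_nhds hz)] with w hw hwU
  simp only [slope_def_field, Pi.div_apply]
  rw [← hsq w hwU, ← hsq z hz]
  field_simp
  ring

theorem exists_better {U : Set ℂ} (hU : IsOpen U) {a : ℂ} (ha : a ∈ U)
    (hlog : ∀ h : ℂ → ℂ, ContinuousOn h U → (∀ z ∈ U, h z ≠ 0) → HasLog U h) {f : ℂ → ℂ} (hf : Adm U a f)
    (hd : deriv f a ≠ 0) {c : ℂ} (hc : c ∈ ball (0 : ℂ) 1) (hcf : c ∉ f '' U) :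
    ∃ h, Adm U a h ∧ ‖deriv f a‖ < ‖deriv h a‖ := by
  have hc1 : ‖c‖ < 1 := mem_ball_zero_iff.1 hc
  have hfn : ∀ z ∈ U, ‖f z‖ < 1 := fun z hz => mem_ball_zero_iff.1 (hf.maps hz)
  have hfd : ∀ z ∈ U, HasDerivAt f (deriv f z) z := fun z hz =>
    ((hf.diff z hz).differentiableAt (hU.mem_nhds hz)).hasDerivAt
  set g : ℂ → ℂ := fun z => mob c (f z) with hg
  have hgd : ∀ z ∈ U, HasDerivAt g
      ((1 - (starRingEnd ℂ) c * c) / (1 - (starRingEnd ℂ) c * f z) ^ 2 * deriv f z) z := fun z hz =>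
    (mob_deriv (mob_den hc1 (hfn z hz))).comp z (hfd z hz)
  have hg0 : ∀ z ∈ U, g z ≠ 0 := by
    intro z hz h
    rw [hg] at h
    simp only [mob] at h
    rw [div_eq_zero_iff] at h
    rcases h with h | h
    · exact hcf ⟨z, hz, sub_eq_zero.1 h⟩
    · exact mob_den hc1 (hfn z hz) h
  have hgn : ∀ z ∈ U, ‖g z‖ < 1 := fun z hz => mob_norm hc1 (hfn z hz)
  obtain ⟨L, hL, hLe⟩ := hlog g (fun z hz => (hgd z hz).continuousAt.continuousWithinAt) hg0
  set s : ℂ → ℂ := fun z => Complex.exp (L z / 2) with hs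
  have hsc : ContinuousOn s U := (hL.div_const 2).cexp
  have hs0 : ∀ z ∈ U, s z ≠ 0 := fun z _ => Complex.exp_ne_zero _
  have hsq : ∀ z ∈ U, s z ^ 2 = g z := by
    intro z hz
    rw [hs]
    simp only
    rw [← Complex.exp_nat_mul, ← hLe z hz]
    congr 1
    push_cast
    ring
  have hsn : ∀ z ∈ U, ‖s z‖ < 1 := by
    intro z hz
    have h1 : ‖s z‖ ^ 2 < 1 := by
      rw [← norm_pow, hsq z hz]
      exact hgn z hz
    have h2 := norm_nonneg (s z)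
    by_contra h3
    nlinarith [not_lt.1 h3]
  have hsd : ∀ z ∈ U, HasDerivAt s
      ((1 - (starRingEnd ℂ) c * c) / (1 - (starRingEnd ℂ) c * f z) ^ 2 * deriv f z / (2 * s z)) z := fun z hz =>
    sqrt_deriv hU hsc hs0 hsq hz (hgd z hz)
  have hda : ‖s a‖ < 1 := hsn a ha
  have hhd : ∀ z ∈ U, HasDerivAt (fun z => mob (s a) (s z))
      ((1 - (starRingEnd ℂ) (s a) * s a) / (1 - (starRingEnd ℂ) (s a) * s z) ^ 2 *
        ((1 - (starRingEnd ℂ) c * c) / (1 - (starRingEnd ℂ) c * f z) ^ 2 * deriv f z / (2 * s z))) z := fun z hz =>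
    (mob_deriv (mob_den hda (hsn z hz))).comp z (hsd z hz)
  refine ⟨fun z => mob (s a) (s z), ⟨?_, ?_, ?_, ?_⟩, ?_⟩
  · intro z hz
    exact (hhd z hz).differentiableAt.differentiableWithinAt
  · intro z hz w hw h
    have h1 : s z = s w := mob_inj hda (hsn z hz) (hsn w hw) h
    have h2 : g z = g w := by rw [← hsq z hz, ← hsq w hw, h1]
    exact hf.inj hz hw (mob_inj hc1 (hfn z hz) (hfn w hw) h2)
  · intro z hz
    exact mem_ball_zero_iff.2 (mob_norm hda (hsn z hz))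
  · simp [mob]
  · rw [(hhd a ha).deriv, hf.zero]
    have hr0 : 0 < ‖s a‖ := norm_pos_iff.2 (hs0 a ha)
    set r : ℝ := ‖s a‖ with hr
    have hcr : ‖c‖ = r ^ 2 := by
      have h1 : ‖s a ^ 2‖ = ‖c‖ := by
        rw [hsq a ha, hg]
        simp only
        rw [hf.zero]
        simp [mob]
      rw [← h1, norm_pow]
    have e1 : (starRingEnd ℂ) (s a) * s a = ((r ^ 2 : ℝ) : ℂ) := by
      rw [mul_comm, Complex.mul_conj, Complex.normSq_eq_norm_sq]
    have e2 : (starRingEnd ℂ) c * c = ((r ^ 4 : ℝ) : ℂ) := by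
      rw [mul_comm, Complex.mul_conj, Complex.normSq_eq_norm_sq, hcr]
      norm_cast
      rw [← pow_mul]
    rw [e1, e2, mul_zero, sub_zero, one_pow, div_one]
    have e3 : (1 : ℂ) - ((r ^ 2 : ℝ) : ℂ) = ((1 - r ^ 2 : ℝ) : ℂ) := by push_cast; ring
    have e4 : (1 : ℂ) - ((r ^ 4 : ℝ) : ℂ) = ((1 - r ^ 4 : ℝ) : ℂ) := by push_cast; ring
    have h2 : 0 < 1 - r ^ 2 := by nlinarith
    have h4 : 0 < 1 - r ^ 4 := by
      have : 1 - r ^ 4 = (1 - r ^ 2) * (1 + r ^ 2) := by ring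
      rw [this]
      positivity
    rw [e3, e4, norm_mul, norm_div, norm_div, norm_pow, norm_mul, norm_mul, Complex.norm_real, Complex.norm_real,
      Real.norm_of_nonneg h2.le, Real.norm_of_nonneg h4.le, Complex.norm_ofNat]
    have hD : 0 < ‖deriv f a‖ := norm_pos_iff.2 hd
    have e5 : (1 - r ^ 2) / (1 - r ^ 2) ^ 2 * ((1 - r ^ 4) * ‖deriv f a‖ / (2 * ‖s a‖)) =
        (1 + r ^ 2) / (2 * r) * ‖deriv f a‖ := by
      rw [← hr]
      field_simp
      ring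
    rw [e5]
    have h6 : 1 < (1 + r ^ 2) / (2 * r) := by
      rw [one_lt_div (by positivity)]
      nlinarith [sq_nonneg (1 - r), sq_pos_of_pos (sub_pos.2 hda)]
    nlinarith

end Pool.JS
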