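import Mathlib

/-!
MODULE RmE.  The inverse of an injective holomorphic function is holomorphic.
-/

open Set Metric Topology

namespace Pool.JS

theorem exists_holo_inverse {U : Set ℂ} (hU : IsOpen U) {f : ℂ → ℂ} (hf : DifferentiableOn ℂ f U) (hi : InjOn f U) :
    IsOpen (f '' U) ∧ ∃ ψ : ℂ → ℂ, DifferentiableOn ℂ ψ (f '' U) ∧ ∀ z ∈ U, ψ (f z) = z := by
  have han : AnalyticOnNhd ℂ f U := hf.analyticOnNhd hU
  have hnc : ∀ z ∈ U, ¬ (∀ᶠ w in 𝓝 z, f w = f z) := by
    intro z hz h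
    have h1 : ∀ᶠ w in 𝓝 z, w = z := by
      filter_upwards [h, hU.mem_nhds hz] with w hw hwU
      exact hi hwU hz hw
    have h2 : ∀ᶠ w in 𝓝[≠] z, False := by
      filter_upwards [h1.filter_mono nhdsWithin_le_nhds, self_mem_nhdsWithin] with w hw hw'
      exact hw' hw
    exact h2.exists.elim fun _ h => h
  have hmap : ∀ z ∈ U, 𝓝 (f z) ≤ Filter.map f (𝓝 z) := by
    intro z hz
    rcases (han z hz).eventually_constant_or_nhds_le_map_nhds with h | h
    · exact absurd h (hnc z hz)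
    · exact h
  have hopen : ∀ z ∈ U, ∀ N ∈ 𝓝 z, f '' N ∈ 𝓝 (f z) := fun z hz N hN =>
    hmap z hz (Filter.image_mem_map hN)
  have hO : IsOpen (f '' U) := by
    rw [isOpen_iff_mem_nhds]
    rintro _ ⟨z, hz, rfl⟩
    exact hopen z hz U (hU.mem_nhds hz)
  refine ⟨hO, Function.invFunOn f U, ?_, fun z hz => hi.leftInvOn_invFunOn hz⟩
  set ψ := Function.invFunOn f U with hψ
  have hleft : ∀ z ∈ U, ψ (f z) = z := fun z hz => hi.leftInvOn_invFunOn hz
  have hright : ∀ w ∈ f '' U, f (ψ w) = w := by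
    rintro _ ⟨z, hz, rfl⟩
    rw [hleft z hz]
  have hcont : ∀ z ∈ U, ContinuousAt ψ (f z) := by
    intro z hz
    unfold ContinuousAt
    rw [hleft z hz]
    refine Filter.Tendsto.mono_left ?_ (hmap z hz)
    rw [Filter.tendsto_map'_iff]
    refine Filter.Tendsto.congr' ?_ Filter.tendsto_id
    filter_upwards [hU.mem_nhds hz] with w hw
    simp [hleft w hw]
  have hdiff : ∀ z ∈ U, deriv f z ≠ 0 → DifferentiableAt ℂ ψ (f z) := by
    intro z hz hd
    have h1 : HasDerivAt f (deriv f z) (ψ (f z)) := by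
      rw [hleft z hz]
      exact ((hf z hz).differentiableAt (hU.mem_nhds hz)).hasDerivAt
    have h2 : ∀ᶠ y in 𝓝 (f z), f (ψ y) = y := by
      filter_upwards [hO.mem_nhds ⟨z, hz, rfl⟩] with y hy
      exact hright y hy
    exact (HasDerivAt.of_local_left_inverse (hcont z hz) h1 hd h2).differentiableAt
  rintro _ ⟨z, hz, rfl⟩
  have hcase : ∀ᶠ w in 𝓝[≠] z, deriv f w ≠ 0 := by
    rcases (han z hz).deriv.eventually_eq_zero_or_eventually_ne_zero with h | h
    · exfalso
      obtain ⟨ε, hε, hball⟩ := Metric.mem_nhds_iff.1 (Filter.inter_mem h (hU.mem_nhds hz))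
      apply hnc z hz
      filter_upwards [Metric.ball_mem_nhds z hε] with w hw
      refine isOpen_ball.is_const_of_deriv_eq_zero (convex_ball z ε).isPreconnected
        (hf.mono fun y hy => (hball hy).2) (fun y hy => (hball hy).1) hw (mem_ball_self hε)
    · exact h
  rw [eventually_nhdsWithin_iff] at hcase
  have hN : f '' ({w | w ∈ ({z} : Set ℂ)ᶜ → deriv f w ≠ 0} ∩ U) ∈ 𝓝 (f z) :=
    hopen z hz _ (Filter.inter_mem hcase (hU.mem_nhds hz))
  have h3 : DifferentiableOn ℂ ψ (f '' ({w | w ∈ ({z} : Set ℂ)ᶜ → deriv f w ≠ 0} ∩ U)) := by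
    rw [← Complex.differentiableOn_compl_singleton_and_continuousAt_iff hN]
    refine ⟨?_, hcont z hz⟩
    rintro _ ⟨⟨w, ⟨hw1, hw2⟩, rfl⟩, hne⟩
    refine (hdiff w hw2 (hw1 ?_)).differentiableWithinAt
    intro h
    exact hne (by rw [show w = z from h]; rfl)
  exact ((h3 _ (mem_of_mem_nhds hN)).differentiableAt hN).differentiableWithinAt

end Pool.JS
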