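import Pool.Agent.JS.RmC
import Pool.Agent.JS.RmD
import Pool.Agent.JS.RmE

/-!
MODULE RmF (difficulty 1).  The Riemann mapping theorem for bounded domains with logarithms.

RECIPE.  `f` from `exists_extremal`; `f '' U = ball 0 1` by `exists_better` (otherwise a contradiction).  `ψ' ` from `exists_holo_inverse`: `φ = ψ'` is the map of the disc, `ψ = f`.  `φ 0 = φ (f a) = a`.
-/

open Set Metric Topology

namespace Pool.JS

theorem riemann {U : Set ℂ} (hU : IsOpen U) (hc : IsPreconnected U) (hb : Bornology.IsBounded U)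
    (hlog : ∀ h : ℂ → ℂ, ContinuousOn h U → (∀ z ∈ U, h z ≠ 0) → HasLog U h) {a : ℂ} (ha : a ∈ U) :
    ∃ φ ψ, Conf U φ ψ ∧ φ 0 = a := by
  obtain ⟨f, hf, hd, hext⟩ := exists_extremal hU hc hb ha
  have himg : f '' U = ball 0 1 := by
    apply Subset.antisymm
    · rintro y ⟨z, hz, rfl⟩
      exact hf.maps hz
    · intro c hcc
      by_contra hn
      obtain ⟨h, hh, hlt⟩ := exists_better hU ha hlog hf hd hcc hn
      exact absurd (hext h hh) (not_le.2 hlt)
  obtain ⟨-, ψ, hψ, hl⟩ := exists_holo_inverse hU hf.diff hf.inj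
  rw [himg] at hψ
  have hinv : ∀ w ∈ ball (0 : ℂ) 1, ψ w ∈ U ∧ f (ψ w) = w := by
    intro w hw
    rw [← himg] at hw
    obtain ⟨z, hz, rfl⟩ := hw
    rw [hl z hz]
    exact ⟨hz, rfl⟩
  refine ⟨ψ, f, ⟨hψ, fun w hw => (hinv w hw).1, hf.diff, hf.maps, fun w hw => (hinv w hw).2, hl⟩, ?_⟩
  rw [← hf.zero]
  exact hl a ha

end Pool.JS
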