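import Pool.Agent.JS.CaG
import Pool.Agent.JS.CaJ
import Pool.Agent.JS.BkF
import Pool.Agent.JS.RmF

/-!
MODULE Sch (difficulty 1).  The Schoenflies theorem for the inner domain of a Jordan curve in the plane.

RECIPE.  `U` is nonempty, bounded, open, connected, `Jsep.hasLog` gives the hypothesis of `riemann`; `Conf.small`, `Conf.exists_ext`, `Ext.injOn`.
-/

open Set Metric Topology

namespace Pool.JS

theorem schoenflies_inner {J U V : Set ℂ} (hJ : IsJordan J) (hs : Jsep J U V) :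
    ∃ Φ : ℂ → ℂ, ContinuousOn Φ (closedBall 0 1) ∧ InjOn Φ (closedBall 0 1) ∧ Φ '' ball 0 1 = U ∧
      Φ '' sphere 0 1 = J ∧ Φ '' closedBall 0 1 = closure U := by
  have hne : U.Nonempty := hs.connU.nonempty
  obtain ⟨a, ha⟩ := hne
  obtain ⟨φ, ψ, h, -⟩ := riemann hs.openU hs.connU.isPreconnected hs.bddU
    (fun f hf h0 => hs.hasLog hf h0) ha
  obtain ⟨Φ, hΦ⟩ := h.exists_ext hs (fun ζ hζ ε hε => h.small hJ hs hζ hε)
  exact ⟨Φ, hΦ.cont, hΦ.injOn hs, hΦ.imball, hΦ.imsphere, hΦ.imclosed⟩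

end Pool.JS
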