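import Pool.Agent.JS.SpF
import Pool.Agent.JS.Sch

/-!
The final statements about the two-sphere.
-/

open Set Metric Topology

namespace Pool.JS

variable {X : Type*} [TopologicalSpace X] [CompactSpace X] [T2Space X] [Sph X]

theorem SepX.disc {J U V : Set X} (hJ : JorX J) (h : SepX J U V) : DiscX (closure U) J U :=
  h.disc_of hJ (fun hJ hs => schoenflies_inner hJ hs)

/-- the Schoenflies theorem in the two-sphere -/
theorem JorX.schoenflies {J : Set X} (hJ : JorX J) :
    ∃ U V, SepX J U V ∧ DiscX (closure U) (frontier U) U ∧ DiscX (closure V) (frontier V) V := by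
  obtain ⟨U, V, h⟩ := hJ.jct
  refine ⟨U, V, h, ?_, ?_⟩
  · rw [h.frU]; exact h.disc hJ
  · rw [h.frV]; exact h.symm.disc hJ

/-- Eilenberg's criterion in the two-sphere -/
theorem eilenbergX {x y : X} (hxy : x ≠ y) : ∃ ψ : X → ℂ, ContinuousOn ψ {y}ᶜ ∧ (∀ z, z ≠ y → (ψ z = 0 ↔ z = x)) ∧
    ∀ K : Set X, IsClosed K → x ∉ K → y ∉ K →
      (ConX K x y ↔ ∃ g : X → ℂ, ContinuousOn g K ∧ ∀ z ∈ K, Complex.exp (g z) = ψ z) := by
  obtain ⟨σ, hσ⟩ := exists_chart y
  obtain ⟨a, rfl⟩ := hσ.exists_eq hxy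
  have : Nonempty ℂ := ⟨0⟩
  set τ : X → ℂ := Function.invFun σ with hτ
  have hτσ : ∀ z, τ (σ z) = z := Function.leftInverse_invFun hσ.inj
  have hτc : ContinuousOn τ ({y} : Set X)ᶜ := by
    rw [← hσ.range]
    rintro _ ⟨z, rfl⟩
    refine ContinuousAt.continuousWithinAt ?_
    have h1 := hσ.emb.continuousAt_iff (f := σ) (g := τ) (x := z)
    rw [← h1]
    have : τ ∘ σ = id := funext hτσ
    rw [this]
    exact continuousAt_id
  refine ⟨fun z => τ z - a, hτc.sub continuousOn_const, ?_, ?_⟩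
  · intro z hz
    obtain ⟨w, rfl⟩ := hσ.exists_eq hz
    show τ (σ w) - a = 0 ↔ _
    rw [hτσ, sub_eq_zero, hσ.inj.eq_iff]
  · intro K hK hx hy
    rw [hσ.esc_iff hK hy hx]
    have hKc : IsCompact (σ ⁻¹' K) := hσ.isCompact_preimage hK hy
    constructor
    · intro h
      obtain ⟨g, hg, hg'⟩ := hasLog_of_esc hKc h
      refine ⟨g ∘ τ, ?_, ?_⟩
      · refine hg.comp (hτc.mono ?_) ?_
        · intro z hz hzy
          rw [mem_singleton_iff] at hzy
          exact hy (hzy ▸ hz)
        · intro z hz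
          have hzy : z ≠ y := fun h => hy (h ▸ hz)
          obtain ⟨w, rfl⟩ := hσ.exists_eq hzy
          rw [mem_preimage, hτσ]
          exact hz
      · intro z hz
        have hzy : z ≠ y := fun h => hy (h ▸ hz)
        obtain ⟨w, rfl⟩ := hσ.exists_eq hzy
        show Complex.exp (g (τ (σ w))) = τ (σ w) - a
        rw [hτσ]
        exact hg' w hz
    · rintro ⟨g, hg, hg'⟩
      refine esc_of_hasLog hKc hx ⟨g ∘ σ, ?_, ?_⟩
      · exact hg.comp hσ.cont.continuousOn (fun z hz => hz)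
      · intro z hz
        show Complex.exp (g (σ z)) = z - a
        rw [hg' _ hz]
        show τ (σ z) - a = z - a
        rw [hτσ]

end Pool.JS
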