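import Pool.Agent.JS.ThB
import Pool.Agent.JS.ThD

/-!
MODULE ThC (difficulty 3).  Adding an ear.

RECIPE.  `good_cycle`: `JorX.jct` for `⋃₀ D` and `FaceX.side` (with `SepX.symm`).
`good_ear`: let `L = ⋃₀ D`, `G = ⋃₀ F`, so `⋃₀ (F ∪ D) = G ∪ L`, `L ∩ G = {p, q}`.  The set `L \ {p, q}` is connected (`ArcX.interior`) and disjoint from `G`, so it is contained in a face `W₀` of `G` (`exists_face` for one of its points, `FaceX.max`).
By hypothesis `W₀` is a side of `J₀ = ⋃₀ D₀`, `D₀ ⊆ F`: `SepX J₀ W₀ W₀'`.  `p, q ∈ closure (L \ {p, q}) ⊆ closure W₀ = W₀ ∪ J₀` and `p, q ∈ G`, so `p, q ∈ J₀`.  `GrX.split` : `D₀ = D₁ ∪ D₂`; `theta` with `A = ⋃₀ D₁`, `B = ⋃₀ D₂`: sides `U₁` of `⋃₀ (D₁ ∪ D)` and `U₂` of `⋃₀ (D₂ ∪ D)`, `U₁ ∪ U₂ = W₀ \ L`.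
Let `W` be a face of `G ∪ L`; `W ⊆ W₁` for a face `W₁` of `G` (`FaceX.sub_face`).  If `W₁ ≠ W₀` then `W₁` is disjoint from `L` (`FaceX.eq`), so `W₁ ⊆ W` (`FaceX.max`), `W = W₁`, use the hypothesis for `W₁`.  If `W₁ = W₀`: `W ⊆ W₀ \ L = U₁ ∪ U₂`; `W` is preconnected and `U₁`, `U₂` are open and disjoint, so e.g. `W ⊆ U₁`;
`U₁` is connected and disjoint from `G ∪ L`, so `U₁ ⊆ W`.
-/

open Set Metric Topology

namespace Pool.JS

variable {X : Type*} [TopologicalSpace X] [CompactSpace X] [T2Space X] [Sph X] {V : Set X} {E F D : Set (Set X)} {p q : X}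

theorem good_cycle (hD : D ⊆ E) (hne : D.Nonempty) (hJ : JorX (⋃₀ D)) : GoodX E D := by
  refine ⟨hD, hne, ?_⟩
  intro W hW
  obtain ⟨U, V, h⟩ := hJ.jct
  rcases hW.side h with rfl | rfl
  · exact ⟨D, Subset.rfl, hJ, V, h⟩
  · exact ⟨D, Subset.rfl, hJ, U, h.symm⟩

theorem good_ear (hG : GrX V E) (hF : GoodX E F) (hD : D ⊆ E) (hp : p ∈ V) (hq : q ∈ V) (hL : ArcX (⋃₀ D) p q)
    (hDF : ⋃₀ D ∩ ⋃₀ F = {p, q}) : GoodX E (F ∪ D) := by
  obtain ⟨hFE, hFne, hFace⟩ := hF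
  refine ⟨union_subset hFE hD, hFne.mono subset_union_left, ?_⟩
  have hGL : ⋃₀ (F ∪ D) = ⋃₀ F ∪ ⋃₀ D := sUnion_union F D
  rw [hGL]
  set G := ⋃₀ F with hGdef
  set L := ⋃₀ D with hLdef
  obtain ⟨hLi, hLcl⟩ := hL.interior
  have hpG : p ∈ G := by
    have : p ∈ L ∩ G := by rw [hDF]; exact mem_insert _ _
    exact this.2
  have hqG : q ∈ G := by
    have : q ∈ L ∩ G := by rw [hDF]; exact mem_insert_of_mem _ rfl
    exact this.2
  have hLiG : L \ {p, q} ⊆ Gᶜ := by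
    rintro x ⟨hxL, hxp⟩ hxG
    exact hxp (by rw [← hDF]; exact ⟨hxL, hxG⟩)
  obtain ⟨x₀, hx₀⟩ := hLi.nonempty
  obtain ⟨W₀, hW₀, hxW₀⟩ := exists_face (G := G) (hLiG hx₀)
  have hLiW : L \ {p, q} ⊆ W₀ := hW₀.max _ hLi.isPreconnected hLiG ⟨x₀, hx₀, hxW₀⟩
  obtain ⟨D₀, hD₀F, hJ₀, W₀', hS⟩ := hFace W₀ hW₀
  have hcl : L ⊆ W₀ ∪ ⋃₀ D₀ := by
    rw [← hS.closure_eq]
    exact hLcl.trans (closure_mono hLiW)
  have hpJ : p ∈ ⋃₀ D₀ := by
    rcases hcl hL.left_mem with h | h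
    · exact (hW₀.sub h hpG).elim
    · exact h
  have hqJ : q ∈ ⋃₀ D₀ := by
    rcases hcl hL.right_mem with h | h
    · exact (hW₀.sub h hqG).elim
    · exact h
  obtain ⟨D₁, D₂, hDD, -, hA, hB, hAB⟩ := hG.split (hD₀F.trans hFE) hJ₀ hp hq hpJ hqJ hL.ne
  have hun : ⋃₀ D₁ ∪ ⋃₀ D₂ = ⋃₀ D₀ := by rw [← sUnion_union, hDD]
  have hD₁F : D₁ ⊆ F := (subset_union_left.trans hDD.subset).trans hD₀F
  have hD₂F : D₂ ⊆ F := (subset_union_right.trans hDD.subset).trans hD₀F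
  obtain ⟨U₁, V₁, U₂, V₂, hS₁, hS₂, hdisj, hUU, -, -⟩ := theta hS hA hB hAB hun hL hLiW
  have hglue : ∀ D' : Set (Set X), D' ⊆ F → ArcX (⋃₀ D') p q → JorX (⋃₀ (D' ∪ D)) := by
    intro D' hD' hA'
    rw [sUnion_union]
    refine JorX.glue hA' hL ?_
    apply Subset.antisymm
    · rintro x ⟨hx1, hx2⟩
      rw [← hDF]
      exact ⟨hx2, sUnion_mono hD' hx1⟩
    · intro x hx
      rcases hx with hx | hx
      · have hx' : x = p := hx
        subst hx'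
        exact ⟨hA'.left_mem, hL.left_mem⟩
      · have hx' : x = q := hx
        subst hx'
        exact ⟨hA'.right_mem, hL.right_mem⟩
  intro W hW
  obtain ⟨W₁, hW₁, hWW₁⟩ := hW.sub_face (G := G) subset_union_left
  by_cases hmeet : (W₁ ∩ W₀).Nonempty
  · have hW10 : W₁ = W₀ := hW₁.eq hW₀ hmeet
    have hWU : W ⊆ U₁ ∪ U₂ := by
      rw [hUU]
      intro x hx
      refine ⟨hW10 ▸ hWW₁ hx, fun hxL => ?_⟩
      exact hW.sub hx (Or.inr hxL)
    have hfin : ∀ U' : Set X, IsPreconnected U' → U' ⊆ W₀ \ L → W ⊆ U' → W = U' := by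
      intro U' hU' hsub hWU'
      apply Subset.antisymm hWU'
      refine hW.max U' hU' ?_ ?_
      · intro x hx hx'
        rcases hx' with h | h
        · exact hW₀.sub (hsub hx).1 h
        · exact (hsub hx).2 h
      · obtain ⟨x, hx⟩ := hW.ne
        exact ⟨x, hWU' hx, hx⟩
    rcases hW.conn.subset_or_subset hS₁.openU hS₂.openU hdisj hWU with h | h
    · have := hfin U₁ hS₁.connU.isPreconnected (by rw [← hUU]; exact subset_union_left) h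
      subst this
      exact ⟨D₁ ∪ D, union_subset_union_left D hD₁F, hglue D₁ hD₁F hA, V₁, by rw [sUnion_union]; exact hS₁⟩
    · have := hfin U₂ hS₂.connU.isPreconnected (by rw [← hUU]; exact subset_union_right) h
      subst this
      exact ⟨D₂ ∪ D, union_subset_union_left D hD₂F, hglue D₂ hD₂F hB, V₂, by rw [sUnion_union]; exact hS₂⟩
  · have hsub : W₁ ⊆ (G ∪ L)ᶜ := by
      intro x hx hx'
      rcases hx' with h | h
      · exact hW₁.sub hx h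
      · by_cases hxp : x ∈ ({p, q} : Set X)
        · rcases hxp with h1 | h1
          · exact hW₁.sub hx (h1 ▸ hpG)
          · exact hW₁.sub hx ((show x = q from h1) ▸ hqG)
        · exact hmeet ⟨x, hx, hLiW ⟨h, hxp⟩⟩
    have h2 : W₁ ⊆ W := by
      refine hW.max W₁ hW₁.conn hsub ?_
      obtain ⟨x, hx⟩ := hW.ne
      exact ⟨x, hWW₁ hx, hx⟩
    have h3 : W = W₁ := Subset.antisymm hWW₁ h2
    subst h3
    obtain ⟨D', hD', hJ', W', hS'⟩ := hFace W hW₁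
    exact ⟨D', hD'.trans subset_union_left, hJ', W', hS'⟩

end Pool.JS
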