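import Pool.Agent.JS.PgB
import Pool.Agent.JS.ThC
import Pool.Agent.JS.ThG
import Pool.Agent.JS.SpG

/-!
MODULE PgI (difficulty 4).  The faces of a finite plane graph without cut points.

RECIPE.  `SepX.disc`: `SepX.disc_of` (SpF) with `schoenflies_inner` (Sch).
Call `F ⊆ E` very good if `GoodX E F` (ThDefs) and every `e ∈ F` is contained in the frontiers of exactly two faces of `⋃₀ F` (in the sense of the statement, with `FaceX (⋃₀ F)`).  A cycle is very good (`JorX.jct`, `FaceX.side`, the frontier of both sides is `⋃₀ D`; the sides are different because they are disjoint and nonempty).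
Adding an ear `D` (`L = ⋃₀ D`, ends `p, q`): exactly as in ThC (copy the proof of `good_ear`): the faces of `⋃₀ (F ∪ D)` are the faces of `⋃₀ F` different from `W₀` and the two sets `U₁`, `U₂`, sides of `⋃₀ (D₁ ∪ D)`, `⋃₀ (D₂ ∪ D)`, where `D₁ ∪ D₂ = D₀` and `W₀` is a side of `⋃₀ D₀`.  An edge `e ∈ D` lies in the frontiers of `U₁` and `U₂`, and in no frontier of an old
face (`⊆ ⋃₀ F`, `PG.mem_of_sub`); an edge `e ∈ F` not in `D₀` has the same two faces as before (it is not in the frontiers `⋃₀ (D_i ∪ D)`, nor in `frontier W₀ = ⋃₀ D₀`); an edge `e ∈ D₁` was in the frontier of `W₀` and of exactly one other face `W`: now of `U₁` and `W`, not of `U₂`; the same for `D₂`.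
Induction as in ThH (number of missing edges).  `faces`: finiteness: the map `U ↦ D` (`frontier U = ⋃₀ D`, `D ⊆ E`) has fibres with at most two elements (`SepX.eq_or`) and `E` has finitely many subsets.  `carX V E = ⋃₀ E`.
-/

open Set Metric Topology

namespace Pool.JS

variable {X : Type*} [TopologicalSpace X] [CompactSpace X] [T2Space X] [Sph X] {V J U W : Set X} {E : Set (Set X)}

/-- every edge is in the frontier of exactly two faces -/
def pgi_two (F : Set (Set X)) : Prop :=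
  ∀ e ∈ F, ∃ U₁ U₂, FaceX (⋃₀ F) U₁ ∧ FaceX (⋃₀ F) U₂ ∧ U₁ ≠ U₂ ∧ e ⊆ frontier U₁ ∧ e ⊆ frontier U₂ ∧
    ∀ U, FaceX (⋃₀ F) U → e ⊆ frontier U → U = U₁ ∨ U = U₂

omit [CompactSpace X] [T2Space X] [Sph X] in
theorem pgi_ne {A B : Set X} (hA : A.Nonempty) (h : Disjoint A B) : A ≠ B := by
  rintro rfl
  obtain ⟨x, hx⟩ := hA
  exact disjoint_left.1 h hx hx

omit [CompactSpace X] [T2Space X] [Sph X] in
theorem pgi_dJ {A B : Set X} (h : SepX J A B) : Disjoint A J := by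
  rw [disjoint_left]
  intro x hx hxJ
  have : x ∈ Jᶜ := by
    rw [← h.union]
    exact Or.inl hx
  exact this hxJ

theorem pgi_cycle {D : Set (Set X)} (hJ : JorX (⋃₀ D)) : pgi_two D := by
  obtain ⟨U, W, h⟩ := hJ.jct
  intro e he
  have hes : e ⊆ ⋃₀ D := subset_sUnion_of_mem he
  refine ⟨U, W, h.face_left subset_rfl (pgi_dJ h), h.symm.face_left subset_rfl (pgi_dJ h.symm),
    pgi_ne h.connU.nonempty h.disj, by rw [h.frU]; exact hes, by rw [h.frV]; exact hes, fun Z hZ _ => hZ.side h⟩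

theorem pgi_ear {F D : Set (Set X)} {p q : X} (hPG : PG V E) (hF : GoodX E F) (hF2 : pgi_two F) (hD : D ⊆ E)
    (hdis : Disjoint D F) (hp : p ∈ V) (hq : q ∈ V) (hL : ArcX (⋃₀ D) p q)
    (hDF : ⋃₀ D ∩ ⋃₀ F = {p, q}) : pgi_two (F ∪ D) := by
  have hG := hPG.gr
  obtain ⟨hFE, hFne, hFace⟩ := hF
  have hGL : ⋃₀ (F ∪ D) = ⋃₀ F ∪ ⋃₀ D := sUnion_union F D
  unfold pgi_two at hF2 ⊢
  rw [hGL]
  set G := ⋃₀ F with hGdef
  set L := ⋃₀ D with hLdef
  obtain ⟨hLi, hLcl⟩ := hL.interior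
  have hpG : p ∈ G := by
    have : p ∈ L ∩ G := by rw [hDF]; exact mem_insert _ _
    exact this.2
  have hqG : q ∈ G := by
    have : q ∈ L ∩ G := by rw [hDF]; exact mem_insert_of_mem _ rfl
    exact this.2
  have hLiG : L \ {p, q} ⊆ Gᶜ := by
    rintro x ⟨hxL, hxp⟩ hxG
    exact hxp (by rw [← hDF]; exact ⟨hxL, hxG⟩)
  obtain ⟨x₀, hx₀⟩ := hLi.nonempty
  obtain ⟨W₀, hW₀, hxW₀⟩ := exists_face (G := G) (hLiG hx₀)
  have hLiW : L \ {p, q} ⊆ W₀ := hW₀.max _ hLi.isPreconnected hLiG ⟨x₀, hx₀, hxW₀⟩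
  obtain ⟨D₀, hD₀F, hJ₀, W₀', hS⟩ := hFace W₀ hW₀
  have hcl : L ⊆ W₀ ∪ ⋃₀ D₀ := by
    rw [← hS.closure_eq]
    exact hLcl.trans (closure_mono hLiW)
  have hpJ : p ∈ ⋃₀ D₀ := by
    rcases hcl hL.left_mem with h | h
    · exact (hW₀.sub h hpG).elim
    · exact h
  have hqJ : q ∈ ⋃₀ D₀ := by
    rcases hcl hL.right_mem with h | h
    · exact (hW₀.sub h hqG).elim
    · exact h
  obtain ⟨D₁, D₂, hDD, hD12, hA, hB, hAB⟩ := hG.split (hD₀F.trans hFE) hJ₀ hp hq hpJ hqJ hL.ne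
  have hun : ⋃₀ D₁ ∪ ⋃₀ D₂ = ⋃₀ D₀ := by rw [← sUnion_union, hDD]
  have hD₁F : D₁ ⊆ F := (subset_union_left.trans hDD.subset).trans hD₀F
  have hD₂F : D₂ ⊆ F := (subset_union_right.trans hDD.subset).trans hD₀F
  obtain ⟨U₁, V₁, U₂, V₂, hS₁, hS₂, hdisj, hUU, -, -⟩ := theta hS hA hB hAB hun hL hLiW
  -- the new faces
  have hsubU₁ : U₁ ⊆ W₀ \ L := by rw [← hUU]; exact subset_union_left
  have hsubU₂ : U₂ ⊆ W₀ \ L := by rw [← hUU]; exact subset_union_right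
  have hdU : ∀ U' : Set X, U' ⊆ W₀ \ L → Disjoint U' (G ∪ L) := by
    intro U' hU'
    rw [disjoint_left]
    rintro x hx (h | h)
    · exact hW₀.sub (hU' hx).1 h
    · exact (hU' hx).2 h
  have hFU₁ : FaceX (G ∪ L) U₁ := hS₁.face_left (union_subset_union_left L (sUnion_mono hD₁F)) (hdU U₁ hsubU₁)
  have hFU₂ : FaceX (G ∪ L) U₂ := hS₂.face_left (union_subset_union_left L (sUnion_mono hD₂F)) (hdU U₂ hsubU₂)
  -- the old faces
  have hdW : ∀ W₁ : Set X, FaceX G W₁ → W₁ ≠ W₀ → W₁ ⊆ (G ∪ L)ᶜ := by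
    intro W₁ hW₁ hne x hx hx'
    rcases hx' with h | h
    · exact hW₁.sub hx h
    · by_cases hxp : x ∈ ({p, q} : Set X)
      · rcases hxp with h1 | h1
        · exact hW₁.sub hx (h1 ▸ hpG)
        · exact hW₁.sub hx ((show x = q from h1) ▸ hqG)
      · exact hne (hW₁.eq hW₀ ⟨x, hx, hLiW ⟨h, hxp⟩⟩)
  have hold : ∀ W₁ : Set X, FaceX G W₁ → W₁ ≠ W₀ → FaceX (G ∪ L) W₁ := by
    intro W₁ hW₁ hne
    exact ⟨hW₁.ne, hW₁.conn, hdW W₁ hW₁ hne, fun C hC hCs hm =>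
      hW₁.max C hC (hCs.trans (compl_subset_compl.2 subset_union_left)) hm⟩
  have hall : ∀ W : Set X, FaceX (G ∪ L) W → W = U₁ ∨ W = U₂ ∨ (FaceX G W ∧ W ≠ W₀) := by
    intro W hW
    obtain ⟨W₁, hW₁, hWW₁⟩ := hW.sub_face (G := G) subset_union_left
    by_cases hW10 : W₁ = W₀
    · have hWU : W ⊆ U₁ ∪ U₂ := by
        rw [hUU]
        intro x hx
        refine ⟨hW10 ▸ hWW₁ hx, fun hxL => ?_⟩
        exact hW.sub hx (Or.inr hxL)
      obtain ⟨x, hx⟩ := hW.ne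
      rcases hWU hx with h | h
      · exact Or.inl (hW.eq hFU₁ ⟨x, hx, h⟩)
      · exact Or.inr (Or.inl (hW.eq hFU₂ ⟨x, hx, h⟩))
    · obtain ⟨x, hx⟩ := hW.ne
      have h3 : W = W₁ := hW.eq (hold W₁ hW₁ hW10) ⟨x, hx, hWW₁ hx⟩
      right
      right
      rw [h3]
      exact ⟨hW₁, hW10⟩
  -- frontiers
  have hfr₁ : frontier U₁ = ⋃₀ (D₁ ∪ D) := by rw [hS₁.frU, sUnion_union]
  have hfr₂ : frontier U₂ = ⋃₀ (D₂ ∪ D) := by rw [hS₂.frU, sUnion_union]
  have hfr₀ : frontier W₀ = ⋃₀ D₀ := hS.frU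
  have hmem₁ : ∀ e ∈ F, e ⊆ frontier U₁ → e ∈ D₁ := by
    intro e he hs
    rw [hfr₁] at hs
    rcases hPG.mem_of_sub (hFE he) (union_subset (hD₁F.trans hFE) hD) hs with h | h
    · exact h
    · exact (disjoint_left.1 hdis h he).elim
  have hmem₂ : ∀ e ∈ F, e ⊆ frontier U₂ → e ∈ D₂ := by
    intro e he hs
    rw [hfr₂] at hs
    rcases hPG.mem_of_sub (hFE he) (union_subset (hD₂F.trans hFE) hD) hs with h | h
    · exact h
    · exact (disjoint_left.1 hdis h he).elim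
  have hmem₀ : ∀ e ∈ F, e ⊆ frontier W₀ → e ∈ D₀ := by
    intro e he hs
    rw [hfr₀] at hs
    exact hPG.mem_of_sub (hFE he) (hD₀F.trans hFE) hs
  rintro e (he | he)
  · obtain ⟨A, B, hA1, hB1, hABne, heA, heB, hex⟩ := hF2 e he
    by_cases he0 : e ∈ D₀
    · have heW : e ⊆ frontier W₀ := by rw [hfr₀]; exact subset_sUnion_of_mem he0
      -- the other face
      obtain ⟨B', hB', hB'ne, heB', hex'⟩ : ∃ B', FaceX G B' ∧ B' ≠ W₀ ∧ e ⊆ frontier B' ∧
          ∀ U, FaceX G U → e ⊆ frontier U → U = W₀ ∨ U = B' := by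
        rcases hex W₀ hW₀ heW with h | h
        · exact ⟨B, hB1, fun hh => hABne (by rw [hh]; exact h.symm), heB, fun U hU hs => by rw [h]; exact hex U hU hs⟩
        · exact ⟨A, hA1, fun hh => hABne (by rw [hh]; exact h), heA, fun U hU hs => by
            rw [h]; exact (hex U hU hs).symm⟩
      have hneU : ∀ U' : Set X, U'.Nonempty → U' ⊆ W₀ \ L → U' ≠ B' := by
        rintro U' ⟨x, hx⟩ hU' rfl
        exact hB'ne (hB'.eq hW₀ ⟨x, hx, (hU' hx).1⟩)
      rw [← hDD] at he0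
      rcases he0 with he1 | he2
      · refine ⟨U₁, B', hFU₁, hold B' hB' hB'ne, hneU U₁ hS₁.connU.nonempty hsubU₁,
          by rw [hfr₁]; exact subset_sUnion_of_mem (Or.inl he1), heB', ?_⟩
        intro U hU hs
        rcases hall U hU with h | h | ⟨h, h'⟩
        · exact Or.inl h
        · rw [h] at hs
          exact (disjoint_left.1 hD12 he1 (hmem₂ e he hs)).elim
        · exact Or.inr ((hex' U h hs).resolve_left h')
      · refine ⟨U₂, B', hFU₂, hold B' hB' hB'ne, hneU U₂ hS₂.connU.nonempty hsubU₂,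
          by rw [hfr₂]; exact subset_sUnion_of_mem (Or.inl he2), heB', ?_⟩
        intro U hU hs
        rcases hall U hU with h | h | ⟨h, h'⟩
        · rw [h] at hs
          exact (disjoint_left.1 hD12 (hmem₁ e he hs) he2).elim
        · exact Or.inl h
        · exact Or.inr ((hex' U h hs).resolve_left h')
    · have hAW : A ≠ W₀ := fun h => he0 (hmem₀ e he (h ▸ heA))
      have hBW : B ≠ W₀ := fun h => he0 (hmem₀ e he (h ▸ heB))
      refine ⟨A, B, hold A hA1 hAW, hold B hB1 hBW, hABne, heA, heB, ?_⟩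
      intro U hU hs
      rcases hall U hU with h | h | ⟨h, h'⟩
      · rw [h] at hs
        exact (he0 (hDD ▸ Or.inl (hmem₁ e he hs))).elim
      · rw [h] at hs
        exact (he0 (hDD ▸ Or.inr (hmem₂ e he hs))).elim
      · exact hex U h hs
  · refine ⟨U₁, U₂, hFU₁, hFU₂, pgi_ne hS₁.connU.nonempty hdisj,
      by rw [hfr₁]; exact subset_sUnion_of_mem (Or.inr he), by rw [hfr₂]; exact subset_sUnion_of_mem (Or.inr he), ?_⟩
    intro U hU hs
    rcases hall U hU with h | h | ⟨h, -⟩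
    · exact Or.inl h
    · exact Or.inr h
    · obtain ⟨D', hD', -, W', hS'⟩ := hFace U h
      rw [hS'.frU] at hs
      have h5 := hPG.mem_of_sub (hD he) (hD'.trans hFE) hs
      exact (disjoint_left.1 hdis he (hD' h5)).elim

theorem pgi_all (hPG : PG V E) (h2 : TwoConnX V E) : ∀ (n : ℕ) (F : Set (Set X)), GoodX E F → pgi_two F →
    (E \ F).ncard = n → GoodX E E ∧ pgi_two E := by
  intro n
  induction n using Nat.strong_induction_on with
  | _ n ih =>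
    intro F hF hF2 hn
    by_cases hFE : F = E
    · rw [hFE] at hF hF2
      exact ⟨hF, hF2⟩
    · obtain ⟨D, hD, hDn, hdis, p, hp, q, hq, hL, hDF⟩ := hPG.gr.exists_ear h2 hF.1 hF.2.1 hFE
      have h3 := good_ear hPG.gr hF hD hp hq hL hDF
      have h4 := pgi_ear hPG hF hF2 hD hdis hp hq hL hDF
      refine ih (E \ (F ∪ D)).ncard ?_ (F ∪ D) h3 h4 rfl
      rw [← hn]
      refine ncard_lt_ncard ?_ (hPG.finE.sdiff)
      refine ⟨fun x hx => ⟨hx.1, fun h => hx.2 (Or.inl h)⟩, fun h => ?_⟩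
      obtain ⟨d, hd⟩ := hDn
      have h4 : d ∈ E \ F := ⟨hD hd, fun hdF => disjoint_left.1 hdis hd hdF⟩
      exact (h h4).2 (Or.inr hd)

theorem PG.faces (h : PG V E) (hE : E.Nonempty) (hn : NoCut (⋃₀ E)) :
    (Fc E).Finite ∧ (∀ U ∈ Fc E, DiscDom U ∧ ∃ D ⊆ E, frontier U = ⋃₀ D) ∧
    (∀ e ∈ E, ∃ U₁ ∈ Fc E, ∃ U₂ ∈ Fc E, U₁ ≠ U₂ ∧ e ⊆ frontier U₁ ∧ e ⊆ frontier U₂ ∧
      ∀ U ∈ Fc E, e ⊆ frontier U → U = U₁ ∨ U = U₂) := by
  have h2 : TwoConnX V E := ⟨hE, fun x => by rw [h.carX_eq]; exact hn x⟩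
  obtain ⟨e₀, he₀⟩ := hE
  obtain ⟨D, hD, heD, hJ⟩ := h.gr.exists_cycle h2 he₀
  obtain ⟨hgood, htwo⟩ := pgi_all h h2 _ D (good_cycle hD ⟨e₀, heD⟩ hJ) (pgi_cycle hJ) rfl
  refine ⟨?_, ?_, ?_⟩
  · have h3 : Fc E ⊆ ⋃ D ∈ {D | D ⊆ E}, {U | ∃ W', SepX (⋃₀ D) U W'} := by
      intro U hU
      obtain ⟨D', hD', -, W', hS⟩ := hgood.2.2 U (mem_Fc_iff.1 hU)
      exact mem_iUnion₂.2 ⟨D', hD', W', hS⟩
    refine Set.Finite.subset (Set.Finite.biUnion h.finE.finite_subsets fun D' _ => ?_) h3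
    by_cases hne : ({U | ∃ W', SepX (⋃₀ D') U W'} : Set (Set X)).Nonempty
    · obtain ⟨A, B, hAB⟩ := hne
      refine (Set.toFinite ({A, B} : Set (Set X))).subset ?_
      rintro U ⟨W', hU⟩
      rcases hU.eq_or hAB with h4 | h4
      · exact Or.inl h4.1
      · exact Or.inr h4.1
    · rw [not_nonempty_iff_eq_empty.1 hne]
      exact finite_empty
  · intro U hU
    obtain ⟨D', hD', hJ', W', hS⟩ := hgood.2.2 U (mem_Fc_iff.1 hU)
    refine ⟨?_, D', hD', hS.frU⟩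
    unfold DiscDom
    rw [hS.frU]
    exact hS.disc hJ'
  · intro e he
    obtain ⟨U₁, U₂, a1, a2, a3, a4, a5, a6⟩ := htwo e he
    exact ⟨U₁, mem_Fc_iff.2 a1, U₂, mem_Fc_iff.2 a2, a3, a4, a5, fun U hU hs => a6 U (mem_Fc_iff.1 hU) hs⟩

end Pool.JS
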