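import Pool.Agent.JS.PgO
import Pool.Agent.JS.PgD

/-!
MODULE PgK (difficulty 3).  Graphs of valence at most three: common edges, unions of boundaries.
-/

open Set Metric Topology

namespace Pool.JS

variable {X : Type*} [TopologicalSpace X] [CompactSpace X] [T2Space X] [Sph X] {V S U U' : Set X} {E 𝒰 : Set (Set X)} {a : X}

theorem PG.frontier_edges (h : PG V E) (hU : U ∈ Fc E) (hd : DiscDom U) : ∃ D ⊆ E, frontier U = ⋃₀ D :=
  h.jordan_edges hd.jordan (Fc.frontier_sub h hU)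

/-- a common point of the closures of two faces is on both frontiers -/
private theorem PG.mem_fr (h : PG V E) (hU : U ∈ Fc E) (hU' : U' ∈ Fc E) (hne : U ≠ U') {y : X} (hy : y ∈ closure U)
    (hy' : y ∈ closure U') : y ∈ frontier U := by
  have ho := Fc.isOpen h hU
  refine ⟨hy, ?_⟩
  rw [ho.interior_eq]
  intro hyU
  have := (Fc.disj hU hU' hne)
  obtain ⟨z, hz⟩ := mem_closure_iff.1 hy' U ho hyU
  exact Set.disjoint_left.1 this hz.1 hz.2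

theorem PG.common_edge (h : PG V E) (hd : ∀ U ∈ Fc E, DiscDom U) (h3 : Val3 V E) (hU : U ∈ Fc E) (hU' : U' ∈ Fc E)
    (hne : U ≠ U') (hI : (closure U ∩ closure U').Nonempty) : ∃ e ∈ E, e ⊆ frontier U ∧ e ⊆ frontier U' := by
  obtain ⟨x, hx, hx'⟩ := hI
  have hf := h.mem_fr hU hU' hne hx hx'
  have hf' := h.mem_fr hU' hU hne.symm hx' hx
  obtain ⟨D, hD, hDe⟩ := h.frontier_edges hU (hd U hU)
  obtain ⟨D', hD', hDe'⟩ := h.frontier_edges hU' (hd U' hU')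
  rw [hDe] at hf
  rw [hDe'] at hf'
  have key : ∃ e ∈ E, e ∈ D ∧ e ∈ D' := by
    by_cases hxV : x ∈ V
    · have h2 := h.jordan_two hD (hDe ▸ (hd U hU).jordan) hxV hf
      have h2' := h.jordan_two hD' (hDe' ▸ (hd U' hU').jordan) hxV hf'
      have h3x := h3 x hxV
      by_contra hcon
      have hdisj : Disjoint {e ∈ D | x ∈ e} {e ∈ D' | x ∈ e} := by
        rw [Set.disjoint_left]
        rintro e ⟨he, _⟩ ⟨he', _⟩
        exact hcon ⟨e, hD he, he, he'⟩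
      have hfin : ({e ∈ E | x ∈ e}).Finite := h.finE.subset (Set.sep_subset _ _)
      have hs1 : {e ∈ D | x ∈ e} ⊆ {e ∈ E | x ∈ e} := fun e he => ⟨hD he.1, he.2⟩
      have hs2 : {e ∈ D' | x ∈ e} ⊆ {e ∈ E | x ∈ e} := fun e he => ⟨hD' he.1, he.2⟩
      have hun := Set.ncard_union_eq hdisj (hfin.subset hs1) (hfin.subset hs2)
      have hle := Set.ncard_le_ncard (Set.union_subset hs1 hs2) hfin
      omega
    · obtain ⟨e, he, hxe⟩ := hf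
      exact ⟨e, hD he, he, h.mem_of_point (hD he) hD' hxe hxV hf'⟩
  obtain ⟨e, he, heD, heD'⟩ := key
  refine ⟨e, he, ?_, ?_⟩
  · rw [hDe]
    exact Set.subset_sUnion_of_mem heD
  · rw [hDe']
    exact Set.subset_sUnion_of_mem heD'

theorem PG.MG_edges (h : PG V E) (hd : ∀ U ∈ Fc E, DiscDom U) : ∃ D ⊆ E, MG E S = ⋃₀ D := by
  refine ⟨{e ∈ E | e ⊆ MG E S}, Set.sep_subset _ _, ?_⟩
  apply Set.Subset.antisymm
  · rintro x ⟨F, ⟨U, hU, hUS, rfl⟩, hx⟩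
    obtain ⟨D, hD, hDe⟩ := h.frontier_edges hU (hd U hU)
    have hx2 := hx
    rw [hDe] at hx2
    obtain ⟨e, he, hxe⟩ := hx2
    refine ⟨e, ⟨hD he, ?_⟩, hxe⟩
    intro y hy
    refine ⟨frontier U, ⟨U, hU, hUS, rfl⟩, ?_⟩
    rw [hDe]
    exact ⟨e, he, hy⟩
  · rintro x ⟨e, ⟨_, he⟩, hx⟩
    exact he hx

theorem PG.sub_MG (h : PG V E) (hd : ∀ U ∈ Fc E, DiscDom U) : S ∩ ⋃₀ E ⊆ MG E S := by
  rintro x ⟨hxS, hxE⟩
  obtain ⟨U, hU, hx⟩ := h.mem_frontier hd hxE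
  exact ⟨frontier U, ⟨U, hU, ⟨x, frontier_subset_closure hx, hxS⟩, rfl⟩, hx⟩

theorem PG.MG_connected (h : PG V E) (hd : ∀ U ∈ Fc E, DiscDom U) (hS : IsPreconnected S) : IsPreconnected (MG E S) := by
  rw [isPreconnected_iff_subset_of_disjoint_closed]
  intro A B hA hB hAB hdis
  have hfr : ∀ U ∈ Fc E, (closure U ∩ S).Nonempty → frontier U ⊆ MG E S := fun U hU hUS =>
    Set.subset_sUnion_of_mem ⟨U, hU, hUS, rfl⟩
  have hor : ∀ U ∈ Fc E, (closure U ∩ S).Nonempty → frontier U ⊆ A ∨ frontier U ⊆ B := by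
    intro U hU hUS
    have hc := (hd U hU).jordan.isConnected.isPreconnected
    rw [isPreconnected_iff_subset_of_disjoint_closed] at hc
    apply hc A B hA hB ((hfr U hU hUS).trans hAB)
    rw [Set.eq_empty_iff_forall_notMem] at hdis ⊢
    exact fun y hy => hdis y ⟨hfr U hU hUS hy.1, hy.2⟩
  have key : ∀ U ∈ Fc E, ∀ U' ∈ Fc E, (closure U ∩ S).Nonempty → (closure U' ∩ S).Nonempty → frontier U ⊆ A →
      frontier U' ⊆ B → (closure U ∩ closure U').Nonempty → False := by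
    rintro U hU U' hU' hUS hUS' hUA hUB ⟨y, hy, hy'⟩
    rw [Set.eq_empty_iff_forall_notMem] at hdis
    by_cases hne : U = U'
    · subst hne
      obtain ⟨z, hz⟩ := (hd U hU).jordan.isConnected.nonempty
      exact hdis z ⟨hfr U hU hUS hz, hUA hz, hUB hz⟩
    · have h1 := h.mem_fr hU hU' hne hy hy'
      have h2 := h.mem_fr hU' hU (Ne.symm hne) hy' hy
      exact hdis y ⟨hfr U hU hUS h1, hUA h1, hUB h2⟩
  have hfin := h.finite_discs hd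
  have hP : IsClosed (⋃ U ∈ {U ∈ Fc E | (closure U ∩ S).Nonempty ∧ frontier U ⊆ A}, closure U) :=
    (hfin.subset (Set.sep_subset _ _)).isClosed_biUnion fun U _ => isClosed_closure
  have hQ : IsClosed (⋃ U ∈ {U ∈ Fc E | (closure U ∩ S).Nonempty ∧ frontier U ⊆ B}, closure U) :=
    (hfin.subset (Set.sep_subset _ _)).isClosed_biUnion fun U _ => isClosed_closure
  rw [isPreconnected_iff_subset_of_disjoint_closed] at hS
  have hcov : S ⊆ (⋃ U ∈ {U ∈ Fc E | (closure U ∩ S).Nonempty ∧ frontier U ⊆ A}, closure U) ∪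
      (⋃ U ∈ {U ∈ Fc E | (closure U ∩ S).Nonempty ∧ frontier U ⊆ B}, closure U) := by
    intro x hx
    obtain ⟨U, hU, hxU⟩ := h.cover hd x
    rcases hor U hU ⟨x, hxU, hx⟩ with hh | hh
    · exact Or.inl (Set.mem_iUnion₂.2 ⟨U, ⟨hU, ⟨x, hxU, hx⟩, hh⟩, hxU⟩)
    · exact Or.inr (Set.mem_iUnion₂.2 ⟨U, ⟨hU, ⟨x, hxU, hx⟩, hh⟩, hxU⟩)
  have hem : S ∩ ((⋃ U ∈ {U ∈ Fc E | (closure U ∩ S).Nonempty ∧ frontier U ⊆ A}, closure U) ∩
      (⋃ U ∈ {U ∈ Fc E | (closure U ∩ S).Nonempty ∧ frontier U ⊆ B}, closure U)) = ∅ := by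
    rw [Set.eq_empty_iff_forall_notMem]
    rintro y ⟨_, hyP, hyQ⟩
    obtain ⟨U, ⟨hU, hUS, hUA⟩, hyU⟩ := Set.mem_iUnion₂.1 hyP
    obtain ⟨U', ⟨hU', hUS', hUB⟩, hyU'⟩ := Set.mem_iUnion₂.1 hyQ
    exact key U hU U' hU' hUS hUS' hUA hUB ⟨y, hyU, hyU'⟩
  rcases hS _ _ hP hQ hcov hem with hSP | hSQ
  · left
    rintro z ⟨F, ⟨U, hU, hUS, rfl⟩, hz⟩
    rcases hor U hU hUS with hh | hh
    · exact hh hz
    · exfalso
      obtain ⟨y, hyU, hyS⟩ := hUS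
      obtain ⟨U', ⟨hU', hUS', hUA⟩, hyU'⟩ := Set.mem_iUnion₂.1 (hSP hyS)
      exact key U' hU' U hU hUS' ⟨y, hyU, hyS⟩ hUA hh ⟨y, hyU', hyU⟩
  · right
    rintro z ⟨F, ⟨U, hU, hUS, rfl⟩, hz⟩
    rcases hor U hU hUS with hh | hh
    · exfalso
      obtain ⟨y, hyU, hyS⟩ := hUS
      obtain ⟨U', ⟨hU', hUS', hUB⟩, hyU'⟩ := Set.mem_iUnion₂.1 (hSQ hyS)
      exact key U hU U' hU' ⟨y, hyU, hyS⟩ hUS' hh hUB ⟨y, hyU, hyU'⟩
    · exact hh hz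

theorem PG.noCut_comp (h : PG V E) (hd : ∀ U ∈ Fc E, DiscDom U) (h3 : Val3 V E) (h𝒰 : 𝒰 ⊆ Fc E)
    (ha : a ∈ ⋃ U ∈ 𝒰, closure U) :
    NoCut (⋃₀ {F | ∃ U ∈ 𝒰, closure U ⊆ connectedComponentIn (⋃ U ∈ 𝒰, closure U) a ∧ F = frontier U}) := by
  intro x
  set W := connectedComponentIn (⋃ U ∈ 𝒰, closure U) a with hW
  set G := ⋃₀ {F | ∃ U ∈ 𝒰, closure U ⊆ W ∧ F = frontier U} with hG
  rw [isPreconnected_iff_subset_of_disjoint_closed]
  intro A B hA hB hAB hdis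
  rw [Set.eq_empty_iff_forall_notMem] at hdis
  have hfr : ∀ U ∈ 𝒰, closure U ⊆ W → frontier U \ {x} ⊆ G \ {x} := fun U hU hUW =>
    Set.diff_subset_diff_left (Set.subset_sUnion_of_mem ⟨U, hU, hUW, rfl⟩)
  have hor : ∀ U ∈ 𝒰, closure U ⊆ W → frontier U \ {x} ⊆ A ∨ frontier U \ {x} ⊆ B := by
    intro U hU hUW
    have hc := (hd U (h𝒰 hU)).jordan.noCut x
    rw [isPreconnected_iff_subset_of_disjoint_closed] at hc
    apply hc A B hA hB ((hfr U hU hUW).trans hAB)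
    rw [Set.eq_empty_iff_forall_notMem]
    exact fun y hy => hdis y ⟨hfr U hU hUW hy.1, hy.2⟩
  have key : ∀ U ∈ 𝒰, ∀ U' ∈ 𝒰, closure U ⊆ W → closure U' ⊆ W → frontier U \ {x} ⊆ A →
      frontier U' \ {x} ⊆ B → (closure U ∩ closure U').Nonempty → False := by
    rintro U hU U' hU' hUW hUW' hUA hUB hI
    by_cases hne : U = U'
    · subst hne
      obtain ⟨z, hz, hzx⟩ := (hd U (h𝒰 hU)).jordan.exists_ne x
      exact hdis z ⟨hfr U hU hUW ⟨hz, hzx⟩, hUA ⟨hz, hzx⟩, hUB ⟨hz, hzx⟩⟩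
    · obtain ⟨e, he, heU, heU'⟩ := h.common_edge hd h3 (h𝒰 hU) (h𝒰 hU') hne hI
      obtain ⟨p, hp, q, hq, harc, -⟩ := h.arc e he
      have hz : ∃ z ∈ e, z ≠ x := by
        by_cases hpx : p = x
        · exact ⟨q, harc.right_mem, fun hq => harc.ne (hpx.trans hq.symm)⟩
        · exact ⟨p, harc.left_mem, hpx⟩
      obtain ⟨z, hze, hzx⟩ := hz
      exact hdis z ⟨hfr U hU hUW ⟨heU hze, hzx⟩, hUA ⟨heU hze, hzx⟩, hUB ⟨heU' hze, hzx⟩⟩
  have hfin : 𝒰.Finite := (h.finite_discs hd).subset h𝒰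
  have hP : IsClosed (⋃ U ∈ {U ∈ 𝒰 | closure U ⊆ W ∧ frontier U \ {x} ⊆ A}, closure U) :=
    (hfin.subset (Set.sep_subset _ _)).isClosed_biUnion fun U _ => isClosed_closure
  have hQ : IsClosed (⋃ U ∈ {U ∈ 𝒰 | closure U ⊆ W ∧ frontier U \ {x} ⊆ B}, closure U) :=
    (hfin.subset (Set.sep_subset _ _)).isClosed_biUnion fun U _ => isClosed_closure
  have hWc : IsPreconnected W := isPreconnected_connectedComponentIn
  rw [isPreconnected_iff_subset_of_disjoint_closed] at hWc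
  have hsub : ∀ U ∈ 𝒰, ∀ y ∈ closure U, y ∈ W → closure U ⊆ W := by
    intro U hU y hyU hyW
    have h1 : closure U ⊆ ⋃ U ∈ 𝒰, closure U := fun z hz => Set.mem_iUnion₂.2 ⟨U, hU, hz⟩
    have h2 : IsPreconnected (closure U) := (hd U (h𝒰 hU)).isConnected.isPreconnected.closure
    have h3 := h2.subset_connectedComponentIn hyU h1
    rwa [← connectedComponentIn_eq hyW] at h3
  have hcov : W ⊆ (⋃ U ∈ {U ∈ 𝒰 | closure U ⊆ W ∧ frontier U \ {x} ⊆ A}, closure U) ∪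
      (⋃ U ∈ {U ∈ 𝒰 | closure U ⊆ W ∧ frontier U \ {x} ⊆ B}, closure U) := by
    intro y hy
    obtain ⟨U, hU, hyU⟩ := Set.mem_iUnion₂.1 (connectedComponentIn_subset _ _ hy)
    have hUW := hsub U hU y hyU hy
    rcases hor U hU hUW with hh | hh
    · exact Or.inl (Set.mem_iUnion₂.2 ⟨U, ⟨hU, hUW, hh⟩, hyU⟩)
    · exact Or.inr (Set.mem_iUnion₂.2 ⟨U, ⟨hU, hUW, hh⟩, hyU⟩)
  have hem : W ∩ ((⋃ U ∈ {U ∈ 𝒰 | closure U ⊆ W ∧ frontier U \ {x} ⊆ A}, closure U) ∩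
      (⋃ U ∈ {U ∈ 𝒰 | closure U ⊆ W ∧ frontier U \ {x} ⊆ B}, closure U)) = ∅ := by
    rw [Set.eq_empty_iff_forall_notMem]
    rintro y ⟨_, hyP, hyQ⟩
    obtain ⟨U, ⟨hU, hUW, hUA⟩, hyU⟩ := Set.mem_iUnion₂.1 hyP
    obtain ⟨U', ⟨hU', hUW', hUB⟩, hyU'⟩ := Set.mem_iUnion₂.1 hyQ
    exact key U hU U' hU' hUW hUW' hUA hUB ⟨y, hyU, hyU'⟩
  have hcl : ∀ U ∈ 𝒰, (closure U).Nonempty := fun U hU => (hd U (h𝒰 hU)).isConnected.nonempty.closure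
  rcases hWc _ _ hP hQ hcov hem with hSP | hSQ
  · left
    rintro z ⟨⟨F, ⟨U, hU, hUW, rfl⟩, hz⟩, hzx⟩
    rcases hor U hU hUW with hh | hh
    · exact hh ⟨hz, hzx⟩
    · exfalso
      obtain ⟨y, hyU⟩ := hcl U hU
      obtain ⟨U', ⟨hU', hUW', hUA⟩, hyU'⟩ := Set.mem_iUnion₂.1 (hSP (hUW hyU))
      exact key U' hU' U hU hUW' hUW hUA hh ⟨y, hyU', hyU⟩
  · right
    rintro z ⟨⟨F, ⟨U, hU, hUW, rfl⟩, hz⟩, hzx⟩
    rcases hor U hU hUW with hh | hh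
    · exfalso
      obtain ⟨y, hyU⟩ := hcl U hU
      obtain ⟨U', ⟨hU', hUW', hUB⟩, hyU'⟩ := Set.mem_iUnion₂.1 (hSQ (hUW hyU))
      exact key U hU U' hU' hUW hUW' hh hUB ⟨y, hyU, hyU'⟩
    · exact hh ⟨hz, hzx⟩

end Pool.JS
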