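import Pool.Agent.JS.PgC

/-!
MODULE PgO (difficulty 3).  Arcs have empty interior; graphs all of whose faces are discs.

RECIPE.  `arc_interior_eq`: suppose `y ∈ O = interior A`.  Take a chart `σ` (SpA) at a point `x ≠ y` (`X` has more than one point), `y = σ z`, `σ ⁻¹' O` is an open neighbourhood of `z`; a small circle `sphere z r` has `σ '' sphere z r ⊆ O ⊆ A`, a simple closed curve (`w ↦ σ (z + r w)`): `ArcX.no_jordan` (PgC).
`PG.interior_eq`: a finite union of closed sets with empty interior has empty interior (`interior_union_isClosed_of_interior_empty`, induction).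
`finite_discs`: every face `U` has `frontier U = ⋃₀ D`, `D ⊆ E` (`PG.jordan_edges`, `Fc.frontier_sub`), `frontier U` is a simple closed curve and `U` is one of its sides: `JorX.jct` gives `SepX (frontier U) U₁ U₂`; `U` is connected, open and closed in the complement of its frontier, so `U = U₁` or `U = U₂`; so at most two faces for every `D ⊆ E`, and `E` has finitely many subsets.
`cover`: `univ = closure (⋃₀ E)ᶜ = closure (⋃ U) = ⋃ closure U` (finite union).  `sUnion_frontier`: `x ∈ ⋃₀ E` lies in the closure of a face `U`, and not in the face.  `disc_cover`: the faces contained in the disc domain `U₀` with `frontier U₀ ⊆ ⋃₀ E`: every face is contained in `U₀` or disjoint from it (it is connected and disjoint from `frontier U₀`);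
`U₀ ⊆ closure (U₀ \ ⋃₀ E)` (open set, empty interior), so `closure U₀ ⊆` the finite union of the closures of the faces in `U₀`.
-/

open Set Metric Topology

namespace Pool.JS

variable {X : Type*} [TopologicalSpace X] [CompactSpace X] [T2Space X] [Sph X] {V A U₀ : Set X} {E : Set (Set X)} {p q : X}

theorem arc_interior_eq (h : ArcX A p q) : interior A = ∅ := by
  by_contra hne
  obtain ⟨y, hy⟩ := nonempty_iff_ne_empty.2 hne
  obtain ⟨σ₀, h₀⟩ := exists_chart y
  obtain ⟨σ, hσ⟩ := exists_chart (σ₀ 0)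
  have hyx : y ≠ σ₀ 0 := (h₀.ne 0).symm
  obtain ⟨z, hz⟩ := hσ.exists_eq hyx
  have hO : IsOpen (σ ⁻¹' interior A) := isOpen_interior.preimage hσ.cont
  have hzO : z ∈ σ ⁻¹' interior A := by
    show σ z ∈ interior A
    rw [hz]
    exact hy
  obtain ⟨r, hr, hrO⟩ := Metric.nhds_basis_closedBall.mem_iff.1 (hO.mem_nhds hzO)
  let γ : ℂ → X := fun w => σ (z + (r : ℂ) * w)
  have hγc : Continuous γ := hσ.cont.comp (continuous_const.add (continuous_const.mul continuous_id))
  have hr0 : (r : ℂ) ≠ 0 := by exact_mod_cast hr.ne'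
  have hγi : Function.Injective γ := by
    intro a b hab
    have h1 : z + (r : ℂ) * a = z + (r : ℂ) * b := hσ.inj hab
    exact mul_left_cancel₀ hr0 (add_left_cancel h1)
  have hJ : JorX (γ '' sphere 0 1) := ⟨γ, hγc.continuousOn, hγi.injOn, rfl⟩
  refine h.no_jordan hJ ?_
  rintro _ ⟨w, hw, rfl⟩
  have hw1 : ‖w‖ = 1 := by simpa using hw
  have : z + (r : ℂ) * w ∈ closedBall z r := by
    rw [mem_closedBall, dist_eq_norm, add_sub_cancel_left, norm_mul, hw1, mul_one, Complex.norm_real,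
      Real.norm_of_nonneg hr.le]
  exact interior_subset (hrO this)

theorem PG.interior_eq (h : PG V E) : interior (⋃₀ E) = ∅ := by
  have key : ∀ F : Set (Set X), F.Finite → F ⊆ E → interior (⋃₀ F) = ∅ := by
    intro F hF
    refine Set.Finite.induction_on F hF ?_ ?_
    · intro _
      simp
    · intro a s _ hs ih has
      obtain ⟨p, hp, q, hq, ha, -⟩ := h.arc a (has (mem_insert _ _))
      rw [sUnion_insert, interior_union_isClosed_of_interior_empty ha.isCompact.isClosed
        (ih ((subset_insert _ _).trans has))]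
      exact arc_interior_eq ha
  exact key E h.finE Subset.rfl

theorem pgo_side {U U₁ U₂ : Set X} (hU : DiscDom U) (h : SepX (frontier U) U₁ U₂) : U = U₁ ∨ U = U₂ := by
  have hd : Disjoint U (frontier U) := by
    rw [hU.isOpen.frontier_eq]
    exact disjoint_sdiff_right
  have key : ∀ W : Set X, IsConnected W → Disjoint W (frontier U) → U ⊆ W → U = W := by
    intro W hW hWd hUW
    refine Subset.antisymm hUW ?_
    refine hW.isPreconnected.subset_of_closure_inter_subset hU.isOpen ?_ ?_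
    · obtain ⟨x, hx⟩ := hU.isConnected.nonempty
      exact ⟨x, hUW hx, hx⟩
    · rintro x ⟨hx, hxW⟩
      by_contra hn
      exact Set.disjoint_left.1 hWd hxW (by rw [hU.isOpen.frontier_eq]; exact ⟨hx, hn⟩)
  have d₁ : Disjoint U₁ (frontier U) := by
    have : U₁ ⊆ (frontier U)ᶜ := by rw [← h.union]; exact subset_union_left
    exact Set.disjoint_left.2 fun x hx => this hx
  have d₂ : Disjoint U₂ (frontier U) := by
    have : U₂ ⊆ (frontier U)ᶜ := by rw [← h.union]; exact subset_union_right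
    exact Set.disjoint_left.2 fun x hx => this hx
  rcases h.sub_or hU.isConnected.isPreconnected hd with hs | hs
  · exact Or.inl (key U₁ h.connU d₁ hs)
  · exact Or.inr (key U₂ h.connV d₂ hs)

theorem PG.finite_discs (h : PG V E) (hd : ∀ U ∈ Fc E, DiscDom U) : (Fc E).Finite := by
  have hsub : Fc E ⊆ ⋃ D ∈ {D : Set (Set X) | D ⊆ E}, {U | DiscDom U ∧ frontier U = ⋃₀ D} := by
    intro U hU
    obtain ⟨D, hD, he⟩ := h.jordan_edges (hd U hU).jordan (Fc.frontier_sub h hU)
    exact mem_biUnion (x := D) hD ⟨hd U hU, he⟩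
  refine Set.Finite.subset (Set.Finite.biUnion h.finE.finite_subsets ?_) hsub
  intro D _
  by_cases hne : ∃ U, DiscDom U ∧ frontier U = ⋃₀ D
  · obtain ⟨U, hU, he⟩ := hne
    have hJ : JorX (⋃₀ D) := by rw [← he]; exact hU.jordan
    obtain ⟨U₁, U₂, hs⟩ := hJ.jct
    refine Set.Finite.subset (Set.toFinite {U₁, U₂}) ?_
    rintro W ⟨hW, hWe⟩
    rcases pgo_side hW (by rw [hWe]; exact hs) with rfl | rfl
    · exact Or.inl rfl
    · exact Or.inr rfl
  · have : {U : Set X | DiscDom U ∧ frontier U = ⋃₀ D} = ∅ := by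
      rw [eq_empty_iff_forall_notMem]
      rintro U hU
      exact hne ⟨U, hU⟩
    rw [this]
    exact finite_empty

theorem PG.cover (h : PG V E) (hd : ∀ U ∈ Fc E, DiscDom U) (x : X) : ∃ U ∈ Fc E, x ∈ closure U := by
  have h1 : closure (⋃₀ E)ᶜ = univ := by rw [closure_compl, h.interior_eq, compl_empty]
  have hcl : IsClosed (⋃ U ∈ Fc E, closure U) := (h.finite_discs hd).isClosed_biUnion fun U _ => isClosed_closure
  have h2 : closure (⋃₀ E)ᶜ ⊆ ⋃ U ∈ Fc E, closure U := by
    refine closure_minimal ?_ hcl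
    intro y hy
    obtain ⟨U, hU, hyU⟩ := Fc.exists_mem (E := E) hy
    exact mem_biUnion hU (subset_closure hyU)
  have h3 : x ∈ ⋃ U ∈ Fc E, closure U := h2 (by rw [h1]; exact mem_univ _)
  obtain ⟨U, hU, hxU⟩ := mem_iUnion₂.1 h3
  exact ⟨U, hU, hxU⟩

theorem PG.mem_frontier (h : PG V E) (hd : ∀ U ∈ Fc E, DiscDom U) {x : X} (hx : x ∈ ⋃₀ E) :
    ∃ U ∈ Fc E, x ∈ frontier U := by
  obtain ⟨U, hU, hxU⟩ := h.cover hd x
  refine ⟨U, hU, ?_⟩
  rw [(hd U hU).isOpen.frontier_eq]
  exact ⟨hxU, fun hh => (mem_Fc_iff.1 hU).sub hh hx⟩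

theorem PG.disc_cover (h : PG V E) (hd : ∀ U ∈ Fc E, DiscDom U) (hU : DiscDom U₀) (hs : frontier U₀ ⊆ ⋃₀ E) {x : X}
    (hx : x ∈ closure U₀) : ∃ U ∈ Fc E, U ⊆ U₀ ∧ x ∈ closure U := by
  have hden : Dense (⋃₀ E)ᶜ := by
    rw [dense_iff_closure_eq, closure_compl, h.interior_eq, compl_empty]
  have hfin : {U | U ∈ Fc E ∧ U ⊆ U₀}.Finite := (h.finite_discs hd).subset fun U hU => hU.1
  have hcl : IsClosed (⋃ U ∈ {U | U ∈ Fc E ∧ U ⊆ U₀}, closure U) :=
    hfin.isClosed_biUnion fun U _ => isClosed_closure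
  have h1 : U₀ ∩ (⋃₀ E)ᶜ ⊆ ⋃ U ∈ {U | U ∈ Fc E ∧ U ⊆ U₀}, closure U := by
    rintro y ⟨hy, hyE⟩
    obtain ⟨U, hUF, hyU⟩ := Fc.exists_mem (E := E) hyE
    have hF := mem_Fc_iff.1 hUF
    have hsub : U ⊆ U₀ := by
      refine hF.conn.subset_of_closure_inter_subset hU.isOpen ⟨y, hyU, hy⟩ ?_
      rintro w ⟨hw, hwU⟩
      by_contra hn
      exact hF.sub hwU (hs (by rw [hU.isOpen.frontier_eq]; exact ⟨hw, hn⟩))
    exact mem_biUnion (x := U) ⟨hUF, hsub⟩ (subset_closure hyU)
  have h2 : closure U₀ ⊆ ⋃ U ∈ {U | U ∈ Fc E ∧ U ⊆ U₀}, closure U := by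
    refine closure_minimal ?_ hcl
    exact (hden.open_subset_closure_inter hU.isOpen).trans (closure_minimal h1 hcl)
  obtain ⟨U, hU', hxU⟩ := mem_iUnion₂.1 (h2 hx)
  exact ⟨U, hU'.1, hU'.2, hxU⟩

end Pool.JS
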