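import Mathlib

/-!
MODULE RmA (difficulty 3).  Hurwitz's theorem (by the maximum principle).

RECIPE.  `hurwitz_zero`: `f` is holomorphic on `U` (`TendstoLocallyUniformlyOn.differentiableOn`).  Suppose `f z₁ = 0`, `z₁ ∈ U`.  `f` is not identically zero on the preconnected `U`, so it is not eventually zero at `z₁`
(`AnalyticOnNhd.eqOn_zero_of_preconnected_of_eventuallyEq_zero`), hence `f ≠ 0` on a punctured neighbourhood (`AnalyticAt.eventually_eq_zero_or_eventually_ne_zero`): `ρ > 0` with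
`closedBall z₁ ρ ⊆ U` and `f ≠ 0` on `sphere z₁ ρ`; `m = min ‖f‖ > 0` there.  For large `n`, `‖F n z - f z‖ < m/2` on `closedBall z₁ ρ` (compact: `tendstoLocallyUniformlyOn_iff_forall_isCompact`), so `‖F n z‖ ≥ m/2` on the sphere;
`1 / F n` is holomorphic near the closed ball, so `‖1 / F n z₁‖ ≤ 2 / m` (`Complex.norm_le_of_forall_mem_frontier_norm_le` on `ball z₁ ρ`), `‖F n z₁‖ ≥ m/2`; the limit `n → ∞` gives `‖f z₁‖ ≥ m/2`, contradiction.
-/

open Set Metric Topology Filter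

namespace Pool.JS

theorem hurwitz_zero {U : Set ℂ} (hU : IsOpen U) (hc : IsPreconnected U) {F : ℕ → ℂ → ℂ} {f : ℂ → ℂ}
    (hF : ∀ n, DifferentiableOn ℂ (F n) U) (h : TendstoLocallyUniformlyOn F f atTop U)
    (h0 : ∀ n, ∀ z ∈ U, F n z ≠ 0) (hne : ∃ z ∈ U, f z ≠ 0) : ∀ z ∈ U, f z ≠ 0 := by
  have hf : DifferentiableOn ℂ f U := h.differentiableOn (Eventually.of_forall hF) hU
  have hfa : AnalyticOnNhd ℂ f U := hf.analyticOnNhd hU
  intro z₁ hz₁ hfz₁
  have hnz : ¬ ∀ᶠ z in 𝓝 z₁, f z = 0 := by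
    intro hev
    obtain ⟨z, hz, hfz⟩ := hne
    exact hfz (hfa.eqOn_zero_of_preconnected_of_eventuallyEq_zero hc hz₁ hev hz)
  have hpn : ∀ᶠ z in 𝓝[≠] z₁, f z ≠ 0 :=
    ((hfa z₁ hz₁).eventually_eq_zero_or_eventually_ne_zero).resolve_left hnz
  rw [eventually_nhdsWithin_iff] at hpn
  have hUe : ∀ᶠ z in 𝓝 z₁, z ∈ U := hU.mem_nhds hz₁
  obtain ⟨ρ, hρ, hρs⟩ := Metric.nhds_basis_closedBall.eventually_iff.1 (hUe.and hpn)
  have hρU : closedBall z₁ ρ ⊆ U := fun z hz => (hρs hz).1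
  have hρ0 : ∀ z ∈ sphere z₁ ρ, f z ≠ 0 := fun z hz =>
    (hρs (sphere_subset_closedBall hz)).2 (fun he => by
      have : z = z₁ := he
      rw [this, mem_sphere, dist_self] at hz
      exact hρ.ne hz)
  have hfc : ContinuousOn (fun z => ‖f z‖) (sphere z₁ ρ) :=
    (hf.continuousOn.mono (sphere_subset_closedBall.trans hρU)).norm
  obtain ⟨z₀, hz₀, hmin⟩ := (isCompact_sphere z₁ ρ).exists_isMinOn
    ((NormedSpace.sphere_nonempty (x := z₁)).2 hρ.le) hfc
  have hm : 0 < ‖f z₀‖ := norm_pos_iff.2 (hρ0 z₀ hz₀)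
  have hmin' : ∀ z ∈ sphere z₁ ρ, ‖f z₀‖ ≤ ‖f z‖ := fun z hz => hmin hz
  have hunif := (tendstoLocallyUniformlyOn_iff_forall_isCompact hU).1 h (closedBall z₁ ρ) hρU
    (isCompact_closedBall _ _)
  have hev := Metric.tendstoUniformlyOn_iff.1 hunif (‖f z₀‖ / 2) (by positivity)
  have hlow : ∀ᶠ n in atTop, ‖f z₀‖ / 2 ≤ ‖F n z₁‖ := by
    filter_upwards [hev] with n hn
    have h1 : ∀ z ∈ frontier (ball z₁ ρ), ‖(F n z)⁻¹‖ ≤ (‖f z₀‖ / 2)⁻¹ := by
      intro z hz
      rw [frontier_ball _ hρ.ne'] at hz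
      have h2 := hn z (sphere_subset_closedBall hz)
      rw [dist_eq_norm] at h2
      have h3 := hmin' z hz
      have h4 := norm_sub_norm_le (f z) (F n z)
      rw [norm_inv]
      exact inv_anti₀ (by positivity) (by linarith)
    have h2 : DiffContOnCl ℂ (fun z => (F n z)⁻¹) (ball z₁ ρ) := by
      apply DifferentiableOn.diffContOnCl
      rw [closure_ball _ hρ.ne']
      exact ((hF n).mono hρU).inv (fun z hz => h0 n z (hρU hz))
    have h3 := Complex.norm_le_of_forall_mem_frontier_norm_le isBounded_ball h2 h1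
      (subset_closure (mem_ball_self hρ))
    rw [norm_inv] at h3
    have h4 : 0 < ‖F n z₁‖ := norm_pos_iff.2 (h0 n z₁ hz₁)
    exact (inv_le_inv₀ h4 (by positivity)).1 h3
  have hlim : Tendsto (fun n => ‖F n z₁‖) atTop (𝓝 ‖f z₁‖) := (h.tendsto_at hz₁).norm
  have := ge_of_tendsto hlim hlow
  rw [hfz₁, norm_zero] at this
  linarith

theorem hurwitz_inj {U : Set ℂ} (hU : IsOpen U) (hc : IsPreconnected U) {F : ℕ → ℂ → ℂ} {f : ℂ → ℂ}
    (hF : ∀ n, DifferentiableOn ℂ (F n) U) (h : TendstoLocallyUniformlyOn F f atTop U)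
    (hi : ∀ n, InjOn (F n) U) (hne : ¬ ∃ c, ∀ z ∈ U, f z = c) : InjOn f U := by
  have hf : DifferentiableOn ℂ f U := h.differentiableOn (Eventually.of_forall hF) hU
  have hfa : AnalyticOnNhd ℂ f U := hf.analyticOnNhd hU
  intro z₁ hz₁ z₂ hz₂ he
  by_contra hz
  obtain ⟨r, hr, hrU⟩ := Metric.isOpen_iff.1 hU z₁ hz₁
  let ρ := min r (dist z₂ z₁)
  have hρ : 0 < ρ := lt_min hr (dist_pos.2 (Ne.symm hz))
  have hD : ball z₁ ρ ⊆ U := (ball_subset_ball (min_le_left _ _)).trans hrU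
  have hz₂D : z₂ ∉ ball z₁ ρ := by
    rw [mem_ball, not_lt]
    exact min_le_right _ _
  have hlim := h.tendsto_at hz₂
  have hG : TendstoLocallyUniformlyOn (fun n z => F n z - F n z₂) (fun z => f z - f z₂) atTop (ball z₁ ρ) := by
    rw [Metric.tendstoLocallyUniformlyOn_iff]
    intro ε hε x hx
    obtain ⟨t, ht, hev⟩ := Metric.tendstoLocallyUniformlyOn_iff.1 (h.mono hD) (ε / 2) (by positivity) x hx
    refine ⟨t, ht, ?_⟩
    filter_upwards [hev, Metric.tendsto_nhds.1 hlim (ε / 2) (by positivity)] with n hn hn' y hy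
    have h1 := hn y hy
    have h2 : dist (f z₂) (F n z₂) < ε / 2 := by rw [dist_comm]; exact hn'
    rw [dist_eq_norm] at h1 h2 ⊢
    have h3 : f y - f z₂ - (F n y - F n z₂) = (f y - F n y) - (f z₂ - F n z₂) := by ring
    rw [h3]
    exact (norm_sub_le _ _).trans_lt (by linarith)
  have hex : ∃ z ∈ ball z₁ ρ, f z - f z₂ ≠ 0 := by
    by_contra hcon
    push Not at hcon
    apply hne
    refine ⟨f z₂, fun z hz => ?_⟩
    have h1 : f =ᶠ[𝓝 z₁] fun _ => f z₂ := by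
      filter_upwards [ball_mem_nhds z₁ hρ] with y hy
      exact sub_eq_zero.1 (hcon y hy)
    exact hfa.eqOn_of_preconnected_of_eventuallyEq analyticOnNhd_const hc hz₁ h1 hz
  have := hurwitz_zero isOpen_ball (convex_ball z₁ ρ).isPreconnected
    (fun n => ((hF n).mono hD).sub (differentiableOn_const _)) hG
    (fun n z hz => sub_ne_zero.2 (fun h' => hz₂D ((hi n (hD hz) hz₂ h') ▸ hz))) hex z₁ (mem_ball_self hρ)
  exact this (sub_eq_zero.2 he)

end Pool.JS
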