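import Mathlib

/-!
MODULE RmB (difficulty 4).  Montel's theorem.

RECIPE.  `lip`: if `closedBall z₀ (3 r) ⊆ U` then for all `n` and `z, w ∈ ball z₀ (2 r)`: `‖F n z - F n w‖ ≤ (1/r) ‖z - w‖`: Cauchy estimate.
A countable dense sequence `q : ℕ → ℂ`; `n ↦ (k ↦ F n (q k)) : ℕ → (ℕ → ℂ)` stays in a compact set, so a subsequence converges at every `q k ∈ U`; it is locally uniformly Cauchy.
-/

open Set Metric Topology Filter

namespace Pool.JS

/-- Lipschitz estimate -/
theorem rmb_lip {U : Set ℂ} (hU : IsOpen U) {g : ℂ → ℂ} (hg : DifferentiableOn ℂ g U) (hb : ∀ z ∈ U, ‖g z‖ ≤ 1)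
    {z₀ : ℂ} {r : ℝ} (hr : 0 < r) (hs : closedBall z₀ (3 * r) ⊆ U) {z w : ℂ} (hz : z ∈ ball z₀ (2 * r))
    (hw : w ∈ ball z₀ (2 * r)) : ‖g z - g w‖ ≤ 1 / r * ‖z - w‖ := by
  have hsub : ∀ x ∈ ball z₀ (2 * r), closedBall x r ⊆ U := by
    intro x hx y hy
    apply hs
    rw [mem_closedBall] at hy ⊢
    rw [mem_ball] at hx
    linarith [dist_triangle y x z₀]
  refine Convex.norm_image_sub_le_of_norm_deriv_le (𝕜 := ℂ) (s := ball z₀ (2 * r)) (fun x hx => ?_) (fun x hx => ?_)
    (convex_ball _ _) hw hz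
  · exact (hg x (hsub x hx (mem_closedBall_self hr.le))).differentiableAt
      (hU.mem_nhds (hsub x hx (mem_closedBall_self hr.le)))
  · apply Complex.norm_deriv_le_of_forall_mem_sphere_norm_le hr
    · apply DifferentiableOn.diffContOnCl
      rw [closure_ball _ hr.ne']
      exact hg.mono (hsub x hx)
    · exact fun y hy => hb y (hsub x hx (sphere_subset_closedBall hy))

theorem montel {U : Set ℂ} (hU : IsOpen U) {F : ℕ → ℂ → ℂ} (hF : ∀ n, DifferentiableOn ℂ (F n) U)
    (hb : ∀ n, ∀ z ∈ U, ‖F n z‖ ≤ 1) : ∃ (φ : ℕ → ℕ) (f : ℂ → ℂ), StrictMono φ ∧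
      TendstoLocallyUniformlyOn (fun n => F (φ n)) f atTop U := by
  classical
  let q : ℕ → ℂ := TopologicalSpace.denseSeq ℂ
  have hq : DenseRange q := TopologicalSpace.denseRange_denseSeq ℂ
  let a : ℕ → ℕ → ℂ := fun n k => if q k ∈ U then F n (q k) else 0
  have haK : ∀ n, a n ∈ Set.pi univ (fun _ : ℕ => closedBall (0 : ℂ) 1) := by
    intro n k _
    rw [mem_closedBall, dist_zero_right]
    show ‖if q k ∈ U then F n (q k) else 0‖ ≤ 1
    split_ifs with h
    · exact hb n _ h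
    · simp
  obtain ⟨b, -, φ, hφ, hlim⟩ := (isCompact_univ_pi (fun _ : ℕ => isCompact_closedBall (0 : ℂ) 1)).tendsto_subseq haK
  rw [tendsto_pi_nhds] at hlim
  -- uniformly Cauchy
  have hcau : ∀ (z₀ : ℂ) (r : ℝ), 0 < r → closedBall z₀ (3 * r) ⊆ U → ∀ ε : ℝ, 0 < ε →
      ∃ N, ∀ n ≥ N, ∀ m ≥ N, ∀ z ∈ closedBall z₀ r, ‖F (φ n) z - F (φ m) z‖ ≤ ε := by
    intro z₀ r hr hs ε hε
    let δ := min r (ε * r / 6)
    have hδ : 0 < δ := lt_min hr (by positivity)
    have hδr : δ ≤ r := min_le_left _ _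
    have hδε : 1 / r * δ ≤ ε / 6 := by
      have : δ ≤ ε * r / 6 := min_le_right _ _
      calc 1 / r * δ ≤ 1 / r * (ε * r / 6) := mul_le_mul_of_nonneg_left this (by positivity)
        _ = ε / 6 := by field_simp
    obtain ⟨T, hT⟩ := (isCompact_closedBall z₀ r).elim_finite_subcover (fun k : ℕ => ball (q k) δ)
      (fun k => isOpen_ball) (by
        intro z _
        obtain ⟨k, hk⟩ := hq.exists_dist_lt z hδ
        exact mem_iUnion.2 ⟨k, mem_ball.2 hk⟩)
    have hev : ∀ᶠ n in atTop, ∀ k ∈ T, dist (a (φ n) k) (b k) < ε / 6 := by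
      rw [Finset.eventually_all]
      intro k _
      exact Metric.tendsto_nhds.1 (hlim k) (ε / 6) (by positivity)
    obtain ⟨N, hN⟩ := eventually_atTop.1 hev
    refine ⟨N, fun n hn m hm z hz => ?_⟩
    obtain ⟨k, hkT, hk⟩ : ∃ k ∈ T, z ∈ ball (q k) δ := by
      have := hT hz
      simpa using this
    have hz2 : z ∈ ball z₀ (2 * r) := by
      rw [mem_closedBall] at hz
      rw [mem_ball]
      linarith
    have hq2 : q k ∈ ball z₀ (2 * r) := by
      rw [mem_closedBall] at hz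
      rw [mem_ball] at hk ⊢
      have := dist_triangle (q k) z z₀
      rw [dist_comm (q k) z] at this
      linarith
    have hqU : q k ∈ U := by
      apply hs
      rw [mem_closedBall]
      rw [mem_ball] at hq2
      linarith
    have e : ∀ n, a n k = F n (q k) := fun n => if_pos hqU
    have h1 := hN n hn k hkT
    have h2 := hN m hm k hkT
    rw [e, dist_eq_norm] at h1 h2
    rw [mem_ball, dist_eq_norm] at hk
    have h3 : ∀ n, ‖F n z - F n (q k)‖ ≤ ε / 6 := fun n =>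
      (rmb_lip hU (hF n) (hb n) hr hs hz2 hq2).trans
        ((mul_le_mul_of_nonneg_left hk.le (by positivity)).trans hδε)
    have h4 := h3 (φ n)
    have h5 := h3 (φ m)
    have h6 : F (φ n) z - F (φ m) z = (F (φ n) z - F (φ n) (q k)) + (F (φ n) (q k) - b k) -
        (F (φ m) (q k) - b k) - (F (φ m) z - F (φ m) (q k)) := by ring
    rw [h6]
    have h7 := norm_sub_le ((F (φ n) z - F (φ n) (q k)) + (F (φ n) (q k) - b k) - (F (φ m) (q k) - b k))
      (F (φ m) z - F (φ m) (q k))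
    have h8 := norm_sub_le ((F (φ n) z - F (φ n) (q k)) + (F (φ n) (q k) - b k)) (F (φ m) (q k) - b k)
    have h9 := norm_add_le (F (φ n) z - F (φ n) (q k)) (F (φ n) (q k) - b k)
    linarith
  have hball : ∀ z ∈ U, ∃ r : ℝ, 0 < r ∧ closedBall z (3 * r) ⊆ U := by
    intro z hz
    obtain ⟨s, hs, hsU⟩ := Metric.nhds_basis_closedBall.mem_iff.1 (hU.mem_nhds hz)
    exact ⟨s / 3, by positivity, by rwa [show 3 * (s / 3) = s by ring]⟩
  have hconv : ∀ z, ∃ w, z ∈ U → Tendsto (fun n => F (φ n) z) atTop (𝓝 w) := by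
    intro z
    by_cases hz : z ∈ U
    · obtain ⟨r, hr, hs⟩ := hball z hz
      have : CauchySeq fun n => F (φ n) z := by
        rw [Metric.cauchySeq_iff]
        intro ε hε
        obtain ⟨N, hN⟩ := hcau z r hr hs (ε / 2) (by positivity)
        refine ⟨N, fun n hn m hm => ?_⟩
        rw [dist_eq_norm]
        exact (hN n hn m hm z (mem_closedBall_self hr.le)).trans_lt (by linarith)
      obtain ⟨w, hw⟩ := cauchySeq_tendsto_of_complete this
      exact ⟨w, fun _ => hw⟩
    · exact ⟨0, fun h => absurd h hz⟩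
  choose f hf using hconv
  refine ⟨φ, f, hφ, ?_⟩
  rw [Metric.tendstoLocallyUniformlyOn_iff]
  intro ε hε x hx
  obtain ⟨r, hr, hs⟩ := hball x hx
  obtain ⟨N, hN⟩ := hcau x r hr hs (ε / 2) (by positivity)
  refine ⟨closedBall x r, mem_nhdsWithin_of_mem_nhds (closedBall_mem_nhds x hr), ?_⟩
  filter_upwards [eventually_ge_atTop N] with n hn y hy
  have hyU : y ∈ U := hs (closedBall_subset_closedBall (by linarith) hy)
  have h1 : Tendsto (fun m => ‖F (φ n) y - F (φ m) y‖) atTop (𝓝 ‖F (φ n) y - f y‖) :=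
    (tendsto_const_nhds.sub (hf y hyU)).norm
  have h2 : ‖F (φ n) y - f y‖ ≤ ε / 2 := by
    apply le_of_tendsto h1
    filter_upwards [eventually_ge_atTop N] with m hm
    exact hN n hn m hm y hy
  rw [dist_comm, dist_eq_norm]
  linarith

end Pool.JS
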