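import Pool.Agent.JS.RmDefs
import Pool.Agent.JS.RmA
import Pool.Agent.JS.RmB

/-!
MODULE RmC.  The extremal map.
-/

open Set Metric Topology Filter

namespace Pool.JS

theorem exists_extremal {U : Set ℂ} (hU : IsOpen U) (hc : IsPreconnected U) (hb : Bornology.IsBounded U) {a : ℂ}
    (ha : a ∈ U) : ∃ f, Adm U a f ∧ deriv f a ≠ 0 ∧ ∀ h, Adm U a h → ‖deriv h a‖ ≤ ‖deriv f a‖ := by
  obtain ⟨R, hR⟩ := hb.subset_ball a
  have hR0 : 0 < R := by
    have := hR ha
    simpa using this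
  obtain ⟨r, hr0, hr⟩ := Metric.isOpen_iff.1 hU a ha
  have hcb : closedBall a (r / 2) ⊆ U := (closedBall_subset_ball (by linarith)).trans hr
  set S : Set ℝ := {x | ∃ h, Adm U a h ∧ ‖deriv h a‖ = x} with hS
  have hbd : ∀ x ∈ S, x ≤ 1 / (r / 2) := by
    rintro x ⟨h, hh, rfl⟩
    refine Complex.norm_deriv_le_of_forall_mem_sphere_norm_le (by positivity)
      (hh.diff.diffContOnCl_ball hcb) ?_
    intro z hz
    have := hh.maps (hcb (sphere_subset_closedBall hz))
    exact (mem_ball_zero_iff.1 this).le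
  have hBdd : BddAbove S := ⟨_, hbd⟩
  have hR0' : (R : ℂ) ≠ 0 := by exact_mod_cast hR0.ne'
  have h0 : Adm U a (fun z => (z - a) / R) := by
    refine ⟨?_, ?_, ?_, ?_⟩
    · exact ((differentiable_id.sub_const a).div_const _).differentiableOn
    · intro z _ w _ h
      simp only at h
      rw [div_left_inj' hR0'] at h
      exact sub_left_injective h
    · intro z hz
      rw [mem_ball_zero_iff, norm_div, Complex.norm_real, Real.norm_of_nonneg hR0.le, div_lt_one hR0]
      have := hR hz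
      rwa [mem_ball_iff_norm] at this
    · simp
  have hd0 : ‖deriv (fun z : ℂ => (z - a) / R) a‖ = 1 / R := by
    have h1 : HasDerivAt (fun z : ℂ => (z - a) / R) (1 / R) a := ((hasDerivAt_id a).sub_const a).div_const _
    rw [h1.deriv, norm_div, Complex.norm_real, Real.norm_of_nonneg hR0.le, norm_one]
  have hmem0 : 1 / R ∈ S := ⟨_, h0, hd0⟩
  have hs0 : 0 < sSup S := lt_of_lt_of_le (by positivity) (le_csSup hBdd hmem0)
  have hex : ∀ n : ℕ, ∃ h, Adm U a h ∧ sSup S - 1 / ((n : ℝ) + 1) < ‖deriv h a‖ := by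
    intro n
    have hlt : sSup S - 1 / ((n : ℝ) + 1) < sSup S := by
      have : (0 : ℝ) < 1 / ((n : ℝ) + 1) := by positivity
      linarith
    obtain ⟨x, ⟨h, hh, rfl⟩, hx⟩ := exists_lt_of_lt_csSup ⟨_, hmem0⟩ hlt
    exact ⟨h, hh, hx⟩
  choose F hF hFs using hex
  obtain ⟨φ, f, hφ, hlim⟩ := montel hU (F := F) (fun n => (hF n).diff)
    (fun n z hz => (mem_ball_zero_iff.1 ((hF n).maps hz)).le)
  have hfd : DifferentiableOn ℂ f U :=
    hlim.differentiableOn (Eventually.of_forall fun n => (hF (φ n)).diff) hU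
  have hpt : ∀ z ∈ U, Tendsto (fun n => F (φ n) z) atTop (𝓝 (f z)) := fun z hz => hlim.tendsto_at hz
  have hdl : Tendsto (fun n => deriv (F (φ n)) a) atTop (𝓝 (deriv f a)) :=
    (hlim.deriv (Eventually.of_forall fun n => (hF (φ n)).diff) hU).tendsto_at ha
  have hge : sSup S ≤ ‖deriv f a‖ := by
    have h1 : Tendsto (fun n : ℕ => sSup S - 1 / ((φ n : ℝ) + 1)) atTop (𝓝 (sSup S - 0)) := by
      refine tendsto_const_nhds.sub ?_
      exact tendsto_one_div_add_atTop_nhds_zero_nat.comp hφ.tendsto_atTop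
    rw [sub_zero] at h1
    exact le_of_tendsto_of_tendsto' h1 hdl.norm fun n => (hFs (φ n)).le
  have hfne : deriv f a ≠ 0 := by
    intro h
    rw [h, norm_zero] at hge
    linarith
  have hnc : ¬ ∃ c, ∀ z ∈ U, f z = c := by
    rintro ⟨c, hc'⟩
    apply hfne
    have : f =ᶠ[𝓝 a] fun _ => c := by
      filter_upwards [hU.mem_nhds ha] with z hz
      exact hc' z hz
    rw [this.deriv_eq]
    simp
  have hle : ∀ z ∈ U, ‖f z‖ ≤ 1 := fun z hz =>
    le_of_tendsto' (hpt z hz).norm fun n => (mem_ball_zero_iff.1 ((hF (φ n)).maps hz)).le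
  refine ⟨f, ⟨hfd, ?_, ?_, ?_⟩, hfne, ?_⟩
  · exact hurwitz_inj hU hc (fun n => (hF (φ n)).diff) hlim (fun n => (hF (φ n)).inj) hnc
  · intro z hz
    rw [mem_ball_zero_iff]
    by_contra hlt
    have h1 : ‖f z‖ = 1 := le_antisymm (hle z hz) (not_lt.1 hlt)
    apply hnc
    refine ⟨f z, ?_⟩
    have hm : IsMaxOn (norm ∘ f) U z := by
      intro w hw
      simp only [mem_ofPred_eq, Function.comp]
      rw [h1]
      exact hle w hw
    intro w hw
    exact Complex.eqOn_of_isPreconnected_of_isMaxOn_norm hc hU hfd hz hm hw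
  · have h1 := hpt a ha
    have h2 : (fun n => F (φ n) a) = fun _ => 0 := by
      funext n
      exact (hF (φ n)).zero
    rw [h2] at h1
    exact tendsto_nhds_unique h1 tendsto_const_nhds |>.trans rfl
  · intro h hh
    exact (le_csSup hBdd ⟨h, hh, rfl⟩).trans hge

end Pool.JS
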