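import Pool.Agent.JS.Defs

/-!
Admissible maps for the Riemann mapping theorem.
-/

open Set Metric Topology

namespace Pool.JS

/-- injective holomorphic maps of `U` into the unit disc with `f a = 0` -/
structure Adm (U : Set ℂ) (a : ℂ) (f : ℂ → ℂ) : Prop where
  diff : DifferentiableOn ℂ f U
  inj : InjOn f U
  maps : MapsTo f U (ball 0 1)
  zero : f a = 0

/-- a conformal map of the unit disc onto `U` with its inverse -/
structure Conf (U : Set ℂ) (φ ψ : ℂ → ℂ) : Prop where
  diff : DifferentiableOn ℂ φ (ball 0 1)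
  maps : MapsTo φ (ball 0 1) U
  diffinv : DifferentiableOn ℂ ψ U
  mapsinv : MapsTo ψ U (ball 0 1)
  left : ∀ z ∈ ball (0 : ℂ) 1, ψ (φ z) = z
  right : ∀ z ∈ U, φ (ψ z) = z

end Pool.JS
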