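import Pool.Agent.JS.SpA
import Pool.Agent.JS.SpC
import Pool.Agent.JS.SpD
import Pool.Agent.JS.Arc

/-!
MODULE SpE (difficulty 3).  Arcs and simple closed curves in the two-sphere: preimages under charts, arcs do not separate.
-/

open Set Metric Topology

namespace Pool.JS

variable {X : Type*} [TopologicalSpace X] [CompactSpace X] [T2Space X] {A B F J : Set X} {p q r a b : X}

private theorem spe_compl_conn (z : ℂ) : IsPreconnected ({z}ᶜ : Set ℂ) := by
  refine (isConnected_compl_singleton_of_one_lt_rank ?_ z).isPreconnected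
  rw [Complex.rank_real_complex]
  exact_mod_cast Nat.one_lt_two

private theorem spe_pair_conn [Sph X] (x y : X) (hxy : y ≠ x) : IsPreconnected ({x, y}ᶜ : Set X) := by
  obtain ⟨σ, hσ⟩ := exists_chart x
  obtain ⟨z, rfl⟩ := hσ.exists_eq hxy
  have : ({x, σ z}ᶜ : Set X) = σ '' {z}ᶜ := by
    ext w
    constructor
    · intro hw
      have h1 : w ≠ x := fun h => hw (by simp [h])
      obtain ⟨u, rfl⟩ := hσ.exists_eq h1
      refine ⟨u, ?_, rfl⟩
      intro hu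
      rw [mem_singleton_iff] at hu
      exact hw (by simp [hu])
    · rintro ⟨u, hu, rfl⟩ hw
      rcases hw with hw | hw
      · exact hσ.ne u hw
      · rw [mem_singleton_iff] at hw
        exact hu (hσ.inj hw)
  rw [this]
  exact (spe_compl_conn z).image σ hσ.cont.continuousOn

private theorem spe_one_conn [Sph X] (x : X) : IsPreconnected ({x}ᶜ : Set X) := by
  obtain ⟨σ, hσ⟩ := exists_chart x
  rw [← hσ.range]
  exact isPreconnected_range hσ.cont

theorem JorX.ne_univ [Sph X] (hJ : JorX J) : ∃ x, x ∉ J := by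
  by_contra hcon
  push Not at hcon
  obtain ⟨γ, hc, hi, him⟩ := hJ
  have hsurj : ∀ x : X, ∃ z ∈ sphere (0 : ℂ) 1, γ z = x := by
    intro x
    have := hcon x
    rw [← him] at this
    exact this
  have hcomp : IsCompact (sphere (0 : ℂ) 1) := isCompact_sphere 0 1
  have h1 : (1 : ℂ) ∈ sphere (0 : ℂ) 1 := by simp
  have h2 : (-1 : ℂ) ∈ sphere (0 : ℂ) 1 := by simp
  have hI : Complex.I ∈ sphere (0 : ℂ) 1 := by simp
  have hI' : -Complex.I ∈ sphere (0 : ℂ) 1 := by simp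
  have hne : γ (-1) ≠ γ 1 := by
    intro h
    have := hi h2 h1 h
    norm_num [Complex.ext_iff] at this
  have hconn := spe_pair_conn (γ 1) (γ (-1)) hne
  set P : Set X := γ '' {z | z ∈ sphere (0 : ℂ) 1 ∧ 0 < z.im} with hP
  set N : Set X := γ '' {z | z ∈ sphere (0 : ℂ) 1 ∧ z.im < 0} with hN
  have hclosed1 : IsClosed (γ '' {z | z ∈ sphere (0 : ℂ) 1 ∧ z.im ≤ 0}) := by
    have hk : IsCompact {z | z ∈ sphere (0 : ℂ) 1 ∧ z.im ≤ 0} :=
      hcomp.inter_right (isClosed_le Complex.continuous_im continuous_const)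
    exact (hk.image_of_continuousOn (hc.mono fun z hz => hz.1)).isClosed
  have hclosed2 : IsClosed (γ '' {z | z ∈ sphere (0 : ℂ) 1 ∧ 0 ≤ z.im}) := by
    have hk : IsCompact {z | z ∈ sphere (0 : ℂ) 1 ∧ 0 ≤ z.im} :=
      hcomp.inter_right (isClosed_le continuous_const Complex.continuous_im)
    exact (hk.image_of_continuousOn (hc.mono fun z hz => hz.1)).isClosed
  have hPo : IsOpen P := by
    have : P = (γ '' {z | z ∈ sphere (0 : ℂ) 1 ∧ z.im ≤ 0})ᶜ := by
      ext x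
      constructor
      · rintro ⟨z, ⟨hz, hz0⟩, rfl⟩ ⟨w, ⟨hw, hw0⟩, hwz⟩
        have := hi hw hz hwz
        subst this
        linarith
      · intro hx
        obtain ⟨z, hz, rfl⟩ := hsurj x
        refine ⟨z, ⟨hz, ?_⟩, rfl⟩
        by_contra h0
        exact hx ⟨z, ⟨hz, not_lt.mp h0⟩, rfl⟩
    rw [this]
    exact hclosed1.isOpen_compl
  have hNo : IsOpen N := by
    have : N = (γ '' {z | z ∈ sphere (0 : ℂ) 1 ∧ 0 ≤ z.im})ᶜ := by
      ext x
      constructor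
      · rintro ⟨z, ⟨hz, hz0⟩, rfl⟩ ⟨w, ⟨hw, hw0⟩, hwz⟩
        have := hi hw hz hwz
        subst this
        linarith
      · intro hx
        obtain ⟨z, hz, rfl⟩ := hsurj x
        refine ⟨z, ⟨hz, ?_⟩, rfl⟩
        by_contra h0
        exact hx ⟨z, ⟨hz, not_lt.mp h0⟩, rfl⟩
    rw [this]
    exact hclosed2.isOpen_compl
  have hcov : ({γ 1, γ (-1)}ᶜ : Set X) ⊆ P ∪ N := by
    intro x hx
    obtain ⟨z, hz, rfl⟩ := hsurj x
    rcases lt_trichotomy z.im 0 with h0 | h0 | h0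
    · exact Or.inr ⟨z, ⟨hz, h0⟩, rfl⟩
    · exfalso
      have hn : ‖z‖ = 1 := by simpa using hz
      have hsq : z.re * z.re + z.im * z.im = 1 := by
        have := Complex.normSq_eq_norm_sq z
        rw [hn, Complex.normSq_apply] at this
        simpa using this
      rw [h0] at hsq
      have hre : z.re = 1 ∨ z.re = -1 := by
        have : (z.re - 1) * (z.re + 1) = 0 := by nlinarith
        rcases mul_eq_zero.mp this with h | h
        · left; linarith
        · right; linarith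
      rcases hre with h | h
      · apply hx
        left
        congr 1
        apply Complex.ext <;> simp [h, h0]
      · apply hx
        right
        rw [mem_singleton_iff]
        congr 1
        apply Complex.ext <;> simp [h, h0]
    · exact Or.inl ⟨z, ⟨hz, h0⟩, rfl⟩
  have hPI : γ Complex.I ∈ P := ⟨Complex.I, ⟨hI, by simp⟩, rfl⟩
  have hNI : γ (-Complex.I) ∈ N := ⟨-Complex.I, ⟨hI', by simp⟩, rfl⟩
  have hmem : ∀ w ∈ sphere (0 : ℂ) 1, w.im ≠ 0 → γ w ∈ ({γ 1, γ (-1)}ᶜ : Set X) := by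
    intro w hw h0 h
    rcases h with h | h
    · have := hi hw h1 h
      subst this
      simp at h0
    · rw [mem_singleton_iff] at h
      have := hi hw h2 h
      subst this
      simp at h0
  obtain ⟨x, hx, hxP, hxN⟩ := hconn P N hPo hNo hcov ⟨_, hmem _ hI (by simp), hPI⟩ ⟨_, hmem _ hI' (by simp), hNI⟩
  obtain ⟨z, ⟨hz, hz0⟩, rfl⟩ := hxP
  obtain ⟨w, ⟨hw, hw0⟩, hwz⟩ := hxN
  have := hi hw hz hwz
  subst this
  linarith

theorem ArcX.ne_univ [Sph X] (hA : ArcX A p q) : ∃ x, x ∉ A := by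
  by_contra hcon
  push Not at hcon
  obtain ⟨γ, hc, hi, him, h0, h1⟩ := hA
  have hsurj : ∀ x : X, ∃ t ∈ Icc (0 : ℝ) 1, γ t = x := by
    intro x
    have := hcon x
    rw [← him] at this
    exact this
  have hm : (1 / 2 : ℝ) ∈ Icc (0 : ℝ) 1 := by constructor <;> norm_num
  have hconn := spe_one_conn (γ (1 / 2))
  set P : Set X := γ '' {t | t ∈ Icc (0 : ℝ) 1 ∧ t < 1 / 2} with hP
  set N : Set X := γ '' {t | t ∈ Icc (0 : ℝ) 1 ∧ 1 / 2 < t} with hN
  have hclosed1 : IsClosed (γ '' {t | t ∈ Icc (0 : ℝ) 1 ∧ 1 / 2 ≤ t}) := by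
    have hk : IsCompact {t | t ∈ Icc (0 : ℝ) 1 ∧ 1 / 2 ≤ t} :=
      isCompact_Icc.inter_right (isClosed_le continuous_const continuous_id)
    exact (hk.image_of_continuousOn (hc.mono fun z hz => hz.1)).isClosed
  have hclosed2 : IsClosed (γ '' {t | t ∈ Icc (0 : ℝ) 1 ∧ t ≤ 1 / 2}) := by
    have hk : IsCompact {t | t ∈ Icc (0 : ℝ) 1 ∧ t ≤ 1 / 2} :=
      isCompact_Icc.inter_right (isClosed_le continuous_id continuous_const)
    exact (hk.image_of_continuousOn (hc.mono fun z hz => hz.1)).isClosed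
  have hPo : IsOpen P := by
    have : P = (γ '' {t | t ∈ Icc (0 : ℝ) 1 ∧ 1 / 2 ≤ t})ᶜ := by
      ext x
      constructor
      · rintro ⟨z, ⟨hz, hz0⟩, rfl⟩ ⟨w, ⟨hw, hw0⟩, hwz⟩
        have := hi hw hz hwz
        subst this
        linarith
      · intro hx
        obtain ⟨z, hz, rfl⟩ := hsurj x
        refine ⟨z, ⟨hz, ?_⟩, rfl⟩
        by_contra h0
        exact hx ⟨z, ⟨hz, not_lt.mp h0⟩, rfl⟩
    rw [this]
    exact hclosed1.isOpen_compl
  have hNo : IsOpen N := by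
    have : N = (γ '' {t | t ∈ Icc (0 : ℝ) 1 ∧ t ≤ 1 / 2})ᶜ := by
      ext x
      constructor
      · rintro ⟨z, ⟨hz, hz0⟩, rfl⟩ ⟨w, ⟨hw, hw0⟩, hwz⟩
        have := hi hw hz hwz
        subst this
        linarith
      · intro hx
        obtain ⟨z, hz, rfl⟩ := hsurj x
        refine ⟨z, ⟨hz, ?_⟩, rfl⟩
        by_contra h0
        exact hx ⟨z, ⟨hz, not_lt.mp h0⟩, rfl⟩
    rw [this]
    exact hclosed2.isOpen_compl
  have hcov : ({γ (1 / 2)}ᶜ : Set X) ⊆ P ∪ N := by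
    intro x hx
    obtain ⟨z, hz, rfl⟩ := hsurj x
    rcases lt_trichotomy z (1 / 2) with h0 | h0 | h0
    · exact Or.inl ⟨z, ⟨hz, h0⟩, rfl⟩
    · exfalso
      subst h0
      exact hx rfl
    · exact Or.inr ⟨z, ⟨hz, h0⟩, rfl⟩
  have hz0 : (0 : ℝ) ∈ Icc (0 : ℝ) 1 := by constructor <;> norm_num
  have hz1 : (1 : ℝ) ∈ Icc (0 : ℝ) 1 := by constructor <;> norm_num
  have hmem : ∀ w ∈ Icc (0 : ℝ) 1, w ≠ 1 / 2 → γ w ∈ ({γ (1 / 2)}ᶜ : Set X) := by
    intro w hw h0 h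
    rw [mem_singleton_iff] at h
    exact h0 (hi hw hm h)
  obtain ⟨x, hx, hxP, hxN⟩ := hconn P N hPo hNo hcov ⟨_, hmem _ hz0 (by norm_num), ⟨0, ⟨hz0, by norm_num⟩, rfl⟩⟩
    ⟨_, hmem _ hz1 (by norm_num), ⟨1, ⟨hz1, by norm_num⟩, rfl⟩⟩
  obtain ⟨z, ⟨hz, hz0⟩, rfl⟩ := hxP
  obtain ⟨w, ⟨hw, hw0⟩, hwz⟩ := hxN
  have := hi hw hz hwz
  subst this
  linarith

private theorem spe_tau {x : X} {σ : ℂ → X} (h : Chart x σ) : ∃ τ : X → ℂ, (∀ z, τ (σ z) = z) ∧
    ContinuousOn τ ({x} : Set X)ᶜ := by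
  have : Nonempty ℂ := ⟨0⟩
  refine ⟨Function.invFun σ, Function.leftInverse_invFun h.inj, ?_⟩
  rw [← h.range]
  rintro _ ⟨z, rfl⟩
  refine ContinuousAt.continuousWithinAt ?_
  have h1 := h.emb.continuousAt_iff (f := σ) (g := Function.invFun σ) (x := z)
  rw [← h1]
  have : Function.invFun σ ∘ σ = id := funext (Function.leftInverse_invFun h.inj)
  rw [this]
  exact continuousAt_id

private theorem spe_pre {x : X} {σ : ℂ → X} (h : Chart x σ) {τ : X → ℂ} (h1 : ∀ z, τ (σ z) = z) (hx : x ∉ A) :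
    σ ⁻¹' A = τ '' A := by
  ext z
  constructor
  · intro hz
    exact ⟨σ z, hz, h1 z⟩
  · rintro ⟨y, hy, rfl⟩
    have hyx : y ≠ x := fun e => hx (e ▸ hy)
    obtain ⟨w, rfl⟩ := h.exists_eq hyx
    rw [h1]
    exact hy

private theorem spe_inj {x : X} {σ : ℂ → X} (h : Chart x σ) {τ : X → ℂ} (h1 : ∀ z, τ (σ z) = z) (hx : x ∉ A) :
    InjOn τ A := by
  intro y hy y' hy' e
  have hyx : y ≠ x := fun e => hx (e ▸ hy)
  have hyx' : y' ≠ x := fun e => hx (e ▸ hy')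
  obtain ⟨w, rfl⟩ := h.exists_eq hyx
  obtain ⟨w', rfl⟩ := h.exists_eq hyx'
  rw [h1, h1] at e
  rw [e]

theorem Chart.arc {x : X} {σ : ℂ → X} (h : Chart x σ) (hA : ArcX A p q) (hx : x ∉ A) :
    ∃ p' q', σ p' = p ∧ σ q' = q ∧ ArcFrom (σ ⁻¹' A) p' q' := by
  obtain ⟨τ, h1, h2⟩ := spe_tau h
  have hpx : p ≠ x := fun e => hx (e ▸ hA.left_mem)
  have hqx : q ≠ x := fun e => hx (e ▸ hA.right_mem)
  obtain ⟨p', rfl⟩ := h.exists_eq hpx
  obtain ⟨q', rfl⟩ := h.exists_eq hqx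
  refine ⟨p', q', rfl, rfl, ?_⟩
  have h3 := hA.image (f := τ) (h2.mono fun y hy e => hx (by rw [mem_singleton_iff] at e; exact e ▸ hy)) (spe_inj h h1 hx)
  rw [h1, h1, ← spe_pre h h1 hx] at h3
  exact h3

theorem Chart.jordan {x : X} {σ : ℂ → X} (h : Chart x σ) (hJ : JorX J) (hx : x ∉ J) : IsJordan (σ ⁻¹' J) := by
  obtain ⟨τ, h1, h2⟩ := spe_tau h
  have h3 := hJ.image (f := τ) (h2.mono fun y hy e => hx (by rw [mem_singleton_iff] at e; exact e ▸ hy)) (spe_inj h h1 hx)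
  rw [← spe_pre h h1 hx] at h3
  exact h3

theorem ArcX.con [Sph X] (h : ArcX A p q) (ha : a ∉ A) (hb : b ∉ A) : ConX A a b := by
  by_cases hab : a = b
  · subst hab
    exact ⟨{a}, isPreconnected_singleton, fun y hy hyA => ha (by rw [mem_singleton_iff] at hy; exact hy ▸ hyA), rfl, rfl⟩
  · obtain ⟨σ, hσ⟩ := exists_chart b
    obtain ⟨a', rfl⟩ := hσ.exists_eq hab
    rw [hσ.esc_iff h.isCompact.isClosed hb ha]
    obtain ⟨p', q', -, -, h'⟩ := hσ.arc h hb
    exact h'.esc ha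

end Pool.JS
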