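import Pool.Agent.JS.ThA
import Pool.Agent.JS.SpC
import Pool.Agent.JS.SpD
import Pool.Agent.JS.SpF

/-!
MODULE ThB (difficulty 3).  The theta curve theorem.

RECIPE.  `L ⊆ U ∪ {p, q}`, `U ∩ J = ∅`, so `A ∩ L = {p, q} = B ∩ L` and `A ∪ L`, `B ∪ L` are simple closed curves (`JorX.glue`), with sides by `JorX.jct`.
The set `Y = V ∪ (B \ {p, q})` is connected (`SepX.union_conn` for `h.symm`) and disjoint from `A ∪ L` (`V ∩ J = ∅`, `V ∩ U = ∅`, `A ∩ B = {p, q}`), so it is contained in one side of `A ∪ L` (`SepX.sub_or`), call it `V₁` and the other one `U₁` (exchange with `SepX.symm` if necessary).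
Then `U₁` is disjoint from `A ∪ L`, from `V` and from `B \ {p, q}`, so from `J` and `V`: `U₁ ⊆ U \ L`.  In the same way `U₂`, `V₂` for `B ∪ L`.
Disjoint: if `U₁ ∩ U₂` is nonempty then `U₂ ⊆ U₁` (`SepX.sub_left`, `U₂ ⊆ U \ L` is disjoint from `A ∪ L`) and `U₁ ⊆ U₂`, so `U₁ = U₂` and their frontiers `A ∪ L`, `B ∪ L` agree; a point of `B \ {p, q}` (`ArcX.exists_mid`) is not in `A ∪ L`: contradiction.
Covering: let `z ∈ U \ L`, `z ∉ U₁`, `z ∉ U₂`.  Then `z ∈ V₁` and `z ∈ V₂`.  Let `y ∈ V` (nonempty), `y ∈ V₁ ∩ V₂`.  `ConX (A ∪ L) z y` (the set `V₁`), `ConX (B ∪ L) z y`, and `(A ∪ L) ∩ (B ∪ L) = L` is connected, so `janiszewskiX` gives a preconnected set containing `z` and `y`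
and disjoint from `(A ∪ L) ∪ (B ∪ L) ⊇ J`: contradiction with `SepX.sub_left` (`z ∈ U`, `y ∈ V`).
-/

open Set Metric Topology

namespace Pool.JS

variable {X : Type*} [TopologicalSpace X] [CompactSpace X] [T2Space X] [Sph X] {J A B L U V : Set X} {p q : X}

theorem thb_half (h : SepX J U V) (hA : ArcX A p q) (hB : ArcX B p q) (hAB : A ∩ B = {p, q}) (hJ : A ∪ B = J)
    (hL : ArcX L p q) (hLU : L \ {p, q} ⊆ U) :
    ∃ U₁ V₁ : Set X, SepX (A ∪ L) U₁ V₁ ∧ V ∪ (B \ {p, q}) ⊆ V₁ ∧ U₁ ⊆ U \ L := by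
  have hUJ : ∀ x, x ∈ U → x ∉ J := fun x hx => by
    have : x ∈ Jᶜ := by rw [← h.union]; exact Or.inl hx
    exact this
  have hVJ : ∀ x, x ∈ V → x ∉ J := fun x hx => by
    have : x ∈ Jᶜ := by rw [← h.union]; exact Or.inr hx
    exact this
  have hAJ : A ⊆ J := by rw [← hJ]; exact subset_union_left
  have hBJ : B ⊆ J := by rw [← hJ]; exact subset_union_right
  have hLd : ∀ x, x ∈ L → x ∉ ({p, q} : Set X) → x ∈ U := fun x hx hn => hLU ⟨hx, hn⟩
  have hpqA : ({p, q} : Set X) ⊆ A := by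
    intro x hx
    rcases hx with rfl | hx
    · exact hA.left_mem
    · rw [mem_singleton_iff.1 hx]; exact hA.right_mem
  have hpqL : ({p, q} : Set X) ⊆ L := by
    intro x hx
    rcases hx with rfl | hx
    · exact hL.left_mem
    · rw [mem_singleton_iff.1 hx]; exact hL.right_mem
  have hAL : A ∩ L = {p, q} := by
    apply Subset.antisymm
    · rintro x ⟨hxA, hxL⟩
      by_contra hn
      exact hUJ x (hLd x hxL hn) (hAJ hxA)
    · intro x hx
      exact ⟨hpqA hx, hpqL hx⟩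
  have hJor : JorX (A ∪ L) := JorX.glue hA hL hAL
  obtain ⟨U₁, V₁, h₁⟩ := hJor.jct
  have hY : IsConnected (V ∪ (B \ {p, q})) := h.symm.union_conn (diff_subset.trans hBJ)
  have hYd : Disjoint (V ∪ (B \ {p, q})) (A ∪ L) := by
    rw [Set.disjoint_left]
    rintro x (hx | ⟨hxB, hxn⟩) (hxA | hxL)
    · exact hVJ x hx (hAJ hxA)
    · by_cases hn : x ∈ ({p, q} : Set X)
      · exact hVJ x hx (hAJ (hpqA hn))
      · exact Set.disjoint_left.1 h.disj (hLd x hxL hn) hx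
    · exact hxn (by rw [← hAB]; exact ⟨hxA, hxB⟩)
    · exact hUJ x (hLd x hxL hxn) (hBJ hxB)
  have key : ∀ U₁ V₁ : Set X, SepX (A ∪ L) U₁ V₁ → V ∪ (B \ {p, q}) ⊆ V₁ → U₁ ⊆ U \ L := by
    intro U₁ V₁ h₁ hs x hx
    have hxAL : x ∈ (A ∪ L)ᶜ := by rw [← h₁.union]; exact Or.inl hx
    have hxV₁ : x ∉ V₁ := Set.disjoint_left.1 h₁.disj hx
    have hxV : x ∉ V := fun hv => hxV₁ (hs (Or.inl hv))
    have hxB : x ∉ B := by
      intro hb
      by_cases hn : x ∈ ({p, q} : Set X)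
      · exact hxAL (Or.inl (hpqA hn))
      · exact hxV₁ (hs (Or.inr ⟨hb, hn⟩))
    have hxJ : x ∈ Jᶜ := by
      intro hj
      rw [← hJ] at hj
      rcases hj with hj | hj
      · exact hxAL (Or.inl hj)
      · exact hxB hj
    rw [← h.union] at hxJ
    rcases hxJ with hu | hv
    · exact ⟨hu, fun hl => hxAL (Or.inr hl)⟩
    · exact absurd hv hxV
  rcases h₁.sub_or hY.isPreconnected hYd with hs | hs
  · exact ⟨V₁, U₁, h₁.symm, hs, key V₁ U₁ h₁.symm hs⟩
  · exact ⟨U₁, V₁, h₁, hs, key U₁ V₁ h₁ hs⟩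

theorem theta (h : SepX J U V) (hA : ArcX A p q) (hB : ArcX B p q) (hAB : A ∩ B = {p, q}) (hJ : A ∪ B = J)
    (hL : ArcX L p q) (hLU : L \ {p, q} ⊆ U) :
    ∃ U₁ V₁ U₂ V₂ : Set X, SepX (A ∪ L) U₁ V₁ ∧ SepX (B ∪ L) U₂ V₂ ∧ Disjoint U₁ U₂ ∧ U₁ ∪ U₂ = U \ L ∧
      V ∪ (B \ {p, q}) ⊆ V₁ ∧ V ∪ (A \ {p, q}) ⊆ V₂ := by
  obtain ⟨U₁, V₁, h₁, hs₁, hu₁⟩ := thb_half h hA hB hAB hJ hL hLU
  obtain ⟨U₂, V₂, h₂, hs₂, hu₂⟩ := thb_half h hB hA (by rw [inter_comm]; exact hAB)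
    (by rw [union_comm]; exact hJ) hL hLU
  have hUJ : ∀ x, x ∈ U → x ∉ J := fun x hx => by
    have : x ∈ Jᶜ := by rw [← h.union]; exact Or.inl hx
    exact this
  have hAJ : A ⊆ J := by rw [← hJ]; exact subset_union_left
  have hBJ : B ⊆ J := by rw [← hJ]; exact subset_union_right
  have hpqL : ({p, q} : Set X) ⊆ L := by
    intro x hx
    rcases hx with rfl | hx
    · exact hL.left_mem
    · rw [mem_singleton_iff.1 hx]; exact hL.right_mem
  refine ⟨U₁, V₁, U₂, V₂, h₁, h₂, ?_, ?_, hs₁, hs₂⟩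
  · rw [Set.disjoint_left]
    intro z hz₁ hz₂
    have e21 : U₂ ⊆ U₁ := by
      refine h₁.sub_left h₂.connU.isPreconnected ?_ ⟨z, hz₂, hz₁⟩
      rw [Set.disjoint_left]
      rintro x hx (hxA | hxL)
      · exact hUJ x (hu₂ hx).1 (hAJ hxA)
      · exact (hu₂ hx).2 hxL
    have e12 : U₁ ⊆ U₂ := by
      refine h₂.sub_left h₁.connU.isPreconnected ?_ ⟨z, hz₁, hz₂⟩
      rw [Set.disjoint_left]
      rintro x hx (hxA | hxL)
      · exact hUJ x (hu₁ hx).1 (hBJ hxA)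
      · exact (hu₁ hx).2 hxL
    have e : U₁ = U₂ := Subset.antisymm e12 e21
    have ef : A ∪ L = B ∪ L := by rw [← h₁.frU, ← h₂.frU, e]
    obtain ⟨m, hmB, hmp, hmq⟩ := hB.exists_mid
    have hmn : m ∉ ({p, q} : Set X) := by
      rintro (hh | hh)
      · exact hmp hh
      · exact hmq hh
    have hm : m ∈ A ∪ L := by rw [ef]; exact Or.inl hmB
    rcases hm with hm | hm
    · exact hmn (by rw [← hAB]; exact ⟨hm, hmB⟩)
    · exact hUJ m (hLU ⟨hm, hmn⟩) (hBJ hmB)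
  · apply Subset.antisymm
    · rintro x (hx | hx)
      · exact hu₁ hx
      · exact hu₂ hx
    · rintro z ⟨hzU, hzL⟩
      by_contra hn
      have hn₁ : z ∉ U₁ := fun hh => hn (Or.inl hh)
      have hn₂ : z ∉ U₂ := fun hh => hn (Or.inr hh)
      have hzJ := hUJ z hzU
      have hzAL : z ∉ A ∪ L := by
        rintro (hh | hh)
        · exact hzJ (hAJ hh)
        · exact hzL hh
      have hzBL : z ∉ B ∪ L := by
        rintro (hh | hh)
        · exact hzJ (hBJ hh)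
        · exact hzL hh
      have hzV₁ : z ∈ V₁ := by
        have : z ∈ (A ∪ L)ᶜ := hzAL
        rw [← h₁.union] at this
        exact this.resolve_left hn₁
      have hzV₂ : z ∈ V₂ := by
        have : z ∈ (B ∪ L)ᶜ := hzBL
        rw [← h₂.union] at this
        exact this.resolve_left hn₂
      obtain ⟨y, hy⟩ := h.connV.nonempty
      have hyV₁ : y ∈ V₁ := hs₁ (Or.inl hy)
      have hyV₂ : y ∈ V₂ := hs₂ (Or.inl hy)
      have hV₁c : V₁ ⊆ (A ∪ L)ᶜ := by rw [← h₁.union]; exact subset_union_right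
      have hV₂c : V₂ ⊆ (B ∪ L)ᶜ := by rw [← h₂.union]; exact subset_union_right
      have c₁ : ConX (A ∪ L) z y := ⟨V₁, h₁.connV.isPreconnected, hV₁c, hzV₁, hyV₁⟩
      have c₂ : ConX (B ∪ L) z y := ⟨V₂, h₂.connV.isPreconnected, hV₂c, hzV₂, hyV₂⟩
      have hi : (A ∪ L) ∩ (B ∪ L) = L := by
        apply Subset.antisymm
        · rintro x ⟨hx | hx, hx' | hx'⟩
          · exact hpqL (by rw [← hAB]; exact ⟨hx, hx'⟩)
          · exact hx'
          · exact hx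
          · exact hx
        · intro x hx
          exact ⟨Or.inr hx, Or.inr hx⟩
      have hc : IsPreconnected ((A ∪ L) ∩ (B ∪ L)) := by
        rw [hi]; exact hL.isConnected.isPreconnected
      have hzn : z ∉ (A ∪ L) ∪ (B ∪ L) := by
        rintro (hh | hh)
        · exact hzAL hh
        · exact hzBL hh
      have hyn : y ∉ (A ∪ L) ∪ (B ∪ L) := by
        rintro (hh | hh)
        · exact hV₁c hyV₁ hh
        · exact hV₂c hyV₂ hh
      obtain ⟨C, hC, hCs, hzC, hyC⟩ := janiszewskiX h₁.isClosed h₂.isClosed hc hzn hyn c₁ c₂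
      have hCJ : Disjoint C J := by
        rw [Set.disjoint_left]
        intro x hx hxJ
        rw [← hJ] at hxJ
        rcases hxJ with hh | hh
        · exact hCs hx (Or.inl (Or.inl hh))
        · exact hCs hx (Or.inr (Or.inl hh))
      have hCU : C ⊆ U := h.sub_left hC hCJ ⟨z, hzC, hzU⟩
      exact Set.disjoint_left.1 h.disj (hCU hyC) hy

end Pool.JS
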