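import Pool.Agent.JS.ThE
import Pool.Agent.JS.ThD

/-!
MODULE ThF (difficulty 4).  Deleting a point of a graph without cut points.

RECIPE.  Let `F = {e ∈ E | x ∉ e}`, `P = {w ∈ V | (sgX V F).Reachable u w}`; suppose `v ∉ P`.
For an edge `e ∋ x` and a vertex `a ∈ e ∩ V`, `a ≠ x`, there is a closed set `pc e a ⊆ e` with `a, x ∈ pc e a`, `pc e a ∩ V ⊆ {a, x}`: if `x ∈ V` take `pc e a = e` (`e ∩ V = {a, x}`); if `x ∉ V` cut the arc at `x` (`ArcX.split`) and take the piece from `a` to `x`; in the second case `e ∩ V = {a, b}`,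
`pc e a ∪ pc e b = e` and `pc e a ∩ pc e b = {x}`.
Let `S = P ∪ ⋃ {e ∈ F | e meets P} ∪ ⋃ {pc e a | x ∈ e ∈ E, a ∈ P ∩ e, a ≠ x}` and `T = (V \ P \ {x}) ∪ ⋃ {e ∈ F | e ∩ P = ∅} ∪ ⋃ {pc e a | x ∈ e ∈ E, a ∈ (V ∩ e) \ P, a ≠ x}`: finite unions of closed sets (`V`, `E` finite), so closed.
`carX V E \ {x} ⊆ S ∪ T`.  `S ∩ T ⊆ {x}`: an edge `e ∈ F` which meets `P` has `e ∩ V ⊆ P` (its two ends are adjacent in `sgX V F`; if it meets `P` it is in a vertex); two different edges meet in `V` only; `pc e a ∩ V ⊆ {a, x}`; for the same edge `e ∋ x` and `a ∈ P`, `b ∉ P`: `x ∉ V` and the pieces meet in `x` only.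
As `carX V E \ {x}` is preconnected and contains `u ∈ S` and `v ∈ T`, `isPreconnected_closed_iff` gives a point of `S ∩ T` different from `x`: contradiction.
Simplest formalisation: one lemma `thf_piece` for the pieces; treat the cases `x ∈ V`, `x ∉ V` separately if this is easier (if `x ∉ carX V E` nothing is removed; if `x ∉ V` there is at most one edge containing `x`).
-/

open Set Metric Topology

namespace Pool.JS

variable {X : Type*} [TopologicalSpace X] [T2Space X] {V : Set X} {E : Set (Set X)} {u v x : X}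

/-- the abstract argument: a finite family of pieces, relatively closed in the complement of `x` -/
theorem thf_core {C P : Set X} {Q : Set (Set X)} (hV : V.Finite) (hQ : Q.Finite) (hPV : P ⊆ V)
    (h1 : ∀ p ∈ Q, IsClosed (p ∪ {x})) (h2 : ∀ p ∈ Q, ∀ p' ∈ Q, p ≠ p' → p ∩ p' ⊆ V)
    (h3 : ∀ p ∈ Q, (p ∩ P).Nonempty → p ∩ V ⊆ P) (h4 : C ⊆ V ∪ ⋃₀ Q) (hx : x ∉ C)
    (hC : IsPreconnected C) (hu : u ∈ P) (huC : u ∈ C) (hv : v ∈ V) (hvP : v ∉ P) (hvC : v ∈ C) : False := by
  have hfin1 : ({p ∈ Q | (p ∩ P).Nonempty}).Finite := hQ.subset fun p hp => hp.1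
  have hfin2 : ({p ∈ Q | ¬ (p ∩ P).Nonempty}).Finite := hQ.subset fun p hp => hp.1
  have hS : IsClosed ((P ∪ {x}) ∪ ⋃ p ∈ {p ∈ Q | (p ∩ P).Nonempty}, (p ∪ {x})) :=
    (((hV.subset hPV).union (finite_singleton x)).isClosed).union
      (hfin1.isClosed_biUnion fun p hp => h1 p hp.1)
  have hT : IsClosed (((V \ P) ∪ {x}) ∪ ⋃ p ∈ {p ∈ Q | ¬ (p ∩ P).Nonempty}, (p ∪ {x})) :=
    (((hV.subset sdiff_subset).union (finite_singleton x)).isClosed).union
      (hfin2.isClosed_biUnion fun p hp => h1 p hp.1)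
  have hcov : C ⊆ ((P ∪ {x}) ∪ ⋃ p ∈ {p ∈ Q | (p ∩ P).Nonempty}, (p ∪ {x})) ∪
      (((V \ P) ∪ {x}) ∪ ⋃ p ∈ {p ∈ Q | ¬ (p ∩ P).Nonempty}, (p ∪ {x})) := by
    intro z hz
    rcases h4 hz with hzV | ⟨p, hp, hzp⟩
    · by_cases hzP : z ∈ P
      · exact Or.inl (Or.inl (Or.inl hzP))
      · exact Or.inr (Or.inl (Or.inl ⟨hzV, hzP⟩))
    · by_cases hn : (p ∩ P).Nonempty
      · exact Or.inl (Or.inr (mem_biUnion (show p ∈ {p ∈ Q | (p ∩ P).Nonempty} from ⟨hp, hn⟩) (Or.inl hzp)))
      · exact Or.inr (Or.inr (mem_biUnion (show p ∈ {p ∈ Q | ¬ (p ∩ P).Nonempty} from ⟨hp, hn⟩) (Or.inl hzp)))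
  obtain ⟨z, hzC, hzS, hzT⟩ := isPreconnected_closed_iff.mp hC _ _ hS hT hcov
    ⟨u, huC, Or.inl (Or.inl hu)⟩ ⟨v, hvC, Or.inl (Or.inl ⟨hv, hvP⟩)⟩
  have hzx : z ≠ x := fun e => hx (e ▸ hzC)
  have hzS' : z ∈ P ∨ ∃ p ∈ Q, (p ∩ P).Nonempty ∧ z ∈ p := by
    rcases hzS with (h | h) | h
    · exact Or.inl h
    · exact absurd h hzx
    · rw [mem_iUnion₂] at h
      obtain ⟨p, hp, hz | hz⟩ := h
      · exact Or.inr ⟨p, hp.1, hp.2, hz⟩
      · exact absurd hz hzx
  have hzT' : (z ∈ V ∧ z ∉ P) ∨ ∃ p ∈ Q, ¬ (p ∩ P).Nonempty ∧ z ∈ p := by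
    rcases hzT with (h | h) | h
    · exact Or.inl h
    · exact absurd h hzx
    · rw [mem_iUnion₂] at h
      obtain ⟨p, hp, hz | hz⟩ := h
      · exact Or.inr ⟨p, hp.1, hp.2, hz⟩
      · exact absurd hz hzx
  rcases hzS' with h | ⟨p, hp, hpn, hzp⟩
  · rcases hzT' with ⟨_, h'⟩ | ⟨p', _, hpn', hzp'⟩
    · exact h' h
    · exact hpn' ⟨z, hzp', h⟩
  · rcases hzT' with ⟨hzV, h'⟩ | ⟨p', hp', hpn', hzp'⟩
    · exact h' (h3 p hp hpn ⟨hzp, hzV⟩)
    · have hne : p ≠ p' := by
        rintro rfl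
        exact hpn' hpn
      have hzV : z ∈ V := h2 p hp p' hp' hne ⟨hzp, hzp'⟩
      exact hpn' ⟨z, hzp', h3 p hp hpn ⟨hzp, hzV⟩⟩

/-- the pieces of an edge -/
theorem thf_piece (hG : GrX V E) {e : Set X} (he : e ∈ E) (x : X) :
    ∃ Q : Set (Set X), Q.Finite ∧ (∀ p ∈ Q, p ⊆ e ∧ IsClosed (p ∪ {x}) ∧ ((p ∩ V).Subsingleton ∨ x ∉ e)) ∧
      e \ {x} ⊆ ⋃₀ Q ∧ ∀ p ∈ Q, ∀ p' ∈ Q, p ≠ p' → p ∩ p' = ∅ := by
  obtain ⟨p, hp, q, hq, harc, hpq⟩ := hG.arc e he
  have hecl : IsClosed e := harc.isCompact.isClosed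
  by_cases hxe : x ∈ e
  · have hex : e \ {x} ∪ {x} = e := sdiff_union_of_subset (singleton_subset_iff.mpr hxe)
    by_cases hxV : x ∈ V
    · refine ⟨{e \ {x}}, finite_singleton _, ?_, ?_, ?_⟩
      · rintro _ rfl
        refine ⟨sdiff_subset, by rw [hex]; exact hecl, Or.inl ?_⟩
        have hx' : x ∈ ({p, q} : Set X) := by
          rw [← hpq]
          exact ⟨hxe, hxV⟩
        rintro a ⟨⟨ha, hax⟩, haV⟩ b ⟨⟨hb, hbx⟩, hbV⟩
        have ha' : a ∈ ({p, q} : Set X) := by
          rw [← hpq]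
          exact ⟨ha, haV⟩
        have hb' : b ∈ ({p, q} : Set X) := by
          rw [← hpq]
          exact ⟨hb, hbV⟩
        have hax' : a ≠ x := hax
        have hbx' : b ≠ x := hbx
        rcases hx' with hx' | hx' <;> rcases ha' with ha' | ha' <;> rcases hb' with hb' | hb'
        · exact ha'.trans hb'.symm
        · exact absurd (ha'.trans hx'.symm) hax'
        · exact absurd (hb'.trans hx'.symm) hbx'
        · exact Eq.trans (show a = q from ha') (show b = q from hb').symm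
        · exact ha'.trans hb'.symm
        · exact absurd (Eq.trans (show b = q from hb') (show x = q from hx').symm) hbx'
        · exact absurd (Eq.trans (show a = q from ha') (show x = q from hx').symm) hax'
        · exact Eq.trans (show a = q from ha') (show b = q from hb').symm
      · intro z hz
        exact ⟨_, rfl, hz⟩
      · rintro _ rfl _ rfl h
        exact absurd rfl h
    · have hxp : x ≠ p := fun h => hxV (h ▸ hp)
      have hxq : x ≠ q := fun h => hxV (h ▸ hq)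
      obtain ⟨B, C, hB, hC, hBC, hBC'⟩ := harc.split hxe hxp hxq
      have hBx : B \ {x} ∪ {x} = B := sdiff_union_of_subset (singleton_subset_iff.mpr hB.right_mem)
      have hCx : C \ {x} ∪ {x} = C := sdiff_union_of_subset (singleton_subset_iff.mpr hC.left_mem)
      have hBe : B ⊆ e := by rw [← hBC]; exact subset_union_left
      have hCe : C ⊆ e := by rw [← hBC]; exact subset_union_right
      refine ⟨{B \ {x}, C \ {x}}, (finite_singleton _).insert _, ?_, ?_, ?_⟩
      · rintro r (rfl | hr)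
        · refine ⟨sdiff_subset.trans hBe, by rw [hBx]; exact hB.isCompact.isClosed, Or.inl ?_⟩
          have key : ∀ a, a ∈ B \ {x} ∩ V → a = p := by
            rintro a ⟨⟨ha, hax⟩, haV⟩
            have ha' : a ∈ ({p, q} : Set X) := by
              rw [← hpq]
              exact ⟨hBe ha, haV⟩
            rcases ha' with ha' | ha'
            · exact ha'
            · exfalso
              have ha'' : a = q := ha'
              have : a ∈ B ∩ C := ⟨ha, by rw [ha'']; exact hC.right_mem⟩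
              rw [hBC'] at this
              exact hax this
          intro a ha b hb
          rw [key a ha, key b hb]
        · have hr' : r = C \ {x} := hr
          rw [hr']
          refine ⟨sdiff_subset.trans hCe, by rw [hCx]; exact hC.isCompact.isClosed, Or.inl ?_⟩
          have key : ∀ a, a ∈ C \ {x} ∩ V → a = q := by
            rintro a ⟨⟨ha, hax⟩, haV⟩
            have ha' : a ∈ ({p, q} : Set X) := by
              rw [← hpq]
              exact ⟨hCe ha, haV⟩
            rcases ha' with ha' | ha'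
            · exfalso
              have : a ∈ B ∩ C := ⟨by rw [ha']; exact hB.left_mem, ha⟩
              rw [hBC'] at this
              exact hax this
            · exact ha'
          intro a ha b hb
          rw [key a ha, key b hb]
      · rintro z ⟨hz, hzx⟩
        rw [← hBC] at hz
        rcases hz with hz | hz
        · exact ⟨_, Or.inl rfl, hz, hzx⟩
        · exact ⟨_, Or.inr rfl, hz, hzx⟩
      · have hd : ∀ a, a ∈ B \ {x} → a ∈ C \ {x} → False := by
          rintro a ⟨ha, hax⟩ ⟨ha', _⟩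
          have : a ∈ B ∩ C := ⟨ha, ha'⟩
          rw [hBC'] at this
          exact hax this
        rintro r hr r' hr' hne
        rw [eq_empty_iff_forall_notMem]
        rintro a ⟨ha, ha'⟩
        rcases hr with hr | hr <;> rcases hr' with hr' | hr'
        · exact hne (hr.trans hr'.symm)
        · have hr'' : r' = C \ {x} := hr'
          rw [hr] at ha
          rw [hr''] at ha'
          exact hd a ha ha'
        · have hr'' : r = C \ {x} := hr
          rw [hr''] at ha
          rw [hr'] at ha'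
          exact hd a ha' ha
        · have hr1 : r = C \ {x} := hr
          have hr2 : r' = C \ {x} := hr'
          exact hne (hr1.trans hr2.symm)
  · refine ⟨{e}, finite_singleton _, ?_, ?_, ?_⟩
    · rintro _ rfl
      exact ⟨Subset.rfl, hecl.union isClosed_singleton, Or.inr hxe⟩
    · intro z hz
      exact ⟨_, rfl, hz.1⟩
    · rintro _ rfl _ rfl h
      exact absurd rfl h

theorem GrX.reachable (hG : GrX V E) (h2 : TwoConnX V E) (hu : u ∈ V) (hv : v ∈ V) (hux : u ≠ x) (hvx : v ≠ x) :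
    (sgX V {e ∈ E | x ∉ e}).Reachable u v := by
  by_contra hcon
  have hex : ∀ e : Set X, ∃ Q : Set (Set X), e ∈ E → (Q.Finite ∧
      (∀ p ∈ Q, p ⊆ e ∧ IsClosed (p ∪ {x}) ∧ ((p ∩ V).Subsingleton ∨ x ∉ e)) ∧
      e \ {x} ⊆ ⋃₀ Q ∧ ∀ p ∈ Q, ∀ p' ∈ Q, p ≠ p' → p ∩ p' = ∅) := by
    intro e
    by_cases he : e ∈ E
    · obtain ⟨Q, hQ⟩ := thf_piece hG he x
      exact ⟨Q, fun _ => hQ⟩
    · exact ⟨∅, fun h => absurd h he⟩
  choose Q hQ using hex
  have hmem : ∀ {p : Set X}, p ∈ (⋃ e ∈ E, Q e) → ∃ e ∈ E, p ∈ Q e := by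
    intro p hp
    rw [mem_iUnion₂] at hp
    obtain ⟨e, he, hp⟩ := hp
    exact ⟨e, he, hp⟩
  refine thf_core (x := x) (u := u) (v := v) (V := V) (C := carX V E \ {x})
    (P := {w ∈ V | (sgX V {e ∈ E | x ∉ e}).Reachable u w}) (Q := ⋃ e ∈ E, Q e) hG.finV
    (hG.finE.biUnion fun e he => (hQ e he).1) (fun w hw => hw.1) ?_ ?_ ?_ ?_ ?_ (h2.2 x)
    ⟨hu, SimpleGraph.Reachable.refl u⟩ ⟨Or.inl hu, hux⟩ hv (fun h => hcon h.2) ⟨Or.inl hv, hvx⟩
  · intro p hp
    obtain ⟨e, he, hp⟩ := hmem hp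
    exact ((hQ e he).2.1 p hp).2.1
  · intro p hp p' hp' hne
    obtain ⟨e, he, hp⟩ := hmem hp
    obtain ⟨e', he', hp'⟩ := hmem hp'
    by_cases hee : e = e'
    · subst hee
      rw [(hQ e he).2.2.2 p hp p' hp' hne]
      exact empty_subset _
    · exact (inter_subset_inter ((hQ e he).2.1 p hp).1 ((hQ e' he').2.1 p' hp').1).trans
        (hG.inter e he e' he' hee)
  · rintro p hp ⟨a, ha, haV, haR⟩ b ⟨hb, hbV⟩
    obtain ⟨e, he, hp⟩ := hmem hp
    obtain ⟨hpe, _, hsub⟩ := (hQ e he).2.1 p hp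
    refine ⟨hbV, ?_⟩
    rcases hsub with hsub | hxe
    · rw [hsub ⟨hb, hbV⟩ ⟨ha, haV⟩]
      exact haR
    · by_cases hab : a = b
      · rw [← hab]
        exact haR
      · obtain ⟨r, hr, q, hq, harc, hpq⟩ := hG.arc e he
        have ha' : a ∈ ({r, q} : Set X) := by
          rw [← hpq]
          exact ⟨hpe ha, haV⟩
        have hb' : b ∈ ({r, q} : Set X) := by
          rw [← hpq]
          exact ⟨hpe hb, hbV⟩
        have hadj : (sgX V {e ∈ E | x ∉ e}).Adj a b := by
          refine ⟨hab, haV, hbV, e, ⟨he, hxe⟩, ?_⟩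
          rcases ha' with ha' | ha' <;> rcases hb' with hb' | hb'
          · exact absurd (ha'.trans hb'.symm) hab
          · left
            have hb'' : b = q := hb'
            rw [ha', hb'']
            exact harc
          · right
            have ha'' : a = q := ha'
            rw [ha'', hb']
            exact harc
          · have ha'' : a = q := ha'
            have hb'' : b = q := hb'
            exact absurd (ha''.trans hb''.symm) hab
        exact haR.trans hadj.reachable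
  · rintro z ⟨hz | ⟨e, he, hz⟩, hzx⟩
    · exact Or.inl hz
    · right
      obtain ⟨p, hp, hzp⟩ := (hQ e he).2.2.1 ⟨hz, hzx⟩
      exact ⟨p, mem_biUnion he hp, hzp⟩
  · rintro ⟨_, h⟩
    exact h rfl

end Pool.JS
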